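import Pool.Agent.Lib.MP_30fd2d_al.Mg.G001

section

set_option autoImplicit false

/-! T13. Probability of bad data, noncommutative case. -/

namespace Pool.Agent.PLen

open scoped BigOperators

section Pairing

variable {G : Type} [Group G] {A : Type*} [CommGroup A] {M M' C : Subgroup G}

theorem badNA_brf_eq (ζ : M' →* A) {x y : G} (h : x * y * x⁻¹ * y⁻¹ ∈ M') :
    brf ζ x y = ζ ⟨x * y * x⁻¹ * y⁻¹, h⟩ := by
  unfold brf
  rw [dif_pos h]

theorem badNA_conj (_hn : M'.Normal) (hC : C ≤ M')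
    (hcen : ∀ z ∈ M', ∀ x ∈ M, z * x * z⁻¹ * x⁻¹ ∈ C) (ζ : M' →* A)
    (hζ : ∀ x : M', (x : G) ∈ C → ζ x = 1) {y : G} (hy : y ∈ M) {z : G} (hz : z ∈ M')
    (hz' : y * z * y⁻¹ ∈ M') : ζ ⟨y * z * y⁻¹, hz'⟩ = ζ ⟨z, hz⟩ := by
  have h1 : z⁻¹ * y * z * y⁻¹ ∈ C := by
    have := hcen z⁻¹ (inv_mem hz) y hy
    rwa [inv_inv] at this
  have h2 : (⟨y * z * y⁻¹, hz'⟩ : M') = ⟨z, hz⟩ * ⟨z⁻¹ * y * z * y⁻¹, hC h1⟩ := by
    apply Subtype.ext
    show y * z * y⁻¹ = z * (z⁻¹ * y * z * y⁻¹)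
    group
  rw [h2, map_mul, hζ ⟨z⁻¹ * y * z * y⁻¹, hC h1⟩ h1, mul_one]

theorem badNA_brf_mul_right (hn : M'.Normal) (hC : C ≤ M')
    (hab : ∀ x ∈ M, ∀ y ∈ M, x * y * x⁻¹ * y⁻¹ ∈ M')
    (hcen : ∀ z ∈ M', ∀ x ∈ M, z * x * z⁻¹ * x⁻¹ ∈ C) (ζ : M' →* A)
    (hζ : ∀ x : M', (x : G) ∈ C → ζ x = 1) {x y y' : G} (hx : x ∈ M) (hy : y ∈ M)
    (hy' : y' ∈ M) : brf ζ x (y * y') = brf ζ x y * brf ζ x y' := by
  rw [badNA_brf_eq ζ (hab x hx (y * y') (mul_mem hy hy')), badNA_brf_eq ζ (hab x hx y hy),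
    badNA_brf_eq ζ (hab x hx y' hy')]
  have h1 : y * (x * y' * x⁻¹ * y'⁻¹) * y⁻¹ ∈ M' := hn.conj_mem _ (hab x hx y' hy') y
  rw [← badNA_conj hn hC hcen ζ hζ hy (hab x hx y' hy') h1, ← map_mul]
  congr 1
  apply Subtype.ext
  show x * (y * y') * x⁻¹ * (y * y')⁻¹ =
    (x * y * x⁻¹ * y⁻¹) * (y * (x * y' * x⁻¹ * y'⁻¹) * y⁻¹)
  group

theorem badNA_brf_mul_left (hn : M'.Normal) (hC : C ≤ M')
    (hab : ∀ x ∈ M, ∀ y ∈ M, x * y * x⁻¹ * y⁻¹ ∈ M')
    (hcen : ∀ z ∈ M', ∀ x ∈ M, z * x * z⁻¹ * x⁻¹ ∈ C) (ζ : M' →* A)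
    (hζ : ∀ x : M', (x : G) ∈ C → ζ x = 1) {x x' y : G} (hx : x ∈ M) (hx' : x' ∈ M)
    (hy : y ∈ M) : brf ζ (x * x') y = brf ζ x y * brf ζ x' y := by
  rw [badNA_brf_eq ζ (hab (x * x') (mul_mem hx hx') y hy), badNA_brf_eq ζ (hab x hx y hy),
    badNA_brf_eq ζ (hab x' hx' y hy)]
  have h1 : x * (x' * y * x'⁻¹ * y⁻¹) * x⁻¹ ∈ M' := hn.conj_mem _ (hab x' hx' y hy) x
  rw [← badNA_conj hn hC hcen ζ hζ hx (hab x' hx' y hy) h1, mul_comm, ← map_mul]
  congr 1
  apply Subtype.ext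
  show x * x' * y * (x * x')⁻¹ * y⁻¹ =
    (x * (x' * y * x'⁻¹ * y⁻¹) * x⁻¹) * (x * y * x⁻¹ * y⁻¹)
  group

/-- The characters `y ↦ ζ([x, y])`, as a homomorphism in `x`. -/
noncomputable def badNA_hom (M M' C : Subgroup G) (hn : M'.Normal) (hC : C ≤ M')
    (hab : ∀ x ∈ M, ∀ y ∈ M, x * y * x⁻¹ * y⁻¹ ∈ M')
    (hcen : ∀ z ∈ M', ∀ x ∈ M, z * x * z⁻¹ * x⁻¹ ∈ C) (ζ : M' →* A)
    (hζ : ∀ x : M', (x : G) ∈ C → ζ x = 1) : M →* (M →* A) where
  toFun x :=
    { toFun := fun y => brf ζ (x : G) (y : G)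
      map_one' := by
        have h1 : (x : G) * ((1 : M) : G) * (x : G)⁻¹ * ((1 : M) : G)⁻¹ = 1 := by simp
        have h2 : (x : G) * ((1 : M) : G) * (x : G)⁻¹ * ((1 : M) : G)⁻¹ ∈ M' := by
          rw [h1]; exact one_mem _
        rw [badNA_brf_eq ζ h2]
        have h3 : (⟨(x : G) * ((1 : M) : G) * (x : G)⁻¹ * ((1 : M) : G)⁻¹, h2⟩ : M') = 1 :=
          Subtype.ext h1
        rw [h3, map_one]
      map_mul' := fun y y' =>
        badNA_brf_mul_right hn hC hab hcen ζ hζ x.2 y.2 y'.2 }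
  map_one' := by
    ext y
    show brf ζ ((1 : M) : G) (y : G) = 1
    have h1 : ((1 : M) : G) * (y : G) * ((1 : M) : G)⁻¹ * (y : G)⁻¹ = 1 := by simp
    have h2 : ((1 : M) : G) * (y : G) * ((1 : M) : G)⁻¹ * (y : G)⁻¹ ∈ M' := by
      rw [h1]; exact one_mem _
    rw [badNA_brf_eq ζ h2]
    have h3 : (⟨((1 : M) : G) * (y : G) * ((1 : M) : G)⁻¹ * (y : G)⁻¹, h2⟩ : M') = 1 :=
      Subtype.ext h1
    rw [h3, map_one]
  map_mul' x x' := by
    ext y
    exact badNA_brf_mul_left hn hC hab hcen ζ hζ x.2 x'.2 y.2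

end Pairing

/-- Number of elements with a property as a sum of indicators. -/
theorem badNA_card {α : Type*} [Fintype α] (φ : α → Prop) :
    (Nat.card {a // φ a} : ℝ) = ∑ a, ind (φ a) := by
  classical
  unfold ind
  rw [Finset.sum_boole, Nat.card_eq_fintype_card, Fintype.card_subtype]

theorem bad_na (p : ℕ) [Fact p.Prime] {N m : ℕ} (v : Fin (m + 1) → FreeGroup (Fin N))
    (IH : ∀ t, t ≠ 0 → ∀ ε > (0 : ℝ), ∃ h, SmallT p ((v 0)⁻¹ * v t) ε h)
    (Γ : ℕ) (ε : ℝ) (hε : 0 < ε) : ∃ h : ℕ,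
    ∀ (G : Type) [Group G] [Finite G] (n : ℕ) (τ : Tower p G n) (P : Sylow p G) (j : ℕ),
      h ≤ j → j + 1 ≤ n → Odd j →
      haveI := τ.nM' j
      ∀ ζ : τ.M' j →* (kk p)ˣ, ζ ≠ 1 → (∀ x : τ.M' j, (x : G) ∈ τ.C j → ζ x = 1) →
      pr (fun s : Smp (P : Subgroup G) N => ¬ ∀ t, t ≠ 0 →
        cact (τ.M' j) (s.2 * ev s.1 (v t)) ζ ≠ cact (τ.M' j) (s.2 * ev s.1 (v 0)) ζ ∨
        Γ * Nat.card {x : τ.M j // ∀ y ∈ τ.M j,
          brf ζ (x : G) ((s.2 * ev s.1 (v 0)) * y * (s.2 * ev s.1 (v 0))⁻¹) =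
            brf ζ (x : G) ((s.2 * ev s.1 (v t)) * y * (s.2 * ev s.1 (v t))⁻¹)} ≤
          Nat.card (τ.M j)) ≤ ε := by
  classical
  set δ : ℝ := ε / ((m : ℝ) + 1) with hδ
  have hm : (0 : ℝ) < (m : ℝ) + 1 := by positivity
  have hδpos : 0 < δ := div_pos hε hm
  set M0 : ℕ := ⌈2 * (Γ : ℝ) / δ⌉₊ + 1 with hM0
  have hM0pos : (0 : ℝ) < M0 := by rw [hM0]; positivity
  have hM0Γ : 2 * (Γ : ℝ) / δ ≤ M0 := by
    rw [hM0]; push_cast
    exact (Nat.le_ceil _).trans (by linarith)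
  set ε0 : ℝ := δ / (2 * (Γ : ℝ) + 2 * M0 + 2) with hε0
  have hden : (0 : ℝ) < 2 * (Γ : ℝ) + 2 * M0 + 2 := by positivity
  have hε0pos : 0 < ε0 := div_pos hδpos hden
  have hε0eq : ε0 * (2 * (Γ : ℝ) + 2 * M0 + 2) = δ := by
    rw [hε0]; field_simp
  have hΓ0 : (0 : ℝ) ≤ Γ := Nat.cast_nonneg _
  obtain ⟨h, hh⟩ := bad_common p v IH ε0 hε0pos
  refine ⟨h, ?_⟩
  intro G _ _ n τ P j hj hjn ho
  have i1 := τ.nM' j
  have i2 := τ.nM j
  intro ζ hζ1 hζC
  have hjn' : j ≤ n := by omega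
  have hjlt : j < n := by omega
  set Δ : τ.M j →* (τ.M j →* (kk p)ˣ) :=
    badNA_hom (τ.M j) (τ.M' j) (τ.C j) (τ.nM' j) (τ.C_le j hjlt) (τ.ab j hjn')
      (τ.cen j hjlt ho) ζ hζC with hΔ
  have hΔapp : ∀ x y : τ.M j, Δ x y = brf ζ (x : G) (y : G) := fun x y => rfl
  -- the characters Δ x are trivial on M'
  have hΔtriv : ∀ x : τ.M j, ∀ y : τ.M j, (y : G) ∈ τ.M' j → Δ x y = 1 := by
    intro x y hy
    rw [hΔapp, badNA_brf_eq ζ (τ.ab j hjn' _ x.2 _ y.2)]
    apply hζC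
    show (x : G) * y * (x : G)⁻¹ * (y : G)⁻¹ ∈ τ.C j
    have h1 := inv_mem (τ.cen j hjlt ho y hy x x.2)
    have h2 : ((y : G) * x * (y : G)⁻¹ * (x : G)⁻¹)⁻¹ = (x : G) * y * (x : G)⁻¹ * (y : G)⁻¹ := by
      group
    rwa [h2] at h1
  -- some Δ x is nontrivial
  obtain ⟨x0, hx0⟩ : ∃ x0 : τ.M j, Δ x0 ≠ 1 := by
    by_contra hcon
    push Not at hcon
    apply hζ1
    have h1 : τ.M' j ≤ (ζ.ker).map (τ.M' j).subtype := by
      refine (τ.gen j hjlt ho).trans (sup_le ?_ ?_)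
      · rw [Subgroup.commutator_le]
        intro x hx y hy
        refine ⟨⟨x * y * x⁻¹ * y⁻¹, τ.ab j hjn' x hx y hy⟩, ?_, rfl⟩
        show ζ _ = 1
        rw [← badNA_brf_eq ζ (τ.ab j hjn' x hx y hy)]
        have h2 := DFunLike.congr_fun (hcon ⟨x, hx⟩) ⟨y, hy⟩
        exact h2
      · intro c hc
        exact ⟨⟨c, τ.C_le j hjlt hc⟩, hζC _ hc, rfl⟩
    ext z
    obtain ⟨z', hz', hz''⟩ := h1 z.2
    have h3 : z' = z := Subtype.ext hz''
    rw [← h3]
    have h4 : ζ z' = 1 := hz'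
    rw [h4]; rfl
  -- the event for a pair of characters
  have hpair : ∀ t : Fin (m + 1), t ≠ 0 → ∀ d d' : τ.M j →* (kk p)ˣ, d ≠ 1 →
      (∀ y : τ.M j, (y : G) ∈ τ.M' j → d y = 1) →
      pr (fun s : Smp (P : Subgroup G) N =>
        cact (τ.M j) (s.2 * ev s.1 (v 0)) d = cact (τ.M j) (s.2 * ev s.1 (v t)) d') ≤ ε0 := by
    intro t ht d d' h1 h2
    exact bad_star p (v 0) (v t) hε0pos.le (hh t ht) G n τ P j hj hjn' ho d d' h1 h2
  have hFT : Fintype (τ.M j) := Fintype.ofFinite _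
  -- the bound for each t
  have hmain : ∀ t : Fin (m + 1), t ≠ 0 →
      pr (fun s : Smp (P : Subgroup G) N =>
        ¬ (cact (τ.M' j) (s.2 * ev s.1 (v t)) ζ ≠ cact (τ.M' j) (s.2 * ev s.1 (v 0)) ζ ∨
        Γ * Nat.card {x : τ.M j // ∀ y ∈ τ.M j,
          brf ζ (x : G) ((s.2 * ev s.1 (v 0)) * y * (s.2 * ev s.1 (v 0))⁻¹) =
            brf ζ (x : G) ((s.2 * ev s.1 (v t)) * y * (s.2 * ev s.1 (v t))⁻¹)} ≤
          Nat.card (τ.M j))) ≤ δ := by
    intro t ht
    by_cases hT : Nat.card Δ.range ≤ M0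
    · -- few characters
      have hfinX : Finite (τ.M j →* (kk p)ˣ) := finite_chars
      set X : Finset (τ.M j →* (kk p)ˣ) := (Set.toFinite (Δ.range : Set _)).toFinset with hX
      have hXcard : X.card ≤ M0 := by
        rw [hX, ← Set.ncard_eq_toFinset_card, ← Nat.card_coe_set_eq]
        exact hT
      have hsub : ∀ s : Smp (P : Subgroup G) N,
          ¬ (cact (τ.M' j) (s.2 * ev s.1 (v t)) ζ ≠ cact (τ.M' j) (s.2 * ev s.1 (v 0)) ζ ∨
          Γ * Nat.card {x : τ.M j // ∀ y ∈ τ.M j,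
            brf ζ (x : G) ((s.2 * ev s.1 (v 0)) * y * (s.2 * ev s.1 (v 0))⁻¹) =
              brf ζ (x : G) ((s.2 * ev s.1 (v t)) * y * (s.2 * ev s.1 (v t))⁻¹)} ≤
            Nat.card (τ.M j)) →
          ∃ d' ∈ X, cact (τ.M j) (s.2 * ev s.1 (v 0)) (Δ x0) =
            cact (τ.M j) (s.2 * ev s.1 (v t)) d' := by
        intro s hs
        push Not at hs
        have h1 := hs.1
        set a : G := s.2 * ev s.1 (v 0) with ha
        set b : G := s.2 * ev s.1 (v t) with hb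
        have hx' : b * (a⁻¹ * (x0 : G) * a) * b⁻¹ ∈ τ.M j := by
          apply i2.conj_mem
          have := i2.conj_mem _ x0.2 a⁻¹
          rwa [inv_inv] at this
        refine ⟨Δ ⟨b * (a⁻¹ * (x0 : G) * a) * b⁻¹, hx'⟩, ?_, ?_⟩
        · rw [hX, Set.Finite.mem_toFinset]
          exact ⟨_, rfl⟩
        · ext y
          congr 1
          show brf ζ (x0 : G) (a * y * a⁻¹) =
            brf ζ (b * (a⁻¹ * (x0 : G) * a) * b⁻¹) (b * y * b⁻¹)
          have hay : a * (y : G) * a⁻¹ ∈ τ.M j := i2.conj_mem _ y.2 a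
          have hby : b * (y : G) * b⁻¹ ∈ τ.M j := i2.conj_mem _ y.2 b
          rw [badNA_brf_eq ζ (τ.ab j hjn' _ x0.2 _ hay), badNA_brf_eq ζ (τ.ab j hjn' _ hx' _ hby)]
          have hc : a⁻¹ * (x0 : G) * a ∈ τ.M j := by
            have := i2.conj_mem _ x0.2 a⁻¹
            rwa [inv_inv] at this
          have hcy := τ.ab j hjn' _ hc _ y.2
          have h2 := DFunLike.congr_fun h1 ⟨_, hcy⟩
          rw [bad_cact_apply, bad_cact_apply] at h2
          have h3 : (MulAut.conjNormal b (⟨_, hcy⟩ : τ.M' j) : τ.M' j) =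
              ⟨_, τ.ab j hjn' _ hx' _ hby⟩ := by
            apply Subtype.ext
            rw [MulAut.conjNormal_apply]
            show b * (a⁻¹ * (x0 : G) * a * y * (a⁻¹ * (x0 : G) * a)⁻¹ * (y : G)⁻¹) * b⁻¹ = _
            group
          have h4 : (MulAut.conjNormal a (⟨_, hcy⟩ : τ.M' j) : τ.M' j) =
              ⟨_, τ.ab j hjn' _ x0.2 _ hay⟩ := by
            apply Subtype.ext
            rw [MulAut.conjNormal_apply]
            show a * (a⁻¹ * (x0 : G) * a * y * (a⁻¹ * (x0 : G) * a)⁻¹ * (y : G)⁻¹) * a⁻¹ = _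
            group
          rw [h3, h4] at h2
          exact h2.symm
      refine le_trans (pr_mono hsub) ?_
      refine le_trans (pr_exists_le _ _) ?_
      refine le_trans (Finset.sum_le_sum (g := fun _ => ε0) ?_) ?_
      · intro d' _
        exact hpair t ht (Δ x0) d' hx0 (hΔtriv x0)
      · rw [Finset.sum_const, nsmul_eq_mul]
        have h1 : (X.card : ℝ) ≤ M0 := by exact_mod_cast hXcard
        have h2 : (X.card : ℝ) * ε0 ≤ (M0 : ℝ) * ε0 := mul_le_mul_of_nonneg_right h1 hε0pos.le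
        nlinarith [mul_nonneg hε0pos.le hΓ0, mul_pos hε0pos hM0pos]
    · -- many characters
      push Not at hT
      set E : τ.M j → Smp (P : Subgroup G) N → Prop := fun x s =>
        cact (τ.M j) (s.2 * ev s.1 (v 0)) (Δ x) = cact (τ.M j) (s.2 * ev s.1 (v t)) (Δ x) with hE
      have hEiff : ∀ (s : Smp (P : Subgroup G) N) (x : τ.M j), E x s ↔ ∀ y ∈ τ.M j,
          brf ζ (x : G) ((s.2 * ev s.1 (v 0)) * y * (s.2 * ev s.1 (v 0))⁻¹) =
            brf ζ (x : G) ((s.2 * ev s.1 (v t)) * y * (s.2 * ev s.1 (v t))⁻¹) := by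
        intro s x
        constructor
        · intro h1 y hy
          exact DFunLike.congr_fun h1 ⟨y, hy⟩
        · intro h1
          ext y
          congr 1
          exact h1 y y.2
      have hcardpos : (0 : ℝ) < Nat.card (τ.M j) := by
        exact_mod_cast Nat.card_pos
      have hbound : ∀ s : Smp (P : Subgroup G) N,
          ind (¬ (cact (τ.M' j) (s.2 * ev s.1 (v t)) ζ ≠ cact (τ.M' j) (s.2 * ev s.1 (v 0)) ζ ∨
          Γ * Nat.card {x : τ.M j // ∀ y ∈ τ.M j,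
            brf ζ (x : G) ((s.2 * ev s.1 (v 0)) * y * (s.2 * ev s.1 (v 0))⁻¹) =
              brf ζ (x : G) ((s.2 * ev s.1 (v t)) * y * (s.2 * ev s.1 (v t))⁻¹)} ≤
            Nat.card (τ.M j))) ≤ ((Γ : ℝ) / Nat.card (τ.M j)) * ∑ x : τ.M j, ind (E x s) := by
        intro s
        have hsum0 : (0 : ℝ) ≤ ∑ x : τ.M j, ind (E x s) :=
          Finset.sum_nonneg fun x _ => ind_nonneg _
        have hr0 : (0 : ℝ) ≤ ((Γ : ℝ) / Nat.card (τ.M j)) * ∑ x : τ.M j, ind (E x s) :=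
          mul_nonneg (div_nonneg hΓ0 hcardpos.le) hsum0
        by_cases hs : ¬ (cact (τ.M' j) (s.2 * ev s.1 (v t)) ζ ≠
            cact (τ.M' j) (s.2 * ev s.1 (v 0)) ζ ∨
          Γ * Nat.card {x : τ.M j // ∀ y ∈ τ.M j,
            brf ζ (x : G) ((s.2 * ev s.1 (v 0)) * y * (s.2 * ev s.1 (v 0))⁻¹) =
              brf ζ (x : G) ((s.2 * ev s.1 (v t)) * y * (s.2 * ev s.1 (v t))⁻¹)} ≤
            Nat.card (τ.M j))
        · rw [ind_of hs]
          rw [not_or] at hs
          have h2 := hs.2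
          rw [not_le] at h2
          have h3 : Nat.card {x : τ.M j // ∀ y ∈ τ.M j,
              brf ζ (x : G) ((s.2 * ev s.1 (v 0)) * y * (s.2 * ev s.1 (v 0))⁻¹) =
              brf ζ (x : G) ((s.2 * ev s.1 (v t)) * y * (s.2 * ev s.1 (v t))⁻¹)} =
              Nat.card {x : τ.M j // E x s} := by
            apply Nat.card_congr
            exact Equiv.subtypeEquivRight fun x => (hEiff s x).symm
          rw [h3] at h2
          have h4 : (Nat.card (τ.M j) : ℝ) ≤ (Γ : ℝ) * ∑ x : τ.M j, ind (E x s) := by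
            rw [← badNA_card]
            exact_mod_cast h2.le
          rw [div_mul_eq_mul_div, le_div_iff₀ hcardpos, one_mul]
          exact h4
        · rw [ind_not hs]
          exact hr0
      rw [pr_eq_av]
      refine le_trans (av_mono hbound) ?_
      rw [av_mul_left, av_sum]
      have hEx : ∀ x : τ.M j, av (fun s : Smp (P : Subgroup G) N => ind (E x s)) ≤
          ind (x ∈ Δ.ker) + ε0 := by
        intro x
        rw [← pr_eq_av]
        by_cases hx : x ∈ Δ.ker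
        · rw [ind_of hx]
          have := pr_le_one (fun s : Smp (P : Subgroup G) N => E x s)
          linarith
        · rw [ind_not hx, zero_add]
          exact hpair t ht (Δ x) (Δ x) (fun h => hx h) (hΔtriv x)
      have hsum : ∑ x : τ.M j, av (fun s : Smp (P : Subgroup G) N => ind (E x s)) ≤
          (Nat.card Δ.ker : ℝ) + (Nat.card (τ.M j) : ℝ) * ε0 := by
        refine le_trans (Finset.sum_le_sum fun x _ => hEx x) ?_
        rw [Finset.sum_add_distrib, Finset.sum_const, Finset.card_univ, nsmul_eq_mul,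
          Nat.card_eq_fintype_card (α := τ.M j)]
        have h1 := badNA_card (fun x : τ.M j => x ∈ Δ.ker)
        have h2 : (Nat.card Δ.ker : ℝ) = ∑ x : τ.M j, ind (x ∈ Δ.ker) := h1
        rw [h2]
      have hker : (Nat.card Δ.ker : ℝ) * Nat.card Δ.range = Nat.card (τ.M j) := by
        have h1 : Nat.card Δ.range = Δ.ker.index := by
          rw [Subgroup.index_ker]
        rw [h1]
        exact_mod_cast Subgroup.card_mul_index Δ.ker
      have hT' : (M0 : ℝ) < Nat.card Δ.range := by exact_mod_cast hT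
      have hrpos : (0 : ℝ) < Nat.card Δ.range := hM0pos.trans hT'
      calc ((Γ : ℝ) / Nat.card (τ.M j)) *
            ∑ x : τ.M j, av (fun s : Smp (P : Subgroup G) N => ind (E x s))
          ≤ ((Γ : ℝ) / Nat.card (τ.M j)) *
              ((Nat.card Δ.ker : ℝ) + (Nat.card (τ.M j) : ℝ) * ε0) :=
            mul_le_mul_of_nonneg_left hsum (div_nonneg hΓ0 hcardpos.le)
        _ = (Γ : ℝ) / Nat.card Δ.range + Γ * ε0 := by
            rw [← hker]
            have h1 : (0 : ℝ) < Nat.card Δ.ker := by exact_mod_cast Nat.card_pos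
            field_simp
        _ ≤ δ := by
            have h1 : (Γ : ℝ) / Nat.card Δ.range ≤ δ / 2 := by
              rw [div_le_iff₀ hrpos]
              have h2 : 2 * (Γ : ℝ) ≤ M0 * δ := by
                rwa [div_le_iff₀ hδpos] at hM0Γ
              nlinarith
            have h2 : (Γ : ℝ) * ε0 ≤ δ / 2 := by
              nlinarith [mul_nonneg hε0pos.le hΓ0, mul_pos hε0pos hM0pos]
            linarith
  -- union over t
  have hsub : ∀ s : Smp (P : Subgroup G) N,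
      (¬ ∀ t, t ≠ 0 →
        cact (τ.M' j) (s.2 * ev s.1 (v t)) ζ ≠ cact (τ.M' j) (s.2 * ev s.1 (v 0)) ζ ∨
        Γ * Nat.card {x : τ.M j // ∀ y ∈ τ.M j,
          brf ζ (x : G) ((s.2 * ev s.1 (v 0)) * y * (s.2 * ev s.1 (v 0))⁻¹) =
            brf ζ (x : G) ((s.2 * ev s.1 (v t)) * y * (s.2 * ev s.1 (v t))⁻¹)} ≤
          Nat.card (τ.M j)) →
      ∃ t ∈ (Finset.univ.filter (fun t : Fin (m + 1) => t ≠ 0)),
        ¬ (cact (τ.M' j) (s.2 * ev s.1 (v t)) ζ ≠ cact (τ.M' j) (s.2 * ev s.1 (v 0)) ζ ∨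
        Γ * Nat.card {x : τ.M j // ∀ y ∈ τ.M j,
          brf ζ (x : G) ((s.2 * ev s.1 (v 0)) * y * (s.2 * ev s.1 (v 0))⁻¹) =
            brf ζ (x : G) ((s.2 * ev s.1 (v t)) * y * (s.2 * ev s.1 (v t))⁻¹)} ≤
          Nat.card (τ.M j)) := by
    intro s hs
    rw [not_forall] at hs
    obtain ⟨t, ht⟩ := hs
    rw [Classical.not_imp] at ht
    exact ⟨t, by simp [ht.1], ht.2⟩
  refine le_trans (pr_mono hsub) ?_
  refine le_trans (pr_exists_le _ _) ?_
  refine le_trans (Finset.sum_le_sum (g := fun _ => δ) ?_) ?_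
  · intro t ht
    exact hmain t (by simpa using ht)
  · rw [Finset.sum_const, nsmul_eq_mul]
    have h1 : ((Finset.univ.filter (fun t : Fin (m + 1) => t ≠ 0)).card : ℝ) ≤ (m : ℝ) + 1 := by
      have h2 := Finset.card_filter_le (Finset.univ : Finset (Fin (m + 1))) (fun t => t ≠ 0)
      rw [Finset.card_univ, Fintype.card_fin] at h2
      exact_mod_cast h2
    have h2 : ε = ((m : ℝ) + 1) * δ := by
      rw [hδ]; field_simp
    calc _ ≤ ((m : ℝ) + 1) * δ := mul_le_mul_of_nonneg_right h1 hδpos.le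
      _ = ε := h2.symm

end Pool.Agent.PLen
end

section

set_option autoImplicit false

/-! T9. Components and supports. -/

namespace Pool.Agent.PLen

open scoped BigOperators

section Aux

/-- A function invariant under right translation by `K` takes the same value at the chosen
representative. -/
theorem supp_out_eq {A X : Type*} [Group A] {K : Subgroup A} (F : A → X)
    (hF : ∀ a, ∀ c ∈ K, F (a * c) = F a) (a : A) :
    F (Quotient.out (QuotientGroup.mk a : A ⧸ K)) = F a := by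
  obtain ⟨c, hc⟩ := QuotientGroup.mk_out_eq_mul K a
  rw [hc, hF _ _ c.2]

/-- Orthogonality of characters. -/
theorem supp_orth {p : ℕ} [Fact p.Prime] {A : Type} [Group A] [Finite A] (K : Subgroup A)
    (hK : ∀ x y : A, x * y * x⁻¹ * y⁻¹ ∈ K) (hc : K.index.Coprime p) (a : A) (ha : a ∉ K) :
    ∑ᶠ d : {b : A →* (kk p)ˣ // ∀ x ∈ K, b x = 1}, ((d.1 a : (kk p)ˣ) : kk p) = 0 := by
  classical
  obtain ⟨b, hb1, hb2⟩ := sep_gen (p := p) K hK hc a ha
  have hfin : Finite (A →* (kk p)ˣ) := finite_chars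
  have := Fintype.ofFinite {b : A →* (kk p)ˣ // ∀ x ∈ K, b x = 1}
  rw [finsum_eq_sum_of_fintype]
  let e : {b : A →* (kk p)ˣ // ∀ x ∈ K, b x = 1} ≃ {b : A →* (kk p)ˣ // ∀ x ∈ K, b x = 1} :=
    { toFun := fun d => ⟨b * d.1, fun x hx => by
        rw [MonoidHom.mul_apply, hb1 x hx, d.2 x hx, mul_one]⟩
      invFun := fun d => ⟨b⁻¹ * d.1, fun x hx => by
        rw [MonoidHom.mul_apply, MonoidHom.inv_apply, hb1 x hx, d.2 x hx, inv_one, mul_one]⟩
      left_inv := fun d => Subtype.ext (MonoidHom.ext fun x => by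
        rw [MonoidHom.mul_apply, MonoidHom.mul_apply, MonoidHom.inv_apply, inv_mul_cancel_left])
      right_inv := fun d => Subtype.ext (MonoidHom.ext fun x => by
        rw [MonoidHom.mul_apply, MonoidHom.mul_apply, MonoidHom.inv_apply, mul_inv_cancel_left]) }
  have h1 := Equiv.sum_comp e (fun d => ((d.1 a : (kk p)ˣ) : kk p))
  have h2 : ∀ d, (((e d).1 a : (kk p)ˣ) : kk p) = ((b a : (kk p)ˣ) : kk p) *
      ((d.1 a : (kk p)ˣ) : kk p) := by
    intro d
    change (((b * d.1) a : (kk p)ˣ) : kk p) = _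
    rw [MonoidHom.mul_apply, Units.val_mul]
  simp only [h2] at h1
  rw [← Finset.mul_sum] at h1
  have h3 : (((b a : (kk p)ˣ) : kk p) - 1) *
      ∑ d : {b : A →* (kk p)ˣ // ∀ x ∈ K, b x = 1}, ((d.1 a : (kk p)ˣ) : kk p) = 0 := by
    rw [sub_mul, one_mul, h1, sub_self]
  rcases mul_eq_zero.mp h3 with h4 | h4
  · exfalso
    apply hb2
    apply Units.ext
    rw [Units.val_one]
    exact sub_eq_zero.mp h4
  · exact h4

/-- A function all of whose components of nontrivial weight vanish is constant. -/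
theorem supp_const {p : ℕ} [Fact p.Prime] {A : Type} [Group A] [Finite A] (K : Subgroup A)
    (hK : ∀ x y : A, x * y * x⁻¹ * y⁻¹ ∈ K) (hc : K.index.Coprime p) (f : A → kk p)
    (hf : ∀ a, ∀ c ∈ K, f (a * c) = f a)
    (h0 : ∀ d : A →* (kk p)ˣ, d ≠ 1 → (∀ x ∈ K, d x = 1) →
      ∑ᶠ q : A ⧸ K, ((d q.out : (kk p)ˣ) : kk p)⁻¹ * f q.out = 0) (a : A) : f a = f 1 := by
  classical
  have hfin : Finite (A →* (kk p)ˣ) := finite_chars
  have := Fintype.ofFinite {b : A →* (kk p)ˣ // ∀ x ∈ K, b x = 1}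
  have := Fintype.ofFinite (A ⧸ K)
  -- inversion formula
  have hinv : ∀ x : A, ∑ d : {b : A →* (kk p)ˣ // ∀ x ∈ K, b x = 1},
      ((d.1 x : (kk p)ˣ) : kk p) * ∑ q : A ⧸ K, ((d.1 q.out : (kk p)ˣ) : kk p)⁻¹ * f q.out
      = (K.index : kk p) * f x := by
    intro x
    simp only [Finset.mul_sum]
    rw [Finset.sum_comm]
    have h1 : ∀ q : A ⧸ K, ∑ d : {b : A →* (kk p)ˣ // ∀ x ∈ K, b x = 1},
        ((d.1 x : (kk p)ˣ) : kk p) * (((d.1 q.out : (kk p)ˣ) : kk p)⁻¹ * f q.out)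
        = if q = QuotientGroup.mk x then (K.index : kk p) * f x else 0 := by
      intro q
      have h2 : ∀ d : {b : A →* (kk p)ˣ // ∀ x ∈ K, b x = 1},
          ((d.1 x : (kk p)ˣ) : kk p) * (((d.1 q.out : (kk p)ˣ) : kk p)⁻¹ * f q.out)
          = ((d.1 (q.out⁻¹ * x) : (kk p)ˣ) : kk p) * f q.out := by
        intro d
        rw [map_mul, map_inv, Units.val_mul, Units.val_inv_eq_inv_val]
        ring
      simp only [h2]
      rw [← Finset.sum_mul]
      by_cases hq : q = QuotientGroup.mk x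
      · rw [if_pos hq]
        have h3 : q.out⁻¹ * x ∈ K := by
          rw [← QuotientGroup.eq, QuotientGroup.out_eq', hq]
        have h4 : ∀ d : {b : A →* (kk p)ˣ // ∀ x ∈ K, b x = 1},
            ((d.1 (q.out⁻¹ * x) : (kk p)ˣ) : kk p) = 1 := by
          intro d
          rw [d.2 _ h3, Units.val_one]
        simp only [h4]
        rw [Finset.sum_const, Finset.card_univ, nsmul_eq_mul, mul_one,
          ← Nat.card_eq_fintype_card, dual_gen K hK hc, hq, supp_out_eq f hf]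
      · rw [if_neg hq]
        have h3 : q.out⁻¹ * x ∉ K := by
          intro h
          apply hq
          rw [← QuotientGroup.eq, QuotientGroup.out_eq'] at h
          exact h
        have h4 := supp_orth K hK hc _ h3
        rw [finsum_eq_sum_of_fintype] at h4
        rw [h4, zero_mul]
    simp only [h1]
    rw [Finset.sum_ite_eq' Finset.univ, if_pos (Finset.mem_univ _)]
  -- the left hand side does not depend on `x`
  have hone : ∀ x : A, ∑ d : {b : A →* (kk p)ˣ // ∀ x ∈ K, b x = 1},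
      ((d.1 x : (kk p)ˣ) : kk p) * ∑ q : A ⧸ K, ((d.1 q.out : (kk p)ˣ) : kk p)⁻¹ * f q.out
      = ∑ q : A ⧸ K, f q.out := by
    intro x
    rw [Finset.sum_eq_single (⟨1, fun x _ => rfl⟩ : {b : A →* (kk p)ˣ // ∀ x ∈ K, b x = 1})]
    · simp
    · intro d _ hd
      have h1 : d.1 ≠ 1 := fun h => hd (Subtype.ext h)
      have h2 := h0 d.1 h1 d.2
      rw [finsum_eq_sum_of_fintype] at h2
      rw [h2, mul_zero]
    · intro h
      exact absurd (Finset.mem_univ _) h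
  have h5 : (K.index : kk p) * f a = (K.index : kk p) * f 1 := by
    rw [← hinv a, ← hinv 1, hone, hone]
  have h6 : (K.index : kk p) ≠ 0 := by
    intro h
    rw [CharP.cast_eq_zero_iff (kk p) p] at h
    have h7 := Nat.Coprime.eq_one_of_dvd (Nat.Coprime.symm hc) h
    exact (Fact.out : p.Prime).one_lt.ne' h7
  exact mul_left_cancel₀ h6 h5

/-- Sums over representatives for a smaller subgroup. -/
theorem supp_sum_le {p : ℕ} [Fact p.Prime] {A : Type} [Group A] [Finite A] {K K' : Subgroup A}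
    (h : K ≤ K') (F : A → kk p) (hF : ∀ a, ∀ c ∈ K', F (a * c) = F a) :
    ∑ᶠ q : A ⧸ K, F q.out = (K.relIndex K' : kk p) * ∑ᶠ q : A ⧸ K', F q.out := by
  classical
  have := Fintype.ofFinite (A ⧸ K)
  have := Fintype.ofFinite (A ⧸ K')
  have := Fintype.ofFinite (K' ⧸ K.subgroupOf K')
  rw [finsum_eq_sum_of_fintype, finsum_eq_sum_of_fintype]
  let e := Subgroup.quotientEquivProdOfLE h
  have h1 : ∀ q : A ⧸ K, F q.out = F (e q).1.out := by
    intro q
    have h2 : (e q).1 = QuotientGroup.mk q.out := by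
      obtain ⟨a, rfl⟩ := QuotientGroup.mk_surjective q
      have h3 : (e (QuotientGroup.mk a)).1 = QuotientGroup.mk a := rfl
      rw [h3]
      have h4 : (QuotientGroup.mk (Quotient.out (QuotientGroup.mk a : A ⧸ K)) : A ⧸ K)
        = QuotientGroup.mk a := QuotientGroup.out_eq' _
      rw [QuotientGroup.eq] at h4 ⊢
      have h5 := K'.inv_mem (h h4)
      simpa using h5
    rw [h2, supp_out_eq F hF]
  simp only [h1]
  rw [Equiv.sum_comp e (fun z => F z.1.out), Fintype.sum_prod_type]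
  simp only [Finset.sum_const, Finset.card_univ, nsmul_eq_mul]
  rw [← Finset.mul_sum, ← Nat.card_eq_fintype_card]
  rfl

/-- Change of representatives by an automorphism preserving `K`. -/
theorem supp_sum_equiv {A X : Type*} [Group A] [AddCommMonoid X] {K : Subgroup A} [K.Normal]
    (e : A ≃* A) (he : K.map (e : A →* A) = K) (F : A → X)
    (hF : ∀ a, ∀ c ∈ K, F (a * c) = F a) :
    ∑ᶠ q : A ⧸ K, F (e q.out) = ∑ᶠ q : A ⧸ K, F q.out := by
  let E : A ⧸ K ≃ A ⧸ K := (QuotientGroup.congr K K e he).toEquiv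
  have h1 : ∀ q : A ⧸ K, F (e q.out) = F (E q).out := by
    intro q
    have h2 : E q = QuotientGroup.mk (e q.out) := by
      change QuotientGroup.congr K K e he q = _
      rw [← QuotientGroup.congr_mk K K e he, QuotientGroup.out_eq']
    rw [h2, supp_out_eq F hF]
  simp only [h1]
  exact finsum_comp_equiv (f := fun q : A ⧸ K => F q.out) E

end Aux

section Tow

variable {p : ℕ} [Fact p.Prime] {G : Type} [Group G] {n : ℕ}

theorem supp_hat_inj {V : Subgroup G} (b : V →* Multiplicative (ZMod p)) {v w : V}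
    (h : hat b v = hat b w) : b v = b w := by
  unfold hat at h
  have h1 := (algebraMap (ZMod p) (kk p)).injective h
  exact Multiplicative.toAdd.injective h1

/-- Elements of `C j` act trivially on the layer `j + 1`. -/
theorem supp_C_act (τ : Tower p G n) {j : ℕ} (hj : j + 1 ≤ n)
    (b : τ.M (j + 1) →* Multiplicative (ZMod p))
    (hb' : ∀ x : τ.M (j + 1), (x : G) ∈ τ.M' (j + 1) → b x = 1) (g c : G) (hc : c ∈ τ.C j)
    (v : τ.M (j + 1)) :
    haveI := τ.nM (j + 1)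
    b (MulAut.conjNormal (g * c) v) = b (MulAut.conjNormal g v) := by
  have i1 := τ.nM (j + 1)
  have i2 := τ.nM' (j + 1)
  have h1 : (MulAut.conjNormal (g * c) v : τ.M (j + 1)) =
      MulAut.conjNormal g (MulAut.conjNormal c v * v⁻¹) * MulAut.conjNormal g v := by
    rw [← map_mul, inv_mul_cancel_right, map_mul]
    rfl
  rw [h1, map_mul, hb', one_mul]
  rw [MulAut.conjNormal_apply]
  apply i2.conj_mem
  rw [Subgroup.coe_mul, MulAut.conjNormal_apply, Subgroup.coe_inv]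
  exact ((τ.mem_C j (by omega) c).mp hc).2 v v.2

theorem supp_hat_C (τ : Tower p G n) {j : ℕ} (hj : j + 1 ≤ n)
    (b : τ.M (j + 1) →* Multiplicative (ZMod p))
    (hb' : ∀ x : τ.M (j + 1), (x : G) ∈ τ.M' (j + 1) → b x = 1) (g c : G) (hc : c ∈ τ.C j)
    (v : τ.M (j + 1)) :
    haveI := τ.nM (j + 1)
    hat b (MulAut.conjNormal (g * c) v) = hat b (MulAut.conjNormal g v) := by
  unfold hat
  rw [supp_C_act τ hj b hb' g c hc v]

end Tow

theorem supp_fin {p : ℕ} [Fact p.Prime] {G : Type} [Group G] [Finite G] {n : ℕ} (τ : Tower p G n)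
    {j : ℕ} (b : τ.M (j + 1) →* Multiplicative (ZMod p)) : (supp τ j b).Finite := by
  have hfin : Finite (τ.M j →* (kk p)ˣ) := finite_chars
  exact Set.toFinite _

theorem supp_nonempty {p : ℕ} [Fact p.Prime] {G : Type} [Group G] [Finite G] {n : ℕ}
    (τ : Tower p G n) {j : ℕ} (hj : j + 1 ≤ n) (hodd : Odd j)
    (b : τ.M (j + 1) →* Multiplicative (ZMod p)) (hb : b ≠ 1)
    (hb' : ∀ x : τ.M (j + 1), (x : G) ∈ τ.M' (j + 1) → b x = 1)
    (hfix : haveI := τ.nM (j + 1); τ.M' j ≤ stab (τ.M (j + 1)) b) :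
    (supp τ j b).Nonempty := by
  classical
  have i1 := τ.nM (j + 1)
  have i2 := τ.nM' (j + 1)
  have i3 := τ.nM' j
  have i4 := τ.nM j
  by_contra hcon
  rw [Set.not_nonempty_iff_eq_empty] at hcon
  apply hb
  -- all translates of `hat b` are equal
  have key : ∀ (v : τ.M (j + 1)) (m : τ.M j),
      hat b (MulAut.conjNormal (m : G) v) = hat b v := by
    intro v m
    have hinvar : ∀ (a : τ.M j), ∀ c ∈ (τ.M' j).subgroupOf (τ.M j),
        hat b (MulAut.conjNormal ((a * c : τ.M j) : G) v) = hat b (MulAut.conjNormal (a : G) v) := by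
      intro a c hc
      rw [Subgroup.mem_subgroupOf] at hc
      have h1 : ((a * c : τ.M j) : G) = ((a : G) * c * (a : G)⁻¹) * a := by
        rw [Subgroup.coe_mul]; group
      have h2 : (a : G) * c * (a : G)⁻¹ ∈ stab (τ.M (j + 1)) b := hfix (i3.conj_mem _ hc _)
      have h3 : cact (τ.M (j + 1)) ((a : G) * c * (a : G)⁻¹) b = b := h2
      have h4 := DFunLike.congr_fun h3 (MulAut.conjNormal (a : G) v)
      simp only [cact, MonoidHom.coe_comp, Function.comp_apply, MulEquiv.coe_toMonoidHom] at h4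
      unfold hat
      rw [h1, map_mul, MulAut.mul_apply, h4]
    have hcomm : ∀ x y : τ.M j, x * y * x⁻¹ * y⁻¹ ∈ (τ.M' j).subgroupOf (τ.M j) := by
      intro x y
      rw [Subgroup.mem_subgroupOf]
      exact τ.ab j (by omega) x x.2 y y.2
    have hcop : ((τ.M' j).subgroupOf (τ.M j)).index.Coprime p := τ.tyT j (by omega) hodd
    have hKK : (τ.C j).subgroupOf (τ.M j) ≤ (τ.M' j).subgroupOf (τ.M j) := by
      intro x hx
      rw [Subgroup.mem_subgroupOf] at hx ⊢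
      exact τ.C_le j (by omega) hx
    have hrel : ((((τ.C j).subgroupOf (τ.M j)).relIndex ((τ.M' j).subgroupOf (τ.M j)) : ℕ) : kk p)
        ≠ 0 := by
      intro h
      rw [CharP.cast_eq_zero_iff (kk p) p] at h
      have h7 : p ∣ (τ.C j).relIndex (τ.M j) := h.trans (by
        have h8 := Subgroup.relIndex_mul_index hKK
        exact ⟨_, h8.symm⟩)
      have h8 := Nat.Coprime.eq_one_of_dvd (Nat.Coprime.symm (τ.copC j (by omega) hodd)) h7
      exact (Fact.out : p.Prime).one_lt.ne' h8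
    have h0 := supp_const ((τ.M' j).subgroupOf (τ.M j)) hcomm hcop
      (fun a => hat b (MulAut.conjNormal (a : G) v)) hinvar (by
        intro d hd1 hd2
        have hd3 : d ∉ supp τ j b := by
          rw [hcon]; exact Set.notMem_empty _
        have hd4 : comp (τ.M j) (τ.C j) (τ.M (j + 1)) d b = 0 := by
          by_contra h
          exact hd3 ⟨hd1, fun x hx => hd2 x (by rwa [Subgroup.mem_subgroupOf]), h⟩
        have hd5 := congrFun hd4 v
        unfold comp at hd5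
        rw [supp_sum_le hKK (fun m : τ.M j => ((d m : (kk p)ˣ) : kk p)⁻¹ *
          hat b ((MulAut.conjNormal (m : G) : MulAut (τ.M (j + 1))) v)) (by
            intro a c hc
            have h1 := hinvar a c hc
            rw [h1, map_mul, hd2 c hc, mul_one])] at hd5
        rw [Pi.zero_apply] at hd5
        exact (mul_eq_zero.mp hd5).resolve_left hrel) m
    have h9 : (MulAut.conjNormal (((1 : τ.M j) : τ.M j) : G) v : τ.M (j + 1)) = v := by
      rw [Subgroup.coe_one, map_one]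
      rfl
    rw [h0, h9]
  -- hence `b` is trivial on the commutators
  have hle : ⁅τ.M (j + 1), τ.M j⁆ ⊔ τ.M' (j + 1) ≤ (b.ker).map (τ.M (j + 1)).subtype := by
    apply sup_le
    · rw [Subgroup.commutator_le]
      intro x hx y hy
      rw [commutatorElement_def]
      refine ⟨⟨x, hx⟩ * (MulAut.conjNormal ((⟨y, hy⟩ : τ.M j) : G) (⟨x, hx⟩ : τ.M (j + 1)))⁻¹,
        ?_, ?_⟩
      · change b _ = 1
        rw [map_mul, map_inv, supp_hat_inj b (key ⟨x, hx⟩ ⟨y, hy⟩), mul_inv_cancel]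
      · rw [Subgroup.coe_subtype, Subgroup.coe_mul, Subgroup.coe_inv, MulAut.conjNormal_apply]
        group
    · intro x hx
      exact ⟨⟨x, τ.le _ hx⟩, hb' _ hx, rfl⟩
  rw [τ.act j (by omega)] at hle
  ext v
  obtain ⟨w, hw1, hw2⟩ := hle v.2
  have hw3 : w = v := Subtype.ext hw2
  rw [← hw3]
  exact congrArg _ hw1

theorem supp_inv {p : ℕ} [Fact p.Prime] {G : Type} [Group G] [Finite G] {n : ℕ}
    (τ : Tower p G n) {j : ℕ} (hj : j + 1 ≤ n) (hodd : Odd j)
    (b : τ.M (j + 1) →* Multiplicative (ZMod p))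
    (hb' : ∀ x : τ.M (j + 1), (x : G) ∈ τ.M' (j + 1) → b x = 1)
    (h : G) (hh : haveI := τ.nM (j + 1); h ∈ stab (τ.M (j + 1)) b)
    (d : τ.M j →* (kk p)ˣ) (hd : d ∈ supp τ j b) :
    haveI := τ.nM j
    cact (τ.M j) h d ∈ supp τ j b := by
  classical
  have i1 := τ.nM (j + 1)
  have i2 := τ.nM' (j + 1)
  have i3 := τ.nM' j
  have i4 := τ.nM j
  have i5 := τ.nC j
  obtain ⟨hd1, hd2, hd3⟩ := hd
  have hback : ∀ m : τ.M j, d m = cact (τ.M j) h d (MulAut.conjNormal h⁻¹ m) := by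
    intro m
    unfold cact
    rw [MonoidHom.comp_apply, MulEquiv.coe_toMonoidHom, ← MulAut.mul_apply, ← map_mul,
      mul_inv_cancel, map_one, MulAut.one_apply]
  refine ⟨?_, ?_, ?_⟩
  · intro h1
    apply hd1
    ext m
    rw [hback m, h1]
    rfl
  · intro x hx
    unfold cact
    rw [MonoidHom.comp_apply, MulEquiv.coe_toMonoidHom]
    apply hd2
    rw [MulAut.conjNormal_apply]
    exact i3.conj_mem _ hx _
  · intro h0
    apply hd3
    funext w
    -- `w = h v h⁻¹`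
    have h1 := congrFun h0 (MulAut.conjNormal h⁻¹ w)
    rw [Pi.zero_apply] at h1 ⊢
    rw [← h1]
    unfold comp
    have hCle : τ.C j ≤ τ.M j := fun x hx => τ.le j (τ.C_le j (by omega) hx)
    have hF : ∀ (a : τ.M j), ∀ c ∈ (τ.C j).subgroupOf (τ.M j),
        (((d (a * c) : (kk p)ˣ) : kk p)⁻¹ *
          hat b ((MulAut.conjNormal ((a * c : τ.M j) : G) : MulAut (τ.M (j + 1))) w))
        = (((d a : (kk p)ˣ) : kk p)⁻¹ *
          hat b ((MulAut.conjNormal (a : G) : MulAut (τ.M (j + 1))) w)) := by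
      intro a c hc
      rw [Subgroup.mem_subgroupOf] at hc
      rw [Subgroup.coe_mul, supp_hat_C τ hj b hb' _ _ hc, map_mul,
        hd2 c (τ.C_le j (by omega) hc), mul_one]
    have he : ((τ.C j).subgroupOf (τ.M j)).map
        ((MulAut.conjNormal h : MulAut (τ.M j)) : τ.M j →* τ.M j) = (τ.C j).subgroupOf (τ.M j) := by
      ext x
      rw [Subgroup.mem_map, Subgroup.mem_subgroupOf]
      constructor
      · rintro ⟨y, hy, rfl⟩
        rw [Subgroup.mem_subgroupOf] at hy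
        change ((MulAut.conjNormal h y : τ.M j) : G) ∈ _
        rw [MulAut.conjNormal_apply]
        exact i5.conj_mem _ hy _
      · intro hx
        refine ⟨MulAut.conjNormal h⁻¹ x, ?_, ?_⟩
        · rw [Subgroup.mem_subgroupOf, MulAut.conjNormal_apply]
          exact i5.conj_mem _ hx _
        · change (MulAut.conjNormal h : MulAut (τ.M j)) (MulAut.conjNormal h⁻¹ x) = x
          rw [← MulAut.mul_apply, ← map_mul, mul_inv_cancel, map_one, MulAut.one_apply]
    have h2 := supp_sum_equiv (K := (τ.C j).subgroupOf (τ.M j)) (MulAut.conjNormal h) he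
      (fun a : τ.M j => (((d a : (kk p)ˣ) : kk p)⁻¹ *
          hat b ((MulAut.conjNormal (a : G) : MulAut (τ.M (j + 1))) w))) hF
    rw [← h2]
    refine finsum_congr fun q => ?_
    have h3 : cact (τ.M j) h d q.out = d (MulAut.conjNormal h q.out) := rfl
    rw [h3]
    congr 1
    have h4 : cact (τ.M (j + 1)) h⁻¹ b = b := (stab (τ.M (j + 1)) b).inv_mem hh
    have h5 := DFunLike.congr_fun h4 ((MulAut.conjNormal
      (((MulAut.conjNormal h q.out : τ.M j)) : G) : MulAut (τ.M (j + 1))) w)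
    simp only [cact, MonoidHom.coe_comp, Function.comp_apply, MulEquiv.coe_toMonoidHom] at h5
    unfold hat
    rw [← h5]
    congr 3
    apply Subtype.ext
    simp only [MulAut.conjNormal_apply]
    group

/-- If `M' j` does not fix `b`, then `b` has a nonzero component for some nontrivial character
of `M' j` (trivial on `C j`). -/
theorem exists_zeta {p : ℕ} [Fact p.Prime] {G : Type} [Group G] [Finite G] {n : ℕ}
    (τ : Tower p G n) {j : ℕ} (hj : j + 1 ≤ n) (hodd : Odd j)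
    (b : τ.M (j + 1) →* Multiplicative (ZMod p))
    (hb' : ∀ x : τ.M (j + 1), (x : G) ∈ τ.M' (j + 1) → b x = 1)
    (hfix : haveI := τ.nM (j + 1); ¬ τ.M' j ≤ stab (τ.M (j + 1)) b) :
    haveI := τ.nM (j + 1)
    ∃ ζ : τ.M' j →* (kk p)ˣ, ζ ≠ 1 ∧ (∀ x : τ.M' j, (x : G) ∈ τ.C j → ζ x = 1) ∧
      comp (τ.M' j) (τ.C j) (τ.M (j + 1)) ζ b ≠ 0 := by
  classical
  have i1 := τ.nM (j + 1)
  have i2 := τ.nM' (j + 1)
  have i3 := τ.nM' j
  have i4 := τ.nM j
  have i5 := τ.nC j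
  by_contra hcon
  push Not at hcon
  apply hfix
  intro m hm
  change cact (τ.M (j + 1)) m b = b
  ext v
  have hcomm : ∀ x y : τ.M' j, x * y * x⁻¹ * y⁻¹ ∈ (τ.C j).subgroupOf (τ.M' j) := by
    intro x y
    rw [Subgroup.mem_subgroupOf]
    exact τ.cen j (by omega) hodd x x.2 y (τ.le j y.2)
  have hcop : ((τ.C j).subgroupOf (τ.M' j)).index.Coprime p := by
    have h1 := τ.copC j (by omega) hodd
    have h2 := Subgroup.relIndex_mul_relIndex (τ.C j) (τ.M' j) (τ.M j) (τ.C_le j (by omega))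
      (τ.le j)
    exact Nat.Coprime.coprime_dvd_left ⟨_, h2.symm⟩ h1
  have h0 := supp_const ((τ.C j).subgroupOf (τ.M' j)) hcomm hcop
      (fun a => hat b (MulAut.conjNormal (a : G) v)) (by
        intro a c hc
        rw [Subgroup.mem_subgroupOf] at hc
        rw [Subgroup.coe_mul, supp_hat_C τ hj b hb' _ _ hc]) (by
        intro d hd1 hd2
        exact congrFun (hcon d hd1 fun x hx => hd2 x (by rwa [Subgroup.mem_subgroupOf])) v)
      ⟨m, hm⟩
  have h9 : (MulAut.conjNormal (((1 : τ.M' j) : τ.M' j) : G) v : τ.M (j + 1)) = v := by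
    rw [Subgroup.coe_one, map_one]
    rfl
  rw [h9] at h0
  exact congrArg _ (supp_hat_inj b h0)

end Pool.Agent.PLen
end

section

set_option autoImplicit false
set_option linter.unusedSectionVars false

/-! T12. Kill probability when `M' j` fixes the functional. -/

namespace Pool.Agent.PLen

open scoped BigOperators

/-- Substitution in a sum over coset representatives. -/
private theorem killAB_sum_out {M A : Type*} [Group M] [Finite M] [AddCommMonoid A]
    (C : Subgroup M) (f : M → A) (hf : ∀ m c, c ∈ C → f (m * c) = f m) (σ : M → M)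
    (hσ : ∀ a b, (σ a)⁻¹ * σ b ∈ C ↔ a⁻¹ * b ∈ C) :
    (∑ᶠ q : M ⧸ C, f (σ q.out)) = ∑ᶠ q : M ⧸ C, f q.out := by
  refine finsum_eq_of_bijective (fun q : M ⧸ C => ((σ q.out : M) : M ⧸ C)) ?_ ?_
  · refine Finite.injective_iff_bijective.1 fun a b hab => ?_
    have h1 : (σ a.out)⁻¹ * σ b.out ∈ C := QuotientGroup.eq.1 hab
    have h2 : (a.out)⁻¹ * b.out ∈ C := (hσ _ _).1 h1
    have h3 : ((a.out : M) : M ⧸ C) = ((b.out : M) : M ⧸ C) := QuotientGroup.eq.2 h2
    rwa [QuotientGroup.out_eq', QuotientGroup.out_eq'] at h3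
  · intro q
    have h1 : (((((σ q.out : M) : M ⧸ C)).out : M) : M ⧸ C) = ((σ q.out : M) : M ⧸ C) :=
      QuotientGroup.out_eq' _
    have h2 : (((σ q.out : M) : M ⧸ C)).out⁻¹ * σ q.out ∈ C := QuotientGroup.eq.1 h1
    have h3 := hf ((((σ q.out : M) : M ⧸ C)).out) _ h2
    rw [mul_inv_cancel_left] at h3
    exact h3

private theorem killAB_hat_congr {G : Type} [Group G] {p : ℕ} [Fact p.Prime] {V : Subgroup G}
    (b : V →* Multiplicative (ZMod p)) {v v' : V} (h : b v = b v') : hat b v = hat b v' := by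
  simp [hat, h]

section

variable {p : ℕ} [Fact p.Prime] {G : Type} [Group G] [Finite G] {n : ℕ} (τ : Tower p G n)
  {j : ℕ}

/-- `C j` acts trivially on the values of `b`. -/
private theorem killAB_inv (hj : j < n) (b : τ.M (j + 1) →* Multiplicative (ZMod p))
    (hb : ∀ x : τ.M (j + 1), (x : G) ∈ τ.M' (j + 1) → b x = 1) (x c : G) (hc : c ∈ τ.C j)
    (v : τ.M (j + 1)) :
    haveI := τ.nM (j + 1)
    b ((MulAut.conjNormal (x * c) : MulAut (τ.M (j + 1))) v) =
      b ((MulAut.conjNormal x : MulAut (τ.M (j + 1))) v) := by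
  have := τ.nM (j + 1)
  have hn := τ.nM' (j + 1)
  have h1 : c * (v : G) * c⁻¹ * (v : G)⁻¹ ∈ τ.M' (j + 1) := ((τ.mem_C j hj c).1 hc).2 v v.2
  have h2 : x * (c * (v : G) * c⁻¹ * (v : G)⁻¹) * x⁻¹ ∈ τ.M' (j + 1) := hn.conj_mem _ h1 x
  have h3 : b ((MulAut.conjNormal (x * c) : MulAut (τ.M (j + 1))) v *
      ((MulAut.conjNormal x : MulAut (τ.M (j + 1))) v)⁻¹) = 1 := by
    apply hb
    have h4 : (((MulAut.conjNormal (x * c) : MulAut (τ.M (j + 1))) v *
      ((MulAut.conjNormal x : MulAut (τ.M (j + 1))) v)⁻¹ : τ.M (j + 1)) : G) =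
        x * (c * (v : G) * c⁻¹ * (v : G)⁻¹) * x⁻¹ := by
      simp only [Subgroup.coe_mul, Subgroup.coe_inv, MulAut.conjNormal_apply]
      group
    rw [h4]
    exact h2
  rw [map_mul, map_inv] at h3
  exact mul_inv_eq_one.1 h3

private theorem killAB_comp (hj : j < n) (b : τ.M (j + 1) →* Multiplicative (ZMod p))
    (hb : ∀ x : τ.M (j + 1), (x : G) ∈ τ.M' (j + 1) → b x = 1)
    (θ : τ.M j →* (kk p)ˣ) (hθ : ∀ x : τ.M j, (x : G) ∈ τ.M' j → θ x = 1)
    (h h0 g : G) (hg : g ∈ τ.M j) (v : τ.M (j + 1)) :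
    haveI := τ.nM (j + 1)
    haveI := τ.nM j
    (∑ᶠ q : τ.M j ⧸ (τ.C j).subgroupOf (τ.M j),
      ((cact (τ.M j) h0 θ q.out : (kk p)ˣ) : kk p)⁻¹ *
        hat b ((MulAut.conjNormal (g * h * ((q.out : τ.M j) : G)) : MulAut (τ.M (j + 1))) v)) =
    ((cact (τ.M j) (h0 * h⁻¹) θ ⟨g, hg⟩ : (kk p)ˣ) : kk p) *
      comp (τ.M j) (τ.C j) (τ.M (j + 1)) (cact (τ.M j) (h0 * h⁻¹) θ) b
        ((MulAut.conjNormal h : MulAut (τ.M (j + 1))) v) := by
  have i1 := τ.nM (j + 1)
  have i2 := τ.nM j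
  have i3 := τ.nC j
  set μ : τ.M j →* (kk p)ˣ := cact (τ.M j) (h0 * h⁻¹) θ with hμ
  have hμC : ∀ c : τ.M j, (c : G) ∈ τ.C j → μ c = 1 := by
    intro c hc
    have h1 : (h0 * h⁻¹) * (c : G) * (h0 * h⁻¹)⁻¹ ∈ τ.C j := i3.conj_mem _ hc _
    have h2 : θ ((MulAut.conjNormal (h0 * h⁻¹) : MulAut (τ.M j)) c) = 1 := by
      apply hθ
      rw [MulAut.conjNormal_apply]
      exact τ.C_le j hj h1
    exact h2
  let f : τ.M j → kk p := fun m => ((μ ⟨g, hg⟩ : (kk p)ˣ) : kk p) *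
    (((μ m : (kk p)ˣ) : kk p)⁻¹ * hat b ((MulAut.conjNormal (m : G) : MulAut (τ.M (j + 1)))
      ((MulAut.conjNormal h : MulAut (τ.M (j + 1))) v)))
  have hf : ∀ m c, c ∈ (τ.C j).subgroupOf (τ.M j) → f (m * c) = f m := by
    intro m c hc
    rw [Subgroup.mem_subgroupOf] at hc
    have h1 : μ (m * c) = μ m := by rw [map_mul, hμC c hc, mul_one]
    have h2 := killAB_inv τ hj b hb (m : G) (c : G) hc
      ((MulAut.conjNormal h : MulAut (τ.M (j + 1))) v)
    simp only [f]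
    rw [h1, Subgroup.coe_mul, killAB_hat_congr b h2]
  let σ : τ.M j → τ.M j := fun q => ⟨g, hg⟩ * (MulAut.conjNormal h : MulAut (τ.M j)) q
  have hσ : ∀ a b, (σ a)⁻¹ * σ b ∈ (τ.C j).subgroupOf (τ.M j) ↔
      a⁻¹ * b ∈ (τ.C j).subgroupOf (τ.M j) := by
    intro a b
    have h1 : (σ a)⁻¹ * σ b = (MulAut.conjNormal h : MulAut (τ.M j)) (a⁻¹ * b) := by
      simp only [σ, map_mul, map_inv]
      group
    rw [h1, Subgroup.mem_subgroupOf, Subgroup.mem_subgroupOf, MulAut.conjNormal_apply]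
    constructor
    · intro h2
      have h3 := i3.conj_mem _ h2 h⁻¹
      have h4 : h⁻¹ * (h * ((a⁻¹ * b : τ.M j) : G) * h⁻¹) * h⁻¹⁻¹ = ((a⁻¹ * b : τ.M j) : G) := by
        group
      rwa [h4] at h3
    · intro h2
      exact i3.conj_mem _ h2 h
  have key := killAB_sum_out ((τ.C j).subgroupOf (τ.M j)) f hf σ hσ
  have e1 : ∀ q : τ.M j, f (σ q) = ((cact (τ.M j) h0 θ q : (kk p)ˣ) : kk p)⁻¹ *
        hat b ((MulAut.conjNormal (g * h * (q : G)) : MulAut (τ.M (j + 1))) v) := by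
    intro q
    have h1 : μ (σ q) = μ ⟨g, hg⟩ * cact (τ.M j) h0 θ q := by
      simp only [σ, map_mul]
      congr 1
      simp only [hμ, cact, MonoidHom.coe_comp, Function.comp_apply, MulEquiv.coe_toMonoidHom]
      congr 1
      apply Subtype.ext
      simp only [MulAut.conjNormal_apply]
      group
    have h2 : (MulAut.conjNormal (((σ q : τ.M j)) : G) : MulAut (τ.M (j + 1)))
      ((MulAut.conjNormal h : MulAut (τ.M (j + 1))) v) =
        (MulAut.conjNormal (g * h * (q : G)) : MulAut (τ.M (j + 1))) v := by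
      apply Subtype.ext
      simp only [σ, MulAut.conjNormal_apply, Subgroup.coe_mul]
      group
    simp only [f]
    rw [h1, h2, Units.val_mul, mul_inv, ← mul_assoc, ← mul_assoc, mul_inv_cancel₀ (Units.ne_zero _),
      one_mul]
  calc _ = ∑ᶠ q : τ.M j ⧸ (τ.C j).subgroupOf (τ.M j), f (σ q.out) :=
        finsum_congr fun q => (e1 q.out).symm
    _ = ∑ᶠ q : τ.M j ⧸ (τ.C j).subgroupOf (τ.M j), f q.out := key
    _ = _ := (mul_finsum _ _).symm

end

theorem kill_ab (p : ℕ) [Fact p.Prime] (m : ℕ) : ∃ δ > (0 : ℝ), δ ≤ 1 ∧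
    ∀ (G : Type) [Group G] [Finite G] (n : ℕ) (τ : Tower p G n) (j : ℕ),
      j + 1 ≤ n → Odd j →
      ∀ b : τ.M (j + 1) →* Multiplicative (ZMod p),
      (∀ x : τ.M (j + 1), (x : G) ∈ τ.M' (j + 1) → b x = 1) →
      haveI := τ.nM (j + 1)
      haveI := τ.nM j
      τ.M' j ≤ stab (τ.M (j + 1)) b →
      ∀ θ ∈ supp τ j b,
      ∀ (h : Fin (m + 1) → G) (e : Fin (m + 1) → ℤ), (∀ t, e t = 1 ∨ e t = -1) →
      ∀ K : Subgroup G, τ.M' j ≤ K → K ≤ τ.M j →
      (∀ t, t ≠ 0 → ∃ k : τ.M j, (k : G) ∈ K ∧ cact (τ.M j) (h 0 * (h t)⁻¹) θ k ≠ θ k) →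
      ∀ n1 ∈ τ.M j,
        pr (fun y : K => ∏ t, (cact (τ.M (j + 1)) (n1 * (y : G) * h t) b) ^ (e t) = 1) ≤ 1 - δ := by
  obtain ⟨δ, hδ, hδ1, H⟩ := kill_chars m
  refine ⟨δ, hδ, hδ1, ?_⟩
  intro G _ _ n τ j hj hodd b hb
  have i1 := τ.nM (j + 1)
  have i2 := τ.nM j
  intro _ θ hθ h e he K hK1 hK2 hne n1 hn1
  obtain ⟨hθ1, hθ2, hθ3⟩ := hθ
  let μ : Fin (m + 1) → τ.M j →* (kk p)ˣ := fun t => cact (τ.M j) (h 0 * (h t)⁻¹) θ
  let w : Fin (m + 1) → τ.M (j + 1) → kk p := fun t v =>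
    ((e t : ℤ) : kk p) * ((((μ t) ⟨n1, hn1⟩ : (kk p)ˣ) : kk p) *
      comp (τ.M j) (τ.C j) (τ.M (j + 1)) (μ t) b
        ((MulAut.conjNormal (h t) : MulAut (τ.M (j + 1))) v))
  have hμ0 : μ 0 = θ := by
    ext q
    simp [μ, cact]
  have hw0 : w 0 ≠ 0 := by
    intro hw
    apply hθ3
    funext v
    have h1 := congrFun hw ((MulAut.conjNormal (h 0) : MulAut (τ.M (j + 1))).symm v)
    simp only [w, hμ0, MulEquiv.apply_symm_apply, Pi.zero_apply] at h1
    have h2 : ((e 0 : ℤ) : kk p) ≠ 0 := by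
      rcases he 0 with h3 | h3 <;> rw [h3] <;> simp
    have h3 := (mul_eq_zero.1 h1).resolve_left h2
    exact (mul_eq_zero.1 h3).resolve_left (Units.ne_zero _)
  have key := H (kk p) (τ.M (j + 1) → kk p) K (fun t => (μ t).comp (Subgroup.inclusion hK2)) w hw0
    (by
      intro t ht hcon
      obtain ⟨k, hk, hk2⟩ := hne t ht
      apply hk2
      have h1 := DFunLike.congr_fun hcon ⟨(k : G), hk⟩
      have h2 : Subgroup.inclusion hK2 ⟨(k : G), hk⟩ = k := Subtype.ext rfl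
      rw [hμ0] at h1
      simp only [MonoidHom.comp_apply, h2] at h1
      exact h1)
  refine le_trans (pr_mono ?_) key
  intro y hy
  have hyM : n1 * (y : G) ∈ τ.M j := mul_mem hn1 (hK2 y.2)
  -- the additive form of the product
  have hF : ∀ v : τ.M (j + 1), ∑ t, ((e t : ℤ) : kk p) *
      hat b ((MulAut.conjNormal (n1 * (y : G) * h t) : MulAut (τ.M (j + 1))) v) = 0 := by
    intro v
    have h1 := DFunLike.congr_fun hy v
    have h2 : ∑ t, ((e t : ℤ) : ZMod p) * Multiplicative.toAdd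
        (b ((MulAut.conjNormal (n1 * (y : G) * h t) : MulAut (τ.M (j + 1))) v)) = 0 := by
      have h3 := congrArg Multiplicative.toAdd h1
      rw [MonoidHom.finsetProd_apply] at h3
      simp only [toAdd_prod, MonoidHom.one_apply, toAdd_one] at h3
      rw [← h3]
      refine Finset.sum_congr rfl fun t _ => ?_
      rw [← zsmul_eq_mul, ← toAdd_zpow]
      rfl
    have h4 := congrArg (algebraMap (ZMod p) (kk p)) h2
    rw [map_sum, map_zero] at h4
    rw [← h4]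
    refine Finset.sum_congr rfl fun t _ => ?_
    rw [RingHom.map_mul, map_intCast]
    rfl
  funext v
  have hsum : ∀ q : τ.M j, ∑ t, ((cact (τ.M j) (h 0) θ q : (kk p)ˣ) : kk p)⁻¹ *
      (((e t : ℤ) : kk p) * hat b ((MulAut.conjNormal (n1 * (y : G) * h t * (q : G)) :
        MulAut (τ.M (j + 1))) v)) = 0 := by
    intro q
    rw [← Finset.mul_sum]
    have h1 := hF ((MulAut.conjNormal (q : G) : MulAut (τ.M (j + 1))) v)
    have h2 : ∀ t, (MulAut.conjNormal (n1 * (y : G) * h t) : MulAut (τ.M (j + 1)))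
        ((MulAut.conjNormal (q : G) : MulAut (τ.M (j + 1))) v) =
        (MulAut.conjNormal (n1 * (y : G) * h t * (q : G)) : MulAut (τ.M (j + 1))) v := by
      intro t
      rw [map_mul _ _ (q : G)]
      rfl
    simp only [h2] at h1
    rw [h1, mul_zero]
  have hsum2 : ∑ t, ∑ᶠ q : τ.M j ⧸ (τ.C j).subgroupOf (τ.M j),
      ((cact (τ.M j) (h 0) θ q.out : (kk p)ˣ) : kk p)⁻¹ *
      (((e t : ℤ) : kk p) * hat b ((MulAut.conjNormal (n1 * (y : G) * h t *
        ((q.out : τ.M j) : G)) : MulAut (τ.M (j + 1))) v)) = 0 := by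
    rw [← finsum_sum_comm]
    · simp only [hsum]
      exact finsum_zero
    · intro t _
      exact Set.toFinite _
  rw [Finset.sum_apply, Pi.zero_apply, ← hsum2]
  refine Finset.sum_congr rfl fun t _ => ?_
  have hc := killAB_comp τ (Nat.lt_of_succ_le hj) b hb θ hθ2 (h t) (h 0) (n1 * (y : G)) hyM v
  simp only [Pi.smul_apply, smul_eq_mul, w]
  have h5 : (μ t) ⟨n1 * (y : G), hyM⟩ = (μ t) ⟨n1, hn1⟩ *
      ((μ t).comp (Subgroup.inclusion hK2)) y := by
    rw [MonoidHom.comp_apply, ← map_mul]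
    rfl
  have h6 : (∑ᶠ q : τ.M j ⧸ (τ.C j).subgroupOf (τ.M j),
      ((cact (τ.M j) (h 0) θ q.out : (kk p)ˣ) : kk p)⁻¹ *
      (((e t : ℤ) : kk p) * hat b ((MulAut.conjNormal (n1 * (y : G) * h t *
        ((q.out : τ.M j) : G)) : MulAut (τ.M (j + 1))) v))) =
      ((e t : ℤ) : kk p) * ∑ᶠ q : τ.M j ⧸ (τ.C j).subgroupOf (τ.M j),
      ((cact (τ.M j) (h 0) θ q.out : (kk p)ˣ) : kk p)⁻¹ *
      (hat b ((MulAut.conjNormal (n1 * (y : G) * h t *
        ((q.out : τ.M j) : G)) : MulAut (τ.M (j + 1))) v)) := by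
    rw [mul_finsum]
    exact finsum_congr fun q => by ring
  rw [h6, hc]
  have h7 : (((μ t) ⟨n1 * (y : G), hyM⟩ : (kk p)ˣ) : kk p) = (((μ t) ⟨n1, hn1⟩ : (kk p)ˣ) : kk p) *
      ((((μ t).comp (Subgroup.inclusion hK2)) y : (kk p)ˣ) : kk p) := by
    rw [h5, Units.val_mul]
  change _ = ((e t : ℤ) : kk p) * ((((μ t) ⟨n1 * (y : G), hyM⟩ : (kk p)ˣ) : kk p) * _)
  rw [h7]
  ring

end Pool.Agent.PLen
end
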