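import Pool.Agent.Lib.MP_30fd2d_al.Mg.G003
import Pool.Agent.Lib.MP_30fd2d_al.Mg.G002

section

set_option autoImplicit false
set_option linter.unusedSectionVars false
set_option linter.unusedVariables false
set_option linter.style.haveILetI false

/-! The main contraction argument. -/

namespace Pool.Agent.PLen

open scoped BigOperators

variable {p : ℕ} [Fact p.Prime] {N : ℕ} {L : List (Fin N × Bool)} {i0 : Fin N}

theorem av_card {α Λ : Type*} [Finite α] [Finite Λ] (φ : α → Λ → Prop) :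
    av (fun a => (Nat.card {d // φ a d} : ℝ)) = ∑ᶠ d, pr (fun a => φ a d) := by
  classical
  have := Fintype.ofFinite Λ
  rw [finsum_eq_sum_of_fintype]
  have h1 : ∀ a, (Nat.card {d // φ a d} : ℝ) = ∑ d, ind (φ a d) := by
    intro a
    unfold ind
    rw [Finset.sum_boole, Nat.card_eq_fintype_card, Fintype.card_subtype]
  rw [show (fun a => (Nat.card {d // φ a d} : ℝ)) = fun a => ∑ d, ind (φ a d) from funext h1,
    av_sum]
  exact Finset.sum_congr rfl fun d _ => (pr_eq_av _).symm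

section Tow

variable {G : Type} [Group G] [Finite G] {n : ℕ}

theorem M'_anti (τ : Tower p G n) {i j : ℕ} (hij : i ≤ j) (hj : j ≤ n) : τ.M' j ≤ τ.M' i := by
  induction j, hij using Nat.le_induction with
  | base => exact le_rfl
  | succ j hij ih => exact ((τ.le (j + 1)).trans (τ.succ_le j (by omega))).trans (ih (by omega))

theorem M_le_M' (τ : Tower p G n) {i j : ℕ} (hij : i < j) (hj : j ≤ n) : τ.M j ≤ τ.M' i := by
  obtain ⟨k, rfl⟩ : ∃ k, j = k + 1 := ⟨j - 1, by omega⟩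
  exact (τ.succ_le k (by omega)).trans (M'_anti τ (by omega) (by omega))

/-- The probability that the value lies in the coset modulo `M' k`. -/
noncomputable def fv (w : FreeGroup (Fin N)) (τ : Tower p G n) (P : Sylow p G) (H : Subgroup G)
    (γ : G) (k : ℕ) : ℝ := pr (fun s : Smp (P : Subgroup G) N => EvM w H (τ.M' k) γ s)

theorem fv_anti (w : FreeGroup (Fin N)) (τ : Tower p G n) (P : Sylow p G) (H : Subgroup G)
    (γ : G) {i j : ℕ} (hij : i ≤ j) (hj : j ≤ n) : fv w τ P H γ j ≤ fv w τ P H γ i :=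
  pr_mono fun s hs => evM_mono _ _ (M'_anti τ hij hj) _ _ hs

theorem contr_all {δ ε : ℝ} (hδ0 : 0 ≤ δ) (hδ1 : δ ≤ 1) (hε : 0 ≤ ε) {h : ℕ}
    (hDK : DK1 p L i0 δ ε h) (τ : Tower p G n) (P : Sylow p G) (H : Subgroup G) (γ : G) {k : ℕ}
    (hk : h + 3 ≤ k) (hkn : k ≤ n) (hu : Useful τ H k) :
    fv (FreeGroup.mk L) τ P H γ k ≤ (1 - δ / 4) * fv (FreeGroup.mk L) τ P H γ (k - 3) + ε := by
  rcases Nat.even_or_odd k with hev | hodd
  · obtain ⟨j, rfl⟩ : ∃ j, k = j + 1 := ⟨k - 1, by omega⟩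
    have hj : Odd j := by
      rcases Nat.even_or_odd j with h1 | h1
      · exact absurd hev (by simpa using h1.add_one)
      · exact h1
    haveI := τ.nM j
    have h1 := contr_Y hδ0 hδ1 hε hDK τ P (by omega) hkn hj H γ hu
      (fun s => EvM (FreeGroup.mk L) H (τ.M j) γ s) (fun s m hm => evM_shift _ _ _ _ _ _ hm)
      (fun s u hu => evM_update _ _ _ _ _ _ (τ.anti (by omega) hu))
    have h2 : fv (FreeGroup.mk L) τ P H γ (j + 1) ≤
        pr (fun s : Smp (P : Subgroup G) N => EvM (FreeGroup.mk L) H (τ.M j) γ s ∧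
          EvM (FreeGroup.mk L) H (τ.M' (j + 1)) γ s) :=
      pr_mono fun s hs => ⟨evM_mono _ _ ((τ.le (j + 1)).trans (τ.anti (by omega))) _ _ hs, hs⟩
    have h3 : pr (fun s : Smp (P : Subgroup G) N => EvM (FreeGroup.mk L) H (τ.M j) γ s) ≤
        fv (FreeGroup.mk L) τ P H γ (j + 1 - 3) :=
      pr_mono fun s hs => evM_mono _ _ (M_le_M' τ (by omega) (by omega)) _ _ hs
    have h4 := pr_nonneg (fun s : Smp (P : Subgroup G) N => EvM (FreeGroup.mk L) H (τ.M j) γ s)
    nlinarith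
  · obtain ⟨j, rfl⟩ : ∃ j, k = j + 2 := ⟨k - 2, by omega⟩
    have hj : Odd j := by
      rcases Nat.even_or_odd j with h1 | h1
      · have : Even (j + 2) := by
          rcases h1 with ⟨a, ha⟩
          exact ⟨a + 1, by omega⟩
        exact absurd hodd (by simpa using this)
      · exact h1
    have h1 := contr_T hδ0 hδ1 hε hDK τ P (by omega) hkn hj H γ hu
    have h3 : pr (fun s : Smp (P : Subgroup G) N => EvM (FreeGroup.mk L) H (τ.M j) γ s) ≤
        fv (FreeGroup.mk L) τ P H γ (j + 2 - 3) :=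
      pr_mono fun s hs => evM_mono _ _ (M_le_M' τ (by omega) (by omega)) _ _ hs
    have h5 : fv (FreeGroup.mk L) τ P H γ (j + 2) =
      pr (fun s : Smp (P : Subgroup G) N => EvM (FreeGroup.mk L) H (τ.M' (j + 2)) γ s) := rfl
    rw [h5]
    nlinarith

end Tow

/-- Windows of useless layers. -/
theorem window_tower {δ : ℝ} (hδ0 : 0 < δ) (hδ1 : δ ≤ 1) (hD : DKP p L i0 δ) {α : ℝ}
    (hα : 0 < α) (ℓ h1 : ℕ) : ∃ h2 : ℕ, ∀ (G : Type) [Group G] [Finite G] (n : ℕ)
      (τ : Tower p G n) (P : Sylow p G) (H : Subgroup G) (γ : G) (K : ℕ), h2 ≤ K → K ≤ n →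
      Useful τ H K → α ≤ fv (FreeGroup.mk L) τ P H γ K →
      ∃ k, h1 ≤ k ∧ k ≤ K ∧ ℓ ≤ k ∧ Useful τ H k ∧ ∀ j, k - ℓ ≤ j → j < k → ¬ Useful τ H j := by
  obtain ⟨h, hDK⟩ := dk1 hδ1 hD (δ / 8 * α) (by positivity)
  obtain ⟨h2, hh2⟩ := window_seq (δ / 4) α (by linarith) (by linarith) hα ℓ (max h1 (h + 3))
  refine ⟨h2, ?_⟩
  intro G _ _ n τ P H γ K hK hKn hu hα'
  obtain ⟨k, hk1, hk2, hk3, hk4, hk5⟩ := hh2 K (fun k => fv (FreeGroup.mk L) τ P H γ k)
    (fun k => Useful τ H k) (δ / 8 * α) (by linarith)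
    (fun i j hij hj => fv_anti _ τ P H γ hij (by omega)) (fun i => pr_le_one _)
    (fun k hk1 hk2 hku => contr_all hδ0.le hδ1 (by positivity) hDK τ P H γ
      ((le_max_right _ _).trans hk1) (by omega) hku) hα' hK hu
  exact ⟨k, (le_max_left _ _).trans hk1, hk2, hk3, hk4, hk5⟩

section Tow2

variable {G : Type} [Group G] [Finite G] {n : ℕ}

theorem lam_avgT {A : ℝ} (hA : 0 ≤ A) {h : ℕ} {w : FreeGroup (Fin N)} (hT : SmallT p w A h)
    (τ : Tower p G n) (P : Sylow p G) (H : Subgroup G) {k : ℕ} (hk : h ≤ k) (hkn : k ≤ n)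
    (hodd : Odd k) {c0 : ℕ} (hc0 : 0 < c0)
    (hc : c0 ≤ Nat.card (Lam (τ.M k) (H ⊔ τ.M' k) (kk p)ˣ)) :
    haveI := τ.nM k
    (∑ᶠ d : Lam (τ.M k) (H ⊔ τ.M' k) (kk p)ˣ,
        pr (fun s : Smp (P : Subgroup G) N => om w s ∈ stab (τ.M k) d.1)) /
      (Nat.card (Lam (τ.M k) (H ⊔ τ.M' k) (kk p)ˣ) : ℝ) ≤ A + 1 / c0 := by
  haveI := τ.nM k
  haveI := finite_lamT τ H hkn hodd
  have hc0' : (0 : ℝ) < c0 := by exact_mod_cast hc0
  have h2 := avg_except (Λ := Lam (τ.M k) (H ⊔ τ.M' k) (kk p)ˣ)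
    (lam1 _ _ _) (fun d => pr (fun s : Smp (P : Subgroup G) N => om w s ∈ stab (τ.M k) d.1)) 1 A
    c0 hc0' (by exact_mod_cast hc) (pr_le_one _) ?_
  · refine h2.trans ?_
    have h3 : max (1 - A) 0 ≤ 1 := max_le (by linarith) zero_le_one
    have h4 : max (1 - A) 0 / (c0 : ℝ) ≤ 1 / c0 := div_le_div_of_nonneg_right h3 hc0'.le
    linarith
  · intro d hd
    have h5 := hT G n τ P k hk hkn hodd d.1 (lam_ne _ _ hd) (lam_triv τ H k d) 1
    simpa only [one_mul] using h5

/-- A useful layer with a long useless window below it. -/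
theorem useful_bound {A : ℝ} (hA : 0 ≤ A) {h : ℕ} (hT : SmallT p (FreeGroup.mk L) A h)
    (hY : SmallY p (FreeGroup.mk L) A h) (i0 : Fin N)
    (τ : Tower p G n) (P : Sylow p G) (H : Subgroup G) (γ : G) {k l c0 : ℕ} (hk : h ≤ k)
    (hkn : k ≤ n) (hu : Useful τ H k) (hl : l ≤ k) (huse : ∀ j, k - l ≤ j → j < k → ¬ Useful τ H j)
    (hc0 : 0 < c0) (hfac : c0.factorial < 2 ^ l) :
    fv (FreeGroup.mk L) τ P H γ k ≤ A + 1 / c0 := by
  haveI := τ.nM k
  have hc0' : (0 : ℝ) < c0 := by exact_mod_cast hc0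
  have h3 : max (1 - A) 0 ≤ 1 := max_le (by linarith) zero_le_one
  have h4 : max (1 - A) 0 / (c0 : ℝ) ≤ 1 / c0 := div_le_div_of_nonneg_right h3 hc0'.le
  rcases Nat.even_or_odd k with hev | hodd
  · haveI := finite_lamY τ H (j := k)
    have hcard := lam_huge τ H hkn hl huse (two_le_cardY τ H hkn hev hu) hfac
    have h1 := trans_Y τ L i0 P hkn hev H γ (fun _ => True) (fun _ _ _ => Iff.rfl)
      (fun _ _ _ => Iff.rfl)
    have h0 : fv (FreeGroup.mk L) τ P H γ k ≤
        pr (fun s : Smp (P : Subgroup G) N => True ∧ EvM (FreeGroup.mk L) H (τ.M' k) γ s) :=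
      pr_mono fun s hs => ⟨trivial, hs⟩
    refine (h0.trans h1).trans ?_
    refine (avg_except (Λ := Lam (τ.M k) (H ⊔ τ.M' k) (Multiplicative (ZMod p)))
      (lam1 _ _ _) _ 1 A c0 hc0' (by exact_mod_cast hcard.le) (pr_le_one _) ?_).trans
      (by linarith)
    intro b hb
    have h5 := hY G n τ P k hk hkn hev b.1 (lam_ne _ _ hb) (lam_triv τ H k b) 1
    refine le_trans (pr_mono fun s hs => ?_) h5
    rw [one_mul]
    exact hs.2.2.1
  · haveI := finite_lamT τ H hkn hodd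
    have hcard := lam_huge τ H hkn hl huse (two_le_cardT τ H hkn hodd hu) hfac
    have h1 := trans_T τ (FreeGroup.mk L) P hkn hodd H γ (fun _ => True) (fun _ _ _ => Iff.rfl)
    have h0 : fv (FreeGroup.mk L) τ P H γ k ≤
        pr (fun s : Smp (P : Subgroup G) N => True ∧ EvM (FreeGroup.mk L) H (τ.M' k) γ s) :=
      pr_mono fun s hs => ⟨trivial, hs⟩
    refine (h0.trans h1).trans ?_
    refine (avg_except (Λ := Lam (τ.M k) (H ⊔ τ.M' k) (kk p)ˣ)
      (lam1 _ _ _) _ 1 A c0 hc0' (by exact_mod_cast hcard.le) (pr_le_one _) ?_).trans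
      (by linarith)
    intro d hd
    have h5 := hT G n τ P k hk hkn hodd d.1 (lam_ne _ _ hd) (lam_triv τ H k d) 1
    refine le_trans (pr_mono fun s hs => ?_) h5
    rw [one_mul]
    exact hs.2.2

end Tow2

end Pool.Agent.PLen
end

section

set_option autoImplicit false
set_option linter.unusedSectionVars false
set_option linter.unusedVariables false
set_option linter.style.haveILetI false

/-! The main contraction argument, continued. -/

namespace Pool.Agent.PLen

open scoped BigOperators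

variable {p : ℕ} [Fact p.Prime] {N : ℕ} {L : List (Fin N × Bool)} {i0 : Fin N}

/-- Probability over a coset of a subgroup of `M` as a product. -/
theorem pr_coset {G : Type} [Group G] [Finite G] (M K : Subgroup G) (hK : K ≤ M) (n1 : G)
    (hn1 : n1 ∈ M) (φ : G → Prop) :
    pr (fun m : M => n1⁻¹ * (m : G) ∈ K ∧ φ m) =
      pr (fun κ : K => φ (n1 * (κ : G))) / (K.relIndex M : ℝ) := by
  have e : {m : M // n1⁻¹ * (m : G) ∈ K ∧ φ m} ≃ {κ : K // φ (n1 * (κ : G))} :=
    { toFun := fun m => ⟨⟨n1⁻¹ * (m.1 : G), m.2.1⟩, by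
        have h : n1 * (n1⁻¹ * ((m.1 : M) : G)) = m.1 := by group
        change φ (n1 * (n1⁻¹ * ((m.1 : M) : G)))
        rw [h]
        exact m.2.2⟩
      invFun := fun κ => ⟨⟨n1 * (κ.1 : G), mul_mem hn1 (hK κ.1.2)⟩, by
        refine ⟨?_, κ.2⟩
        change n1⁻¹ * (n1 * ((κ.1 : K) : G)) ∈ K
        rw [inv_mul_cancel_left]
        exact κ.1.2⟩
      left_inv := fun m => by
        apply Subtype.ext
        apply Subtype.ext
        change n1 * (n1⁻¹ * ((m.1 : M) : G)) = m.1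
        group
      right_inv := fun κ => by
        apply Subtype.ext
        apply Subtype.ext
        change n1⁻¹ * (n1 * ((κ.1 : K) : G)) = κ.1
        group }
  unfold pr
  rw [Nat.card_congr e]
  have h1 : (Nat.card K : ℝ) * (K.relIndex M : ℝ) = Nat.card M := by
    have := Subgroup.card_mul_index (K.subgroupOf M)
    rw [Nat.card_congr (Subgroup.subgroupOfEquivOfLe hK).toEquiv] at this
    exact_mod_cast this
  rw [← h1, div_div]

theorem supp_huge {G : Type} [Group G] [Finite G] {n : ℕ} (τ : Tower p G n) {j l : ℕ}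
    (hj : j + 1 ≤ n) (hodd : Odd j) (b : τ.M (j + 1) →* Multiplicative (ZMod p)) (hb : b ≠ 1)
    (hb' : ∀ x : τ.M (j + 1), (x : G) ∈ τ.M' (j + 1) → b x = 1)
    (hfix : haveI := τ.nM (j + 1); τ.M' j ≤ stab (τ.M (j + 1)) b) (hl : l ≤ j)
    (huse : haveI := τ.nM (j + 1); ∀ i, j - l ≤ i → i < j → ¬ Useful τ (stab (τ.M (j + 1)) b) i)
    {S : ℕ} (hS : S.factorial < 2 ^ l) : S ≤ (supp τ j b).ncard := by
  haveI := τ.nM (j + 1)
  haveI := τ.nM j
  have h1 := huge τ (stab (τ.M (j + 1)) b) (by omega : j ≤ n) hl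
    (fun i h1 h2 => not_not.1 (huse i h1 h2)) (supp τ j b) (supp_fin τ b)
    (supp_nonempty τ hj hodd b hb hb' hfix) (fun d hd => ⟨hd.1, hd.2.1⟩)
    (fun h hh d hd => supp_inv τ hj hodd b hb' h hh d hd)
  by_contra hcon
  push Not at hcon
  have h5 : (supp τ j b).ncard.factorial ≤ S.factorial := Nat.factorial_le hcon.le
  omega

/-- Lemma G. -/
theorem lemmaG {δ A η : ℝ} (hδ0 : 0 < δ) (hδ1 : δ ≤ 1 / 2) (hA : 0 < A) (hη : 0 < η)
    (hD : DKP p L i0 δ) {h : ℕ} (hT : SmallT p (FreeGroup.mk L) A h)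
    (hY : SmallY p (FreeGroup.mk L) A h) :
    ∃ h' : ℕ, ∀ (G : Type) [Group G] [Finite G] (n : ℕ) (τ : Tower p G n) (P : Sylow p G)
      (j : ℕ), h' ≤ j → j + 1 ≤ n → Odd j →
      ∀ b : τ.M (j + 1) →* Multiplicative (ZMod p), b ≠ 1 →
      (∀ x : τ.M (j + 1), (x : G) ∈ τ.M' (j + 1) → b x = 1) →
      haveI := τ.nM (j + 1)
      pr (fun s : Smp (P : Subgroup G) N => om (FreeGroup.mk L) s ∈ stab (τ.M (j + 1)) b ∧
        Dk (τ.M (j + 1)) b i0 s.1 L s.2 = 1) ≤ (1 - δ) * A + 3 * η := by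
  obtain ⟨c0, hc0⟩ := exists_nat_gt (1 / η)
  have hc0' : (0 : ℝ) < c0 := lt_trans (by positivity) hc0
  have hc0pos : 0 < c0 := by exact_mod_cast hc0'
  have hc0η : 1 / (c0 : ℝ) ≤ η := by
    rw [div_le_iff₀ hc0']
    rw [div_lt_iff₀ hη] at hc0
    linarith
  obtain ⟨ha, S, hDa⟩ := hD c0 η hη
  obtain ⟨hb1, hDK⟩ := dk1 (by linarith) hD η hη
  set ℓ : ℕ := (max c0 S).factorial with hℓ
  have hfac1 : c0.factorial < 2 ^ ℓ :=
    (Nat.factorial_le (le_max_left c0 S)).trans_lt Nat.lt_two_pow_self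
  have hfac2 : S.factorial < 2 ^ ℓ :=
    (Nat.factorial_le (le_max_right c0 S)).trans_lt Nat.lt_two_pow_self
  obtain ⟨h2, hW⟩ := window_tower hδ0 (by linarith) hD (by positivity : 0 < A / 2) ℓ h
  refine ⟨max (max ha hb1) (max h h2), ?_⟩
  intro G _ _ n τ P j hj hjn hodd b hb hb'
  haveI := τ.nM (j + 1)
  haveI := τ.nM j
  haveI := τ.nM' j
  set H := stab (τ.M (j + 1)) b with hH
  set w := FreeGroup.mk L with hw
  have hja : ha ≤ j := (le_max_left _ _).trans ((le_max_left _ _).trans hj)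
  have hjb : hb1 ≤ j := (le_max_right _ _).trans ((le_max_left _ _).trans hj)
  have hjh : h ≤ j := (le_max_left _ _).trans ((le_max_right _ _).trans hj)
  have hjh2 : h2 ≤ j := (le_max_right _ _).trans ((le_max_right _ _).trans hj)
  have huj : Useful τ H j := useful_stab τ (by omega) b hb hb'
  set g := pr (fun s : Smp (P : Subgroup G) N => om w s ∈ H ∧
        Dk (τ.M (j + 1)) b i0 s.1 L s.2 = 1) with hg
  by_cases hsmall : fv w τ P H 1 j < A / 2
  · have h1 : g ≤ fv w τ P H 1 j := pr_mono fun s hs => evM_of_stab _ _ _ _ hs.1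
    nlinarith
  push Not at hsmall
  obtain ⟨k, hk1, hk2, hk3, hk4, hk5⟩ := hW G n τ P H 1 j hjh2 (by omega) huj hsmall
  rcases Nat.lt_or_ge k j with hkj | hkj
  · -- a useful layer above
    have h1 := useful_bound hA.le hT hY i0 τ P H 1 hk1 (by omega) hk4 hk3 hk5 hc0pos hfac1
    have h2 := hDK G n τ P j hjb hjn hodd b hb hb' (fun s => EvM w H (τ.M j) 1 s)
      (fun s m hm => evM_shift _ _ _ _ _ _ hm)
    have h3 : g ≤ pr (fun s : Smp (P : Subgroup G) N => EvM w H (τ.M j) 1 s ∧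
        Dk (τ.M (j + 1)) b i0 s.1 L s.2 = 1) :=
      pr_mono fun s hs => ⟨evM_of_stab _ _ _ _ hs.1, hs.2⟩
    have h4 : pr (fun s : Smp (P : Subgroup G) N => EvM w H (τ.M j) 1 s) ≤ fv w τ P H 1 k :=
      pr_mono fun s hs => evM_mono _ _ (M_le_M' τ hkj (by omega)) _ _ hs
    have h5 : g ≤ (1 - δ) * (A + η) + η := by
      refine h3.trans (h2.trans ?_)
      have : (1 - δ) * pr (fun s : Smp (P : Subgroup G) N => EvM w H (τ.M j) 1 s) ≤
          (1 - δ) * (A + η) := mul_le_mul_of_nonneg_left (by linarith) (by linarith)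
      linarith
    nlinarith
  · -- only the layer `j` itself
    have hkj' : k = j := le_antisymm hk2 hkj
    subst hkj'
    haveI := finite_lamT τ H (by omega : k ≤ n) hodd
    have hcard := lam_huge τ H (by omega) hk3 hk5 (two_le_cardT τ H (by omega) hodd hk4) hfac1
    have hav := lam_avgT hA.le hT τ P H hk1 (by omega) hodd hc0pos hcard.le
    have hbad := hDa G n τ P k hja hjn hodd b hb hb' (by
      by_cases hfix : τ.M' k ≤ stab (τ.M (k + 1)) b
      · exact Or.inr (Or.inr (supp_huge τ hjn hodd b hb hb' hfix hk3 hk5 hfac2))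
      · exact Or.inr (Or.inl hfix))
    set B : Smp (P : Subgroup G) N → Prop := fun s =>
      ¬ ∀ K : Subgroup G, τ.M' k ≤ K → K ≤ τ.M k → K.relIndex (τ.M k) ≤ c0 →
            ∀ n1 ∈ τ.M k,
              pr (fun m : K => Dk (τ.M (k + 1)) b i0 s.1 L (n1 * (m : G) * s.2) = 1) ≤ 1 - δ
      with hB
    set Λ := Lam (τ.M k) (H ⊔ τ.M' k) (kk p)ˣ with hΛ
    have hΛpos : (0 : ℝ) < Nat.card Λ := lt_of_lt_of_le hc0' (by exact_mod_cast hcard.le)
    have h1 : g ≤ pr (fun s : Smp (P : Subgroup G) N => EvM w H (τ.M' k) 1 s ∧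
        Dk (τ.M (k + 1)) b i0 s.1 L s.2 = 1) :=
      pr_mono fun s hs => ⟨evM_of_stab _ _ _ _ hs.1, hs.2⟩
    have h2 : pr (fun s : Smp (P : Subgroup G) N => EvM w H (τ.M' k) 1 s ∧
        Dk (τ.M (k + 1)) b i0 s.1 L s.2 = 1) ≤
        av (fun s : Smp (P : Subgroup G) N =>
          ((1 - δ) * (Nat.card Λ : ℝ)⁻¹) * (Nat.card {d : Λ // om w s ∈ stab (τ.M k) d.1} : ℝ) +
            (η + ind (B s))) := by
      refine pr_fiber_le (β := τ.M k) (fun m => shiftL (m : G)) _ _ ?_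
      intro s
      obtain ⟨K, hK1, hK2, hK3, hK4⟩ := coset_T τ w P (by omega : k ≤ n) hodd H 1 s
      have hKpos : (0 : ℝ) < (K.relIndex (τ.M k) : ℝ) := by
        have : K.relIndex (τ.M k) ≠ 0 := by
          unfold Subgroup.relIndex
          exact Subgroup.index_ne_zero_of_finite
        exact_mod_cast Nat.pos_of_ne_zero this
      have hq : (Nat.card Λ : ℝ)⁻¹ * (Nat.card {d : Λ // om w s ∈ stab (τ.M k) d.1} : ℝ) =
          1 / (K.relIndex (τ.M k) : ℝ) := by
        have h3 : (K.relIndex (τ.M k) : ℝ) *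
            (Nat.card {d : Λ // om w s ∈ stab (τ.M k) d.1} : ℝ) = (Nat.card Λ : ℝ) := by
          exact_mod_cast hK3
        field_simp
        linarith
      rw [mul_assoc, hq]
      have hBn := ind_nonneg (B s)
      rcases hK4 with hemp | ⟨n1, hn1, hcos⟩
      · have h7 : pr (fun m : τ.M k => EvM w H (τ.M' k) 1 ((shiftL (m : G)) s) ∧
            Dk (τ.M (k + 1)) b i0 ((shiftL (m : G)) s).1 L ((shiftL (m : G)) s).2 = 1) = 0 := by
          apply pr_false
          intro m hm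
          exact hemp m m.2 hm.1
        rw [h7]
        have : 0 ≤ (1 - δ) * (1 / (K.relIndex (τ.M k) : ℝ)) :=
          mul_nonneg (by linarith) (by positivity)
        linarith
      · have h7 : pr (fun m : τ.M k => EvM w H (τ.M' k) 1 ((shiftL (m : G)) s) ∧
            Dk (τ.M (k + 1)) b i0 ((shiftL (m : G)) s).1 L ((shiftL (m : G)) s).2 = 1) =
            pr (fun κ : K => Dk (τ.M (k + 1)) b i0 s.1 L (n1 * (κ : G) * s.2) = 1) /
              (K.relIndex (τ.M k) : ℝ) := by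
          rw [← pr_coset (τ.M k) K hK2 n1 hn1
            (fun x => Dk (τ.M (k + 1)) b i0 s.1 L (x * s.2) = 1)]
          apply pr_congr
          intro m
          exact and_congr (hcos m m.2) Iff.rfl
        rw [h7]
        have hprn := pr_nonneg (fun κ : K => Dk (τ.M (k + 1)) b i0 s.1 L (n1 * (κ : G) * s.2) = 1)
        have hpr1 := pr_le_one (fun κ : K => Dk (τ.M (k + 1)) b i0 s.1 L (n1 * (κ : G) * s.2) = 1)
        have hKone : (1 : ℝ) ≤ (K.relIndex (τ.M k) : ℝ) := by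
          have : 0 < K.relIndex (τ.M k) := by exact_mod_cast hKpos
          exact_mod_cast this
        have hq0 : 0 ≤ (1 - δ) * (1 / (K.relIndex (τ.M k) : ℝ)) :=
          mul_nonneg (by linarith) (by positivity)
        by_cases hBs : B s
        · rw [ind_of hBs]
          have : pr (fun κ : K => Dk (τ.M (k + 1)) b i0 s.1 L (n1 * (κ : G) * s.2) = 1) /
              (K.relIndex (τ.M k) : ℝ) ≤ 1 := by
            rw [div_le_one hKpos]
            linarith
          linarith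
        · rcases Nat.lt_or_ge c0 (K.relIndex (τ.M k)) with hbig | hsm
          · have : pr (fun κ : K => Dk (τ.M (k + 1)) b i0 s.1 L (n1 * (κ : G) * s.2) = 1) /
              (K.relIndex (τ.M k) : ℝ) ≤ 1 / c0 := by
              apply div_le_div₀ zero_le_one hpr1 hc0'
              exact_mod_cast hbig.le
            linarith
          · have h4 : ∀ K : Subgroup G, τ.M' k ≤ K → K ≤ τ.M k → K.relIndex (τ.M k) ≤ c0 →
              ∀ n1 ∈ τ.M k,
              pr (fun m : K => Dk (τ.M (k + 1)) b i0 s.1 L (n1 * (m : G) * s.2) = 1) ≤ 1 - δ := by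
              by_contra hcon
              exact hBs hcon
            have h5 := h4 K hK1 hK2 hsm n1 hn1
            have : pr (fun κ : K => Dk (τ.M (k + 1)) b i0 s.1 L (n1 * (κ : G) * s.2) = 1) /
              (K.relIndex (τ.M k) : ℝ) ≤ (1 - δ) / (K.relIndex (τ.M k) : ℝ) :=
              div_le_div_of_nonneg_right h5 hKpos.le
            rw [mul_one_div]
            linarith
    rw [av_add, av_mul_left, av_card, av_add, av_const, ← pr_eq_av] at h2
    have h8 : (1 - δ) * (Nat.card Λ : ℝ)⁻¹ *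
        ∑ᶠ d : Λ, pr (fun s : Smp (P : Subgroup G) N => om w s ∈ stab (τ.M k) d.1) ≤
        (1 - δ) * (A + η) := by
      rw [mul_assoc]
      apply mul_le_mul_of_nonneg_left _ (by linarith)
      rw [inv_mul_eq_div]
      linarith
    have h9 : pr B ≤ η := hbad
    nlinarith

end Pool.Agent.PLen
end

section

set_option autoImplicit false
set_option linter.unusedSectionVars false
set_option linter.unusedVariables false
set_option linter.style.haveILetI false

/-! The main contraction argument, end. -/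

namespace Pool.Agent.PLen

open scoped BigOperators

variable {p : ℕ} [Fact p.Prime] {N : ℕ} {L : List (Fin N × Bool)} {i0 : Fin N}

theorem exists_c0 {η : ℝ} (hη : 0 < η) : ∃ c0 : ℕ, 0 < c0 ∧ 1 / (c0 : ℝ) ≤ η := by
  obtain ⟨c0, hc0⟩ := exists_nat_gt (1 / η)
  have hc0' : (0 : ℝ) < c0 := lt_trans (by positivity) hc0
  refine ⟨c0, by exact_mod_cast hc0', ?_⟩
  rw [div_le_iff₀ hc0']
  rw [div_lt_iff₀ hη] at hc0
  linarith

/-- The bound for the odd layers. -/
theorem boundT {δ A η : ℝ} (hδ0 : 0 < δ) (hδ1 : δ ≤ 1 / 2) (hA : 0 < A) (hη : 0 < η)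
    (hD : DKP p L i0 δ) {h : ℕ} (hT : SmallT p (FreeGroup.mk L) A h)
    (hY : SmallY p (FreeGroup.mk L) A h) :
    ∃ h' : ℕ, SmallT p (FreeGroup.mk L) ((1 - δ / 2) * A + 4 * η) h' := by
  obtain ⟨c0, hc0pos, hc0η⟩ := exists_c0 hη
  have hc0' : (0 : ℝ) < c0 := by exact_mod_cast hc0pos
  obtain ⟨hg, hG⟩ := lemmaG hδ0 hδ1 hA hη hD hT hY
  set ℓ : ℕ := c0.factorial with hℓ
  have hfac1 : c0.factorial < 2 ^ ℓ := Nat.lt_two_pow_self
  obtain ⟨h2, hW⟩ := window_tower hδ0 (by linarith) hD (by positivity : 0 < A / 2) ℓ h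
  refine ⟨hg + h + h2 + 2, ?_⟩
  intro G _ _ n τ P r hr hrn hodd d hd hd' γ
  obtain ⟨j, rfl⟩ : ∃ j, r = j + 2 := ⟨r - 2, by omega⟩
  have hj : Odd j := by
    rcases Nat.even_or_odd j with h1 | h1
    · have : Even (j + 2) := by
        rcases h1 with ⟨a, ha⟩
        exact ⟨a + 1, by omega⟩
      exact absurd hodd (by simpa using this)
    · exact h1
  haveI := τ.nM (j + 2)
  haveI := τ.nM (j + 1)
  haveI := τ.nM' (j + 1)
  set H := stab (τ.M (j + 2)) d with hH
  set w := FreeGroup.mk L with hw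
  have huj : Useful τ H (j + 1) := useful_stab τ (by omega) d hd hd'
  set g := pr (fun s : Smp (P : Subgroup G) N => γ * om w s ∈ H) with hg'
  have hgf : g ≤ fv w τ P H γ (j + 1) := pr_mono fun s hs => Subgroup.mem_sup_left hs
  by_cases hsmall : fv w τ P H γ (j + 1) < A / 2
  · have : g ≤ (1 - δ / 2) * A + 4 * η := by nlinarith
    exact this
  push Not at hsmall
  obtain ⟨k, hk1, hk2, hk3, hk4, hk5⟩ := hW G n τ P H γ (j + 1) (by omega) (by omega) huj hsmall
  haveI := finite_lamY τ H (j := j + 1)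
  have htr := trans_Y τ L i0 P (by omega : j + 1 ≤ n) hj.add_one H γ (fun _ => True)
    (fun _ _ _ => Iff.rfl) (fun _ _ _ => Iff.rfl)
  have h0 : fv w τ P H γ (j + 1) ≤
        pr (fun s : Smp (P : Subgroup G) N => True ∧ EvM w H (τ.M' (j + 1)) γ s) :=
    pr_mono fun s hs => ⟨trivial, hs⟩
  have hoth : ∀ b : Lam (τ.M (j + 1)) (H ⊔ τ.M' (j + 1)) (Multiplicative (ZMod p)),
      b ≠ lam1 _ _ _ → pr (fun s : Smp (P : Subgroup G) N =>
          True ∧ EvM (FreeGroup.mk L) H (τ.M (j + 1)) γ s ∧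
            om (FreeGroup.mk L) s ∈ stab (τ.M (j + 1)) b.1 ∧
            Dk (τ.M (j + 1)) b.1 i0 s.1 L s.2 = 1) ≤ (1 - δ) * A + 3 * η := by
    intro b hb
    refine le_trans (pr_mono fun s hs => ?_) (hG G n τ P j (by omega) (by omega) hj b.1
      (lam_ne _ _ hb) (lam_triv τ H (j + 1) b))
    exact hs.2.2
  have hBpos : 0 ≤ (1 - δ) * A + 3 * η := by
    have : 0 ≤ (1 - δ) * A := mul_nonneg (by linarith) hA.le
    linarith
  rcases Nat.lt_or_ge k (j + 1) with hkj | hkj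
  · have h1 := useful_bound hA.le hT hY i0 τ P H γ hk1 (by omega) hk4 hk3 hk5 hc0pos hfac1
    have h4 : pr (fun s : Smp (P : Subgroup G) N => EvM w H (τ.M (j + 1)) γ s) ≤
        fv w τ P H γ k :=
      pr_mono fun s hs => evM_mono _ _ (M_le_M' τ hkj (by omega)) _ _ hs
    have h5 := avg_except (Λ := Lam (τ.M (j + 1)) (H ⊔ τ.M' (j + 1)) (Multiplicative (ZMod p)))
      (lam1 _ _ _) _ (A + η) _ 2 (by norm_num)
      (by exact_mod_cast two_le_cardY τ H (by omega) hj.add_one huj)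
      ((pr_mono (fun s (hs : True ∧ EvM (FreeGroup.mk L) H (τ.M (j + 1)) γ s ∧ _ ∧ _) =>
        hs.2.1)).trans (by linarith)) hoth
    have h6 : max (A + η - ((1 - δ) * A + 3 * η)) 0 ≤ δ * A := by
      apply max_le
      · nlinarith
      · positivity
    have : g ≤ (1 - δ / 2) * A + 4 * η := by
      refine (hgf.trans (h0.trans (htr.trans h5))).trans ?_
      nlinarith
    exact this
  · have hkj' : k = j + 1 := le_antisymm hk2 hkj
    subst hkj'
    have hcard := lam_huge τ H (by omega : j + 1 ≤ n) hk3 hk5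
      (two_le_cardY τ H (by omega) hj.add_one huj) hfac1
    have h5 := avg_except (Λ := Lam (τ.M (j + 1)) (H ⊔ τ.M' (j + 1)) (Multiplicative (ZMod p)))
      (lam1 _ _ _) _ 1 _ c0 hc0' (by exact_mod_cast hcard.le) (pr_le_one _) hoth
    have h6 : max (1 - ((1 - δ) * A + 3 * η)) 0 / (c0 : ℝ) ≤ η := by
      have : max (1 - ((1 - δ) * A + 3 * η)) 0 ≤ 1 := max_le (by linarith) zero_le_one
      exact (div_le_div_of_nonneg_right this hc0'.le).trans hc0η
    have : g ≤ (1 - δ / 2) * A + 4 * η := by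
      refine (hgf.trans (h0.trans (htr.trans h5))).trans ?_
      nlinarith
    exact this

/-- The bound for the even layers. -/
theorem boundY {δ A η : ℝ} (hδ0 : 0 < δ) (hδ1 : δ ≤ 1 / 2) (hA : 0 < A) (hη : 0 < η)
    (hD : DKP p L i0 δ) {h : ℕ} (hT : SmallT p (FreeGroup.mk L) A h)
    (hY : SmallY p (FreeGroup.mk L) A h) :
    ∃ h' : ℕ, SmallY p (FreeGroup.mk L) ((1 - δ / 4) * A + 5 * η) h' := by
  obtain ⟨c0, hc0pos, hc0η⟩ := exists_c0 hη
  have hc0' : (0 : ℝ) < c0 := by exact_mod_cast hc0pos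
  obtain ⟨hg, hG⟩ := boundT hδ0 hδ1 hA hη hD hT hY
  set ℓ : ℕ := c0.factorial with hℓ
  have hfac1 : c0.factorial < 2 ^ ℓ := Nat.lt_two_pow_self
  obtain ⟨h2, hW⟩ := window_tower hδ0 (by linarith) hD (by positivity : 0 < A / 2) ℓ h
  refine ⟨hg + h + h2 + 2, ?_⟩
  intro G _ _ n τ P r hr hrn hev d hd hd' γ
  obtain ⟨j, rfl⟩ : ∃ j, r = j + 1 := ⟨r - 1, by omega⟩
  have hj : Odd j := by
    rcases Nat.even_or_odd j with h1 | h1
    · exact absurd hev (by simpa using h1.add_one)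
    · exact h1
  haveI := τ.nM (j + 1)
  haveI := τ.nM j
  haveI := τ.nM' j
  set H := stab (τ.M (j + 1)) d with hH
  set w := FreeGroup.mk L with hw
  have huj : Useful τ H j := useful_stab τ (by omega) d hd hd'
  set g := pr (fun s : Smp (P : Subgroup G) N => γ * om w s ∈ H) with hg'
  have hgf : g ≤ fv w τ P H γ j := pr_mono fun s hs => Subgroup.mem_sup_left hs
  by_cases hsmall : fv w τ P H γ j < A / 2
  · have : g ≤ (1 - δ / 4) * A + 5 * η := by nlinarith
    exact this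
  push Not at hsmall
  obtain ⟨k, hk1, hk2, hk3, hk4, hk5⟩ := hW G n τ P H γ j (by omega) (by omega) huj hsmall
  haveI := finite_lamT τ H (by omega : j ≤ n) hj
  have htr := trans_T τ w P (by omega : j ≤ n) hj H γ (fun _ => True) (fun _ _ _ => Iff.rfl)
  have h0 : fv w τ P H γ j ≤
        pr (fun s : Smp (P : Subgroup G) N => True ∧ EvM w H (τ.M' j) γ s) :=
    pr_mono fun s hs => ⟨trivial, hs⟩
  have hoth : ∀ b : Lam (τ.M j) (H ⊔ τ.M' j) (kk p)ˣ,
      b ≠ lam1 _ _ _ → pr (fun s : Smp (P : Subgroup G) N =>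
          True ∧ EvM w H (τ.M j) γ s ∧ om w s ∈ stab (τ.M j) b.1) ≤
          (1 - δ / 2) * A + 4 * η := by
    intro b hb
    refine le_trans (pr_mono fun s hs => ?_) (hG G n τ P j (by omega) (by omega) hj b.1
      (lam_ne _ _ hb) (lam_triv τ H j b) 1)
    rw [one_mul]
    exact hs.2.2
  have hBpos : 0 ≤ (1 - δ / 2) * A + 4 * η := by
    have : 0 ≤ (1 - δ / 2) * A := mul_nonneg (by linarith) hA.le
    linarith
  rcases Nat.lt_or_ge k j with hkj | hkj
  · have h1 := useful_bound hA.le hT hY i0 τ P H γ hk1 (by omega) hk4 hk3 hk5 hc0pos hfac1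
    have h4 : pr (fun s : Smp (P : Subgroup G) N => EvM w H (τ.M j) γ s) ≤
        fv w τ P H γ k :=
      pr_mono fun s hs => evM_mono _ _ (M_le_M' τ hkj (by omega)) _ _ hs
    have h5 := avg_except (Λ := Lam (τ.M j) (H ⊔ τ.M' j) (kk p)ˣ)
      (lam1 _ _ _) _ (A + η) _ 2 (by norm_num)
      (by exact_mod_cast two_le_cardT τ H (by omega) hj huj)
      ((pr_mono (fun s (hs : True ∧ EvM w H (τ.M j) γ s ∧ _) =>
        hs.2.1)).trans (by linarith)) hoth
    have h6 : max (A + η - ((1 - δ / 2) * A + 4 * η)) 0 ≤ δ / 2 * A := by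
      apply max_le
      · nlinarith
      · positivity
    have : g ≤ (1 - δ / 4) * A + 5 * η := by
      refine (hgf.trans (h0.trans (htr.trans h5))).trans ?_
      nlinarith
    exact this
  · have hkj' : k = j := le_antisymm hk2 hkj
    subst hkj'
    have hcard := lam_huge τ H (by omega : k ≤ n) hk3 hk5
      (two_le_cardT τ H (by omega) hj huj) hfac1
    have h5 := avg_except (Λ := Lam (τ.M k) (H ⊔ τ.M' k) (kk p)ˣ)
      (lam1 _ _ _) _ 1 _ c0 hc0' (by exact_mod_cast hcard.le) (pr_le_one _) hoth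
    have h6 : max (1 - ((1 - δ / 2) * A + 4 * η)) 0 / (c0 : ℝ) ≤ η := by
      have : max (1 - ((1 - δ / 2) * A + 4 * η)) 0 ≤ 1 := max_le (by linarith) zero_le_one
      exact (div_le_div_of_nonneg_right this hc0'.le).trans hc0η
    have : g ≤ (1 - δ / 4) * A + 5 * η := by
      refine (hgf.trans (h0.trans (htr.trans h5))).trans ?_
      nlinarith
    exact this

theorem SmallT.mono {w : FreeGroup (Fin N)} {ε ε' : ℝ} {h h' : ℕ} (hs : SmallT p w ε h)
    (hε : ε ≤ ε') (hh : h ≤ h') : SmallT p w ε' h' := by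
  intro G _ _ n τ P j hj hjn hodd d hd hd' γ
  exact (hs G n τ P j (hh.trans hj) hjn hodd d hd hd' γ).trans hε

theorem SmallY.mono {w : FreeGroup (Fin N)} {ε ε' : ℝ} {h h' : ℕ} (hs : SmallY p w ε h)
    (hε : ε ≤ ε') (hh : h ≤ h') : SmallY p w ε' h' := by
  intro G _ _ n τ P j hj hjn hodd d hd hd' γ
  exact (hs G n τ P j (hh.trans hj) hjn hodd d hd hd' γ).trans hε

/-- The contraction step. -/
theorem key_step {δ A : ℝ} (hδ0 : 0 < δ) (hδ1 : δ ≤ 1 / 2) (hA : 0 < A)
    (hD : DKP p L i0 δ) (hs : ∃ h : ℕ, SmallT p (FreeGroup.mk L) A h ∧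
    SmallY p (FreeGroup.mk L) A h) :
    ∃ h : ℕ, SmallT p (FreeGroup.mk L) ((1 - δ / 8) * A) h ∧
      SmallY p (FreeGroup.mk L) ((1 - δ / 8) * A) h := by
  obtain ⟨h, hT, hY⟩ := hs
  obtain ⟨h1, hT1⟩ := boundT hδ0 hδ1 hA (by positivity : 0 < δ * A / 40) hD hT hY
  obtain ⟨h2, hY2⟩ := boundY hδ0 hδ1 hA (by positivity : 0 < δ * A / 40) hD hT hY
  refine ⟨max h1 h2, hT1.mono ?_ (le_max_left _ _), hY2.mono ?_ (le_max_right _ _)⟩
  · nlinarith [mul_pos hδ0 hA]
  · nlinarith [mul_pos hδ0 hA]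

/-- Smallness of all probabilities for cyclically reduced words. -/
theorem key_small {δ : ℝ} (hδ0 : 0 < δ) (hδ1 : δ ≤ 1 / 2) (hD : DKP p L i0 δ) (ε : ℝ)
    (hε : 0 < ε) : ∃ h : ℕ, SmallT p (FreeGroup.mk L) ε h ∧ SmallY p (FreeGroup.mk L) ε h := by
  have hstep : ∀ i : ℕ, ∃ h : ℕ, SmallT p (FreeGroup.mk L) ((1 - δ / 8) ^ i) h ∧
      SmallY p (FreeGroup.mk L) ((1 - δ / 8) ^ i) h := by
    intro i
    induction i with
    | zero =>
      refine ⟨0, ?_, ?_⟩
      · intro G _ _ n τ P j hj hjn hodd d hd hd' γ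
        rw [pow_zero]
        exact pr_le_one _
      · intro G _ _ n τ P j hj hjn hodd d hd hd' γ
        rw [pow_zero]
        exact pr_le_one _
    | succ i ih =>
      rw [pow_succ']
      exact key_step hδ0 hδ1 (pow_pos (by linarith) i) hD ih
  obtain ⟨i, hi⟩ := exists_pow_lt_of_lt_one hε (by linarith : 1 - δ / 8 < 1)
  obtain ⟨h, hT, hY⟩ := hstep i
  exact ⟨h, hT.mono hi.le le_rfl, hY.mono hi.le le_rfl⟩

end Pool.Agent.PLen
end
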