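import Pool.Agent.Lib.MP_30fd2d_al.Defs2

section

set_option autoImplicit false

/-! The commutator pairing attached to a character of `M' j`. -/

namespace Pool.Agent.PLen

open Classical in
/-- `ζ` applied to the commutator of `x` and `y` (junk value `1` if it is not in the domain). -/
noncomputable def brf {G : Type} [Group G] {A : Type*} [CommGroup A] {M : Subgroup G}
    (ζ : M →* A) (x y : G) : A :=
  if h : x * y * x⁻¹ * y⁻¹ ∈ M then ζ ⟨x * y * x⁻¹ * y⁻¹, h⟩ else 1

end Pool.Agent.PLen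
end

section

set_option autoImplicit false

/-! T4. Duality. -/

namespace Pool.Agent.PLen

open scoped BigOperators

private theorem dual_normal {A : Type} [Group A] (K : Subgroup A)
    (hK : ∀ x y : A, x * y * x⁻¹ * y⁻¹ ∈ K) : K.Normal := by
  refine ⟨fun n hn g => ?_⟩
  have h := K.mul_mem (hK g n) hn
  simpa using h

private theorem dual_comm {A : Type} [Group A] (K : Subgroup A) [K.Normal]
    (hK : ∀ x y : A, x * y * x⁻¹ * y⁻¹ ∈ K) (a b : A ⧸ K) : a * b = b * a := by
  induction a using QuotientGroup.induction_on with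
  | H x =>
    induction b using QuotientGroup.induction_on with
    | H y =>
      rw [← QuotientGroup.mk_mul, ← QuotientGroup.mk_mul]
      refine (QuotientGroup.eq.2 ?_).symm
      have h := hK x⁻¹ y⁻¹
      have h2 := K.inv_mem h
      have h3 : (y * x)⁻¹ * (x * y) = x⁻¹ * y⁻¹ * x⁻¹⁻¹ * y⁻¹⁻¹ := by group
      rw [h3]; exact h

/-- Homomorphisms trivial on `K` are the homomorphisms of the quotient. -/
private def dual_equiv {A B : Type*} [Group A] [Monoid B] (K : Subgroup A) [K.Normal] :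
    {b : A →* B // ∀ x ∈ K, b x = 1} ≃ (A ⧸ K →* B) where
  toFun b := QuotientGroup.lift K b.1 b.2
  invFun c := ⟨c.comp (QuotientGroup.mk' K), fun x hx => by
    have : (QuotientGroup.mk' K) x = 1 := (QuotientGroup.eq_one_iff x).2 hx
    rw [MonoidHom.comp_apply, this, map_one]⟩
  left_inv b := by
    ext x
    rfl
  right_inv c := by
    ext x
    rfl

private theorem dual_aux {M : Type*} [CommMonoid M] {A : Type} [Group A] [Finite A]
    (K : Subgroup A) (hK : ∀ x y : A, x * y * x⁻¹ * y⁻¹ ∈ K)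
    (hM : ∀ [K.Normal], HasEnoughRootsOfUnity M (Monoid.exponent (A ⧸ K))) :
    Nat.card {b : A →* Mˣ // ∀ x ∈ K, b x = 1} = K.index ∧
    ∀ a : A, a ∉ K → ∃ b : A →* Mˣ, (∀ x ∈ K, b x = 1) ∧ b a ≠ 1 := by
  have := dual_normal K hK
  let : CommGroup (A ⧸ K) :=
    { (inferInstance : Group (A ⧸ K)) with mul_comm := dual_comm K hK }
  have : HasEnoughRootsOfUnity M (Monoid.exponent (A ⧸ K)) := hM
  refine ⟨?_, fun a ha => ?_⟩
  · rw [Nat.card_congr (dual_equiv (B := Mˣ) K)]
    have h := CommGroup.card_monoidHom_of_hasEnoughRootsOfUnity (A ⧸ K) M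
    rw [Subgroup.index, ← h]
  · have h1 : ((a : A) : A ⧸ K) ≠ 1 := fun h => ha ((QuotientGroup.eq_one_iff a).1 h)
    obtain ⟨φ, hφ⟩ := CommGroup.exists_apply_ne_one_of_hasEnoughRootsOfUnity (A ⧸ K) M h1
    exact ⟨((dual_equiv (B := Mˣ) K).symm φ).1, ((dual_equiv (B := Mˣ) K).symm φ).2, hφ⟩

private theorem dual_roots_kk {p : ℕ} [Fact p.Prime] {A : Type} [Group A] [Finite A]
    (K : Subgroup A) [K.Normal] (hc : K.index.Coprime p) :
    HasEnoughRootsOfUnity (kk p) (Monoid.exponent (A ⧸ K)) := by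
  have h1 : Monoid.exponent (A ⧸ K) ∣ K.index := Group.exponent_dvd_nat_card
  have h2 : (Monoid.exponent (A ⧸ K)).Coprime p := Nat.Coprime.coprime_dvd_left h1 hc
  have : NeZero ((Monoid.exponent (A ⧸ K) : ℕ) : ZMod p) := by
    refine ⟨fun h => ?_⟩
    rw [ZMod.natCast_eq_zero_iff] at h
    have h3 : p ∣ 1 := by
      rw [← h2]
      exact Nat.dvd_gcd h (dvd_refl p)
    exact (Fact.out : p.Prime).one_lt.ne' (Nat.dvd_one.1 h3)
  exact AlgebraicClosure.hasEnoughRootsOfUnity (ZMod p) _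

private theorem dual_roots_Y {p : ℕ} [Fact p.Prime] {A : Type} [Group A] [Finite A]
    (K : Subgroup A) [K.Normal] (hp : ∀ x : A, x ^ p ∈ K) :
    HasEnoughRootsOfUnity (Multiplicative (ZMod p)) (Monoid.exponent (A ⧸ K)) := by
  have hpp : p.Prime := Fact.out
  have h1 : Monoid.exponent (A ⧸ K) ∣ p := by
    refine Monoid.exponent_dvd_of_forall_pow_eq_one fun a => ?_
    induction a using QuotientGroup.induction_on with
    | H x =>
      rw [← QuotientGroup.mk_pow]
      exact (QuotientGroup.eq_one_iff _).2 (hp x)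
  have : NeZero p := ⟨hpp.ne_zero⟩
  have : HasEnoughRootsOfUnity (Multiplicative (ZMod p)) p := by
    refine ⟨⟨Multiplicative.ofAdd 1, ?_⟩, ?_⟩
    · rw [IsPrimitiveRoot.iff_orderOf, orderOf_ofAdd_eq_addOrderOf, ZMod.addOrderOf_one]
    · have : IsCyclic (Multiplicative (ZMod p))ˣ :=
        isCyclic_of_surjective (toUnits (G := Multiplicative (ZMod p)))
          (toUnits (G := Multiplicative (ZMod p))).surjective
      infer_instance
  exact HasEnoughRootsOfUnity.of_dvd _ h1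

/-- Number of characters of a finite group trivial on a subgroup containing all commutators
and of index prime to `p`. -/
theorem dual_gen {p : ℕ} [Fact p.Prime] {A : Type} [Group A] [Finite A] (K : Subgroup A)
    (hK : ∀ x y : A, x * y * x⁻¹ * y⁻¹ ∈ K) (hc : K.index.Coprime p) :
    Nat.card {b : A →* (kk p)ˣ // ∀ x ∈ K, b x = 1} = K.index :=
  (dual_aux K hK (dual_roots_kk K hc)).1

theorem sep_gen {p : ℕ} [Fact p.Prime] {A : Type} [Group A] [Finite A] (K : Subgroup A)
    (hK : ∀ x y : A, x * y * x⁻¹ * y⁻¹ ∈ K) (hc : K.index.Coprime p) (a : A) (ha : a ∉ K) :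
    ∃ b : A →* (kk p)ˣ, (∀ x ∈ K, b x = 1) ∧ b a ≠ 1 :=
  (dual_aux K hK (dual_roots_kk K hc)).2 a ha

/-- The set of characters is finite. -/
theorem finite_chars {p : ℕ} [Fact p.Prime] {A : Type} [Group A] [Finite A] :
    Finite (A →* (kk p)ˣ) := by
  classical
  have : NeZero (Monoid.exponent A) := ⟨Monoid.exponent_ne_zero_of_finite⟩
  let S := rootsOfUnity (Monoid.exponent A) (kk p)
  have : Finite S := inferInstance
  have : Finite (A →* S) := .of_injective _ DFunLike.coe_injective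
  refine .of_surjective S.subtype.comp fun f ↦ ?_
  have H a : f a ∈ S := by
    rw [mem_rootsOfUnity, ← map_pow, Monoid.pow_exponent_eq_one, map_one]
  exact ⟨.codRestrict f S H, MonoidHom.ext fun _ ↦ by simp⟩

/-- The same for elementary abelian `p`-quotients and functionals to `ZMod p`. -/
theorem dual_genY {p : ℕ} [Fact p.Prime] {A : Type} [Group A] [Finite A] (K : Subgroup A)
    (hK : ∀ x y : A, x * y * x⁻¹ * y⁻¹ ∈ K) (hp : ∀ x : A, x ^ p ∈ K) :
    Nat.card {b : A →* Multiplicative (ZMod p) // ∀ x ∈ K, b x = 1} = K.index := by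
  rw [← (dual_aux (M := Multiplicative (ZMod p)) K hK (dual_roots_Y K hp)).1]
  refine Nat.card_congr ?_
  refine
    { toFun := fun b => ⟨(toUnits (G := Multiplicative (ZMod p))).toMonoidHom.comp b.1,
        fun x hx => by
          rw [MonoidHom.comp_apply, b.2 x hx, map_one]⟩
      invFun := fun b => ⟨(toUnits (G := Multiplicative (ZMod p))).symm.toMonoidHom.comp b.1,
        fun x hx => by
          rw [MonoidHom.comp_apply, b.2 x hx, map_one]⟩
      left_inv := fun b => by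
        apply Subtype.ext
        ext x
        simp
      right_inv := fun b => by
        apply Subtype.ext
        ext x
        simp }

theorem sep_genY {p : ℕ} [Fact p.Prime] {A : Type} [Group A] [Finite A] (K : Subgroup A)
    (hK : ∀ x y : A, x * y * x⁻¹ * y⁻¹ ∈ K) (hp : ∀ x : A, x ^ p ∈ K) (a : A) (ha : a ∉ K) :
    ∃ b : A →* Multiplicative (ZMod p), (∀ x ∈ K, b x = 1) ∧ b a ≠ 1 := by
  obtain ⟨b, hb, hba⟩ :=
    (dual_aux (M := Multiplicative (ZMod p)) K hK (dual_roots_Y K hp)).2 a ha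
  refine ⟨(toUnits (G := Multiplicative (ZMod p))).symm.toMonoidHom.comp b, fun x hx => ?_,
    fun h => hba ?_⟩
  · rw [MonoidHom.comp_apply, hb x hx, map_one]
  · have h2 : (toUnits (G := Multiplicative (ZMod p))).symm (b a) = 1 := h
    exact (MulEquiv.map_eq_one_iff _).1 h2

theorem dualT {p : ℕ} [Fact p.Prime] {G : Type} [Group G] [Finite G] {n : ℕ} (τ : Tower p G n)
    {j : ℕ} (hj : j ≤ n) (hodd : Odd j) (K : Subgroup (τ.M j))
    (hK : (τ.M' j).subgroupOf (τ.M j) ≤ K) :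
    Nat.card {b : τ.M j →* (kk p)ˣ // ∀ x ∈ K, b x = 1} = K.index := by
  refine dual_gen K (fun x y => hK ?_) ?_
  · rw [Subgroup.mem_subgroupOf]
    exact τ.ab j hj x x.2 y y.2
  · exact Nat.Coprime.coprime_dvd_left (Subgroup.index_dvd_of_le hK) (τ.tyT j hj hodd)

theorem dualY {p : ℕ} [Fact p.Prime] {G : Type} [Group G] [Finite G] {n : ℕ} (τ : Tower p G n)
    {j : ℕ} (hj : j ≤ n) (hev : Even j) (K : Subgroup (τ.M j))
    (hK : (τ.M' j).subgroupOf (τ.M j) ≤ K) :
    Nat.card {b : τ.M j →* Multiplicative (ZMod p) // ∀ x ∈ K, b x = 1} = K.index := by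
  refine dual_genY K (fun x y => hK ?_) (fun x => hK ?_)
  · rw [Subgroup.mem_subgroupOf]
    exact τ.ab j hj x x.2 y y.2
  · rw [Subgroup.mem_subgroupOf]
    exact τ.tyY j hj hev x x.2

end Pool.Agent.PLen
end

section

set_option autoImplicit false
set_option linter.unusedSectionVars false
set_option linter.unusedVariables false

/-!
Elementary facts on uniform probabilities and averages over finite types.
-/

namespace Pool.Agent.PLen

open scoped BigOperators

section Av

variable {α β : Type*} [Finite α] [Finite β]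

/-- Average of a real function over a finite type. -/
noncomputable def av (f : α → ℝ) : ℝ := (∑ᶠ a, f a) / (Nat.card α : ℝ)

open Classical in
/-- Indicator function. -/
noncomputable def ind (φ : Prop) : ℝ := if φ then 1 else 0

theorem ind_nonneg (φ : Prop) : 0 ≤ ind φ := by
  unfold ind; split <;> norm_num

theorem ind_le_one (φ : Prop) : ind φ ≤ 1 := by
  unfold ind; split <;> norm_num

theorem ind_mono {φ ψ : Prop} (h : φ → ψ) : ind φ ≤ ind ψ := by
  unfold ind
  by_cases h1 : φ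
  · rw [if_pos h1, if_pos (h h1)]
  · rw [if_neg h1]; split <;> norm_num

theorem ind_of {φ : Prop} (h : φ) : ind φ = 1 := by unfold ind; rw [if_pos h]

theorem ind_not {φ : Prop} (h : ¬ φ) : ind φ = 0 := by unfold ind; rw [if_neg h]

theorem av_eq [Fintype α] (f : α → ℝ) : av f = (∑ a, f a) / (Fintype.card α : ℝ) := by
  unfold av
  rw [finsum_eq_sum_of_fintype, Nat.card_eq_fintype_card]

theorem av_mono {f g : α → ℝ} (h : ∀ a, f a ≤ g a) : av f ≤ av g := by
  classical
  have := Fintype.ofFinite α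
  rw [av_eq, av_eq]
  exact div_le_div_of_nonneg_right (Finset.sum_le_sum fun a _ => h a) (Nat.cast_nonneg _)

theorem av_congr {f g : α → ℝ} (h : ∀ a, f a = g a) : av f = av g := by
  rw [funext h]

theorem av_add (f g : α → ℝ) : av (fun a => f a + g a) = av f + av g := by
  classical
  have := Fintype.ofFinite α
  rw [av_eq, av_eq, av_eq, Finset.sum_add_distrib, add_div]

theorem av_mul_left (c : ℝ) (f : α → ℝ) : av (fun a => c * f a) = c * av f := by
  classical
  have := Fintype.ofFinite α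
  rw [av_eq, av_eq, ← Finset.mul_sum, mul_div_assoc]

theorem av_sum {ι : Type*} (s : Finset ι) (f : ι → α → ℝ) :
    av (fun a => ∑ i ∈ s, f i a) = ∑ i ∈ s, av (f i) := by
  classical
  have := Fintype.ofFinite α
  simp only [av_eq]
  rw [Finset.sum_comm, Finset.sum_div]

theorem av_const [Nonempty α] (c : ℝ) : av (fun _ : α => c) = c := by
  classical
  have := Fintype.ofFinite α
  rw [av_eq, Finset.sum_const, Finset.card_univ, nsmul_eq_mul]
  have : (Fintype.card α : ℝ) ≠ 0 := by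
    exact_mod_cast Fintype.card_ne_zero
  field_simp

theorem av_nonneg {f : α → ℝ} (h : ∀ a, 0 ≤ f a) : 0 ≤ av f := by
  classical
  have := Fintype.ofFinite α
  rw [av_eq]
  exact div_nonneg (Finset.sum_nonneg fun a _ => h a) (Nat.cast_nonneg _)

theorem av_equiv (e : α ≃ β) (f : β → ℝ) : av (fun a => f (e a)) = av f := by
  classical
  have := Fintype.ofFinite α
  have := Fintype.ofFinite β
  rw [av_eq, av_eq, Fintype.card_congr e, Equiv.sum_comp e]

theorem av_comm (f : α → β → ℝ) : av (fun a => av (f a)) = av (fun b => av (fun a => f a b)) := by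
  classical
  have := Fintype.ofFinite α
  have := Fintype.ofFinite β
  simp only [av_eq]
  rw [← Finset.sum_div, ← Finset.sum_div, Finset.sum_comm, div_div, div_div, mul_comm]

theorem pr_eq_av (φ : α → Prop) : pr φ = av (fun a => ind (φ a)) := by
  classical
  have := Fintype.ofFinite α
  rw [av_eq]
  unfold pr ind
  rw [Finset.sum_boole, Nat.card_eq_fintype_card, Nat.card_eq_fintype_card, Fintype.card_subtype]

theorem pr_nonneg (φ : α → Prop) : 0 ≤ pr φ := by
  unfold pr; positivity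

theorem pr_mono {φ ψ : α → Prop} (h : ∀ a, φ a → ψ a) : pr φ ≤ pr ψ := by
  rw [pr_eq_av, pr_eq_av]
  exact av_mono fun a => ind_mono (h a)

theorem pr_congr {φ ψ : α → Prop} (h : ∀ a, φ a ↔ ψ a) : pr φ = pr ψ := by
  have : φ = ψ := funext fun a => propext (h a)
  rw [this]

theorem pr_le_one (φ : α → Prop) : pr φ ≤ 1 := by
  unfold pr
  rcases Nat.eq_zero_or_pos (Nat.card α) with h | h
  · rw [h]; simp
  · rw [div_le_one (by exact_mod_cast h)]
    exact_mod_cast Nat.card_le_card_of_injective _ Subtype.val_injective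

theorem pr_true [Nonempty α] {φ : α → Prop} (h : ∀ a, φ a) : pr φ = 1 := by
  rw [pr_eq_av]
  simp only [ind_of (h _)]
  exact av_const 1

theorem pr_false {φ : α → Prop} (h : ∀ a, ¬ φ a) : pr φ = 0 := by
  rw [pr_eq_av]
  simp only [ind_not (h _)]
  unfold av
  simp

theorem pr_or_le (φ ψ : α → Prop) : pr (fun a => φ a ∨ ψ a) ≤ pr φ + pr ψ := by
  rw [pr_eq_av, pr_eq_av, pr_eq_av, ← av_add]
  refine av_mono fun a => ?_
  by_cases h1 : φ a
  · have := ind_nonneg (ψ a)
    have h2 := ind_le_one (φ a ∨ ψ a)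
    rw [ind_of h1]; linarith
  · by_cases h2 : ψ a
    · have := ind_nonneg (φ a)
      have h3 := ind_le_one (φ a ∨ ψ a)
      rw [ind_of h2]; linarith
    · rw [ind_not h1, ind_not h2, ind_not (by tauto)]; norm_num

theorem pr_exists_le {ι : Type*} (s : Finset ι) (φ : ι → α → Prop) :
    pr (fun a => ∃ i ∈ s, φ i a) ≤ ∑ i ∈ s, pr (φ i) := by
  simp only [pr_eq_av]
  rw [← av_sum]
  refine av_mono fun a => ?_
  by_cases h : ∃ i ∈ s, φ i a
  · obtain ⟨i, hi, h1⟩ := h
    have h2 := ind_le_one (∃ i ∈ s, φ i a)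
    have h3 : ind (φ i a) ≤ ∑ i ∈ s, ind (φ i a) :=
      Finset.single_le_sum (f := fun i => ind (φ i a)) (fun i _ => ind_nonneg _) hi
    rw [ind_of h1] at h3
    linarith
  · rw [ind_not h]
    exact Finset.sum_nonneg fun i _ => ind_nonneg _

theorem pr_equiv (e : α ≃ β) (φ : β → Prop) : pr (fun a => φ (e a)) = pr φ := by
  rw [pr_eq_av, pr_eq_av]
  exact av_equiv e fun b => ind (φ b)

/-- Averaging a probability over a family of bijections. -/
theorem pr_fiber [Nonempty β] (e : β → α ≃ α) (φ : α → Prop) :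
    pr φ = av (fun a => pr (fun b => φ (e b a))) := by
  have h1 : pr φ = av (fun _ : β => pr φ) := (av_const _).symm
  rw [h1]
  have h2 : ∀ b : β, pr φ = av (fun a => ind (φ (e b a))) := by
    intro b
    rw [pr_eq_av]
    exact (av_equiv (e b) fun a => ind (φ a)).symm
  rw [show (fun _ : β => pr φ) = fun b => av (fun a => ind (φ (e b a))) from funext h2]
  rw [av_comm]
  exact av_congr fun a => (pr_eq_av _).symm

theorem pr_fiber_le [Nonempty β] (e : β → α ≃ α) (φ : α → Prop) (f : α → ℝ)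
    (h : ∀ a, pr (fun b => φ (e b a)) ≤ f a) : pr φ ≤ av f := by
  rw [pr_fiber e φ]
  exact av_mono h

/-- Markov's inequality. -/
theorem markov {f : α → ℝ} (hf : ∀ a, 0 ≤ f a) {t : ℝ} (ht : 0 < t) :
    pr (fun a => t ≤ f a) ≤ av f / t := by
  rw [le_div_iff₀ ht, mul_comm, pr_eq_av, ← av_mul_left]
  refine av_mono fun a => ?_
  by_cases h : t ≤ f a
  · rw [ind_of h]; linarith
  · rw [ind_not h]; linarith [hf a]

theorem pr_lt_of (φ : α → Prop) (h : pr φ < 1) [Nonempty α] : ∃ a, ¬ φ a := by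
  by_contra hcon
  push Not at hcon
  rw [pr_true hcon] at h
  exact lt_irrefl _ h

end Av

section Shift

variable {G : Type} [Group G] [Finite G] {N : ℕ} {P : Subgroup G}

/-- Left translation of the conjugating element. -/
def shiftL (n : G) : Smp P N ≃ Smp P N where
  toFun s := (s.1, n * s.2)
  invFun s := (s.1, n⁻¹ * s.2)
  left_inv s := by simp
  right_inv s := by simp

/-- Right translation of the conjugating element by a word value. -/
def shiftR (u : FreeGroup (Fin N)) : Smp P N ≃ Smp P N where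
  toFun s := (s.1, s.2 * ev s.1 u)
  invFun s := (s.1, s.2 * (ev s.1 u)⁻¹)
  left_inv s := by simp
  right_inv s := by simp

/-- Left multiplication of one coordinate by an element of `P`. -/
def shiftU (i0 : Fin N) (u : P) : Smp P N ≃ Smp P N where
  toFun s := (Function.update s.1 i0 (u * s.1 i0), s.2)
  invFun s := (Function.update s.1 i0 (u⁻¹ * s.1 i0), s.2)
  left_inv s := by
    ext i
    · by_cases h : i = i0
      · subst h; simp
      · simp [h]
    · rfl
  right_inv s := by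
    ext i
    · by_cases h : i = i0
      · subst h; simp
      · simp [h]
    · rfl

theorem pr_shiftL (n : G) (φ : Smp P N → Prop) :
    pr (fun s : Smp P N => φ (s.1, n * s.2)) = pr φ :=
  pr_equiv (shiftL n) φ

theorem pr_shiftR (u : FreeGroup (Fin N)) (φ : Smp P N → Prop) :
    pr (fun s : Smp P N => φ (s.1, s.2 * ev s.1 u)) = pr φ :=
  pr_equiv (shiftR u) φ

end Shift

end Pool.Agent.PLen
end

section

set_option autoImplicit false

/-! Auxiliary lemmas for T13 and T14. -/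

namespace Pool.Agent.PLen

open scoped BigOperators

section Basic

variable {G : Type} [Group G] {A : Type*} [CommGroup A]

theorem bad_cact_apply (M : Subgroup G) [M.Normal] (g : G) (b : M →* A) (v : M) :
    cact M g b v = b (MulAut.conjNormal g v) := rfl

theorem bad_cact_mul (M : Subgroup G) [M.Normal] (g h : G) (b : M →* A) :
    cact M (g * h) b = cact M h (cact M g b) := by
  ext v
  simp only [bad_cact_apply, map_mul]
  rfl

theorem bad_cact_one (M : Subgroup G) [M.Normal] (b : M →* A) : cact M 1 b = b := by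
  ext v
  simp [bad_cact_apply]

theorem bad_cact_inv_cact (M : Subgroup G) [M.Normal] (g : G) (b : M →* A) :
    cact M g⁻¹ (cact M g b) = b := by
  rw [← bad_cact_mul, mul_inv_cancel, bad_cact_one]

theorem bad_cact_cact_inv (M : Subgroup G) [M.Normal] (g : G) (b : M →* A) :
    cact M g (cact M g⁻¹ b) = b := by
  rw [← bad_cact_mul, inv_mul_cancel, bad_cact_one]

theorem bad_cact_inj (M : Subgroup G) [M.Normal] (g : G) {b b' : M →* A}
    (h : cact M g b = cact M g b') : b = b' := by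
  rw [← bad_cact_inv_cact M g b, h, bad_cact_inv_cact]

theorem bad_cact_hom_mul (M : Subgroup G) [M.Normal] (g : G) (b b' : M →* A) :
    cact M g (b * b') = cact M g b * cact M g b' := by
  ext v
  rfl

theorem bad_cact_hom_inv (M : Subgroup G) [M.Normal] (g : G) (b : M →* A) :
    cact M g b⁻¹ = (cact M g b)⁻¹ := by
  ext v
  rfl

theorem bad_mem_stab (M : Subgroup G) [M.Normal] (b : M →* A) (g : G) :
    g ∈ stab M b ↔ cact M g b = b := Iff.rfl

theorem bad_ev_mul {N : ℕ} {P : Subgroup G} (x : Fin N → P) (u w : FreeGroup (Fin N)) :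
    ev x (u * w) = ev x u * ev x w := by
  simp [ev]

theorem bad_ev_inv {N : ℕ} {P : Subgroup G} (x : Fin N → P) (u : FreeGroup (Fin N)) :
    ev x u⁻¹ = (ev x u)⁻¹ := by
  simp [ev]

end Basic

theorem bad_smallT_mono (p : ℕ) [Fact p.Prime] {N : ℕ} {w : FreeGroup (Fin N)} {ε : ℝ} {h h' : ℕ}
    (hh : h ≤ h') (H : SmallT p w ε h) : SmallT p w ε h' := by
  intro G _ _ n τ P j hj
  exact H G n τ P j (hh.trans hj)

/-- The key estimate: two characters are matched by the random pair with small probability. -/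
theorem bad_star (p : ℕ) [Fact p.Prime] {N : ℕ} (u w : FreeGroup (Fin N)) {ε : ℝ} {h : ℕ}
    (hε : 0 ≤ ε) (H : SmallT p (u⁻¹ * w) ε h)
    (G : Type) [Group G] [Finite G] (n : ℕ) (τ : Tower p G n) (P : Sylow p G) (j : ℕ)
    (hj : h ≤ j) (hn : j ≤ n) (ho : Odd j) [(τ.M j).Normal] (d d' : τ.M j →* (kk p)ˣ)
    (hd : d ≠ 1) (hd' : ∀ x : τ.M j, (x : G) ∈ τ.M' j → d x = 1) :
    pr (fun s : Smp (P : Subgroup G) N =>
      cact (τ.M j) (s.2 * ev s.1 u) d = cact (τ.M j) (s.2 * ev s.1 w) d') ≤ ε := by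
  have key : ∀ s : Smp (P : Subgroup G) N,
      cact (τ.M j) (s.2 * ev s.1 u) d = cact (τ.M j) (s.2 * ev s.1 w) d' →
      d = cact (τ.M j) (om (u⁻¹ * w) (s.1, s.2 * ev s.1 u)) d' := by
    intro s hs
    apply bad_cact_inj (τ.M j) (s.2 * ev s.1 u)
    rw [hs, ← bad_cact_mul]
    congr 1
    simp only [om, bad_ev_mul, bad_ev_inv]
    group
  by_cases hex : ∃ a : G, d = cact (τ.M j) a d'
  · obtain ⟨a, ha⟩ := hex
    have h1 := H G n τ P j hj hn ho d hd hd' a⁻¹
    rw [← pr_shiftR u] at h1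
    refine le_trans (pr_mono ?_) h1
    intro s hs
    have h2 := key s hs
    have h3 : d' = cact (τ.M j) a⁻¹ d := by rw [ha, bad_cact_inv_cact]
    show cact (τ.M j) (a⁻¹ * om (u⁻¹ * w) (s.1, s.2 * ev s.1 u)) d = d
    rw [bad_cact_mul, ← h3]
    exact h2.symm
  · rw [pr_false]
    · exact hε
    · intro s hs
      exact hex ⟨_, key s hs⟩

/-- A common depth for finitely many words. -/
theorem bad_common (p : ℕ) [Fact p.Prime] {N m : ℕ} (v : Fin (m + 1) → FreeGroup (Fin N))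
    (IH : ∀ t, t ≠ 0 → ∀ ε > (0 : ℝ), ∃ h, SmallT p ((v 0)⁻¹ * v t) ε h)
    (ε : ℝ) (hε : 0 < ε) : ∃ h : ℕ, ∀ t, t ≠ 0 → SmallT p ((v 0)⁻¹ * v t) ε h := by
  classical
  have h1 : ∀ t : Fin (m + 1), ∃ h, t ≠ 0 → SmallT p ((v 0)⁻¹ * v t) ε h := by
    intro t
    by_cases ht : t = 0
    · exact ⟨0, fun h => absurd ht h⟩
    · obtain ⟨h, hh⟩ := IH t ht ε hε
      exact ⟨h, fun _ => hh⟩
  choose f hf using h1
  refine ⟨Finset.univ.sup f, fun t ht => ?_⟩
  exact bad_smallT_mono p (Finset.le_sup (Finset.mem_univ t)) (hf t ht)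

end Pool.Agent.PLen
end

section

set_option autoImplicit false

/-! T14. Probability of bad data, commutative case. -/

namespace Pool.Agent.PLen

open scoped BigOperators

/-- If `θ` is fixed by `h₀ hₜ⁻¹` then `h₀` and `hₜ` move `θ` to the same character. -/
theorem badAB_fix {G : Type} [Group G] {A : Type*} [CommGroup A] (M : Subgroup G) [M.Normal]
    (a b : G) (θ : M →* A) (h : cact M (a * b⁻¹) θ = θ) : cact M a θ = cact M b θ := by
  have h1 : cact M (a * b⁻¹ * b) θ = cact M b θ := by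
    rw [bad_cact_mul, h]
  rwa [inv_mul_cancel_right] at h1

theorem badAB_alg {B : Type*} [CommGroup B] (a b t u : B) (h : a * t⁻¹ = b * u⁻¹) :
    a * b⁻¹ = t * u⁻¹ := by
  have h1 : a = b * u⁻¹ * t := by rw [← h, inv_mul_cancel_right]
  rw [h1, mul_comm b u⁻¹, mul_assoc, mul_assoc, mul_comm b, mul_assoc, inv_mul_cancel, mul_one,
    mul_comm]

/-- Number of characters of `M j` trivial on a subgroup of small index. -/
theorem badAB_card (p : ℕ) [Fact p.Prime] {G : Type} [Group G] [Finite G] {n : ℕ}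
    (τ : Tower p G n) {j : ℕ} (hj : j ≤ n) (ho : Odd j) (K : Subgroup G) (h1 : τ.M' j ≤ K)
    (C : ℕ) (hC : K.relIndex (τ.M j) ≤ C) :
    Nat.card {b : τ.M j →* (kk p)ˣ // ∀ x ∈ K.subgroupOf (τ.M j), b x = 1} ≤ C := by
  rw [dualT τ hj ho (K.subgroupOf (τ.M j))
    (fun x hx => by rw [Subgroup.mem_subgroupOf] at hx ⊢; exact h1 hx)]
  exact hC

theorem bad_ab (p : ℕ) [Fact p.Prime] {N m : ℕ} (v : Fin (m + 1) → FreeGroup (Fin N))
    (IH : ∀ t, t ≠ 0 → ∀ ε > (0 : ℝ), ∃ h, SmallT p ((v 0)⁻¹ * v t) ε h)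
    (C : ℕ) (ε : ℝ) (hε : 0 < ε) : ∃ h : ℕ,
    ∀ (G : Type) [Group G] [Finite G] (n : ℕ) (τ : Tower p G n) (P : Sylow p G) (j : ℕ),
      h ≤ j → j + 1 ≤ n → Odd j →
      haveI := τ.nM j
      ∀ D : Set (τ.M j →* (kk p)ˣ), D.Finite →
      (∀ d ∈ D, d ≠ 1 ∧ ∀ x : τ.M j, (x : G) ∈ τ.M' j → d x = 1) →
      ((C = 1 ∧ D.Nonempty) ∨ (m + 1) * C + 1 ≤ D.ncard) →
      pr (fun s : Smp (P : Subgroup G) N =>
        ¬ ∀ K : Subgroup G, τ.M' j ≤ K → K ≤ τ.M j → K.relIndex (τ.M j) ≤ C →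
          ∃ θ ∈ D, ∀ t, t ≠ 0 → ∃ k : τ.M j, (k : G) ∈ K ∧
            cact (τ.M j) ((s.2 * ev s.1 (v 0)) * (s.2 * ev s.1 (v t))⁻¹) θ k ≠ θ k) ≤ ε := by
  classical
  set n0 : ℕ := (m + 1) * C + 1 with hn0
  set ε0 : ℝ := ε / ((n0 : ℝ) * n0 * (m + 1)) with hε0
  have hn0pos : (1 : ℝ) ≤ n0 := by
    rw [hn0]; push_cast
    have : (0 : ℝ) ≤ ((m : ℝ) + 1) * C := by positivity
    linarith
  have hm : (1 : ℝ) ≤ (m : ℝ) + 1 := by
    have : (0 : ℝ) ≤ m := Nat.cast_nonneg _
    linarith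
  have hden : (0 : ℝ) < (n0 : ℝ) * n0 * (m + 1) := by positivity
  have hε0pos : 0 < ε0 := div_pos hε hden
  obtain ⟨h, hh⟩ := bad_common p v IH ε0 hε0pos
  refine ⟨h, ?_⟩
  intro G _ _ n τ P j hj hjn ho
  have := τ.nM j
  intro D hDfin hD hcase
  -- the event for a single character
  have hsingle : ∀ ρ : τ.M j →* (kk p)ˣ, ρ ≠ 1 → (∀ x : τ.M j, (x : G) ∈ τ.M' j → ρ x = 1) →
      ∀ t : Fin (m + 1), t ≠ 0 →
      pr (fun s : Smp (P : Subgroup G) N =>
        cact (τ.M j) (s.2 * ev s.1 (v 0)) ρ = cact (τ.M j) (s.2 * ev s.1 (v t)) ρ) ≤ ε0 := by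
    intro ρ h1 h2 t ht
    exact bad_star p (v 0) (v t) hε0pos.le (hh t ht) G n τ P j hj (by omega) ho ρ ρ h1 h2
  rcases hcase with ⟨hC1, θ, hθ⟩ | hcard
  · -- the whole layer
    have hsub : ∀ s : Smp (P : Subgroup G) N,
        (¬ ∀ K : Subgroup G, τ.M' j ≤ K → K ≤ τ.M j → K.relIndex (τ.M j) ≤ C →
          ∃ θ ∈ D, ∀ t, t ≠ 0 → ∃ k : τ.M j, (k : G) ∈ K ∧
            cact (τ.M j) ((s.2 * ev s.1 (v 0)) * (s.2 * ev s.1 (v t))⁻¹) θ k ≠ θ k) →
        ∃ t ∈ (Finset.univ.filter (fun t : Fin (m + 1) => t ≠ 0)),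
          cact (τ.M j) (s.2 * ev s.1 (v 0)) θ = cact (τ.M j) (s.2 * ev s.1 (v t)) θ := by
      intro s hs
      by_contra hcon
      apply hs
      intro K hK1 hK2 hK3
      refine ⟨θ, hθ, fun t ht => ?_⟩
      by_contra hcon2
      push Not at hcon2
      apply hcon
      refine ⟨t, by simp [ht], ?_⟩
      apply badAB_fix
      ext k
      have hk : (k : G) ∈ K := by
        have hne : K.relIndex (τ.M j) ≠ 0 := by
          unfold Subgroup.relIndex
          exact Subgroup.index_ne_zero_of_finite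
        have hone : K.relIndex (τ.M j) = 1 := by omega
        rw [Subgroup.relIndex_eq_one] at hone
        exact hone k.2
      rw [hcon2 k hk]
    refine le_trans (pr_mono hsub) ?_
    refine le_trans (pr_exists_le _ _) ?_
    refine le_trans (Finset.sum_le_sum (g := fun _ => ε0) ?_) ?_
    · intro t ht
      exact hsingle θ (hD θ hθ).1 (hD θ hθ).2 t (by simpa using ht)
    · rw [Finset.sum_const, nsmul_eq_mul]
      have h1 : ((Finset.univ.filter (fun t : Fin (m + 1) => t ≠ 0)).card : ℝ) ≤ (m : ℝ) + 1 := by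
        have h2 := Finset.card_filter_le (Finset.univ : Finset (Fin (m + 1))) (fun t => t ≠ 0)
        rw [Finset.card_univ, Fintype.card_fin] at h2
        exact_mod_cast h2
      have h2 : ε = ((n0 : ℝ) * n0 * (m + 1)) * ε0 := by
        rw [hε0]; field_simp
      have h3 : ((m : ℝ) + 1) * ε0 ≤ ((n0 : ℝ) * n0 * (m + 1)) * ε0 := by
        apply mul_le_mul_of_nonneg_right _ hε0pos.le
        have : (1 : ℝ) ≤ (n0 : ℝ) * n0 := by nlinarith
        nlinarith
      calc _ ≤ ((m : ℝ) + 1) * ε0 := mul_le_mul_of_nonneg_right h1 hε0pos.le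
        _ ≤ _ := h3
        _ = ε := h2.symm
  · -- pigeonhole
    obtain ⟨D0, hD0D, hD0card⟩ : ∃ D0 : Finset (τ.M j →* (kk p)ˣ), (↑D0 ⊆ D) ∧ D0.card = n0 := by
      have h1 : n0 ≤ hDfin.toFinset.card := by
        rw [← Set.ncard_eq_toFinset_card D hDfin]; exact hcard
      obtain ⟨D0, h2, h3⟩ := Finset.exists_subset_card_eq h1
      refine ⟨D0, ?_, h3⟩
      intro x hx
      exact hDfin.mem_toFinset.1 (h2 hx)
    set I : Finset (((τ.M j →* (kk p)ˣ) × (τ.M j →* (kk p)ˣ)) × Fin (m + 1)) :=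
      ((D0 ×ˢ D0) ×ˢ (Finset.univ : Finset (Fin (m + 1)))).filter
        (fun q => q.1.1 ≠ q.1.2 ∧ q.2 ≠ 0) with hI
    have hsub : ∀ s : Smp (P : Subgroup G) N,
        (¬ ∀ K : Subgroup G, τ.M' j ≤ K → K ≤ τ.M j → K.relIndex (τ.M j) ≤ C →
          ∃ θ ∈ D, ∀ t, t ≠ 0 → ∃ k : τ.M j, (k : G) ∈ K ∧
            cact (τ.M j) ((s.2 * ev s.1 (v 0)) * (s.2 * ev s.1 (v t))⁻¹) θ k ≠ θ k) →
        ∃ q ∈ I, cact (τ.M j) (s.2 * ev s.1 (v 0)) (q.1.1 * q.1.2⁻¹) =
          cact (τ.M j) (s.2 * ev s.1 (v q.2)) (q.1.1 * q.1.2⁻¹) := by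
      intro s hs
      by_contra hcon
      apply hs
      intro K hK1 hK2 hK3
      by_contra hcon2
      push Not at hcon2
      -- for each θ choose t
      have h1 : ∀ θ : τ.M j →* (kk p)ˣ, ∃ t : Fin (m + 1), θ ∈ D → (t ≠ 0 ∧
          ∀ k : τ.M j, (k : G) ∈ K →
            cact (τ.M j) ((s.2 * ev s.1 (v 0)) * (s.2 * ev s.1 (v t))⁻¹) θ k = θ k) := by
        intro θ
        by_cases hθ : θ ∈ D
        · obtain ⟨t, ht, ht2⟩ := hcon2 θ hθ
          exact ⟨t, fun _ => ⟨ht, ht2⟩⟩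
        · exact ⟨0, fun h => absurd h hθ⟩
      choose f hf using h1
      set κ : (τ.M j →* (kk p)ˣ) → (τ.M j →* (kk p)ˣ) := fun θ =>
        cact (τ.M j) ((s.2 * ev s.1 (v 0)) * (s.2 * ev s.1 (v (f θ)))⁻¹) θ * θ⁻¹ with hκ
      -- the target set
      have hfinX : Finite (τ.M j →* (kk p)ˣ) := finite_chars
      set X : Finset (τ.M j →* (kk p)ˣ) :=
        (Set.toFinite {b : τ.M j →* (kk p)ˣ | ∀ x ∈ K.subgroupOf (τ.M j), b x = 1}).toFinset
        with hX
      have hXcard : X.card ≤ C := by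
        have h2 := badAB_card p τ (show j ≤ n by omega) ho K hK1 C hK3
        rw [hX, ← Set.ncard_eq_toFinset_card]
        rw [← Nat.card_coe_set_eq]
        exact h2
      have hmaps : ∀ θ ∈ D0, (f θ, κ θ) ∈ (Finset.univ : Finset (Fin (m + 1))) ×ˢ X := by
        intro θ hθ
        rw [Finset.mem_product]
        refine ⟨Finset.mem_univ _, ?_⟩
        rw [hX, Set.Finite.mem_toFinset]
        intro x hx
        rw [Subgroup.mem_subgroupOf] at hx
        have h2 := (hf θ (hD0D hθ)).2 x hx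
        show cact (τ.M j) ((s.2 * ev s.1 (v 0)) * (s.2 * ev s.1 (v (f θ)))⁻¹) θ x * (θ x)⁻¹ = 1
        rw [h2, mul_inv_cancel]
      have hlt : ((Finset.univ : Finset (Fin (m + 1))) ×ˢ X).card < D0.card := by
        rw [Finset.card_product, Finset.card_univ, Fintype.card_fin, hD0card, hn0]
        have := Nat.mul_le_mul_left (m + 1) hXcard
        omega
      obtain ⟨θ, hθ, θ', hθ', hne, heq⟩ :=
        Finset.exists_ne_map_eq_of_card_lt_of_maps_to hlt hmaps
      have ht : f θ = f θ' := (Prod.mk.inj heq).1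
      have hk : κ θ = κ θ' := (Prod.mk.inj heq).2
      apply hcon
      refine ⟨((θ, θ'), f θ), ?_, ?_⟩
      · rw [hI, Finset.mem_filter, Finset.mem_product, Finset.mem_product]
        exact ⟨⟨⟨hθ, hθ'⟩, Finset.mem_univ _⟩, hne, (hf θ (hD0D hθ)).1⟩
      · show cact (τ.M j) (s.2 * ev s.1 (v 0)) (θ * θ'⁻¹) =
          cact (τ.M j) (s.2 * ev s.1 (v (f θ))) (θ * θ'⁻¹)
        apply badAB_fix
        rw [bad_cact_hom_mul, bad_cact_hom_inv]
        simp only [hκ] at hk
        rw [← ht] at hk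
        exact badAB_alg _ _ _ _ hk
    refine le_trans (pr_mono hsub) ?_
    refine le_trans (pr_exists_le _ _) ?_
    refine le_trans (Finset.sum_le_sum (g := fun _ => ε0) ?_) ?_
    · intro q hq
      rw [hI, Finset.mem_filter, Finset.mem_product, Finset.mem_product] at hq
      obtain ⟨⟨⟨h1, h2⟩, _⟩, h3, h4⟩ := hq
      apply hsingle _ _ _ _ h4
      · intro h5
        exact h3 (mul_inv_eq_one.1 h5)
      · intro x hx
        show q.1.1 x * (q.1.2 x)⁻¹ = 1
        rw [(hD _ (hD0D h1)).2 x hx, (hD _ (hD0D h2)).2 x hx]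
        simp
    · rw [Finset.sum_const, nsmul_eq_mul]
      have h1 : (I.card : ℝ) ≤ (n0 : ℝ) * n0 * (m + 1) := by
        have h2 : I.card ≤ n0 * n0 * (m + 1) := by
          refine le_trans (Finset.card_filter_le _ _) ?_
          rw [Finset.card_product, Finset.card_product, hD0card, Finset.card_univ,
            Fintype.card_fin]
        exact_mod_cast h2
      have h2 : ε = ((n0 : ℝ) * n0 * (m + 1)) * ε0 := by
        rw [hε0]; field_simp
      calc _ ≤ ((n0 : ℝ) * n0 * (m + 1)) * ε0 := mul_le_mul_of_nonneg_right h1 hε0pos.le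
        _ = ε := h2.symm

end Pool.Agent.PLen
end

section

set_option autoImplicit false

/-! T8. The abstract kill lemma. -/

namespace Pool.Agent.PLen

open scoped BigOperators

section Kill

theorem kill_pr_compl {α : Type*} [Finite α] [Nonempty α] (φ : α → Prop) :
    pr φ + pr (fun a => ¬ φ a) = 1 := by
  rw [pr_eq_av, pr_eq_av, ← av_add, ← av_const (α := α) 1]
  refine av_congr fun a => ?_
  by_cases h : φ a
  · rw [ind_of h, ind_not (not_not.mpr h)]; norm_num
  · rw [ind_not h, ind_of h]; norm_num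

theorem kill_pr_step {H W : Type} [Group H] [Finite H] [AddCommGroup W] (F F' : H → W) (y : H)
    (h : ∀ n, F n = 0 → F (y * n) = 0 → F' n = 0) {δ : ℝ}
    (hδ : pr (fun n => F' n = 0) ≤ 1 - δ) : pr (fun n => F n = 0) ≤ 1 - δ / 2 := by
  have h1 := kill_pr_compl (fun n => F n = 0)
  have h2 := kill_pr_compl (fun n => F' n = 0)
  have h3 : pr (fun n => ¬ F' n = 0) ≤
      pr (fun n => ¬ F n = 0) + pr (fun n => ¬ F (y * n) = 0) := by
    refine le_trans (pr_mono ?_) (pr_or_le _ _)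
    intro n hn
    by_contra hcon
    push Not at hcon
    exact hn (h n hcon.1 hcon.2)
  have h4 : pr (fun n => ¬ F (y * n) = 0) = pr (fun n => ¬ F n = 0) :=
    pr_equiv (Equiv.mulLeft y) (fun n => ¬ F n = 0)
  linarith

variable {k W H : Type} [Field k] [AddCommGroup W] [Module k W] [Group H]

/-- `E` is a sum of `N` terms `θ_i c_i` with characters `θ_i` trivial on `Z`. -/
def KExp (k : Type) [Field k] [Module k W] (Z : Subgroup H) (N : ℕ) (E : H → W) : Prop :=
  ∃ (θ : Fin N → H →* kˣ) (c : Fin N → W), (∀ i, ∀ z ∈ Z, θ i z = 1) ∧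
    ∀ n, E n = ∑ i, ((θ i n : kˣ) : k) • c i

theorem KExp.add {Z : Subgroup H} {N M : ℕ} {E E' : H → W} (h : KExp k Z N E)
    (h' : KExp k Z M E') : KExp k Z (N + M) (fun n => E n + E' n) := by
  obtain ⟨θ, c, h1, h2⟩ := h
  obtain ⟨θ', c', h1', h2'⟩ := h'
  refine ⟨Fin.append θ θ', Fin.append c c', ?_, ?_⟩
  · intro i
    refine Fin.addCases (fun j => ?_) (fun j => ?_) i
    · rw [Fin.append_left]; exact h1 j
    · rw [Fin.append_right]; exact h1' j
  · intro n
    rw [Fin.sum_univ_add]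
    simp only [Fin.append_left, Fin.append_right]
    rw [h2, h2']

theorem KExp.neg {Z : Subgroup H} {N : ℕ} {E : H → W} (h : KExp k Z N E) :
    KExp k Z N (fun n => - E n) := by
  obtain ⟨θ, c, h1, h2⟩ := h
  refine ⟨θ, fun i => - c i, h1, fun n => ?_⟩
  simp only [smul_neg, Finset.sum_neg_distrib]
  rw [h2]

theorem KExp.sub {Z : Subgroup H} {N M : ℕ} {E E' : H → W} (h : KExp k Z N E)
    (h' : KExp k Z M E') : KExp k Z (N + M) (fun n => E n - E' n) := by
  simp only [sub_eq_add_neg]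
  exact h.add h'.neg

theorem KExp.trans {Z : Subgroup H} {N : ℕ} {E : H → W} (h : KExp k Z N E) (y : H)
    (χ : H →* kˣ) (hχ : ∀ z ∈ Z, χ z = 1) (L : Module.End k W) :
    KExp k Z N (fun n => ((χ n : kˣ) : k) • L (E (y * n))) := by
  obtain ⟨θ, c, h1, h2⟩ := h
  refine ⟨fun i => χ * θ i, fun i => ((θ i y : kˣ) : k) • L (c i), ?_, ?_⟩
  · intro i z hz
    rw [MonoidHom.mul_apply, hχ z hz, h1 i z hz, one_mul]
  · intro n
    show ((χ n : kˣ) : k) • L (E (y * n)) =
      ∑ i, (((χ * θ i) n : kˣ) : k) • (((θ i y : kˣ) : k) • L (c i))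
    rw [h2, map_sum, Finset.smul_sum]
    refine Finset.sum_congr rfl fun i _ => ?_
    rw [map_smul, map_mul, Units.val_mul, MonoidHom.mul_apply, Units.val_mul, smul_smul, smul_smul]
    congr 1
    ring

theorem KExp.diff {Z : Subgroup H} {a : ℕ} {E : H → W} {θ : Fin (a + 1) → H →* kˣ}
    {c : Fin (a + 1) → W} (h1 : ∀ i, ∀ z ∈ Z, θ i z = 1)
    (h2 : ∀ n, E n = ∑ i, ((θ i n : kˣ) : k) • c i) (y : H) :
    KExp k Z a (fun n => (((θ (Fin.last a) y)⁻¹ : kˣ) : k) • E (y * n) - E n) := by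
  refine ⟨fun i => θ i.castSucc,
    fun i => ((((θ (Fin.last a) y)⁻¹ : kˣ) : k) * ((θ i.castSucc y : kˣ) : k) - 1) • c i.castSucc,
    fun i => h1 _, ?_⟩
  intro n
  show (((θ (Fin.last a) y)⁻¹ : kˣ) : k) • E (y * n) - E n =
    ∑ i : Fin a, ((θ i.castSucc n : kˣ) : k) •
      ((((θ (Fin.last a) y)⁻¹ : kˣ) : k) * ((θ i.castSucc y : kˣ) : k) - 1) • c i.castSucc
  rw [h2, h2, Finset.smul_sum, ← Finset.sum_sub_distrib, Fin.sum_univ_castSucc]
  have h3 : (((θ (Fin.last a) y)⁻¹ : kˣ) : k) • ((θ (Fin.last a) (y * n) : kˣ) : k) •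
      c (Fin.last a) - ((θ (Fin.last a) n : kˣ) : k) • c (Fin.last a) = 0 := by
    rw [smul_smul, map_mul, Units.val_mul, ← mul_assoc, Units.inv_mul, one_mul, sub_self]
  rw [h3, add_zero]
  refine Finset.sum_congr rfl fun i _ => ?_
  rw [map_mul, Units.val_mul, smul_smul, smul_smul, ← sub_smul]
  congr 1
  ring

theorem KExp.invZ {Z : Subgroup H} {N : ℕ} {E : H → W} (h : KExp k Z N E) {z : H} (hz : z ∈ Z)
    (n : H) : E (z * n) = E n := by
  obtain ⟨θ, c, h1, h2⟩ := h
  rw [h2, h2]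
  refine Finset.sum_congr rfl fun i _ => ?_
  rw [map_mul, h1 i z hz, one_mul]

/-- The base case: a nonzero sum of `N` characters with vector coefficients is nonzero with
probability at least `2⁻ᴺ`. -/
theorem kill_base [Finite H] (Z : Subgroup H) (N : ℕ) : ∀ (E : H → W), KExp k Z N E →
    (∃ n, E n ≠ 0) → pr (fun n => E n = 0) ≤ 1 - (1 / 2 : ℝ) ^ N := by
  induction N with
  | zero =>
    rintro E ⟨θ, c, h1, h2⟩ ⟨n, hn⟩
    exact absurd (by rw [h2]; simp) hn
  | succ a ih =>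
    rintro E hE ⟨n0, hn0⟩
    obtain ⟨θ, c, h1, h2⟩ := hE
    by_cases hc : ∃ y n, (((θ (Fin.last a) y)⁻¹ : kˣ) : k) • E (y * n) - E n ≠ 0
    · obtain ⟨y, n1, hy⟩ := hc
      have h3 := ih _ (KExp.diff h1 h2 y) ⟨n1, hy⟩
      have h4 := kill_pr_step E
        (fun n => (((θ (Fin.last a) y)⁻¹ : kˣ) : k) • E (y * n) - E n) y (by
          intro n ha hb
          simp only [ha, hb, smul_zero, sub_zero]) h3
      calc pr (fun n => E n = 0) ≤ _ := h4
        _ = 1 - (1 / 2 : ℝ) ^ (a + 1) := by rw [pow_succ]; ring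
    · push Not at hc
      have h5 : pr (fun n => E n = 0) = 0 := by
        refine pr_false fun n hn => hn0 ?_
        have h6 := hc (n * n0⁻¹) n0
        rw [inv_mul_cancel_right, hn, smul_zero, zero_sub, neg_eq_zero] at h6
        exact h6
      rw [h5]
      have h7 : (1 / 2 : ℝ) ^ (a + 1) ≤ 1 := pow_le_one₀ (by norm_num) (by norm_num)
      linarith

/-- Linear independence of characters with vector coefficients. -/
theorem kill_indep (S : Finset (H →* kˣ)) : ∀ (C : (H →* kˣ) → W),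
    (∀ n, ∑ θ ∈ S, ((θ n : kˣ) : k) • C θ = 0) → ∀ θ ∈ S, C θ = 0 := by
  classical
  induction S using Finset.induction_on with
  | empty => intro C _ θ hθ; exact absurd hθ (Finset.notMem_empty θ)
  | insert θ' S hS ih =>
    intro C hC
    have h1 : ∀ θ ∈ S, C θ = 0 := by
      intro θ hθ
      have hne : θ ≠ θ' := fun h => hS (h ▸ hθ)
      obtain ⟨y, hy⟩ : ∃ y, θ y ≠ θ' y := by
        by_contra hcon
        push Not at hcon
        exact hne (MonoidHom.ext hcon)
      have h2 := ih (fun ψ => ((((θ' y)⁻¹ : kˣ) : k) * ((ψ y : kˣ) : k) - 1) • C ψ) (by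
        intro n
        have h3 := hC (y * n)
        have h4 := hC n
        rw [Finset.sum_insert hS] at h3 h4
        have h5 : (((θ' y)⁻¹ : kˣ) : k) • (((θ' (y * n) : kˣ) : k) • C θ' +
            ∑ ψ ∈ S, ((ψ (y * n) : kˣ) : k) • C ψ) - (((θ' n : kˣ) : k) • C θ' +
            ∑ ψ ∈ S, ((ψ n : kˣ) : k) • C ψ) = 0 := by rw [h3, h4, smul_zero, sub_zero]
        rw [smul_add, smul_smul, map_mul, Units.val_mul, ← mul_assoc, Units.inv_mul, one_mul,
          add_sub_add_left_eq_sub, Finset.smul_sum, ← Finset.sum_sub_distrib] at h5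
        rw [← h5]
        refine Finset.sum_congr rfl fun ψ _ => ?_
        rw [map_mul, Units.val_mul, smul_smul, smul_smul, ← sub_smul]
        congr 1
        ring) θ hθ
      have h6 : (((θ' y)⁻¹ : kˣ) : k) * ((θ y : kˣ) : k) - 1 ≠ 0 := by
        intro h7
        apply hy
        rw [← Units.val_mul, sub_eq_zero, Units.val_eq_one, inv_mul_eq_one] at h7
        exact h7.symm
      exact (smul_eq_zero.mp h2).resolve_left h6
    intro θ hθ
    rcases Finset.mem_insert.mp hθ with h | h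
    · subst h
      have h3 := hC 1
      rw [Finset.sum_insert hS, Finset.sum_eq_zero (fun ψ hψ => by rw [h1 ψ hψ, smul_zero]),
        map_one, Units.val_one, one_smul, add_zero] at h3
      exact h3
    · exact h1 θ h

open Classical in
theorem kill_indep' {ι : Type} [Fintype ι] (θ : ι → H →* kˣ) (c : ι → W)
    (h : ∀ n, ∑ i, ((θ i n : kˣ) : k) • c i = 0) (ψ : H →* kˣ) :
    ∑ i with θ i = ψ, c i = 0 := by
  by_cases hψ : ψ ∈ Finset.univ.image θ
  · refine kill_indep (k := k) (Finset.univ.image θ) (fun φ => ∑ i with θ i = φ, c i) ?_ ψ hψ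
    intro n
    rw [← h n]
    rw [← Finset.sum_fiberwise_of_maps_to (s := Finset.univ) (t := Finset.univ.image θ) (g := θ)
      (fun i hi => Finset.mem_image_of_mem θ hi)]
    refine Finset.sum_congr rfl fun φ _ => ?_
    rw [Finset.smul_sum]
    refine Finset.sum_congr rfl fun i hi => ?_
    rw [(Finset.mem_filter.mp hi).2]
  · refine Finset.sum_eq_zero fun i hi => absurd ?_ hψ
    rw [← (Finset.mem_filter.mp hi).2]
    exact Finset.mem_image_of_mem θ (Finset.mem_univ i)

open Classical in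
theorem kill_occurs {ι : Type} [Fintype ι] (θ : ι → H →* kˣ) (c : ι → W)
    (h : ∃ n, ∑ i, ((θ i n : kˣ) : k) • c i ≠ 0) :
    ∃ ψ : H →* kˣ, ∑ i with θ i = ψ, c i ≠ 0 := by
  by_contra hcon
  push Not at hcon
  obtain ⟨n, hn⟩ := h
  apply hn
  rw [← Finset.sum_fiberwise_of_maps_to (s := Finset.univ) (t := Finset.univ.image θ) (g := θ)
      (fun i hi => Finset.mem_image_of_mem θ hi)]
  refine Finset.sum_eq_zero fun φ _ => ?_
  have h1 : ∑ i with θ i = φ, ((θ i n : kˣ) : k) • c i =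
      ((φ n : kˣ) : k) • ∑ i with θ i = φ, c i := by
    rw [Finset.smul_sum]
    refine Finset.sum_congr rfl fun i hi => ?_
    rw [(Finset.mem_filter.mp hi).2]
  rw [h1, hcon φ, smul_zero]

end Kill

/-- Projectively commuting representations. -/
structure KData (k W H I : Type) [Field k] [AddCommGroup W] [Module k W] [Group H] where
  Z : Subgroup H
  Φ : I → H →* Module.End k W
  β : I → I → H →* H →* kˣ
  comm : ∀ s t x y, Φ s x * Φ t y = ((β s t x y : kˣ) : k) • (Φ t y * Φ s x)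
  bZ : ∀ s t x, ∀ z ∈ Z, β s t x z = 1
  sc : ∀ t, ∀ z ∈ Z, ∃ c : kˣ, Φ t z = (c : k) • (1 : Module.End k W)

namespace KData

variable {k W H I : Type} [Field k] [AddCommGroup W] [Module k W] [Group H]
  (D : KData k W H I)

/-- The character of `H` by which `Φ s y⁻¹ * Φ t y` commutes with `Φ t n`. -/
noncomputable def X (s t : I) : H →* H →* kˣ := (D.β s t)⁻¹ * D.β t t

theorem X_self (s : I) (y : H) : D.X s s y = 1 := by
  simp [X]

theorem X_Z (s t : I) (y : H) {z : H} (hz : z ∈ D.Z) : D.X s t y z = 1 := by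
  simp [X, D.bZ _ _ _ z hz]

theorem inj (t : I) (n : H) {w : W} (h : D.Φ t n w = 0) : w = 0 := by
  have h1 : D.Φ t n⁻¹ (D.Φ t n w) = w := by
    rw [← Module.End.mul_apply, ← map_mul, inv_mul_cancel, map_one, Module.End.one_apply]
  rw [← h1, h, map_zero]

theorem key (s t : I) (y n : H) (w : W) :
    D.Φ s y⁻¹ (D.Φ t (y * n) w) =
      ((D.X s t y n : kˣ) : k) • D.Φ t n (D.Φ s y⁻¹ (D.Φ t y w)) := by
  have h1 := D.comm t t y n
  have h2 := D.comm s t y⁻¹ n
  rw [map_mul, h1, LinearMap.smul_apply, map_smul, Module.End.mul_apply,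
    ← Module.End.mul_apply (D.Φ s y⁻¹) (D.Φ t n), h2, LinearMap.smul_apply, Module.End.mul_apply,
    smul_smul]
  congr 1
  simp only [X, MonoidHom.mul_apply, MonoidHom.inv_apply, Units.val_mul, map_inv]
  ring

/-- The two alternatives for an index `t`. -/
def Hyp [Finite H] (Γ : ℕ) (o t : I) : Prop :=
  (∃ z ∈ D.Z, D.Φ t z ≠ D.Φ o z) ∨
    Γ * Nat.card {y : H // ∀ x, Commute (D.Φ o x) (D.Φ t y⁻¹ * D.Φ o y)} ≤ Nat.card H

theorem Hyp.mono [Finite H] {D : KData k W H I} {Γ Γ' : ℕ} {o t : I} (h : D.Hyp Γ' o t)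
    (hΓ : Γ ≤ Γ') : D.Hyp Γ o t := by
  rcases h with h | h
  · exact Or.inl h
  · exact Or.inr (le_trans (Nat.mul_le_mul_right _ hΓ) h)

/-- The transformed coefficient function. -/
noncomputable def E' (s t : I) (θ : H →* kˣ) (y : H) (E : H → W) (n : H) : W :=
  (((θ y)⁻¹ : kˣ) : k) • ((D.X s t y n : kˣ) : k) • D.Φ s y⁻¹ (D.Φ t y (E (y * n))) - E n

theorem E'_spec (s t : I) (θ : H →* kˣ) (y : H) (E : H → W) (n : H) :
    D.Φ t n (D.E' s t θ y E n) =
      (((θ y)⁻¹ : kˣ) : k) • D.Φ s y⁻¹ (D.Φ t (y * n) (E (y * n))) - D.Φ t n (E n) := by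
  rw [E', map_sub, map_smul, map_smul, D.key]

theorem E'_exp (s t : I) (θ : H →* kˣ) (y : H) {E : H → W} {N : ℕ}
    (hE : KExp k D.Z N E) : KExp k D.Z (N + N) (D.E' s t θ y E) := by
  have h1 := hE.trans y (D.X s t y) (fun z hz => D.X_Z s t y hz)
    ((((θ y)⁻¹ : kˣ) : k) • (D.Φ s y⁻¹ * D.Φ t y))
  have h2 := h1.sub hE
  have h3 : (D.E' s t θ y E) = fun n => ((D.X s t y n : kˣ) : k) •
      ((((θ y)⁻¹ : kˣ) : k) • (D.Φ s y⁻¹ * D.Φ t y)) (E (y * n)) - E n := by
    funext n
    rw [E', LinearMap.smul_apply, Module.End.mul_apply, smul_comm]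
  rw [h3]
  exact h2

/-- There is a `y` for which the transformed coefficient of the index `o` is not zero. -/
theorem exists_y [Finite H] {Γ N : ℕ} (hΓ : N < Γ) {o s : I} (hs : D.Hyp Γ o s)
    (θ0 : H →* kˣ) (hθ0 : ∀ z ∈ D.Z, θ0 z = 1) {E : H → W} (hE : KExp k D.Z N E)
    (hne : ∃ n, E n ≠ 0) : ∃ y n, D.E' s o θ0 y E n ≠ 0 := by
  classical
  by_contra hcon
  push Not at hcon
  obtain ⟨n0, hn0⟩ := hne
  rcases hs with ⟨z, hz, hne⟩ | hs
  · have h1 := D.E'_spec s o θ0 z E n0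
    rw [hcon, map_zero, hθ0 z hz, inv_one, Units.val_one, one_smul, hE.invZ hz] at h1
    obtain ⟨a, ha⟩ := D.sc s z⁻¹ (D.Z.inv_mem hz)
    obtain ⟨a', ha'⟩ := D.sc s z hz
    obtain ⟨b, hb⟩ := D.sc o z hz
    rw [map_mul, Module.End.mul_apply, ha, hb, LinearMap.smul_apply, LinearMap.smul_apply,
      Module.End.one_apply, Module.End.one_apply, smul_smul] at h1
    have h2 : ((a : k) * (b : k) - 1) • D.Φ o n0 (E n0) = 0 := by
      rw [sub_smul, one_smul]; exact h1.symm
    rcases smul_eq_zero.mp h2 with h3 | h3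
    · apply hne
      have h4 : D.Φ s z⁻¹ * D.Φ s z = 1 := by rw [← map_mul, inv_mul_cancel, map_one]
      have h5 : D.Φ s z⁻¹ * D.Φ o z = 1 := by
        rw [ha, hb, smul_mul_smul_comm, one_mul, sub_eq_zero.mp h3, one_smul]
      have h6 : D.Φ s z * D.Φ s z⁻¹ = 1 := by rw [← map_mul, mul_inv_cancel, map_one]
      calc D.Φ s z = D.Φ s z * (D.Φ s z⁻¹ * D.Φ o z) := by rw [h5, mul_one]
        _ = D.Φ o z := by rw [← mul_assoc, h6, one_mul]
    · exact hn0 (D.inj o n0 h3)
  · obtain ⟨θ, c, h1, h2⟩ := hE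
    obtain ⟨ψ, hψ⟩ := kill_occurs (k := k) θ c ⟨n0, by rw [← h2]; exact hn0⟩
    have h3 : ∀ y, ∃ i, D.X s o y * θ i = ψ := by
      intro y
      by_contra hno
      push Not at hno
      have h4 := kill_indep' (k := k) (ι := Fin N ⊕ Fin N)
        (Sum.elim (fun i => D.X s o y * θ i) θ)
        (Sum.elim (fun i => (((θ0 y)⁻¹ : kˣ) : k) • ((θ i y : kˣ) : k) •
          D.Φ s y⁻¹ (D.Φ o y (c i))) (fun i => - c i)) (by
          intro n
          rw [← hcon y n, E', Fintype.sum_sum_type]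
          simp only [Sum.elim_inl, Sum.elim_inr, smul_neg, Finset.sum_neg_distrib]
          rw [h2 n, h2 (y * n), sub_eq_add_neg]
          congr 1
          rw [map_sum, map_sum, Finset.smul_sum, Finset.smul_sum]
          refine Finset.sum_congr rfl fun i _ => ?_
          rw [map_smul, map_smul, map_mul, Units.val_mul, MonoidHom.mul_apply, Units.val_mul,
            smul_smul, smul_smul, smul_smul, smul_smul]
          congr 1
          ring) ψ
      rw [Finset.sum_filter, Fintype.sum_sum_type] at h4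
      simp only [Sum.elim_inl, Sum.elim_inr] at h4
      rw [Finset.sum_eq_zero (fun i _ => if_neg (hno i)), zero_add] at h4
      apply hψ
      rw [Finset.sum_filter, ← neg_eq_zero, ← Finset.sum_neg_distrib]
      refine Eq.trans (Finset.sum_congr rfl fun i _ => ?_) h4
      by_cases hi : θ i = ψ
      · rw [if_pos hi, if_pos hi]
      · rw [if_neg hi, if_neg hi, neg_zero]
    have h5 : Nat.card (D.X s o).range ≤ N := by
      have h6 : ((D.X s o).range : Set (H →* kˣ)) ⊆
          ((Finset.univ.image fun i => ψ * (θ i)⁻¹ : Finset (H →* kˣ)) : Set (H →* kˣ)) := by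
        rintro _ ⟨y, rfl⟩
        obtain ⟨i, hi⟩ := h3 y
        rw [Finset.coe_image]
        refine ⟨i, by simp, ?_⟩
        simp only
        rw [← hi]
        exact mul_inv_cancel_right (D.X s o y) (θ i)
      have h61 := Nat.card_mono (Finset.finite_toSet _) h6
      have h62 : Nat.card (((Finset.univ.image fun i => ψ * (θ i)⁻¹ : Finset (H →* kˣ)) :
          Set (H →* kˣ)) : Type) = (Finset.univ.image fun i => ψ * (θ i)⁻¹).card := by
        rw [Nat.card_coe_set_eq, Set.ncard_coe_finset]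
      have h63 : (Finset.univ.image fun i => ψ * (θ i)⁻¹).card ≤ N := by
        refine le_trans Finset.card_image_le ?_
        rw [Finset.card_univ, Fintype.card_fin]
      rw [h62] at h61
      exact le_trans h61 h63
    have h7 : Nat.card (D.X s o).ker ≤
        Nat.card {y : H // ∀ x, Commute (D.Φ o x) (D.Φ s y⁻¹ * D.Φ o y)} := by
      refine Nat.card_mono (Set.toFinite {y : H | ∀ x, Commute (D.Φ o x) (D.Φ s y⁻¹ * D.Φ o y)}) ?_
      intro y hy x
      have hy' : D.X s o y = 1 := hy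
      have h8 : ∀ w, D.Φ s y⁻¹ (D.Φ o y (D.Φ o x w)) = D.Φ o x (D.Φ s y⁻¹ (D.Φ o y w)) := by
        intro w
        have h9 := D.key s o y x w
        rw [hy', MonoidHom.one_apply, Units.val_one, one_smul, map_mul, Module.End.mul_apply] at h9
        exact h9
      refine LinearMap.ext fun w => ?_
      simp only [Module.End.mul_apply]
      exact (h8 w).symm
    have h10 : 0 < Nat.card {y : H // ∀ x, Commute (D.Φ o x) (D.Φ s y⁻¹ * D.Φ o y)} := by
      have : Nonempty {y : H // ∀ x, Commute (D.Φ o x) (D.Φ s y⁻¹ * D.Φ o y)} :=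
        ⟨⟨1, fun x => by simp⟩⟩
      exact Nat.card_pos
    have h11 : Nat.card H = Nat.card (D.X s o).ker * Nat.card (D.X s o).range := by
      rw [← Subgroup.index_ker, Subgroup.card_mul_index]
    have h12 : Γ * Nat.card {y : H // ∀ x, Commute (D.Φ o x) (D.Φ s y⁻¹ * D.Φ o y)} ≤
        N * Nat.card {y : H // ∀ x, Commute (D.Φ o x) (D.Φ s y⁻¹ * D.Φ o y)} := by
      refine le_trans hs ?_
      rw [h11, mul_comm]
      exact Nat.mul_le_mul h5 h7
    exact absurd (Nat.le_of_mul_le_mul_right h12 h10) (not_le.mpr hΓ)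

end KData

/-- The inductive statement: `c` indices, coefficients with `N` terms. -/
def KillP (c N Γ : ℕ) (δ : ℝ) : Prop :=
  ∀ (k W H I : Type) [Field k] [AddCommGroup W] [Module k W] [Group H] [Finite H]
    (D : KData k W H I) (o : I) (A : Finset I), A.card ≤ c → (∀ t ∈ A, D.Hyp Γ o t) →
    ∀ E : I → H → W, (∀ t, KExp k D.Z N (E t)) → ∀ e : H → W, KExp k D.Z N e →
    (∃ n, e n ≠ 0) →
    pr (fun n : H => D.Φ o n (e n) + ∑ t ∈ A, D.Φ t n (E t n) = 0) ≤ 1 - δ

/-- The same with one more index whose coefficient has `a` terms. -/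
def KillQ (c a N Γ : ℕ) (δ : ℝ) : Prop :=
  ∀ (k W H I : Type) [Field k] [AddCommGroup W] [Module k W] [Group H] [Finite H]
    (D : KData k W H I) (o s : I) (A : Finset I), A.card ≤ c → D.Hyp Γ o s →
    (∀ t ∈ A, D.Hyp Γ o t) →
    ∀ E : I → H → W, (∀ t, KExp k D.Z N (E t)) → ∀ e : H → W, KExp k D.Z N e →
    (∃ n, e n ≠ 0) → ∀ f : H → W, KExp k D.Z a f →
    pr (fun n : H => D.Φ o n (e n) + D.Φ s n (f n) + ∑ t ∈ A, D.Φ t n (E t n) = 0) ≤ 1 - δ

theorem killQ_zero {c N Γ : ℕ} {δ : ℝ} (h : KillP c N Γ δ) : KillQ c 0 N Γ δ := by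
  intro k W H I _ _ _ _ _ D o s A hA _ hH E hE e he hne f hf
  obtain ⟨θ, c', h1, h2⟩ := hf
  have h3 : ∀ n, f n = 0 := fun n => by rw [h2]; simp
  simp only [h3, map_zero, add_zero]
  exact h k W H I D o A hA hH E hE e he hne

theorem killQ_succ {c a N Γ : ℕ} {δ : ℝ} (h : KillQ c a (N + N) Γ δ) :
    KillQ c (a + 1) N (max Γ (N + 1)) (δ / 2) := by
  intro k W H I _ _ _ _ _ D o s A hA hs hH E hE e he hne f hf
  obtain ⟨θ, c', h1, h2⟩ := hf
  obtain ⟨y, hy⟩ := D.exists_y (lt_of_lt_of_le (Nat.lt_succ_self N) (le_max_right Γ (N + 1))) hs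
    (θ (Fin.last a)) (h1 _) he hne
  have h3 := h k W H I D o s A hA (hs.mono (le_max_left _ _))
    (fun t ht => (hH t ht).mono (le_max_left _ _))
    (fun t => D.E' s t (θ (Fin.last a)) y (E t)) (fun t => D.E'_exp s t _ y (hE t))
    (D.E' s o (θ (Fin.last a)) y e) (D.E'_exp s o _ y he) hy
    (fun n => (((θ (Fin.last a) y)⁻¹ : kˣ) : k) • f (y * n) - f n) (KExp.diff h1 h2 y)
  refine kill_pr_step _ _ y ?_ h3
  intro n hn hyn
  have h4 : D.Φ s n ((((θ (Fin.last a) y)⁻¹ : kˣ) : k) • f (y * n) - f n) =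
      (((θ (Fin.last a) y)⁻¹ : kˣ) : k) • D.Φ s y⁻¹ (D.Φ s (y * n) (f (y * n))) -
        D.Φ s n (f n) := by
    rw [map_sub, map_smul, ← Module.End.mul_apply (D.Φ s y⁻¹), ← map_mul, inv_mul_cancel_left]
  rw [h4]
  simp only [D.E'_spec]
  rw [Finset.sum_sub_distrib, ← Finset.smul_sum, ← map_sum]
  have h5 : (((θ (Fin.last a) y)⁻¹ : kˣ) : k) • D.Φ s y⁻¹ (D.Φ o (y * n) (e (y * n)) +
      D.Φ s (y * n) (f (y * n)) + ∑ t ∈ A, D.Φ t (y * n) (E t (y * n))) -
      (D.Φ o n (e n) + D.Φ s n (f n) + ∑ t ∈ A, D.Φ t n (E t n)) = 0 := by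
    rw [hn, hyn, map_zero, smul_zero, sub_zero]
  rw [map_add, map_add, smul_add, smul_add] at h5
  rw [← h5]
  abel

theorem killQ_exists {c : ℕ} (hP : ∀ N, ∃ Γ : ℕ, ∃ δ > (0 : ℝ), δ ≤ 1 ∧ KillP c N Γ δ) (a : ℕ) :
    ∀ N, ∃ Γ : ℕ, ∃ δ > (0 : ℝ), δ ≤ 1 ∧ KillQ c a N Γ δ := by
  induction a with
  | zero =>
    intro N
    obtain ⟨Γ, δ, h1, h2, h3⟩ := hP N
    exact ⟨Γ, δ, h1, h2, killQ_zero h3⟩
  | succ a ih =>
    intro N
    obtain ⟨Γ, δ, h1, h2, h3⟩ := ih (N + N)
    exact ⟨max Γ (N + 1), δ / 2, by linarith, by linarith, killQ_succ h3⟩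

theorem kill_P0 (k W H I : Type) [Field k] [AddCommGroup W] [Module k W] [Group H] [Finite H]
    (D : KData k W H I) (o : I) (E : I → H → W) (N : ℕ) (e : H → W) (he : KExp k D.Z N e)
    (hne : ∃ n, e n ≠ 0) :
    pr (fun n : H => D.Φ o n (e n) + ∑ t ∈ (∅ : Finset I), D.Φ t n (E t n) = 0) ≤
      1 - (1 / 2 : ℝ) ^ N := by
  refine le_trans (pr_mono ?_) (kill_base (k := k) D.Z N e he hne)
  intro n hn
  rw [Finset.sum_empty, add_zero] at hn
  exact D.inj o n hn

theorem kill_main (c : ℕ) : ∀ N, ∃ Γ : ℕ, ∃ δ > (0 : ℝ), δ ≤ 1 ∧ KillP c N Γ δ := by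
  classical
  induction c with
  | zero =>
    intro N
    refine ⟨0, (1 / 2 : ℝ) ^ N, by positivity, pow_le_one₀ (by norm_num) (by norm_num), ?_⟩
    intro k W H I _ _ _ _ _ D o A hA _ E hE e he hne
    rw [Finset.card_eq_zero.mp (Nat.le_zero.mp hA)]
    exact kill_P0 k W H I D o E N e he hne
  | succ c ih =>
    intro N
    obtain ⟨Γ, δ, h1, h2, h3⟩ := killQ_exists ih N N
    refine ⟨Γ, min δ ((1 / 2 : ℝ) ^ N), lt_min h1 (by positivity),
      le_trans (min_le_left _ _) h2, ?_⟩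
    intro k W H I _ _ _ _ _ D o A hA hH E hE e he hne
    rcases A.eq_empty_or_nonempty with hA0 | ⟨s, hs⟩
    · rw [hA0]
      refine le_trans (kill_P0 k W H I D o E N e he hne) ?_
      have := min_le_right δ ((1 / 2 : ℝ) ^ N)
      linarith
    · have h4 := h3 k W H I D o s (A.erase s) (by
        rw [Finset.card_erase_of_mem hs]; omega) (hH s hs)
        (fun t ht => hH t (Finset.mem_of_mem_erase ht)) E hE e he hne (E s) (hE s)
      have h5 : ∀ n, D.Φ o n (e n) + D.Φ s n (E s n) + ∑ t ∈ A.erase s, D.Φ t n (E t n) =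
          D.Φ o n (e n) + ∑ t ∈ A, D.Φ t n (E t n) := by
        intro n
        rw [← Finset.add_sum_erase A _ hs, add_assoc]
      simp only [h5] at h4
      have := min_le_left δ ((1 / 2 : ℝ) ^ N)
      linarith

theorem kill_data {k W H I : Type} [Field k] [AddCommGroup W] [Module k W] [Group H]
    [Nontrivial W] (Z : Subgroup H) (Φ : I → H →* Module.End k W)
    (h1 : ∀ s t x y, ∃ c : kˣ, Φ s x * Φ t y = (c : k) • (Φ t y * Φ s x))
    (h2 : ∀ t, ∀ z ∈ Z, ∃ c : kˣ, Φ t z = (c : k) • (1 : Module.End k W)) :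
    ∃ D : KData k W H I, D.Z = Z ∧ D.Φ = Φ := by
  choose b hb using h1
  have hne : ∀ s t x y, Φ s x * Φ t y ≠ 0 := by
    intro s t x y h
    have h3 : Φ s x⁻¹ * (Φ s x * Φ t y) * Φ t y⁻¹ = 1 := by
      rw [← mul_assoc, ← map_mul, inv_mul_cancel, map_one, one_mul, ← map_mul, mul_inv_cancel,
        map_one]
    rw [h, mul_zero, zero_mul] at h3
    exact zero_ne_one h3
  have huniq : ∀ s t x y (c : kˣ), Φ s x * Φ t y = (c : k) • (Φ t y * Φ s x) → c = b s t x y := by
    intro s t x y c hc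
    have h4 : ((c : k) - (b s t x y : k)) • (Φ t y * Φ s x) = 0 := by
      rw [sub_smul, ← hc, ← hb, sub_self]
    rcases smul_eq_zero.mp h4 with h5 | h5
    · exact Units.ext (sub_eq_zero.mp h5)
    · exact absurd h5 (hne _ _ _ _)
  have hml : ∀ s t x x' y, b s t (x * x') y = b s t x y * b s t x' y := by
    intro s t x x' y
    symm
    apply huniq
    rw [map_mul, mul_assoc, hb s t x' y, mul_smul_comm, ← mul_assoc, hb s t x y, smul_mul_assoc,
      smul_smul, Units.val_mul, mul_assoc, mul_comm (b s t x' y : k)]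
  have hmr : ∀ s t x y y', b s t x (y * y') = b s t x y * b s t x y' := by
    intro s t x y y'
    symm
    apply huniq
    rw [map_mul, ← mul_assoc, hb s t x y, smul_mul_assoc, mul_assoc, hb s t x y', mul_smul_comm,
      smul_smul, Units.val_mul, mul_assoc]
  refine ⟨⟨Z, Φ, fun s t => MonoidHom.mk' (fun x => MonoidHom.mk' (fun y => b s t x y)
    (hmr s t x)) (fun x x' => MonoidHom.ext fun y => hml s t x x' y),
    fun s t x y => hb s t x y, ?_, h2⟩, rfl, rfl⟩
  intro s t x z hz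
  obtain ⟨c, hc⟩ := h2 t z hz
  show b s t x z = 1
  symm
  apply huniq
  rw [hc, Units.val_one, one_smul, mul_smul_comm, smul_mul_assoc, mul_one, one_mul]

theorem kill_lemma (m : ℕ) : ∃ Γ : ℕ, ∃ δ > (0 : ℝ), δ ≤ 1 ∧
    ∀ (k W H : Type) [Field k] [AddCommGroup W] [Module k W] [Group H] [Finite H]
      (Z : Subgroup H) (Φ : Fin (m + 1) → H →* Module.End k W) (v : Fin (m + 1) → W),
      (∀ s t x y, ∃ c : kˣ, Φ s x * Φ t y = (c : k) • (Φ t y * Φ s x)) →
      (∀ t, ∀ z ∈ Z, ∃ c : kˣ, Φ t z = (c : k) • (1 : Module.End k W)) →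
      v 0 ≠ 0 →
      (∀ t, t ≠ 0 → (∃ z ∈ Z, Φ t z ≠ Φ 0 z) ∨
        Γ * Nat.card {y : H // ∀ x, Commute (Φ 0 x) (Φ t y⁻¹ * Φ 0 y)} ≤ Nat.card H) →
      pr (fun x : H => ∑ t, Φ t x (v t) = 0) ≤ 1 - δ := by
  classical
  obtain ⟨Γ, δ, h1, h2, h3⟩ := kill_main m 1
  refine ⟨Γ, δ, h1, h2, ?_⟩
  intro k W H _ _ _ _ _ Z Φ v hc hZ hv hyp
  have : Nontrivial W := ⟨⟨v 0, 0, hv⟩⟩
  obtain ⟨D, hDZ, hDΦ⟩ := kill_data Z Φ hc hZ
  subst hDZ
  subst hDΦ
  have hexp : ∀ w : W, KExp k D.Z 1 (fun _ : H => w) := by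
    intro w
    refine ⟨fun _ => 1, fun _ => w, fun _ z _ => rfl, fun n => ?_⟩
    simp
  have h4 := h3 k W H (Fin (m + 1)) D 0 (Finset.univ.erase 0) (by
    rw [Finset.card_erase_of_mem (Finset.mem_univ _), Finset.card_univ, Fintype.card_fin]
    omega) (fun t ht => hyp t (Finset.ne_of_mem_erase ht)) (fun t _ => v t) (fun t => hexp _)
    (fun _ => v 0) (hexp _) ⟨1, hv⟩
  have h5 : ∀ n, D.Φ 0 n (v 0) + ∑ t ∈ Finset.univ.erase 0, D.Φ t n (v t) =
      ∑ t, D.Φ t n (v t) := by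
    intro n
    rw [← Finset.add_sum_erase Finset.univ _ (Finset.mem_univ 0)]
  simp only [h5] at h4
  exact h4

/-- The commutative case, used in `KillAB`: a sum of `m + 1` characters of `H` times vectors
such that the character with index `0` differs from all others and has nonzero coefficient. -/
theorem kill_chars (m : ℕ) : ∃ δ > (0 : ℝ), δ ≤ 1 ∧
    ∀ (k W H : Type) [Field k] [AddCommGroup W] [Module k W] [Group H] [Finite H]
      (θ : Fin (m + 1) → H →* kˣ) (v : Fin (m + 1) → W),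
      v 0 ≠ 0 → (∀ t, t ≠ 0 → θ t ≠ θ 0) →
      pr (fun x : H => ∑ t, ((θ t x : kˣ) : k) • v t = 0) ≤ 1 - δ := by
  classical
  refine ⟨(1 / 2 : ℝ) ^ (m + 1), by positivity, pow_le_one₀ (by norm_num) (by norm_num), ?_⟩
  intro k W H _ _ _ _ _ θ v hv hθ
  refine kill_base (k := k) (⊥ : Subgroup H) (m + 1) _ ⟨θ, v, ?_, fun n => rfl⟩ ?_
  · intro i z hz
    rw [Subgroup.mem_bot.mp hz, map_one]
  · by_contra hcon
    push Not at hcon
    have h1 := kill_indep' (k := k) θ v hcon (θ 0)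
    rw [Finset.sum_eq_single 0] at h1
    · exact hv h1
    · intro t ht ht0
      exact absurd (Finset.mem_filter.mp ht).2 (hθ t ht0)
    · intro h0
      apply absurd _ h0
      rw [Finset.mem_filter]
      exact ⟨Finset.mem_univ _, rfl⟩

end Pool.Agent.PLen
end
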