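import Pool.Agent.Lib.MP_30fd2d_al.Defs2
import Pool.Agent.Lib.MP_30fd2d_al.Mg.G001

section

set_option autoImplicit false

/-! T10. The shape of the Fox derivative of a cyclically reduced word. -/

namespace Pool.Agent.PLen

open scoped BigOperators

/-- The list is a cyclically reduced word starting with the letter `i0^{±1}`. -/
def GoodWord {N : ℕ} (L : List (Fin N × Bool)) (i0 : Fin N) : Prop :=
  FreeGroup.IsCyclicallyReduced L ∧ ∃ e L', L = (i0, e) :: L'

/-- The occurrences of `i0^{±1}` in the word: the initial segment and the sign. -/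
def wordsOcc {N : ℕ} (i0 : Fin N) :
    List (Fin N × Bool) → List (List (Fin N × Bool) × ℤ)
  | [] => []
  | (i, true) :: L =>
      (if i = i0 then [([], 1)] else []) ++
        (wordsOcc i0 L).map (fun q => ((i, true) :: q.1, q.2))
  | (i, false) :: L =>
      (if i = i0 then [([(i, false)], -1)] else []) ++
        (wordsOcc i0 L).map (fun q => ((i, false) :: q.1, q.2))

theorem words_ev_mk_cons {N : ℕ} {G : Type} [Group G] {P : Subgroup G} (x : Fin N → P)
    (i : Fin N) (e : Bool) (l : List (Fin N × Bool)) :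
    ev x (FreeGroup.mk ((i, e) :: l)) =
      (cond e (x i : G) (x i : G)⁻¹) * ev x (FreeGroup.mk l) := by
  simp [ev, FreeGroup.lift_mk]

theorem words_Dk_eq {N : ℕ} {G : Type} [Group G] {A : Type} [CommGroup A] (M : Subgroup G)
    [M.Normal] (P : Subgroup G) (b : M →* A) (i0 : Fin N) (x : Fin N → P) :
    ∀ (L : List (Fin N × Bool)) (g : G),
      Dk M b i0 x L g =
        ((wordsOcc i0 L).map (fun q => (cact M (g * ev x (FreeGroup.mk q.1)) b) ^ q.2)).prod
  | [], g => by simp [Dk, wordsOcc]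
  | (i, true) :: L, g => by
      rw [Dk, wordsOcc, words_Dk_eq M P b i0 x L]
      rw [List.map_append, List.prod_append, List.map_map]
      congr 1
      · by_cases h : i = i0
        · simp [h, ev]
        · simp [h]
      · congr 1
        apply List.map_congr_left
        intro q _
        simp only [Function.comp_apply]
        rw [words_ev_mk_cons]
        simp [mul_assoc]
  | (i, false) :: L, g => by
      rw [Dk, wordsOcc, words_Dk_eq M P b i0 x L]
      rw [List.map_append, List.prod_append, List.map_map]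
      congr 1
      · by_cases h : i = i0
        · subst h
          simp only [if_true, List.map_cons, List.map_nil, List.prod_cons, List.prod_nil, mul_one]
          rw [words_ev_mk_cons]
          simp [ev, ← FreeGroup.one_eq_mk]
        · simp [h]
      · congr 1
        apply List.map_congr_left
        intro q _
        simp only [Function.comp_apply]
        rw [words_ev_mk_cons]
        simp [mul_assoc]

theorem words_occ_sign {N : ℕ} (i0 : Fin N) :
    ∀ (L : List (Fin N × Bool)), ∀ q ∈ wordsOcc i0 L, q.2 = 1 ∨ q.2 = -1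
  | [], q, hq => by simp [wordsOcc] at hq
  | (i, true) :: L, q, hq => by
      rw [wordsOcc, List.mem_append, List.mem_map] at hq
      rcases hq with hq | ⟨q', hq', rfl⟩
      · by_cases h : i = i0
        · simp [h] at hq; simp [hq]
        · simp [h] at hq
      · exact words_occ_sign i0 L q' hq'
  | (i, false) :: L, q, hq => by
      rw [wordsOcc, List.mem_append, List.mem_map] at hq
      rcases hq with hq | ⟨q', hq', rfl⟩
      · by_cases h : i = i0
        · simp [h] at hq; simp [hq]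
        · simp [h] at hq
      · exact words_occ_sign i0 L q' hq'

theorem words_occ_prefix {N : ℕ} (i0 : Fin N) :
    ∀ (L : List (Fin N × Bool)), ∀ q ∈ wordsOcc i0 L, q.1 <+: L
  | [], q, hq => by simp [wordsOcc] at hq
  | (i, true) :: L, q, hq => by
      rw [wordsOcc, List.mem_append, List.mem_map] at hq
      rcases hq with hq | ⟨q', hq', rfl⟩
      · by_cases h : i = i0
        · simp [h] at hq; simp [hq]
        · simp [h] at hq
      · have := words_occ_prefix i0 L q' hq'
        simpa [List.cons_prefix_cons] using this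
  | (i, false) :: L, q, hq => by
      rw [wordsOcc, List.mem_append, List.mem_map] at hq
      rcases hq with hq | ⟨q', hq', rfl⟩
      · by_cases h : i = i0
        · simp [h] at hq; simp [hq, h, List.cons_prefix_cons]
        · simp [h] at hq
      · have := words_occ_prefix i0 L q' hq'
        simpa [List.cons_prefix_cons] using this

theorem words_occ_nil {N : ℕ} (i0 : Fin N) :
    ∀ (L : List (Fin N × Bool)), ∀ q ∈ wordsOcc i0 L, q.1 = [] → L.head? = some (i0, true)
  | [], q, hq, _ => by simp [wordsOcc] at hq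
  | (i, true) :: L, q, hq, hn => by
      rw [wordsOcc, List.mem_append, List.mem_map] at hq
      rcases hq with hq | ⟨q', hq', rfl⟩
      · by_cases h : i = i0
        · simp [h]
        · simp [h] at hq
      · simp at hn
  | (i, false) :: L, q, hq, hn => by
      rw [wordsOcc, List.mem_append, List.mem_map] at hq
      rcases hq with hq | ⟨q', hq', rfl⟩
      · by_cases h : i = i0
        · simp [h] at hq; simp [hq] at hn
        · simp [h] at hq
      · simp at hn

theorem words_occ_full {N : ℕ} (i0 : Fin N) :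
    ∀ (L : List (Fin N × Bool)), ∀ q ∈ wordsOcc i0 L, q.1 = L → L.getLast? = some (i0, false)
  | [], q, hq, _ => by simp [wordsOcc] at hq
  | (i, true) :: L, q, hq, hn => by
      rw [wordsOcc, List.mem_append, List.mem_map] at hq
      rcases hq with hq | ⟨q', hq', rfl⟩
      · by_cases h : i = i0
        · simp [h] at hq; simp [hq] at hn
        · simp [h] at hq
      · simp only [List.cons.injEq, true_and] at hn
        have := words_occ_full i0 L q' hq' hn
        have hL : L ≠ [] := by rintro rfl; simp at this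
        rw [List.getLast?_cons_of_ne_nil hL]
        exact this
  | (i, false) :: L, q, hq, hn => by
      rw [wordsOcc, List.mem_append, List.mem_map] at hq
      rcases hq with hq | ⟨q', hq', rfl⟩
      · by_cases h : i = i0
        · simp [h] at hq
          rw [hq] at hn
          simp only [List.cons.injEq, Prod.mk.injEq, and_true] at hn
          rw [← hn.2, h]
          simp
        · simp [h] at hq
      · simp only [List.cons.injEq, true_and] at hn
        have := words_occ_full i0 L q' hq' hn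
        have hL : L ≠ [] := by rintro rfl; simp at this
        rw [List.getLast?_cons_of_ne_nil hL]
        exact this

theorem words_occ_pairwise {N : ℕ} (i0 : Fin N) :
    ∀ (L : List (Fin N × Bool)), FreeGroup.IsReduced L →
      (wordsOcc i0 L).Pairwise (fun q q' => q.1.length < q'.1.length)
  | [], _ => by simp [wordsOcc]
  | (i, true) :: L, hL => by
      have hL' : FreeGroup.IsReduced L := by
        exact List.IsChain.tail hL
      rw [wordsOcc, List.pairwise_append]
      refine ⟨?_, ?_, ?_⟩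
      · by_cases h : i = i0 <;> simp [h]
      · rw [List.pairwise_map]
        exact (words_occ_pairwise i0 L hL').imp (fun {a b} h => by simpa using h)
      · intro a ha q hq
        rw [List.mem_map] at hq
        obtain ⟨q', _, rfl⟩ := hq
        by_cases h : i = i0
        · simp [h] at ha; simp [ha]
        · simp [h] at ha
  | (i, false) :: L, hL => by
      have hL' : FreeGroup.IsReduced L := by
        exact List.IsChain.tail hL
      rw [wordsOcc, List.pairwise_append]
      refine ⟨?_, ?_, ?_⟩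
      · by_cases h : i = i0 <;> simp [h]
      · rw [List.pairwise_map]
        exact (words_occ_pairwise i0 L hL').imp (fun {a b} h => by simpa using h)
      · intro a ha q hq
        rw [List.mem_map] at hq
        obtain ⟨q', hq', rfl⟩ := hq
        by_cases h : i = i0
        · simp [h] at ha
          rw [ha]
          simp only [List.length_cons, List.length_nil, zero_add]
          have hne : q'.1 ≠ [] := by
            intro h0
            have h1 := words_occ_nil i0 L q' hq' h0
            rcases L with _ | ⟨c, L⟩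
            · simp at h1
            · simp at h1
              rw [h1, h] at hL
              simp [FreeGroup.IsReduced] at hL
          have := List.length_pos_iff.mpr hne
          omega
        · simp [h] at ha

theorem Dk_form {N : ℕ} (L : List (Fin N × Bool)) (i0 : Fin N) (hL : GoodWord L i0) :
    ∃ (m : ℕ) (v : Fin (m + 1) → FreeGroup (Fin N)) (e : Fin (m + 1) → ℤ),
      (∀ t, e t = 1 ∨ e t = -1) ∧
      (∀ t, t ≠ 0 → (v 0)⁻¹ * v t ≠ 1 ∧ ((v 0)⁻¹ * v t).norm < L.length) ∧
      ∀ (G : Type) [Group G] (A : Type) [CommGroup A] (M : Subgroup G) [M.Normal]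
        (P : Subgroup G) (b : M →* A) (x : Fin N → P) (g : G),
        Dk M b i0 x L g = ∏ t, (cact M (g * ev x (v t)) b) ^ (e t) := by
  obtain ⟨hcr, e0, L', hLL⟩ := hL
  -- the head of `wordsOcc`
  have hocc : wordsOcc i0 L ≠ [] := by
    rw [hLL]
    cases e0 <;> simp [wordsOcc]
  obtain ⟨q0, qs, hq⟩ : ∃ q0 qs, wordsOcc i0 L = q0 :: qs := by
    rcases h : wordsOcc i0 L with _ | ⟨q0, qs⟩
    · exact absurd h hocc
    · exact ⟨q0, qs, rfl⟩
  have hlen : (wordsOcc i0 L).length = qs.length + 1 := by rw [hq]; simp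
  refine ⟨qs.length, fun t => FreeGroup.mk ((wordsOcc i0 L).get (t.cast hlen.symm)).1,
    fun t => ((wordsOcc i0 L).get (t.cast hlen.symm)).2, ?_, ?_, ?_⟩
  · intro t
    exact words_occ_sign i0 L _ (List.get_mem _ _)
  · intro t ht
    have hpw := words_occ_pairwise i0 L hcr.1
    rw [List.pairwise_iff_get] at hpw
    have hlt := hpw (Fin.cast hlen.symm 0) (Fin.cast hlen.symm t) (by
      rw [Fin.lt_def]
      simp
      exact Nat.pos_of_ne_zero (fun h => ht (Fin.ext h)))
    have hm0 : (wordsOcc i0 L).get (Fin.cast hlen.symm 0) ∈ wordsOcc i0 L := List.get_mem _ _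
    have hmt : (wordsOcc i0 L).get (Fin.cast hlen.symm t) ∈ wordsOcc i0 L := List.get_mem _ _
    set a := (wordsOcc i0 L).get (Fin.cast hlen.symm 0) with ha
    set c := (wordsOcc i0 L).get (Fin.cast hlen.symm t) with hc
    have hp0 := words_occ_prefix i0 L a hm0
    have hpt := words_occ_prefix i0 L c hmt
    obtain ⟨r, hr⟩ := List.prefix_of_prefix_length_le hp0 hpt hlt.le
    obtain ⟨r2, hr2⟩ := hpt
    have hrred : FreeGroup.IsReduced r := by
      have h1 := hcr.1
      rw [← hr2, ← hr] at h1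
      exact (List.IsChain.left_of_append h1).right_of_append
    have hval : (FreeGroup.mk a.1)⁻¹ * FreeGroup.mk c.1 = FreeGroup.mk r := by
      rw [← hr, ← FreeGroup.mul_mk]
      group
    have hrlen : r.length = c.1.length - a.1.length := by
      rw [← hr]; simp
    have hrpos : 0 < r.length := by omega
    have hnorm : (FreeGroup.mk r).norm = r.length := by
      rw [FreeGroup.norm, FreeGroup.toWord_mk, hrred.reduce_eq]
    show (FreeGroup.mk a.1)⁻¹ * FreeGroup.mk c.1 ≠ 1 ∧
      ((FreeGroup.mk a.1)⁻¹ * FreeGroup.mk c.1).norm < L.length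
    rw [hval]
    refine ⟨?_, ?_⟩
    · intro h1
      rw [h1] at hnorm
      simp at hnorm
      omega
    · rw [hnorm, hrlen]
      have hcl : c.1.length ≤ L.length := by
        rw [← hr2]; simp
      by_contra hcon
      push Not at hcon
      have ha0 : a.1 = [] := by
        apply List.eq_nil_of_length_eq_zero
        omega
      have hcL : c.1 = L := by
        have : r2 = [] := by
          apply List.eq_nil_of_length_eq_zero
          have := congrArg List.length hr2
          simp at this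
          omega
        rw [this] at hr2
        simpa using hr2
      have h1 := words_occ_nil i0 L a hm0 ha0
      have h2 := words_occ_full i0 L c hmt hcL
      have := hcr.2 (i0, false) h2 (i0, true) h1 rfl
      simp at this
  · intro G _ A _ M _ P b x g
    rw [words_Dk_eq]
    rw [← List.prod_ofFn]
    congr 1
    apply List.ext_get
    · simp [hlen]
    · intro n h1 h2
      rw [List.get_eq_getElem, List.get_eq_getElem, List.getElem_map, List.getElem_ofFn]
      rfl

end Pool.Agent.PLen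
end

section

set_option autoImplicit false

/-! T7. Long useless windows force large orbits. -/

set_option linter.style.haveILetI false
set_option linter.unusedVariables false

namespace Pool.Agent.PLen

open scoped commutatorElement

theorem huge_cact_apply {G : Type} [Group G] {A : Type*} [CommGroup A] (M : Subgroup G)
    [M.Normal] (g : G) (b : M →* A) (v : M) :
    cact M g b v = b (MulAut.conjNormal g v) := rfl

theorem huge_cact_mul {G : Type} [Group G] {A : Type*} [CommGroup A] (M : Subgroup G)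
    [M.Normal] (g h : G) (b : M →* A) : cact M (g * h) b = cact M h (cact M g b) := by
  ext v
  rw [huge_cact_apply, huge_cact_apply, huge_cact_apply, map_mul]
  rfl

theorem huge_cact_one {G : Type} [Group G] {A : Type*} [CommGroup A] (M : Subgroup G)
    [M.Normal] (b : M →* A) : cact M 1 b = b := by
  ext v
  rw [huge_cact_apply, map_one]
  rfl

theorem huge_mem_stab {G : Type} [Group G] {A : Type*} [CommGroup A] (M : Subgroup G)
    [M.Normal] (g : G) (b : M →* A) : g ∈ stab M b ↔ cact M g b = b := Iff.rfl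

/-- `[V, K C] ≤ [V, K] N` if `[V, C] ≤ N` and `N` is normal. -/
theorem huge_comm_right {G : Type} [Group G] (V K C N : Subgroup G) [C.Normal] [N.Normal]
    (h : ∀ c ∈ C, ∀ v ∈ V, v * c * v⁻¹ * c⁻¹ ∈ N) : ⁅V, K ⊔ C⁆ ≤ ⁅V, K⁆ ⊔ N := by
  rw [Subgroup.commutator_le]
  intro v hv x hx
  obtain ⟨a, ha, c, hc, rfl⟩ := Subgroup.mem_sup_of_normal_right.1 hx
  have e : ⁅v, a * c⁆ = ⁅v, a⁆ * (a * (v * c * v⁻¹ * c⁻¹) * a⁻¹) := by
    rw [commutatorElement_def, commutatorElement_def]; group
  rw [e]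
  exact Subgroup.mul_mem_sup (Subgroup.commutator_mem_commutator hv ha)
    (Subgroup.Normal.conj_mem inferInstance _ (h c hc v hv) a)

/-- `[U N, K] ≤ [U, K] N` if `N` is normal. -/
theorem huge_comm_left {G : Type} [Group G] (U K N : Subgroup G) [N.Normal] :
    ⁅U ⊔ N, K⁆ ≤ ⁅U, K⁆ ⊔ N := by
  rw [Subgroup.commutator_le]
  intro x hx a ha
  obtain ⟨u, hu, m, hm, rfl⟩ := Subgroup.mem_sup_of_normal_right.1 hx
  have e : ⁅u * m, a⁆ = (u * (m * (a * m⁻¹ * a⁻¹)) * u⁻¹) * ⁅u, a⁆ := by
    rw [commutatorElement_def, commutatorElement_def]; group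
  rw [e]
  have h1 : u * (m * (a * m⁻¹ * a⁻¹)) * u⁻¹ ∈ N :=
    Subgroup.Normal.conj_mem inferInstance _
      (N.mul_mem hm (Subgroup.Normal.conj_mem inferInstance _ (N.inv_mem hm) a)) u
  have h2 := Subgroup.mul_mem _ (Subgroup.mem_sup_right (S := ⁅U, K⁆) h1)
    (Subgroup.mem_sup_left (T := N) (Subgroup.commutator_mem_commutator hu ha))
  exact h2

section main

variable {p : ℕ} {G : Type} [Group G] {n : ℕ} (τ : Tower p G n) (H : Subgroup G) {k : ℕ}
  {A : Type*} [CommGroup A] (D : Set (τ.M k →* A))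

/-- The elements of `H` that fix all members of `D`. -/
def hugeFix : Subgroup G :=
  haveI := τ.nM k
  H ⊓ ⨅ d ∈ D, stab (τ.M k) d

theorem mem_hugeFix (x : G) : haveI := τ.nM k
    x ∈ hugeFix τ H D ↔ x ∈ H ∧ ∀ d ∈ D, cact (τ.M k) x d = d := by
  haveI := τ.nM k
  unfold hugeFix
  rw [Subgroup.mem_inf]
  simp only [Subgroup.mem_iInf, huge_mem_stab]

theorem hugeFix_conj (hinv : haveI := τ.nM k; ∀ h ∈ H, ∀ d ∈ D, cact (τ.M k) h d ∈ D)
    (h x : G) (hh : h ∈ H) (hx : x ∈ hugeFix τ H D) : h * x * h⁻¹ ∈ hugeFix τ H D := by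
  haveI := τ.nM k
  rw [mem_hugeFix] at hx ⊢
  refine ⟨H.mul_mem (H.mul_mem hh hx.1) (H.inv_mem hh), fun d hd => ?_⟩
  rw [huge_cact_mul, huge_cact_mul, hx.2 _ (hinv h hh d hd), ← huge_cact_mul, mul_inv_cancel,
    huge_cact_one]

/-- Going down one layer. -/
theorem huge_step (hinv : haveI := τ.nM k; ∀ h ∈ H, ∀ d ∈ D, cact (τ.M k) h d ∈ D)
    {i : ℕ} (hi : i < n) (h : (hugeFix τ H D ⊓ τ.M i) ⊔ τ.M' i = τ.M i) :
    ⁅τ.M (i + 1), hugeFix τ H D ⊓ τ.M i⁆ ⊔ τ.M' (i + 1) = τ.M (i + 1) := by
  haveI := τ.nM (i + 1)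
  haveI := τ.nM' (i + 1)
  haveI := τ.nC i
  have h1 := τ.frat i hi _ inf_le_right h
  have h2 := huge_comm_right (τ.M (i + 1)) (hugeFix τ H D ⊓ τ.M i) (τ.C i) (τ.M' (i + 1))
    (fun c hc v hv => by
      have h3 := ((τ.mem_C i hi c).1 hc).2 v hv
      have h4 : v * c * v⁻¹ * c⁻¹ = (c * v * c⁻¹ * v⁻¹)⁻¹ := by group
      rw [h4]
      exact Subgroup.inv_mem _ h3)
  rw [h1] at h2
  apply le_antisymm
  · exact sup_le (Subgroup.commutator_le_left _ _) (τ.le _)
  · calc τ.M (i + 1) = ⁅τ.M (i + 1), τ.M i⁆ ⊔ τ.M' (i + 1) := (τ.act i hi).symm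
      _ ≤ _ := sup_le h2 le_sup_right

/-- A useless layer passes the supplement on. -/
theorem huge_pass (hinv : haveI := τ.nM k; ∀ h ∈ H, ∀ d ∈ D, cact (τ.M k) h d ∈ D)
    {i : ℕ} (hi : i < n) (h : (hugeFix τ H D ⊓ τ.M i) ⊔ τ.M' i = τ.M i)
    (huse : (H ⊓ τ.M (i + 1)) ⊔ τ.M' (i + 1) = τ.M (i + 1)) :
    (hugeFix τ H D ⊓ τ.M (i + 1)) ⊔ τ.M' (i + 1) = τ.M (i + 1) := by
  haveI := τ.nM (i + 1)
  haveI := τ.nM' (i + 1)
  have h1 := huge_step τ H D hinv hi h
  have h2 := huge_comm_left (H ⊓ τ.M (i + 1)) (hugeFix τ H D ⊓ τ.M i) (τ.M' (i + 1))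
  rw [huse] at h2
  have h3 : ⁅H ⊓ τ.M (i + 1), hugeFix τ H D ⊓ τ.M i⁆ ≤ hugeFix τ H D ⊓ τ.M (i + 1) := by
    rw [Subgroup.commutator_le]
    intro x hx a ha
    rw [Subgroup.mem_inf] at hx ha ⊢
    rw [commutatorElement_def]
    constructor
    · exact Subgroup.mul_mem _ (hugeFix_conj τ H D hinv x a hx.1 ha.1) (Subgroup.inv_mem _ ha.1)
    · have h4 : x * a * x⁻¹ * a⁻¹ = x * (a * x⁻¹ * a⁻¹) := by group
      rw [h4]
      exact Subgroup.mul_mem _ hx.2
        (Subgroup.Normal.conj_mem inferInstance _ (Subgroup.inv_mem _ hx.2) a)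
  apply le_antisymm
  · exact sup_le inf_le_right (τ.le _)
  · calc τ.M (i + 1) = ⁅τ.M (i + 1), hugeFix τ H D ⊓ τ.M i⁆ ⊔ τ.M' (i + 1) := h1.symm
      _ ≤ _ := sup_le (h2.trans (sup_le (h3.trans le_sup_left) le_sup_right)) le_sup_right

/-- The final contradiction. -/
theorem huge_final (hinv : haveI := τ.nM k; ∀ h ∈ H, ∀ d ∈ D, cact (τ.M k) h d ∈ D)
    (hne : D.Nonempty) (hD : ∀ d ∈ D, d ≠ 1 ∧ ∀ x : τ.M k, (x : G) ∈ τ.M' k → d x = 1)
    {i : ℕ} (hi : i < n) (hik : i + 1 = k)
    (h : (hugeFix τ H D ⊓ τ.M i) ⊔ τ.M' i = τ.M i) : False := by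
  subst hik
  haveI := τ.nM (i + 1)
  haveI := τ.nM' (i + 1)
  obtain ⟨d, hd⟩ := hne
  have h1 := huge_step τ H D hinv hi h
  obtain ⟨hd1, hd2⟩ := hD d hd
  apply hd1
  -- the kernel of `d`, as a subgroup of `G`
  have h2 : ⁅τ.M (i + 1), hugeFix τ H D ⊓ τ.M i⁆ ⊔ τ.M' (i + 1) ≤
      (d.ker).map (τ.M (i + 1)).subtype := by
    refine sup_le ?_ ?_
    · rw [Subgroup.commutator_le]
      intro v hv a ha
      rw [Subgroup.mem_inf, mem_hugeFix] at ha
      have h3 := DFunLike.congr_fun (ha.1.2 d hd) (⟨v, hv⟩⁻¹ : τ.M (i + 1))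
      rw [huge_cact_apply] at h3
      refine ⟨⟨v, hv⟩ * MulAut.conjNormal a (⟨v, hv⟩⁻¹ : τ.M (i + 1)), ?_, ?_⟩
      · show _ ∈ d.ker
        rw [MonoidHom.mem_ker, map_mul, h3, ← map_mul, mul_inv_cancel, map_one]
      · rw [commutatorElement_def]
        simp only [Subgroup.subtype_apply, Subgroup.coe_mul, MulAut.conjNormal_apply,
          Subgroup.coe_inv]
        group
    · intro x hx
      exact ⟨⟨x, τ.le _ hx⟩, (MonoidHom.mem_ker).2 (hd2 ⟨x, τ.le _ hx⟩ hx), rfl⟩
  rw [h1] at h2
  ext x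
  obtain ⟨y, hy, hyx⟩ := h2 x.2
  have h3 : y = x := Subtype.ext hyx
  rw [← h3]
  exact (MonoidHom.mem_ker).1 hy

end main

theorem huge {p : ℕ} {G : Type} [Group G] [Finite G] {n : ℕ} (τ : Tower p G n)
    (H : Subgroup G) {k l : ℕ} (hk : k ≤ n) (hl : l ≤ k)
    (huse : ∀ j, k - l ≤ j → j < k → (H ⊓ τ.M j) ⊔ τ.M' j = τ.M j)
    {A : Type*} [CommGroup A] (D : Set (τ.M k →* A)) (hfin : D.Finite) (hne : D.Nonempty)
    (hD : ∀ d ∈ D, d ≠ 1 ∧ ∀ x : τ.M k, (x : G) ∈ τ.M' k → d x = 1)
    (hinv : haveI := τ.nM k; ∀ h ∈ H, ∀ d ∈ D, cact (τ.M k) h d ∈ D) :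
    2 ^ l ≤ (D.ncard).factorial := by
  classical
  haveI := τ.nM k
  haveI := hfin.to_subtype
  obtain ⟨φ, hφ⟩ : ∃ φ : H →* Equiv.Perm D, ∀ (h : H) (d : D),
      ((φ h d : D) : τ.M k →* A) = cact (τ.M k) ((h : G)⁻¹) d := by
    refine ⟨MonoidHom.mk' (fun h =>
      { toFun := fun d => ⟨cact (τ.M k) ((h : G)⁻¹) d, hinv _ (H.inv_mem h.2) _ d.2⟩
        invFun := fun d => ⟨cact (τ.M k) (h : G) d, hinv _ h.2 _ d.2⟩
        left_inv := fun d => by
          apply Subtype.ext
          show cact (τ.M k) (h : G) (cact (τ.M k) ((h : G)⁻¹) (d : τ.M k →* A)) = d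
          rw [← huge_cact_mul, inv_mul_cancel, huge_cact_one]
        right_inv := fun d => by
          apply Subtype.ext
          show cact (τ.M k) ((h : G)⁻¹) (cact (τ.M k) (h : G) (d : τ.M k →* A)) = d
          rw [← huge_cact_mul, mul_inv_cancel, huge_cact_one] }) ?_, ?_⟩
    · intro g h
      ext1 d
      apply Subtype.ext
      show cact (τ.M k) (((g * h : H) : G)⁻¹) (d : τ.M k →* A) =
        cact (τ.M k) ((g : G)⁻¹) (cact (τ.M k) ((h : G)⁻¹) (d : τ.M k →* A))
      rw [← huge_cact_mul]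
      congr 1
      rw [Subgroup.coe_mul, mul_inv_rev]
    · intro h d
      rfl
  -- the kernel of `φ`
  have hker : ∀ h : H, φ h = 1 → (h : G) ∈ hugeFix τ H D := by
    intro h hh
    rw [← Subgroup.inv_mem_iff, mem_hugeFix]
    refine ⟨H.inv_mem h.2, fun d hd => ?_⟩
    have := hφ h ⟨d, hd⟩
    rw [hh] at this
    exact this.symm
  have hMM : ∀ j, j < n → τ.M (j + 1) ≤ τ.M j := fun j hj => (τ.succ_le j hj).trans (τ.le j)
  obtain ⟨I, hI⟩ : ∃ I : ℕ → Subgroup (Equiv.Perm D), ∀ j, I j = ((τ.M j).subgroupOf H).map φ :=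
    ⟨_, fun _ => rfl⟩
  have hle : ∀ j, j < n → I (j + 1) ≤ I j := by
    intro j hj
    rw [hI, hI]
    apply Subgroup.map_mono
    intro x hx
    exact hMM j hj hx
  have hneq : ∀ j, k - l ≤ j → j < k → I (j + 1) ≠ I j := by
    intro j hj1 hj2 heq
    have hjn : j < n := lt_of_lt_of_le hj2 hk
    -- the first supplement
    have h0 : (hugeFix τ H D ⊓ τ.M j) ⊔ τ.M' j = τ.M j := by
      apply le_antisymm
      · exact sup_le inf_le_right (τ.le _)
      · calc τ.M j = (H ⊓ τ.M j) ⊔ τ.M' j := (huse j hj1 hj2).symm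
          _ ≤ _ := sup_le ?_ le_sup_right
        intro x hx
        rw [Subgroup.mem_inf] at hx
        have h1 : φ ⟨x, hx.1⟩ ∈ I j := by
          rw [hI]
          exact ⟨⟨x, hx.1⟩, hx.2, rfl⟩
        rw [← heq, hI] at h1
        obtain ⟨y, hy, hyx⟩ := h1
        have hy' : (y : G) ∈ τ.M (j + 1) := hy
        have h2 : φ (⟨x, hx.1⟩ * y⁻¹) = 1 := by
          rw [map_mul, map_inv, hyx, mul_inv_cancel]
        have h3 := hker _ h2
        have h4 : (((⟨x, hx.1⟩ * y⁻¹ : H)) : G) = x * (y : G)⁻¹ := rfl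
        rw [h4] at h3
        have h5 : x = (x * (y : G)⁻¹) * y := by group
        rw [h5]
        exact Subgroup.mul_mem_sup ⟨h3, (τ.M j).mul_mem hx.2 ((τ.M j).inv_mem (hMM j hjn hy'))⟩
          (τ.succ_le j hjn hy')
    have hall : ∀ i, j ≤ i → i < k → (hugeFix τ H D ⊓ τ.M i) ⊔ τ.M' i = τ.M i := by
      intro i hji
      induction i, hji using Nat.le_induction with
      | base => intro _; exact h0
      | succ i hji ih =>
        intro hik
        exact huge_pass τ H D hinv (by omega) (ih (by omega)) (huse (i + 1) (by omega) hik)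
    exact huge_final τ H D hinv hne hD (i := k - 1) (by omega) (by omega)
      (hall (k - 1) (by omega) (by omega))
  have hcard : ∀ i, i ≤ l → 2 ^ i ≤ Nat.card (I (k - i)) := by
    intro i
    induction i with
    | zero => intro _; exact Nat.card_pos
    | succ i ih =>
      intro hil
      have h1 := ih (by omega)
      have e : k - i = (k - (i + 1)) + 1 := by omega
      rw [e] at h1
      have h2 := hle (k - (i + 1)) (by omega)
      have h3 := hneq (k - (i + 1)) (by omega) (by omega)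
      obtain ⟨c, hc⟩ := Subgroup.card_dvd_of_le h2
      have hc2 : 2 ≤ c := by
        by_contra hcon
        have hpos : 0 < Nat.card (I (k - (i + 1))) := Nat.card_pos
        have hc1 : c = 1 := by
          rcases Nat.lt_or_ge c 1 with h | h
          · have : c = 0 := by omega
            rw [this, mul_zero] at hc
            omega
          · omega
        rw [hc1, mul_one] at hc
        exact h3 (Subgroup.eq_of_le_of_card_ge h2 hc.le)
      rw [hc, pow_succ]
      exact Nat.mul_le_mul h1 hc2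
  calc 2 ^ l ≤ Nat.card (I (k - l)) := hcard l le_rfl
    _ ≤ Nat.card (Equiv.Perm D) := Subgroup.card_le_card_group _
    _ = (D.ncard).factorial := by rw [Nat.card_perm, Nat.card_coe_set_eq]

end Pool.Agent.PLen
end

section

set_option autoImplicit false

/-! T5. Transition over an odd layer. -/

namespace Pool.Agent.PLen

open scoped BigOperators

/-- Index count for a homomorphism to a quotient of the group itself. -/
theorem TransT_core {A B : Type} [Group A] [Group B] (S : Subgroup A) [S.Normal] (ψ : B →* A ⧸ S) :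
    ψ.ker.index * ((ψ.range).comap (QuotientGroup.mk' S)).index = S.index := by
  rw [Subgroup.index_ker, Subgroup.index_comap_of_surjective _ (QuotientGroup.mk'_surjective S),
    Subgroup.card_mul_index]
  rfl

theorem TransT_om {G : Type} [Group G] {N : ℕ} (w : FreeGroup (Fin N)) {P : Subgroup G}
    (s : Smp P N) (n : G) : om w (s.1, n * s.2) = n * om w s * n⁻¹ := by
  unfold om
  simp only [mul_inv_rev, mul_assoc]

theorem TransT_stab {G : Type} [Group G] (M : Subgroup G) [M.Normal] {A : Type*} [CommGroup A]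
    (b : M →* A) (g : G) :
    g ∈ stab M b ↔ ∀ m : M, b ((MulAut.conjNormal g⁻¹ : MulAut M) m * m⁻¹) = 1 := by
  constructor
  · intro h m
    have h1 : cact M g b = b := h
    have h2 := DFunLike.congr_fun h1 ((MulAut.conjNormal g⁻¹ : MulAut M) m)
    simp only [cact, MonoidHom.coe_comp, Function.comp_apply, MulEquiv.coe_toMonoidHom] at h2
    have h3 : (MulAut.conjNormal g : MulAut M) ((MulAut.conjNormal g⁻¹ : MulAut M) m) = m := by
      apply Subtype.ext
      simp
    rw [h3] at h2
    rw [b.map_mul, b.map_inv, ← h2, mul_inv_cancel]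
  · intro h
    change cact M g b = b
    ext v
    have h2 := h ((MulAut.conjNormal g : MulAut M) v)
    have h3 : (MulAut.conjNormal g⁻¹ : MulAut M) ((MulAut.conjNormal g : MulAut M) v) = v := by
      apply Subtype.ext
      simp
    rw [h3, b.map_mul, b.map_inv, mul_inv_eq_one] at h2
    simp only [cact, MonoidHom.coe_comp, Function.comp_apply, MulEquiv.coe_toMonoidHom]
    exact h2.symm

theorem coset_T {p : ℕ} [Fact p.Prime] {G : Type} [Group G] [Finite G] {n : ℕ} (τ : Tower p G n)
    {N : ℕ} (w : FreeGroup (Fin N)) (P : Sylow p G) {j : ℕ} (hj : j ≤ n) (hodd : Odd j)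
    (H : Subgroup G) (γ : G) (s : Smp (P : Subgroup G) N) :
    haveI := τ.nM j
    ∃ K : Subgroup G, τ.M' j ≤ K ∧ K ≤ τ.M j ∧
      K.relIndex (τ.M j) *
          Nat.card {d : Lam (τ.M j) (H ⊔ τ.M' j) (kk p)ˣ // om w s ∈ stab (τ.M j) d.1} =
        Nat.card (Lam (τ.M j) (H ⊔ τ.M' j) (kk p)ˣ) ∧
      ((∀ n ∈ τ.M j, ¬ EvM w H (τ.M' j) γ (s.1, n * s.2)) ∨
        ∃ n1 ∈ τ.M j, ∀ n ∈ τ.M j, EvM w H (τ.M' j) γ (s.1, n * s.2) ↔ n1⁻¹ * n ∈ K) := by
  have hMn := τ.nM j
  have hM'n := τ.nM' j
  set M := τ.M j with hM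
  set M' := τ.M' j with hM'
  set S : Subgroup G := H ⊔ M' with hS
  have hle : M' ≤ M := τ.le j
  have hM'S : M' ≤ S := le_sup_right
  have hab : ∀ x ∈ M, ∀ y ∈ M, x * y * x⁻¹ * y⁻¹ ∈ M' := τ.ab j hj
  set Q0 : Subgroup M := S.subgroupOf M with hQ0
  have hcomm : ∀ x y : M, x * y * x⁻¹ * y⁻¹ ∈ Q0 := by
    intro x y
    rw [hQ0, Subgroup.mem_subgroupOf]
    exact hM'S (hab x x.2 y y.2)
  have hQn : Q0.Normal := by
    constructor
    intro x hx g
    have h1 := hcomm g x
    have h2 := Q0.mul_mem h1 hx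
    simpa using h2
  have hqc : ∀ a b : M ⧸ Q0, a * b = b * a := by
    intro a b
    induction a using QuotientGroup.induction_on with
    | H x =>
      induction b using QuotientGroup.induction_on with
      | H y =>
        rw [← QuotientGroup.mk_mul, ← QuotientGroup.mk_mul, QuotientGroup.eq]
        have := hcomm y⁻¹ x⁻¹
        simpa [mul_assoc] using this
  set ω := om w s with hω
  have hmk_conj : ∀ (g x : M), (QuotientGroup.mk (g * x * g⁻¹) : M ⧸ Q0) = QuotientGroup.mk x := by
    intro g x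
    rw [QuotientGroup.mk_mul, QuotientGroup.mk_mul, hqc (QuotientGroup.mk g), mul_assoc,
      ← QuotientGroup.mk_mul]
    simp
  let ψ : M →* M ⧸ Q0 := MonoidHom.mk'
    (fun m => (QuotientGroup.mk ((MulAut.conjNormal ω⁻¹ : MulAut M) m * m⁻¹) : M ⧸ Q0)) (by
      intro a b
      have h1 : (MulAut.conjNormal ω⁻¹ : MulAut M) (a * b) * (a * b)⁻¹ =
          ((MulAut.conjNormal ω⁻¹ : MulAut M) a * a⁻¹) *
            (a * ((MulAut.conjNormal ω⁻¹ : MulAut M) b * b⁻¹) * a⁻¹) := by
        rw [map_mul]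
        group
      rw [h1, QuotientGroup.mk_mul, hmk_conj])
  have hψ : ∀ m, ψ m = (QuotientGroup.mk ((MulAut.conjNormal ω⁻¹ : MulAut M) m * m⁻¹) : M ⧸ Q0) :=
    fun m => rfl
  set T : Subgroup M := (ψ.range).comap (QuotientGroup.mk' Q0) with hT
  have hcore := TransT_core Q0 ψ
  have hMQ : (M').subgroupOf M ≤ Q0 := by
    intro x hx
    rw [Subgroup.mem_subgroupOf] at hx
    rw [hQ0, Subgroup.mem_subgroupOf]
    exact hM'S hx
  have hQT : Q0 ≤ T := by
    intro x hx
    rw [hT, Subgroup.mem_comap, QuotientGroup.mk'_apply, (QuotientGroup.eq_one_iff x).2 hx]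
    exact Subgroup.one_mem _
  have hc1 : Nat.card (Lam M S (kk p)ˣ) = Q0.index := by
    rw [← dualT τ hj hodd Q0 hMQ]
    rfl
  have hc2 : Nat.card {d : Lam M S (kk p)ˣ // ω ∈ stab M d.1} = T.index := by
    rw [← dualT τ hj hodd T (hMQ.trans hQT)]
    refine Nat.card_congr
      { toFun := fun d => ⟨d.1.1, ?_⟩
        invFun := fun b => ⟨⟨b.1, fun x hx => b.2 x (hQT hx)⟩, ?_⟩
        left_inv := fun d => rfl
        right_inv := fun b => rfl }
    · intro x hx
      rw [hT, Subgroup.mem_comap, QuotientGroup.mk'_apply] at hx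
      obtain ⟨m, hm⟩ := hx
      rw [hψ, QuotientGroup.eq] at hm
      have h1 := (TransT_stab M d.1.1 ω).1 d.2 m
      have h2 : d.1.1 (((MulAut.conjNormal ω⁻¹ : MulAut M) m * m⁻¹)⁻¹ * x) = 1 := d.1.2 _ hm
      rw [MonoidHom.map_mul, MonoidHom.map_inv, h1, inv_one, one_mul] at h2
      exact h2
    · refine (TransT_stab M b.1 ω).2 fun m => b.2 _ ?_
      rw [hT, Subgroup.mem_comap, QuotientGroup.mk'_apply]
      exact ⟨m, hψ m⟩
  have hmemS : ∀ m : M, m ∈ ψ.ker ↔ ω⁻¹ * (m : G) * ω * (m : G)⁻¹ ∈ S := by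
    intro m
    rw [MonoidHom.mem_ker, hψ, QuotientGroup.eq_one_iff, hQ0, Subgroup.mem_subgroupOf]
    simp
  refine ⟨ψ.ker.map M.subtype, ?_, ?_, ?_, ?_⟩
  · intro x hx
    refine ⟨⟨x, hle hx⟩, ?_, rfl⟩
    rw [SetLike.mem_coe, hmemS]
    refine hM'S (M'.mul_mem ?_ (M'.inv_mem hx))
    have := hM'n.conj_mem x hx ω⁻¹
    simpa using this
  · intro x hx
    obtain ⟨y, -, rfl⟩ := hx
    exact y.2
  · rw [hc1, hc2, ← hcore]
    congr 1
    rw [Subgroup.relIndex, Subgroup.subgroupOf, Subgroup.comap_map_eq_self_of_injective]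
    exact Subtype.val_injective
  · by_cases hex : ∃ n1 ∈ M, EvM w H M' γ (s.1, n1 * s.2)
    · right
      obtain ⟨n1, hn1, hev⟩ := hex
      refine ⟨n1, hn1, fun n hn => ?_⟩
      have hmM : n1⁻¹ * n ∈ M := M.mul_mem (M.inv_mem hn1) hn
      have h1 : (n1⁻¹ * n ∈ ψ.ker.map M.subtype) ↔ ω⁻¹ * (n1⁻¹ * n) * ω * (n1⁻¹ * n)⁻¹ ∈ S := by
        rw [← hmemS ⟨n1⁻¹ * n, hmM⟩]
        constructor
        · rintro ⟨y, hy, hyy⟩
          have : y = ⟨n1⁻¹ * n, hmM⟩ := Subtype.ext hyy
          rw [← this]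
          exact hy
        · intro h
          exact ⟨_, h, rfl⟩
      rw [h1]
      unfold EvM at hev ⊢
      rw [TransT_om, ← hω] at hev ⊢
      have h2 : γ * (n * ω * n⁻¹) = γ * (n1 * ω * n1⁻¹) *
          (n1 * (ω⁻¹ * (n1⁻¹ * n) * ω * (n1⁻¹ * n)⁻¹) * n1⁻¹) := by
        group
      rw [h2]
      have hφM : ω⁻¹ * (n1⁻¹ * n) * ω * (n1⁻¹ * n)⁻¹ ∈ M := by
        refine M.mul_mem ?_ (M.inv_mem hmM)
        have := hMn.conj_mem _ hmM ω⁻¹
        simpa using this
      have h3 := hab n1 hn1 _ hφM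
      have h4 : n1 * (ω⁻¹ * (n1⁻¹ * n) * ω * (n1⁻¹ * n)⁻¹) * n1⁻¹ ∈ S ↔
          ω⁻¹ * (n1⁻¹ * n) * ω * (n1⁻¹ * n)⁻¹ ∈ S := by
        constructor
        · intro h
          have h5 := S.mul_mem (S.inv_mem (hM'S h3)) h
          simpa [mul_assoc] using h5
        · intro h
          have h5 := S.mul_mem (hM'S h3) h
          simpa [mul_assoc] using h5
      rw [← h4]
      exact Subgroup.mul_mem_cancel_left S hev
    · left
      push Not at hex
      exact hex

/-- Density of a left coset of a subgroup. -/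
theorem TransT_pr {A : Type} [Group A] [Finite A] (K : Subgroup A) (a : A) :
    pr (fun x : A => a⁻¹ * x ∈ K) = ((K.index : ℝ))⁻¹ := by
  unfold pr
  have h1 : Nat.card {x : A // a⁻¹ * x ∈ K} = Nat.card K := by
    refine Nat.card_congr
      { toFun := fun x => ⟨a⁻¹ * x.1, x.2⟩
        invFun := fun k => ⟨a * k.1, ?_⟩
        left_inv := fun x => ?_
        right_inv := fun k => ?_ }
    · simp
    · apply Subtype.ext; simp
    · apply Subtype.ext; simp
  have h2 := K.card_mul_index
  have h3 : (Nat.card K : ℝ) ≠ 0 := by exact_mod_cast Nat.card_pos.ne'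
  have h4 : (K.index : ℝ) ≠ 0 := by exact_mod_cast K.index_ne_zero_of_finite
  rw [h1, ← h2]
  push_cast
  field_simp

theorem trans_T {p : ℕ} [Fact p.Prime] {G : Type} [Group G] [Finite G] {n : ℕ} (τ : Tower p G n)
    {N : ℕ} (w : FreeGroup (Fin N)) (P : Sylow p G) {j : ℕ} (hj : j ≤ n) (hodd : Odd j)
    (H : Subgroup G) (γ : G) (E : Smp (P : Subgroup G) N → Prop)
    (hE : ∀ s, ∀ n ∈ τ.M j, E (s.1, n * s.2) ↔ E s) :
    haveI := τ.nM j
    pr (fun s : Smp (P : Subgroup G) N => E s ∧ EvM w H (τ.M' j) γ s) ≤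
      (∑ᶠ d : Lam (τ.M j) (H ⊔ τ.M' j) (kk p)ˣ,
        pr (fun s : Smp (P : Subgroup G) N =>
          E s ∧ EvM w H (τ.M j) γ s ∧ om w s ∈ stab (τ.M j) d.1)) /
      (Nat.card (Lam (τ.M j) (H ⊔ τ.M' j) (kk p)ˣ) : ℝ) := by
  have hMn := τ.nM j
  have hM'n := τ.nM' j
  set M := τ.M j with hM
  set M' := τ.M' j with hM'
  have hle : M' ≤ M := τ.le j
  have hfin0 : Finite (M →* (kk p)ˣ) := finite_chars
  have hfin : Finite (Lam M (H ⊔ M') (kk p)ˣ) := by
    unfold Lam
    infer_instance
  have hft := Fintype.ofFinite (Lam M (H ⊔ M') (kk p)ˣ)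
  have hne : Nonempty (Lam M (H ⊔ M') (kk p)ˣ) := ⟨⟨1, fun x _ => rfl⟩⟩
  have hcpos : (0 : ℝ) < (Nat.card (Lam M (H ⊔ M') (kk p)ˣ) : ℝ) := by
    exact_mod_cast Nat.card_pos
  have hS : Nonempty M := ⟨1⟩
  have hbd := pr_fiber_le (α := Smp (P : Subgroup G) N) (β := M)
    (fun n => shiftL (n : G)) (fun s => E s ∧ EvM w H M' γ s)
    (fun s => (Nat.card (Lam M (H ⊔ M') (kk p)ˣ) : ℝ)⁻¹ *
      ∑ d : Lam M (H ⊔ M') (kk p)ˣ, ind (E s ∧ EvM w H M γ s ∧ om w s ∈ stab M d.1)) ?_
  · refine hbd.trans (le_of_eq ?_)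
    rw [av_mul_left, av_sum, finsum_eq_sum_of_fintype, div_eq_inv_mul]
    congr 1
    refine Finset.sum_congr rfl fun d _ => ?_
    rw [pr_eq_av]
  · intro s
    have hnn : 0 ≤ (Nat.card (Lam M (H ⊔ M') (kk p)ˣ) : ℝ)⁻¹ *
        ∑ d : Lam M (H ⊔ M') (kk p)ˣ, ind (E s ∧ EvM w H M γ s ∧ om w s ∈ stab M d.1) :=
      mul_nonneg (inv_nonneg.2 hcpos.le) (Finset.sum_nonneg fun _ _ => ind_nonneg _)
    have hsh : ∀ n : M, (shiftL (n : G) : Smp (P : Subgroup G) N ≃ _) s = (s.1, (n : G) * s.2) :=
      fun n => rfl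
    simp only [hsh]
    by_cases hEs : E s
    · obtain ⟨K, hM'K, hKM, hcard, hK⟩ := coset_T τ w P hj hodd H γ s
      rcases hK with hK | ⟨n1, hn1, hK⟩
      · rw [pr_false]
        · exact hnn
        · rintro n ⟨-, h2⟩
          exact hK n n.2 h2
      · have h1 : pr (fun n : M => E (s.1, (n : G) * s.2) ∧ EvM w H M' γ (s.1, (n : G) * s.2)) =
            ((K.relIndex M : ℕ) : ℝ)⁻¹ := by
          rw [Subgroup.relIndex, ← TransT_pr (K.subgroupOf M) ⟨n1, hn1⟩]
          refine pr_congr fun n => ?_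
          rw [hE s n n.2, hK n n.2, Subgroup.mem_subgroupOf]
          simp [hEs]
        rw [h1]
        have hev : EvM w H M γ s := by
          have h2 := (hK n1 hn1).2 (by simp [K.one_mem])
          unfold EvM at h2 ⊢
          rw [TransT_om] at h2
          have h3 : γ * om w s = γ * (n1 * om w s * n1⁻¹) *
              (n1 * ((om w s)⁻¹ * n1⁻¹ * om w s)) := by group
          rw [h3]
          refine Subgroup.mul_mem _ ((sup_le_sup_left hle H) h2) ?_
          refine (le_sup_right : M ≤ H ⊔ M) (M.mul_mem hn1 ?_)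
          have := hMn.conj_mem _ (M.inv_mem hn1) (om w s)⁻¹
          simpa using this
        have h4 : ∑ d : Lam M (H ⊔ M') (kk p)ˣ,
            ind (E s ∧ EvM w H M γ s ∧ om w s ∈ stab M d.1) =
            (Nat.card {d : Lam M (H ⊔ M') (kk p)ˣ // om w s ∈ stab M d.1} : ℝ) := by
          classical
          unfold ind
          simp only [hEs, hev, true_and]
          rw [Finset.sum_boole, Nat.card_eq_fintype_card, Fintype.card_subtype]
        rw [h4]
        have h5 : (K.relIndex M : ℝ) *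
            (Nat.card {d : Lam M (H ⊔ M') (kk p)ˣ // om w s ∈ stab M d.1} : ℝ) =
            (Nat.card (Lam M (H ⊔ M') (kk p)ˣ) : ℝ) := by
          exact_mod_cast hcard
        have h6 : (K.relIndex M : ℝ) ≠ 0 := by
          intro h0
          rw [h0, zero_mul] at h5
          exact hcpos.ne h5
        rw [← h5]
        have h7 : (Nat.card {d : Lam M (H ⊔ M') (kk p)ˣ // om w s ∈ stab M d.1} : ℝ) ≠ 0 := by
          intro h0
          rw [h0, mul_zero] at h5
          exact hcpos.ne h5
        apply le_of_eq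
        field_simp
    · rw [pr_false]
      · exact hnn
      · rintro n ⟨h1, -⟩
        exact hEs ((hE s n n.2).1 h1)

end Pool.Agent.PLen
end
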