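import Pool.Agent.Lib.MP_30fd2d_al.Mg.G001
import Pool.Agent.Lib.MP_30fd2d_al.Mg.G002
import Pool.Agent.Lib.MP_30fd2d_al.Mg.G004

section

set_option autoImplicit false
set_option linter.unusedSectionVars false

/-! T11. Kill probability when `M' j` moves the functional. -/

namespace Pool.Agent.PLen

open scoped BigOperators

section KnaProj

variable {G : Type} [Group G] [Finite G]

/-- Reindexing a sum over representatives. -/
theorem kna_reindex {A k : Type*} [Group A] [Field k] [Finite A] (S : Subgroup A)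
    (φ : A → k) (hφ : ∀ q c, c ∈ S → φ (q * c) = φ q) (e : A ≃ A)
    (he : ∀ q q', (e q)⁻¹ * e q' ∈ S ↔ q⁻¹ * q' ∈ S) :
    ∑ᶠ q : A ⧸ S, φ (e q.out) = ∑ᶠ q : A ⧸ S, φ q.out := by
  have hφ' : ∀ q q', q⁻¹ * q' ∈ S → φ q' = φ q := by
    intro q q' h
    have h1 := hφ q _ h
    rwa [mul_inv_cancel_left] at h1
  have key : ∀ a b : A, (QuotientGroup.mk a : A ⧸ S) = QuotientGroup.mk b ↔ a⁻¹ * b ∈ S :=
    fun a b => QuotientGroup.eq
  let E : A ⧸ S → A ⧸ S := fun q => QuotientGroup.mk (e q.out)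
  have hEinj : Function.Injective E := by
    intro q q' h
    have h1 : (e q.out)⁻¹ * e q'.out ∈ S := (key _ _).1 h
    rw [he] at h1
    have h2 := (key _ _).2 h1
    rwa [QuotientGroup.out_eq', QuotientGroup.out_eq'] at h2
  have hEb : Function.Bijective E := Finite.injective_iff_bijective.1 hEinj
  rw [← finsum_comp_equiv (Equiv.ofBijective E hEb) (f := fun q : A ⧸ S => φ q.out)]
  refine finsum_congr fun q => ?_
  refine (hφ' _ _ ?_)
  change ((E q).out)⁻¹ * e q.out ∈ S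
  rw [← key, QuotientGroup.out_eq']

/-- The projection to the part of weight `d`. -/
noncomputable def knaP {k : Type*} [Field k] (Z C V : Subgroup G) [V.Normal]
    (d : Z →* kˣ) (f : V → k) (v : V) : k :=
  ∑ᶠ q : Z ⧸ C.subgroupOf Z, ((d q.out : kˣ) : k)⁻¹ *
    f ((MulAut.conjNormal ((q.out : Z) : G) : MulAut V) v)

/-- `f` is invariant under translation by `V'`. -/
def KnaInv {k : Type*} (V V' : Subgroup G) (f : V → k) : Prop :=
  ∀ v w : V, (w : G) ∈ V' → f (w * v) = f v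

theorem kna_inv_conj {k : Type*} [Field k] {V V' C : Subgroup G} [V.Normal]
    (hC : ∀ c ∈ C, ∀ v ∈ V, c * v * c⁻¹ * v⁻¹ ∈ V') {f : V → k} (hf : KnaInv V V' f)
    (c : G) (hc : c ∈ C) (v : V) : f ((MulAut.conjNormal c : MulAut V) v) = f v := by
  have h1 : (MulAut.conjNormal c : MulAut V) v =
      ((MulAut.conjNormal c : MulAut V) v * v⁻¹) * v := by group
  rw [h1]
  refine hf v _ ?_
  have h2 := hC c hc v v.2
  simpa using h2

theorem kna_inv_comp {k : Type*} [Field k] {V V' : Subgroup G} [V.Normal] [V'.Normal]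
    {f : V → k} (hf : KnaInv V V' f) (g : G) :
    KnaInv V V' (fun v => f ((MulAut.conjNormal g : MulAut V) v)) := by
  intro v w hw
  simp only [map_mul]
  refine hf _ _ ?_
  have : (((MulAut.conjNormal g : MulAut V) w : V) : G) = g * w * g⁻¹ := by simp
  rw [this]
  exact Subgroup.Normal.conj_mem inferInstance _ hw g

section

variable {k : Type*} [Field k] {V V' Z C : Subgroup G} [V.Normal] [V'.Normal] [Z.Normal]
  [C.Normal]

theorem kna_phi_inv (hC : ∀ c ∈ C, ∀ v ∈ V, c * v * c⁻¹ * v⁻¹ ∈ V')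
    {d : Z →* kˣ} (hd : ∀ x : Z, (x : G) ∈ C → d x = 1) {f : V → k} (hf : KnaInv V V' f)
    (v : V) (q c : Z) (hc : c ∈ C.subgroupOf Z) :
    ((d (q * c) : kˣ) : k)⁻¹ * f ((MulAut.conjNormal ((q * c : Z) : G) : MulAut V) v) =
    ((d q : kˣ) : k)⁻¹ * f ((MulAut.conjNormal (q : G) : MulAut V) v) := by
  have hc' : (c : G) ∈ C := hc
  rw [map_mul, hd c hc', mul_one]
  congr 1
  have h2 : (MulAut.conjNormal ((q * c : Z) : G) : MulAut V) v =
      (MulAut.conjNormal ((q * c * q⁻¹ : Z) : G) : MulAut V)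
        ((MulAut.conjNormal (q : G) : MulAut V) v) := by
    ext
    simp [mul_assoc]
  rw [h2]
  refine kna_inv_conj hC hf _ ?_ _
  have : ((q * c * q⁻¹ : Z) : G) = q * c * (q : G)⁻¹ := by simp
  rw [this]
  exact Subgroup.Normal.conj_mem inferInstance _ hc' _

/-- The projection intertwines conjugation. -/
theorem knaP_conj (hC : ∀ c ∈ C, ∀ v ∈ V, c * v * c⁻¹ * v⁻¹ ∈ V')
    {d : Z →* kˣ} (hd : ∀ x : Z, (x : G) ∈ C → d x = 1) {f : V → k} (hf : KnaInv V V' f)
    (g : G) (v : V) :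
    knaP Z C V (cact Z g d) (fun v => f ((MulAut.conjNormal g : MulAut V) v)) v =
      knaP Z C V d f ((MulAut.conjNormal g : MulAut V) v) := by
  unfold knaP
  have h := kna_reindex (C.subgroupOf Z)
    (fun q : Z => ((d q : kˣ) : k)⁻¹ * f ((MulAut.conjNormal (q : G) : MulAut V)
      ((MulAut.conjNormal g : MulAut V) v)))
    (fun q c hc => kna_phi_inv hC hd hf _ q c hc) (MulAut.conjNormal g : MulAut Z).toEquiv (by
      intro q q'
      change ((MulAut.conjNormal g : MulAut Z) q)⁻¹ * (MulAut.conjNormal g : MulAut Z) q' ∈ _ ↔ _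
      rw [← map_inv, ← map_mul, Subgroup.mem_subgroupOf, Subgroup.mem_subgroupOf]
      have : (((MulAut.conjNormal g : MulAut Z) (q⁻¹ * q') : Z) : G) =
        g * ((q⁻¹ * q' : Z) : G) * g⁻¹ := MulAut.conjNormal_apply _ _
      rw [this]
      exact (Subgroup.Normal.mem_comm_iff (H := C) inferInstance |>.trans (by simp)))
  rw [← h]
  refine finsum_congr fun q => ?_
  have h1 : (cact Z g d) q.out = d ((MulAut.conjNormal g : MulAut Z) q.out) := rfl
  rw [h1]
  have h2 : (MulAut.conjNormal g : MulAut V)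
      ((MulAut.conjNormal ((q.out : Z) : G) : MulAut V) v) =
      (MulAut.conjNormal ((((MulAut.conjNormal g : MulAut Z) q.out : Z)) : G) : MulAut V)
      ((MulAut.conjNormal g : MulAut V) v) := by
    ext
    simp [mul_assoc]
  change _ * f ((MulAut.conjNormal g : MulAut V)
      ((MulAut.conjNormal ((q.out : Z) : G) : MulAut V) v)) = _
  rw [h2]
  rfl

/-- The projection has weight `d`. -/
theorem knaP_eigen (hC : ∀ c ∈ C, ∀ v ∈ V, c * v * c⁻¹ * v⁻¹ ∈ V')
    {d : Z →* kˣ} (hd : ∀ x : Z, (x : G) ∈ C → d x = 1) {f : V → k} (hf : KnaInv V V' f)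
    (z : Z) (v : V) :
    knaP Z C V d f ((MulAut.conjNormal (z : G) : MulAut V) v) = (d z : kˣ) * knaP Z C V d f v := by
  unfold knaP
  have h := kna_reindex (C.subgroupOf Z)
    (fun q : Z => ((d q : kˣ) : k)⁻¹ * f ((MulAut.conjNormal (q : G) : MulAut V) v))
    (fun q c hc => kna_phi_inv hC hd hf _ q c hc) (Equiv.mulRight z) (by
      intro q q'
      change (q * z)⁻¹ * (q' * z) ∈ _ ↔ _
      rw [Subgroup.mem_subgroupOf, Subgroup.mem_subgroupOf]
      have : (((q * z)⁻¹ * (q' * z) : Z) : G) = (z : G)⁻¹ * ((q⁻¹ * q' : Z) : G) * z := by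
        simp [mul_assoc]
      rw [this]
      exact (Subgroup.Normal.mem_comm_iff (H := C) inferInstance |>.trans (by simp)))
  rw [← h]
  have hfin : Finite (Z ⧸ C.subgroupOf Z) := inferInstance
  have := Fintype.ofFinite (Z ⧸ C.subgroupOf Z)
  rw [finsum_eq_sum_of_fintype, finsum_eq_sum_of_fintype, Finset.mul_sum]
  refine Finset.sum_congr rfl fun q _ => ?_
  change _ = _ * (((d (q.out * z) : kˣ) : k)⁻¹ * f ((MulAut.conjNormal ((q.out * z : Z) : G) :
    MulAut V) v))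
  have h2 : (MulAut.conjNormal ((q.out : Z) : G) : MulAut V)
      ((MulAut.conjNormal (z : G) : MulAut V) v) =
      (MulAut.conjNormal ((q.out * z : Z) : G) : MulAut V) v := by
    ext
    simp [mul_assoc]
  rw [h2, map_mul, Units.val_mul, mul_inv]
  have hz : ((d z : kˣ) : k) ≠ 0 := Units.ne_zero _
  field_simp

theorem knaP_sum {ι : Type*} [Fintype ι] (d : Z →* kˣ) (f : ι → V → k) (v : V) :
    knaP Z C V d (fun v => ∑ i, f i v) v = ∑ i, knaP Z C V d (f i) v := by
  unfold knaP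
  have := Fintype.ofFinite (Z ⧸ C.subgroupOf Z)
  simp only [finsum_eq_sum_of_fintype]
  rw [Finset.sum_comm]
  refine Finset.sum_congr rfl fun q _ => ?_
  rw [Finset.mul_sum]

theorem knaP_smul (d : Z →* kˣ) (c : k) (f : V → k) (v : V) :
    knaP Z C V d (fun v => c * f v) v = c * knaP Z C V d f v := by
  unfold knaP
  have := Fintype.ofFinite (Z ⧸ C.subgroupOf Z)
  simp only [finsum_eq_sum_of_fintype]
  rw [Finset.mul_sum]
  refine Finset.sum_congr rfl fun q _ => ?_
  ring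

theorem knaP_inv (d : Z →* kˣ) {f : V → k} (hf : KnaInv V V' f) :
    KnaInv V V' (knaP Z C V d f) := by
  intro v w hw
  unfold knaP
  refine finsum_congr fun q => ?_
  congr 1
  exact kna_inv_comp hf _ v w hw

end

section

variable {k : Type} [Field k] {V V' M Z C : Subgroup G} [V.Normal] [V'.Normal] [M.Normal]
  [Z.Normal] [C.Normal]

/-- The space of functions of weight `d`. -/
def knaW (V V' Z : Subgroup G) [V.Normal] (d : Z →* kˣ) : Submodule k (V → k) where
  carrier := {f | KnaInv V V' f ∧ ∀ (z : Z) (v : V),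
    f ((MulAut.conjNormal (z : G) : MulAut V) v) = (d z : kˣ) * f v}
  add_mem' := by
    rintro f g ⟨hf1, hf2⟩ ⟨hg1, hg2⟩
    refine ⟨fun v w hw => ?_, fun z v => ?_⟩
    · simp only [Pi.add_apply]
      rw [hf1 v w hw, hg1 v w hw]
    · simp only [Pi.add_apply]
      rw [hf2 z v, hg2 z v, mul_add]
  zero_mem' := ⟨fun v w hw => rfl, fun z v => by simp⟩
  smul_mem' := by
    rintro c f ⟨hf1, hf2⟩
    refine ⟨fun v w hw => ?_, fun z v => ?_⟩
    · simp only [Pi.smul_apply]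
      rw [hf1 v w hw]
    · simp only [Pi.smul_apply, smul_eq_mul]
      rw [hf2 z v]
      ring

theorem kna_d_conj (hcen : ∀ z ∈ Z, ∀ x ∈ M, z * x * z⁻¹ * x⁻¹ ∈ C) {d : Z →* kˣ}
    (hd : ∀ x : Z, (x : G) ∈ C → d x = 1) (a : G) (ha : a ∈ M) : cact Z a d = d := by
  ext z
  congr 1
  have h1 : (MulAut.conjNormal a : MulAut Z) z = ((MulAut.conjNormal a : MulAut Z) z * z⁻¹) * z := by
    group
  change d ((MulAut.conjNormal a : MulAut Z) z) = d z
  rw [h1, map_mul, hd, one_mul]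
  have h2 := hcen (z⁻¹ : G) (Subgroup.inv_mem _ z.2) a ha
  have h3 : (((MulAut.conjNormal a : MulAut Z) z * z⁻¹ : Z) : G) =
      z * ((z : G)⁻¹ * a * ((z : G)⁻¹)⁻¹ * a⁻¹) * (z : G)⁻¹ := by
    simp [mul_assoc]
  rw [h3]
  exact Subgroup.Normal.conj_mem inferInstance _ h2 _

/-- The action of `M` on the space of functions of weight `d`. -/
noncomputable def knaR (hcen : ∀ z ∈ Z, ∀ x ∈ M, z * x * z⁻¹ * x⁻¹ ∈ C) (d : Z →* kˣ)
    (hd : ∀ x : Z, (x : G) ∈ C → d x = 1) : M →* Module.End k (knaW V V' Z d) where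
  toFun a :=
    { toFun := fun f => ⟨fun v => (f : V → k) ((MulAut.conjNormal (a : G)⁻¹ : MulAut V) v), by
        refine ⟨kna_inv_comp f.2.1 _, fun z v => ?_⟩
        have h1 : (MulAut.conjNormal (a : G)⁻¹ : MulAut V)
            ((MulAut.conjNormal (z : G) : MulAut V) v) =
            (MulAut.conjNormal (((MulAut.conjNormal (a : G)⁻¹ : MulAut Z) z : Z) : G) : MulAut V)
              ((MulAut.conjNormal (a : G)⁻¹ : MulAut V) v) := by
          ext
          simp [mul_assoc]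
        beta_reduce
        rw [h1, f.2.2]
        have h2 := DFunLike.congr_fun (kna_d_conj hcen hd (a : G)⁻¹ (M.inv_mem a.2)) z
        change d ((MulAut.conjNormal (a : G)⁻¹ : MulAut Z) z) = d z at h2
        rw [h2]⟩
      map_add' := fun f g => rfl
      map_smul' := fun c f => rfl }
  map_one' := by
    ext f v
    change (f : V → k) ((MulAut.conjNormal ((1 : M) : G)⁻¹ : MulAut V) v) = (f : V → k) v
    simp
  map_mul' a b := by
    ext f v
    change (f : V → k) ((MulAut.conjNormal ((a * b : M) : G)⁻¹ : MulAut V) v) =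
      (f : V → k) ((MulAut.conjNormal (b : G)⁻¹ : MulAut V)
        ((MulAut.conjNormal (a : G)⁻¹ : MulAut V) v))
    have h1 : (MulAut.conjNormal ((a * b : M) : G)⁻¹ : MulAut V) v =
      (MulAut.conjNormal (b : G)⁻¹ : MulAut V)
        ((MulAut.conjNormal (a : G)⁻¹ : MulAut V) v) := by
      ext
      simp [mul_assoc]
    rw [h1]

theorem knaR_apply (hcen : ∀ z ∈ Z, ∀ x ∈ M, z * x * z⁻¹ * x⁻¹ ∈ C) (d : Z →* kˣ)
    (hd : ∀ x : Z, (x : G) ∈ C → d x = 1) (a : M) (f : knaW V V' Z d) (v : V) :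
    (knaR hcen d hd a f : V → k) v =
      (f : V → k) ((MulAut.conjNormal (a : G)⁻¹ : MulAut V) v) := rfl

theorem knaR_scalar (hcen : ∀ z ∈ Z, ∀ x ∈ M, z * x * z⁻¹ * x⁻¹ ∈ C) (d : Z →* kˣ)
    (hd : ∀ x : Z, (x : G) ∈ C → d x = 1) (a : M) (z : Z) (h : (a : G) = z) :
    knaR (V := V) (V' := V') hcen d hd a =
      (((d z)⁻¹ : kˣ) : k) • (1 : Module.End k (knaW V V' Z d)) := by
  ext f v
  rw [knaR_apply, h]
  have h1 := f.2.2 z⁻¹ v
  rw [Subgroup.coe_inv] at h1
  rw [h1, map_inv]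
  rfl

/-- Commutators of elements of `M` act as scalars. -/
theorem knaR_comm (hcen : ∀ z ∈ Z, ∀ x ∈ M, z * x * z⁻¹ * x⁻¹ ∈ C) (d : Z →* kˣ)
    (hd : ∀ x : Z, (x : G) ∈ C → d x = 1)
    (hab : ∀ x ∈ M, ∀ y ∈ M, x * y * x⁻¹ * y⁻¹ ∈ Z) (a c : M) :
    knaR (V := V) (V' := V') hcen d hd a * knaR hcen d hd c =
      (((brf d (a : G) (c : G))⁻¹ : kˣ) : k) • (knaR hcen d hd c * knaR hcen d hd a) := by
  have h2 : ((a : G) * c * (a : G)⁻¹ * (c : G)⁻¹) ∈ Z := hab a a.2 c c.2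
  have h3 := knaR_scalar (V := V) (V' := V') hcen d hd (a * c * a⁻¹ * c⁻¹) ⟨_, h2⟩ rfl
  have h1 : a * c = (a * c * a⁻¹ * c⁻¹) * (c * a) := by group
  have h4 : knaR (V := V) (V' := V') hcen d hd a * knaR hcen d hd c =
      knaR hcen d hd (a * c * a⁻¹ * c⁻¹) * (knaR hcen d hd c * knaR hcen d hd a) := by
    rw [← map_mul, ← map_mul, ← map_mul, ← h1]
  rw [h4, h3]
  unfold brf
  rw [dif_pos h2]
  simp

end

section KnaCount

variable {k : Type} [Field k] {M Z C : Subgroup G} [M.Normal] [Z.Normal] [C.Normal]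

theorem kna_brf_eq (hab : ∀ x ∈ M, ∀ y ∈ M, x * y * x⁻¹ * y⁻¹ ∈ Z) (d : Z →* kˣ)
    {x y : G} (hx : x ∈ M) (hy : y ∈ M) :
    brf d x y = d ⟨x * y * x⁻¹ * y⁻¹, hab x hx y hy⟩ := by
  unfold brf
  rw [dif_pos (hab x hx y hy)]

theorem kna_brf_mul (hcen : ∀ z ∈ Z, ∀ x ∈ M, z * x * z⁻¹ * x⁻¹ ∈ C)
    (hab : ∀ x ∈ M, ∀ y ∈ M, x * y * x⁻¹ * y⁻¹ ∈ Z) (d : Z →* kˣ)
    (hd : ∀ x : Z, (x : G) ∈ C → d x = 1) {x x' y : G} (hx : x ∈ M) (hx' : x' ∈ M) (hy : y ∈ M) :
    brf d (x * x') y = brf d x y * brf d x' y := by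
  rw [kna_brf_eq hab d (M.mul_mem hx hx') hy, kna_brf_eq hab d hx hy, kna_brf_eq hab d hx' hy,
    mul_comm]
  have h1 : (⟨x * x' * y * (x * x')⁻¹ * y⁻¹, hab _ (M.mul_mem hx hx') y hy⟩ : Z) =
      (MulAut.conjNormal x : MulAut Z) ⟨x' * y * x'⁻¹ * y⁻¹, hab x' hx' y hy⟩ *
        ⟨x * y * x⁻¹ * y⁻¹, hab x hx y hy⟩ := by
    ext
    simp only [Subgroup.coe_mul, MulAut.conjNormal_apply]
    group
  rw [h1, map_mul]
  congr 1
  exact DFunLike.congr_fun (kna_d_conj hcen hd x hx) ⟨x' * y * x'⁻¹ * y⁻¹, hab x' hx' y hy⟩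

theorem kna_brf_swap (hab : ∀ x ∈ M, ∀ y ∈ M, x * y * x⁻¹ * y⁻¹ ∈ Z) (d : Z →* kˣ)
    {x y : G} (hx : x ∈ M) (hy : y ∈ M) : brf d y x = (brf d x y)⁻¹ := by
  rw [kna_brf_eq hab d hx hy, kna_brf_eq hab d hy hx, ← map_inv]
  congr 1
  ext
  simp only [Subgroup.coe_inv]
  group

theorem kna_brf_mul_right (hcen : ∀ z ∈ Z, ∀ x ∈ M, z * x * z⁻¹ * x⁻¹ ∈ C)
    (hab : ∀ x ∈ M, ∀ y ∈ M, x * y * x⁻¹ * y⁻¹ ∈ Z) (d : Z →* kˣ)
    (hd : ∀ x : Z, (x : G) ∈ C → d x = 1) {x y y' : G} (hx : x ∈ M) (hy : y ∈ M) (hy' : y' ∈ M) :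
    brf d x (y * y') = brf d x y * brf d x y' := by
  rw [kna_brf_swap hab d (M.mul_mem hy hy') hx, kna_brf_mul hcen hab d hd hy hy' hx,
    kna_brf_swap hab d hy hx, kna_brf_swap hab d hy' hx, mul_inv]

theorem kna_brf_inv_right (hcen : ∀ z ∈ Z, ∀ x ∈ M, z * x * z⁻¹ * x⁻¹ ∈ C)
    (hab : ∀ x ∈ M, ∀ y ∈ M, x * y * x⁻¹ * y⁻¹ ∈ Z) (d : Z →* kˣ)
    (hd : ∀ x : Z, (x : G) ∈ C → d x = 1) {x y : G} (hx : x ∈ M) (hy : y ∈ M) :
    brf d x y⁻¹ = (brf d x y)⁻¹ := by
  have h1 := kna_brf_mul_right hcen hab d hd hx hy (M.inv_mem hy)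
  have h2 : brf d x (y * y⁻¹) = 1 := by
    rw [kna_brf_eq hab d hx (M.mul_mem hy (M.inv_mem hy)), ← map_one d]
    congr 1
    ext
    simp
  rw [h2] at h1
  exact (inv_eq_of_mul_eq_one_right h1.symm).symm

theorem kna_brf_conj (hab : ∀ x ∈ M, ∀ y ∈ M, x * y * x⁻¹ * y⁻¹ ∈ Z) (d : Z →* kˣ) (g : G)
    {x y : G} (hx : x ∈ M) (hy : y ∈ M) :
    brf (cact Z g d) x y = brf d (g * x * g⁻¹) (g * y * g⁻¹) := by
  have h1 : g * x * g⁻¹ ∈ M := Subgroup.Normal.conj_mem inferInstance _ hx _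
  have h2 : g * y * g⁻¹ ∈ M := Subgroup.Normal.conj_mem inferInstance _ hy _
  rw [kna_brf_eq hab _ hx hy, kna_brf_eq hab _ h1 h2]
  change d ((MulAut.conjNormal g : MulAut Z) ⟨x * y * x⁻¹ * y⁻¹, hab x hx y hy⟩) = _
  congr 1
  ext
  simp only [MulAut.conjNormal_apply]
  group

/-- The homomorphism from `M` to its characters given by the difference of two conjugates of
the pairing. -/
noncomputable def knaPsi (hcen : ∀ z ∈ Z, ∀ x ∈ M, z * x * z⁻¹ * x⁻¹ ∈ C)
    (hab : ∀ x ∈ M, ∀ y ∈ M, x * y * x⁻¹ * y⁻¹ ∈ Z) (d : Z →* kˣ)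
    (hd : ∀ x : Z, (x : G) ∈ C → d x = 1) (g g' : G) : M →* (M →* kˣ) where
  toFun x :=
    { toFun := fun a => brf d (x : G) (g * a * g⁻¹) * (brf d (x : G) (g' * a * g'⁻¹))⁻¹
      map_one' := by
        have h1 : brf d (x : G) 1 = 1 := by
          rw [kna_brf_eq hab d x.2 M.one_mem, ← map_one d]
          congr 1
          ext
          simp
        simp [h1]
      map_mul' := fun a c => by
        have hc : ∀ (u : G) (v : M), u * v * u⁻¹ ∈ M := fun u v =>
          Subgroup.Normal.conj_mem inferInstance _ v.2 _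
        have h1 : ∀ u : G, u * ((a * c : M) : G) * u⁻¹ = (u * a * u⁻¹) * (u * c * u⁻¹) := by
          intro u
          simp [mul_assoc]
        rw [h1, h1, kna_brf_mul_right hcen hab d hd x.2 (hc _ _) (hc _ _),
          kna_brf_mul_right hcen hab d hd x.2 (hc _ _) (hc _ _), mul_inv, mul_mul_mul_comm] }
  map_one' := by
    ext a
    have h1 : ∀ y ∈ M, brf d (1 : G) y = 1 := by
      intro y hy
      rw [kna_brf_eq hab d M.one_mem hy, ← map_one d]
      congr 1
      ext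
      simp
    have hc : ∀ (u : G) (v : M), u * v * u⁻¹ ∈ M := fun u v =>
      Subgroup.Normal.conj_mem inferInstance _ v.2 _
    change ((brf d (1 : G) (g * a * g⁻¹) * (brf d (1 : G) (g' * a * g'⁻¹))⁻¹ : kˣ) : k) = 1
    rw [h1 _ (hc _ _), h1 _ (hc _ _)]
    simp
  map_mul' x y := by
    ext a
    have hc : ∀ (u : G) (v : M), u * v * u⁻¹ ∈ M := fun u v =>
      Subgroup.Normal.conj_mem inferInstance _ v.2 _
    change ((brf d ((x * y : M) : G) (g * a * g⁻¹) *
      (brf d ((x * y : M) : G) (g' * a * g'⁻¹))⁻¹ : kˣ) : k) =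
      (((brf d (x : G) (g * a * g⁻¹) * (brf d (x : G) (g' * a * g'⁻¹))⁻¹) *
      (brf d (y : G) (g * a * g⁻¹) * (brf d (y : G) (g' * a * g'⁻¹))⁻¹) : kˣ) : k)
    rw [Subgroup.coe_mul, kna_brf_mul hcen hab d hd x.2 y.2 (hc _ _),
      kna_brf_mul hcen hab d hd x.2 y.2 (hc _ _), mul_inv, mul_mul_mul_comm]

theorem knaPsi_apply (hcen : ∀ z ∈ Z, ∀ x ∈ M, z * x * z⁻¹ * x⁻¹ ∈ C)
    (hab : ∀ x ∈ M, ∀ y ∈ M, x * y * x⁻¹ * y⁻¹ ∈ Z) (d : Z →* kˣ)
    (hd : ∀ x : Z, (x : G) ∈ C → d x = 1) (g g' : G) (x a : M) :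
    knaPsi hcen hab d hd g g' x a =
      brf d (x : G) (g * a * g⁻¹) * (brf d (x : G) (g' * a * g'⁻¹))⁻¹ := rfl

/-- A preimage has at most kernel times target many elements. -/
theorem kna_comap_card {A B : Type*} [Group A] [Group B] [Finite A] (ψ : A →* B)
    (D : Subgroup B) [Finite D] : Nat.card (D.comap ψ) ≤ Nat.card ψ.ker * Nat.card D := by
  let φ : D.comap ψ →* D := (ψ.comp (D.comap ψ).subtype).codRestrict D fun x => x.2
  have h1 := Subgroup.card_mul_index φ.ker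
  rw [Subgroup.index_ker] at h1
  rw [← h1]
  have h2 : Nat.card φ.ker ≤ Nat.card ψ.ker := by
    refine Nat.card_le_card_of_injective (fun x : φ.ker => (⟨((x : D.comap ψ) : A), ?_⟩ : ψ.ker)) ?_
    · have hx := x.2
      rw [MonoidHom.mem_ker] at hx ⊢
      exact congrArg (fun y : D => (y : B)) hx
    · intro x y hxy
      have := congrArg (fun z : ψ.ker => (z : A)) hxy
      exact Subtype.ext (Subtype.ext this)
  have h3 : Nat.card φ.range ≤ Nat.card D :=
    Nat.card_le_card_of_injective _ Subtype.val_injective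
  exact Nat.mul_le_mul h2 h3

end KnaCount

end KnaProj

theorem kna_cact_mul {G : Type} [Group G] {A : Type*} [CommGroup A] (M : Subgroup G) [M.Normal]
    (g h : G) (b : M →* A) : cact M (g * h) b = cact M h (cact M g b) := by
  ext v
  change b ((MulAut.conjNormal (g * h) : MulAut M) v) =
    b ((MulAut.conjNormal g : MulAut M) ((MulAut.conjNormal h : MulAut M) v))
  rw [map_mul]
  rfl

theorem kna_hat_inv {G : Type} [Group G] {p : ℕ} [Fact p.Prime] {V V' : Subgroup G}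
    (b : V →* Multiplicative (ZMod p)) (hb : ∀ x : V, (x : G) ∈ V' → b x = 1) :
    KnaInv V V' (hat b) := by
  intro v w hw
  unfold hat
  rw [map_mul, hb w hw, one_mul]

/-- The product of conjugates is trivial only if the sum of the conjugates of `hat b` is. -/
theorem kna_prod_eq {G : Type} [Group G] {p : ℕ} [Fact p.Prime] {V : Subgroup G} [V.Normal]
    (b : V →* Multiplicative (ZMod p)) {ι : Type*} [Fintype ι] (g : ι → G) (e : ι → ℤ)
    (h : ∏ t, (cact V (g t) b) ^ (e t) = 1) (v : V) :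
    ∑ t, ((e t : ℤ) : kk p) * hat b ((MulAut.conjNormal (g t) : MulAut V) v) = 0 := by
  have h1 := DFunLike.congr_fun h v
  rw [MonoidHom.finsetProd_apply] at h1
  have h2 := congrArg Multiplicative.toAdd h1
  rw [toAdd_prod] at h2
  have h3 := congrArg (algebraMap (ZMod p) (kk p)) h2
  rw [map_sum] at h3
  have h4 : algebraMap (ZMod p) (kk p) (Multiplicative.toAdd ((1 : V →* Multiplicative (ZMod p)) v))
    = 0 := by
    rw [MonoidHom.one_apply, toAdd_one, map_zero]
  rw [h4] at h3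
  rw [← h3]
  refine Finset.sum_congr rfl fun t _ => ?_
  have h5 : ((cact V (g t) b) ^ (e t)) v = (b ((MulAut.conjNormal (g t) : MulAut V) v)) ^ (e t) :=
    rfl
  rw [h5, toAdd_zpow, zsmul_eq_mul, map_mul, map_intCast]
  rfl

theorem kill_na (p : ℕ) [Fact p.Prime] (m : ℕ) : ∃ δ > (0 : ℝ), δ ≤ 1 ∧ ∀ C : ℕ, ∃ Γ : ℕ,
    ∀ (G : Type) [Group G] [Finite G] (n : ℕ) (τ : Tower p G n) (j : ℕ),
      j + 1 ≤ n → Odd j →
      ∀ b : τ.M (j + 1) →* Multiplicative (ZMod p),
      (∀ x : τ.M (j + 1), (x : G) ∈ τ.M' (j + 1) → b x = 1) →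
      haveI := τ.nM (j + 1)
      haveI := τ.nM' j
      ∀ ζ : τ.M' j →* (kk p)ˣ, (∀ x : τ.M' j, (x : G) ∈ τ.C j → ζ x = 1) →
      comp (τ.M' j) (τ.C j) (τ.M (j + 1)) ζ b ≠ 0 →
      ∀ (h : Fin (m + 1) → G) (e : Fin (m + 1) → ℤ), (∀ t, e t = 1 ∨ e t = -1) →
      (∀ t, t ≠ 0 → cact (τ.M' j) (h t) ζ ≠ cact (τ.M' j) (h 0) ζ ∨
        Γ * Nat.card {x : τ.M j // ∀ y ∈ τ.M j,
          brf ζ (x : G) (h 0 * y * (h 0)⁻¹) = brf ζ (x : G) (h t * y * (h t)⁻¹)} ≤
            Nat.card (τ.M j)) →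
      ∀ K : Subgroup G, τ.M' j ≤ K → K ≤ τ.M j → K.relIndex (τ.M j) ≤ C →
      ∀ n1 ∈ τ.M j,
        pr (fun y : K => ∏ t, (cact (τ.M (j + 1)) (n1 * (y : G) * h t) b) ^ (e t) = 1) ≤ 1 - δ := by
  obtain ⟨Γ0, δ, hδ, hδ1, hkill⟩ := kill_lemma m
  refine ⟨δ, hδ, hδ1, fun C => ⟨C ^ 2 * Γ0, ?_⟩⟩
  intro G _ _ n τ j hj hodd b hb
  haveI nV := τ.nM (j + 1)
  haveI nZ := τ.nM' j
  intro ζ hζC hcomp h e he hcond K hZK hKM hKC n1 hn1
  haveI nM := τ.nM j
  haveI nC := τ.nC j
  haveI nV' := τ.nM' (j + 1)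
  have hjn : j < n := hj
  have hcen : ∀ z ∈ τ.M' j, ∀ x ∈ τ.M j, z * x * z⁻¹ * x⁻¹ ∈ τ.C j := τ.cen j hjn hodd
  have hab : ∀ x ∈ τ.M j, ∀ y ∈ τ.M j, x * y * x⁻¹ * y⁻¹ ∈ τ.M' j := τ.ab j hjn.le
  have hCV : ∀ c ∈ τ.C j, ∀ v ∈ τ.M (j + 1), c * v * c⁻¹ * v⁻¹ ∈ τ.M' (j + 1) :=
    fun c hc => ((τ.mem_C j hjn c).1 hc).2
  set lam := cact (τ.M' j) (h 0) ζ with hlam
  have hlamC : ∀ x : τ.M' j, (x : G) ∈ τ.C j → lam x = 1 := by
    intro x hx
    rw [hlam]
    change ζ ((MulAut.conjNormal (h 0) : MulAut (τ.M' j)) x) = 1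
    refine hζC _ ?_
    rw [MulAut.conjNormal_apply]
    exact nC.conj_mem _ hx _
  let R := knaR (V := τ.M (j + 1)) (V' := τ.M' (j + 1)) hcen lam hlamC
  let cc : Fin (m + 1) → K →* τ.M j := fun t =>
    (MulAut.conjNormal (h t)⁻¹ : MulAut (τ.M j)).toMonoidHom.comp (Subgroup.inclusion hKM)
  have hcc : ∀ t y, ((cc t y : τ.M j) : G) = (h t)⁻¹ * y * h t := by
    intro t y
    change (((MulAut.conjNormal (h t)⁻¹ : MulAut (τ.M j)) (Subgroup.inclusion hKM y) : τ.M j) : G)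
      = _
    rw [MulAut.conjNormal_apply]
    simp
  -- the vectors
  let f : Fin (m + 1) → τ.M (j + 1) → kk p := fun t v =>
    ((e t : ℤ) : kk p) * hat b ((MulAut.conjNormal (n1 * h t) : MulAut (τ.M (j + 1))) v)
  have hhat := kna_hat_inv b hb
  have hf : ∀ t, KnaInv (τ.M (j + 1)) (τ.M' (j + 1)) (f t) := by
    intro t v w hw
    change ((e t : ℤ) : kk p) * _ = ((e t : ℤ) : kk p) * _
    congr 1
    exact kna_inv_comp hhat (n1 * h t) v w hw
  let vec : Fin (m + 1) → knaW (τ.M (j + 1)) (τ.M' (j + 1)) (τ.M' j) lam := fun t =>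
    ⟨knaP (τ.M' j) (τ.C j) (τ.M (j + 1)) lam (f t), knaP_inv lam (hf t),
      fun z v => knaP_eigen hCV hlamC (hf t) z v⟩
  have hlam' : cact (τ.M' j) (n1 * h 0) ζ = lam := by
    rw [kna_cact_mul, kna_d_conj hcen hζC n1 hn1]
  have hvec : ∃ v0, (vec 0 : τ.M (j + 1) → kk p) v0 ≠ 0 := by
    by_contra h0
    push Not at h0
    apply hcomp
    funext v
    have h1 : knaP (τ.M' j) (τ.C j) (τ.M (j + 1)) lam (f 0)
        ((MulAut.conjNormal (n1 * h 0)⁻¹ : MulAut (τ.M (j + 1))) v) = 0 := h0 _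
    rw [show f 0 = fun v => ((e 0 : ℤ) : kk p) * (fun v =>
      hat b ((MulAut.conjNormal (n1 * h 0) : MulAut (τ.M (j + 1))) v)) v from rfl,
      knaP_smul, ← hlam', knaP_conj hCV hζC hhat] at h1
    have h2 : (MulAut.conjNormal (n1 * h 0) : MulAut (τ.M (j + 1)))
        ((MulAut.conjNormal (n1 * h 0)⁻¹ : MulAut (τ.M (j + 1))) v) = v := by
      ext
      simp [mul_assoc]
    rw [h2] at h1
    rcases mul_eq_zero.1 h1 with h3 | h3
    · exfalso
      rcases he 0 with h4 | h4 <;> rw [h4] at h3 <;> simp at h3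
    · exact h3
  obtain ⟨v0, hv0⟩ := hvec
  have hvec : vec 0 ≠ 0 := fun h0 => hv0 (congrFun (congrArg Subtype.val h0) v0)
  have hscal : ∀ c c' : (kk p)ˣ, (c : kk p) • vec 0 = (c' : kk p) • vec 0 → c = c' := by
    intro c c' h1
    have h2 : (c : kk p) * (vec 0 : τ.M (j + 1) → kk p) v0 =
      (c' : kk p) * (vec 0 : τ.M (j + 1) → kk p) v0 := congrFun (congrArg Subtype.val h1) v0
    exact Units.ext (mul_right_cancel₀ hv0 h2)
  -- the key implication
  have hkey : ∀ y : K, ∏ t, (cact (τ.M (j + 1)) (n1 * (y : G) * h t) b) ^ (e t) = 1 →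
      ∑ t, (R.comp (cc t)) y⁻¹ (vec t) = 0 := by
    intro y hy
    have h1 := kna_prod_eq b _ e hy
    ext v
    have h2 : (fun v => ∑ t, ((e t : ℤ) : kk p) *
        hat b ((MulAut.conjNormal (n1 * (y : G) * h t) : MulAut (τ.M (j + 1))) v)) =
        fun v => ∑ t, (fun t v => f t ((MulAut.conjNormal ((cc t y : τ.M j) : G) :
          MulAut (τ.M (j + 1))) v)) t v := by
      funext v
      refine Finset.sum_congr rfl fun t _ => ?_
      change _ = ((e t : ℤ) : kk p) * hat b ((MulAut.conjNormal (n1 * h t) : MulAut (τ.M (j + 1)))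
        ((MulAut.conjNormal ((cc t y : τ.M j) : G) : MulAut (τ.M (j + 1))) v))
      congr 2
      ext
      simp [hcc, mul_assoc]
    have h3 : knaP (τ.M' j) (τ.C j) (τ.M (j + 1)) lam (fun v => ∑ t, ((e t : ℤ) : kk p) *
        hat b ((MulAut.conjNormal (n1 * (y : G) * h t) : MulAut (τ.M (j + 1))) v)) v = 0 := by
      rw [show (fun v => ∑ t, ((e t : ℤ) : kk p) *
        hat b ((MulAut.conjNormal (n1 * (y : G) * h t) : MulAut (τ.M (j + 1))) v)) =
        fun _ => 0 from funext h1]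
      unfold knaP
      simp
    rw [h2, knaP_sum] at h3
    rw [Submodule.coe_sum, Finset.sum_apply]
    change _ = (0 : kk p)
    rw [← h3]
    refine Finset.sum_congr rfl fun t _ => ?_
    have h4 := knaP_conj (Z := τ.M' j) (C := τ.C j) hCV hlamC (hf t) ((cc t y : τ.M j) : G) v
    rw [kna_d_conj hcen hlamC _ (cc t y).2] at h4
    rw [h4]
    change knaP (τ.M' j) (τ.C j) (τ.M (j + 1)) lam (f t)
      ((MulAut.conjNormal ((cc t y⁻¹ : τ.M j) : G)⁻¹ : MulAut (τ.M (j + 1))) v) = _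
    have h5 : ((cc t y⁻¹ : τ.M j) : G)⁻¹ = (cc t y : τ.M j) := by
      rw [map_inv (cc t), Subgroup.coe_inv, inv_inv]
    rw [h5]
  have hfinal := hkill (kk p) (knaW (τ.M (j + 1)) (τ.M' (j + 1)) (τ.M' j) lam) K
    ((τ.M' j).subgroupOf K) (fun t => R.comp (cc t)) vec ?_ ?_ hvec ?_
  · refine le_trans ?_ hfinal
    have h1 := pr_equiv (Equiv.inv K) (fun x : K => ∑ t, (R.comp (cc t)) x (vec t) = 0)
    rw [← h1]
    exact pr_mono hkey
  · intro s t x y
    exact ⟨_, knaR_comm hcen lam hlamC hab (cc s x) (cc t y)⟩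
  · intro t z hz
    have h1 : (h t)⁻¹ * (z : G) * h t ∈ τ.M' j := by
      have := nZ.conj_mem _ (Subgroup.mem_subgroupOf.1 hz) (h t)⁻¹
      simpa using this
    exact ⟨_, knaR_scalar hcen lam hlamC (cc t z) ⟨_, h1⟩ (hcc t z)⟩
  · intro t ht
    by_cases hA : cact (τ.M' j) (h t) ζ = lam
    · right
      have hS := (hcond t ht).resolve_left (fun hne => hne hA)
      set S := {x : τ.M j // ∀ y ∈ τ.M j,
          brf ζ (x : G) (h 0 * y * (h 0)⁻¹) = brf ζ (x : G) (h t * y * (h t)⁻¹)} with hSdef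
      let ψ := knaPsi hcen hab ζ hζC (h 0) (h t)
      let K' : Subgroup (τ.M j) :=
        (K.subgroupOf (τ.M j)).comap (MulAut.conjNormal (h 0) : MulAut (τ.M j)).toMonoidHom
      have hK'i : K'.index = K.relIndex (τ.M j) :=
        Subgroup.index_comap_of_surjective _ (MulAut.conjNormal (h 0) : MulAut (τ.M j)).surjective
      let D : Subgroup (τ.M j →* (kk p)ˣ) :=
        { carrier := {χ | ∀ x ∈ K', χ x = 1}
          mul_mem' := fun {χ χ'} h1 h2 x hx => by
            rw [MonoidHom.mul_apply, h1 x hx, h2 x hx, one_mul]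
          one_mem' := fun x _ => rfl
          inv_mem' := fun {χ} h1 x hx => by
            rw [MonoidHom.inv_apply, h1 x hx, inv_one] }
      have hDcard : Nat.card D = K'.index := by
        refine dualT τ hjn.le hodd K' ?_
        intro z hz
        change (MulAut.conjNormal (h 0) : MulAut (τ.M j)) z ∈ K.subgroupOf (τ.M j)
        rw [Subgroup.mem_subgroupOf, MulAut.conjNormal_apply]
        exact hZK (nZ.conj_mem _ hz _)
      have hidx : K'.index ≠ 0 := Subgroup.index_ne_zero_of_finite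
      have hDfin : Finite D := Nat.finite_of_card_ne_zero (by rw [hDcard]; exact hidx)
      have hker : Nat.card ψ.ker ≤ Nat.card S := by
        refine Nat.card_le_card_of_injective (fun x : ψ.ker => (⟨x.1, ?_⟩ : S)) ?_
        · intro y hy
          have h1 := DFunLike.congr_fun (MonoidHom.mem_ker.1 x.2) ⟨y, hy⟩
          rw [knaPsi_apply, MonoidHom.one_apply] at h1
          exact mul_inv_eq_one.1 h1
        · intro x y hxy
          have h1 : x.1 = y.1 := congrArg (fun z : S => z.1) hxy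
          exact Subtype.ext h1
      have hcard1 := kna_comap_card ψ D
      have hR : ∀ a g : τ.M j, Commute (R a) (R g) → brf lam (a : G) (g : G) = 1 := by
        intro a g hag
        have h1 := knaR_comm (V := τ.M (j + 1)) (V' := τ.M' (j + 1)) hcen lam hlamC hab a g
        have h2 : R a * R g = R g * R a := hag
        change R a * R g = _ • (R g * R a) at h1
        rw [h2] at h1
        have h3 := LinearMap.congr_fun h1 (R ((g * a)⁻¹) (vec 0))
        have h4 : (R g * R a) (R ((g * a)⁻¹) (vec 0)) = vec 0 := by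
          rw [← map_mul, ← Module.End.mul_apply, ← map_mul, mul_inv_cancel, map_one]
          rfl
        rw [LinearMap.smul_apply, h4] at h3
        have h5 := hscal 1 ((brf lam (a : G) (g : G))⁻¹) (by rw [← h3]; simp)
        exact inv_eq_one.1 h5.symm
      have hcard2 : Nat.card {y : K // ∀ x, Commute ((R.comp (cc 0)) x)
          ((R.comp (cc t)) y⁻¹ * (R.comp (cc 0)) y)} ≤ Nat.card (D.comap ψ) := by
        refine Nat.card_le_card_of_injective (fun y => (⟨⟨(y.1 : G), hKM y.1.2⟩, ?_⟩ :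
          D.comap ψ)) ?_
        · rw [Subgroup.mem_comap]
          intro a ha
          have ha' : h 0 * (a : G) * (h 0)⁻¹ ∈ K := by
            have h1 : (MulAut.conjNormal (h 0) : MulAut (τ.M j)) a ∈ K.subgroupOf (τ.M j) := ha
            rw [Subgroup.mem_subgroupOf, MulAut.conjNormal_apply] at h1
            exact h1
          have h1 := y.2 ⟨_, ha'⟩
          have h2 : (R.comp (cc t)) (y.1)⁻¹ * (R.comp (cc 0)) y.1 =
              R ((cc t y.1)⁻¹ * cc 0 y.1) := by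
            change R (cc t (y.1)⁻¹) * R (cc 0 y.1) = _
            rw [map_inv (cc t), ← map_mul]
          rw [h2, MonoidHom.comp_apply] at h1
          have h3 := hR _ _ h1
          have h4 : ((cc 0 ⟨_, ha'⟩ : τ.M j) : G) = a := by
            rw [hcc]
            simp [mul_assoc]
          have hm : ∀ t y, ((cc t y : τ.M j) : G) ∈ τ.M j := fun t y => (cc t y).2
          rw [h4, Subgroup.coe_mul, Subgroup.coe_inv,
            kna_brf_mul_right hcen hab lam hlamC a.2 (Subgroup.inv_mem _ (hm _ _)) (hm _ _),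
            kna_brf_inv_right hcen hab lam hlamC a.2 (hm _ _)] at h3
          have h5 : brf lam (a : G) ((cc 0 y.1 : τ.M j) : G) =
              brf ζ (h 0 * a * (h 0)⁻¹) (y.1 : G) := by
            refine (kna_brf_conj hab ζ (h 0) a.2 (hm _ _)).trans ?_
            rw [hcc]
            congr 1
            group
          have h6 : brf lam (a : G) ((cc t y.1 : τ.M j) : G) =
              brf ζ (h t * a * (h t)⁻¹) (y.1 : G) := by
            have h7 : brf lam (a : G) ((cc t y.1 : τ.M j) : G) =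
              brf (cact (τ.M' j) (h t) ζ) (a : G) ((cc t y.1 : τ.M j) : G) := by rw [hA]
            refine h7.trans ((kna_brf_conj hab ζ (h t) a.2 (hm _ _)).trans ?_)
            rw [hcc]
            congr 1
            group
          rw [h5, h6] at h3
          have h7 := inv_mul_eq_one.1 h3
          have hy : (y.1 : G) ∈ τ.M j := hKM y.1.2
          have hc0 : h 0 * a * (h 0)⁻¹ ∈ τ.M j := nM.conj_mem _ a.2 _
          have hct : h t * a * (h t)⁻¹ ∈ τ.M j := nM.conj_mem _ a.2 _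
          rw [knaPsi_apply]
          change brf ζ (y.1 : G) (h 0 * a * (h 0)⁻¹) * (brf ζ (y.1 : G) (h t * a * (h t)⁻¹))⁻¹ = 1
          rw [kna_brf_swap hab ζ hc0 hy, kna_brf_swap hab ζ hct hy, h7]
          simp
        · intro x y hxy
          have h1 := congrArg (fun z : D.comap ψ => ((z : τ.M j) : G)) hxy
          exact Subtype.ext (Subtype.ext h1)
      have hMK : Nat.card (τ.M j) = Nat.card K * K.relIndex (τ.M j) := by
        have h1 := Subgroup.card_mul_index (K.subgroupOf (τ.M j))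
        rw [Nat.card_congr (Subgroup.subgroupOfEquivOfLe hKM).toEquiv] at h1
        exact h1.symm
      rw [hDcard, hK'i] at hcard1
      rw [hK'i] at hidx
      have hCpos : 0 < C := lt_of_lt_of_le (Nat.pos_of_ne_zero hidx) hKC
      set r := K.relIndex (τ.M j)
      set s := Nat.card S
      set kap := Nat.card {y : K // ∀ x, Commute ((R.comp (cc 0)) x)
          ((R.comp (cc t)) y⁻¹ * (R.comp (cc 0)) y)}
      have e1 : kap ≤ s * r := hcard2.trans (hcard1.trans (Nat.mul_le_mul_right _ hker))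
      have e2 : C * (Γ0 * (s * r)) ≤ C * Nat.card K := by
        calc C * (Γ0 * (s * r)) ≤ C * (Γ0 * (s * C)) := by gcongr
          _ = C ^ 2 * Γ0 * s := by ring
          _ ≤ Nat.card (τ.M j) := hS
          _ = Nat.card K * r := hMK
          _ ≤ Nat.card K * C := by gcongr
          _ = C * Nat.card K := by ring
      calc Γ0 * kap ≤ Γ0 * (s * r) := by gcongr
        _ ≤ Nat.card K := Nat.le_of_mul_le_mul_left e2 hCpos
    · left
      obtain ⟨z', hz'⟩ := DFunLike.ne_iff.1 hA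
      have hz1 : h t * (z' : G) * (h t)⁻¹ ∈ τ.M' j := nZ.conj_mem _ z'.2 _
      refine ⟨⟨h t * (z' : G) * (h t)⁻¹, hZK hz1⟩, Subgroup.mem_subgroupOf.2 hz1, ?_⟩
      have h1 : ∀ s, (h s)⁻¹ * (h t * (z' : G) * (h t)⁻¹) * h s ∈ τ.M' j := by
        intro s
        have := nZ.conj_mem _ hz1 (h s)⁻¹
        simpa using this
      have h2 : ∀ s, (R.comp (cc s)) ⟨h t * (z' : G) * (h t)⁻¹, hZK hz1⟩ =
          (((lam ⟨_, h1 s⟩)⁻¹ : (kk p)ˣ) : kk p) • 1 := fun s =>
        knaR_scalar hcen lam hlamC (cc s _) ⟨_, h1 s⟩ (hcc s _)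
      rw [h2, h2]
      intro h3
      have h4 := LinearMap.congr_fun h3 (vec 0)
      simp only [LinearMap.smul_apply, Module.End.one_apply] at h4
      have h8 := inv_injective (hscal _ _ h4)
      apply hz'
      have h9 : (⟨_, h1 t⟩ : τ.M' j) = z' := by
        ext
        simp [mul_assoc]
      rw [h9] at h8
      rw [h8]
      change ζ ((MulAut.conjNormal (h t) : MulAut (τ.M' j)) z') =
        ζ ((MulAut.conjNormal (h 0) : MulAut (τ.M' j)) _)
      congr 1
      ext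
      simp [mul_assoc]

end Pool.Agent.PLen
end

section

set_option autoImplicit false

namespace Pool.Agent.PLen

open scoped BigOperators

theorem dkill (p : ℕ) [Fact p.Prime] {N : ℕ} (L : List (Fin N × Bool)) (i0 : Fin N)
    (hL : GoodWord L i0)
    (IH : ∀ v : FreeGroup (Fin N), v ≠ 1 → v.norm < L.length → ∀ ε > (0 : ℝ), ∃ h, SmallT p v ε h) :
    ∃ δ > (0 : ℝ), δ ≤ 1 ∧ ∀ C : ℕ, ∀ ε > (0 : ℝ), ∃ h S : ℕ,
      ∀ (G : Type) [Group G] [Finite G] (n : ℕ) (τ : Tower p G n) (P : Sylow p G) (j : ℕ),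
        h ≤ j → j + 1 ≤ n → Odd j →
        ∀ b : τ.M (j + 1) →* Multiplicative (ZMod p), b ≠ 1 →
        (∀ x : τ.M (j + 1), (x : G) ∈ τ.M' (j + 1) → b x = 1) →
        haveI := τ.nM (j + 1)
        (C = 1 ∨ ¬ (τ.M' j ≤ stab (τ.M (j + 1)) b) ∨ S ≤ (supp τ j b).ncard) →
        pr (fun s : Smp (P : Subgroup G) N =>
          ¬ ∀ K : Subgroup G, τ.M' j ≤ K → K ≤ τ.M j → K.relIndex (τ.M j) ≤ C →
            ∀ n1 ∈ τ.M j,
              pr (fun m : K => Dk (τ.M (j + 1)) b i0 s.1 L (n1 * (m : G) * s.2) = 1) ≤ 1 - δ)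
          ≤ ε := by
  obtain ⟨m, v, e, he, hv, hDk⟩ := Dk_form L i0 hL
  have IH' : ∀ t : Fin (m + 1), t ≠ 0 → ∀ ε > (0 : ℝ), ∃ h, SmallT p ((v 0)⁻¹ * v t) ε h :=
    fun t ht => IH _ (hv t ht).1 (hv t ht).2
  obtain ⟨δ1, hδ1, hδ1', hna⟩ := kill_na p m
  obtain ⟨δ2, hδ2, hδ2', hab⟩ := kill_ab p m
  refine ⟨min δ1 δ2, lt_min hδ1 hδ2, le_trans (min_le_left _ _) hδ1', ?_⟩
  intro C ε hε
  obtain ⟨Γ, hΓ⟩ := hna C
  obtain ⟨h1, hh1⟩ := bad_na p v IH' Γ ε hε
  obtain ⟨h2, hh2⟩ := bad_ab p v IH' C ε hε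
  refine ⟨max h1 h2, (m + 1) * C + 1, ?_⟩
  intro G _ _ n τ P j hj hjn ho b hb hb'
  have i1 := τ.nM (j + 1)
  have i2 := τ.nM' j
  have i3 := τ.nM j
  intro hcase
  by_cases hfix : τ.M' j ≤ stab (τ.M (j + 1)) b
  · -- commutative case
    have hD := hh2 G n τ P j (le_trans (le_max_right _ _) hj) hjn ho (supp τ j b) (supp_fin τ b)
      (fun d hd => ⟨hd.1, hd.2.1⟩) (by
        rcases hcase with h | h | h
        · exact Or.inl ⟨h, supp_nonempty τ hjn ho b hb hb' hfix⟩
        · exact absurd hfix h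
        · exact Or.inr h)
    refine le_trans (pr_mono ?_) hD
    intro s hs hgood
    apply hs
    intro K hK1 hK2 hK3 n1 hn1
    obtain ⟨θ, hθ, hθ2⟩ := hgood K hK1 hK2 hK3
    have hk := hab G n τ j hjn ho b hb' hfix θ hθ (fun t => s.2 * ev s.1 (v t)) e he K hK1 hK2
      hθ2 n1 hn1
    refine le_trans (le_of_eq (pr_congr fun y => ?_)) (le_trans hk ?_)
    · rw [hDk]
      simp only [mul_assoc]
    · have := min_le_right δ1 δ2
      linarith
  · -- noncommutative case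
    obtain ⟨ζ, hζ1, hζ2, hζ3⟩ := exists_zeta τ hjn ho b hb' hfix
    have hD := hh1 G n τ P j (le_trans (le_max_left _ _) hj) hjn ho ζ hζ1 hζ2
    refine le_trans (pr_mono ?_) hD
    intro s hs hgood
    apply hs
    intro K hK1 hK2 hK3 n1 hn1
    have hk := hΓ G n τ j hjn ho b hb' ζ hζ2 hζ3 (fun t => s.2 * ev s.1 (v t)) e he
      hgood K hK1 hK2 hK3 n1 hn1
    refine le_trans (le_of_eq (pr_congr fun y => ?_)) (le_trans hk ?_)
    · rw [hDk]
      simp only [mul_assoc]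
    · have := min_le_left δ1 δ2
      linarith

end Pool.Agent.PLen
end

section

set_option autoImplicit false

/-! T6. Transition over an even layer. -/

namespace Pool.Agent.PLen

open scoped BigOperators

section TransYAux

variable {G : Type} [Group G] {N : ℕ}

theorem transY_ev_nil {P : Subgroup G} (x : Fin N → P) :
    ev x (FreeGroup.mk ([] : List (Fin N × Bool))) = 1 := by
  unfold ev
  rw [FreeGroup.lift_mk]
  rfl

theorem transY_ev_true {P : Subgroup G} (x : Fin N → P) (i : Fin N) (L : List (Fin N × Bool)) :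
    ev x (FreeGroup.mk ((i, true) :: L)) = (x i : G) * ev x (FreeGroup.mk L) := by
  unfold ev
  rw [FreeGroup.lift_mk, FreeGroup.lift_mk]
  rfl

theorem transY_ev_false {P : Subgroup G} (x : Fin N → P) (i : Fin N) (L : List (Fin N × Bool)) :
    ev x (FreeGroup.mk ((i, false) :: L)) = (x i : G)⁻¹ * ev x (FreeGroup.mk L) := by
  unfold ev
  rw [FreeGroup.lift_mk, FreeGroup.lift_mk]
  rfl

theorem transY_cact_apply {A : Type*} [CommGroup A] (M : Subgroup G) [M.Normal] (g : G)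
    (b : M →* A) (v : M) (h : g * v * g⁻¹ ∈ M) : cact M g b v = b ⟨g * v * g⁻¹, h⟩ := by
  unfold cact
  simp only [MonoidHom.coe_comp, Function.comp_apply, MulEquiv.coe_toMonoidHom]
  congr 1

/-- The Fox identity. -/
theorem transY_fox {A : Type*} [CommGroup A] (M : Subgroup G) [hM : M.Normal] {P : Subgroup G}
    (b : M →* A) (i0 : Fin N) (x : Fin N → P) (u : P) (hu : (u : G) ∈ M) :
    ∀ (L : List (Fin N × Bool)) (g : G),
      ∃ h : g * ev (Function.update x i0 (u * x i0)) (FreeGroup.mk L) *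
          (ev x (FreeGroup.mk L))⁻¹ * g⁻¹ ∈ M,
        b ⟨_, h⟩ = Dk M b i0 x L g ⟨u, hu⟩ := by
  intro L
  induction L with
  | nil =>
    intro g
    refine ⟨?_, ?_⟩
    · rw [transY_ev_nil, transY_ev_nil]
      simp [M.one_mem]
    · have h1 : g * ev (Function.update x i0 (u * x i0)) (FreeGroup.mk []) *
          (ev x (FreeGroup.mk []))⁻¹ * g⁻¹ = 1 := by
        rw [transY_ev_nil, transY_ev_nil]
        simp
      simp only [h1]
      exact map_one b
  | cons a L ih =>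
    obtain ⟨i, s⟩ := a
    intro g
    cases s with
    | true =>
      obtain ⟨h, hb⟩ := ih (g * (x i : G))
      have hcu : g * (u : G) * g⁻¹ ∈ M := hM.conj_mem _ hu g
      by_cases hi : i = i0
      · have e : g * ev (Function.update x i0 (u * x i0)) (FreeGroup.mk ((i, true) :: L)) *
            (ev x (FreeGroup.mk ((i, true) :: L)))⁻¹ * g⁻¹ = (g * (u : G) * g⁻¹) *
            (g * (x i : G) * ev (Function.update x i0 (u * x i0)) (FreeGroup.mk L) *
              (ev x (FreeGroup.mk L))⁻¹ * (g * (x i : G))⁻¹) := by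
          rw [transY_ev_true, transY_ev_true, hi, Function.update_self]
          simp only [Subgroup.coe_mul]
          group
        refine ⟨by rw [e]; exact M.mul_mem hcu h, ?_⟩
        simp only [e]
        have e2 : (⟨(g * (u : G) * g⁻¹) *
            (g * (x i : G) * ev (Function.update x i0 (u * x i0)) (FreeGroup.mk L) *
              (ev x (FreeGroup.mk L))⁻¹ * (g * (x i : G))⁻¹), M.mul_mem hcu h⟩ : M) =
            ⟨g * (u : G) * g⁻¹, hcu⟩ * ⟨_, h⟩ := rfl
        rw [e2, map_mul, hb]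
        simp only [Dk, if_pos hi, MonoidHom.mul_apply]
        rw [transY_cact_apply M g b ⟨u, hu⟩ hcu]
      · have e : g * ev (Function.update x i0 (u * x i0)) (FreeGroup.mk ((i, true) :: L)) *
            (ev x (FreeGroup.mk ((i, true) :: L)))⁻¹ * g⁻¹ =
            (g * (x i : G) * ev (Function.update x i0 (u * x i0)) (FreeGroup.mk L) *
              (ev x (FreeGroup.mk L))⁻¹ * (g * (x i : G))⁻¹) := by
          rw [transY_ev_true, transY_ev_true, Function.update_of_ne hi]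
          group
        refine ⟨by rw [e]; exact h, ?_⟩
        simp only [e]
        rw [hb]
        simp only [Dk, if_neg hi, one_mul]
    | false =>
      obtain ⟨h, hb⟩ := ih (g * (x i : G)⁻¹)
      have hcu : (g * (x i : G)⁻¹) * (u : G)⁻¹ * (g * (x i : G)⁻¹)⁻¹ ∈ M :=
        hM.conj_mem _ (M.inv_mem hu) _
      have hcu' : (g * (x i : G)⁻¹) * (u : G) * (g * (x i : G)⁻¹)⁻¹ ∈ M :=
        hM.conj_mem _ hu _
      by_cases hi : i = i0
      · have e : g * ev (Function.update x i0 (u * x i0)) (FreeGroup.mk ((i, false) :: L)) *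
            (ev x (FreeGroup.mk ((i, false) :: L)))⁻¹ * g⁻¹ =
            ((g * (x i : G)⁻¹) * (u : G)⁻¹ * (g * (x i : G)⁻¹)⁻¹) *
            (g * (x i : G)⁻¹ * ev (Function.update x i0 (u * x i0)) (FreeGroup.mk L) *
              (ev x (FreeGroup.mk L))⁻¹ * (g * (x i : G)⁻¹)⁻¹) := by
          rw [transY_ev_false, transY_ev_false, hi, Function.update_self]
          simp only [Subgroup.coe_mul]
          group
        refine ⟨by rw [e]; exact M.mul_mem hcu h, ?_⟩
        simp only [e]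
        have e2 : (⟨((g * (x i : G)⁻¹) * (u : G)⁻¹ * (g * (x i : G)⁻¹)⁻¹) *
            (g * (x i : G)⁻¹ * ev (Function.update x i0 (u * x i0)) (FreeGroup.mk L) *
              (ev x (FreeGroup.mk L))⁻¹ * (g * (x i : G)⁻¹)⁻¹), M.mul_mem hcu h⟩ : M) =
            (⟨(g * (x i : G)⁻¹) * (u : G) * (g * (x i : G)⁻¹)⁻¹, hcu'⟩ : M)⁻¹ * ⟨_, h⟩ := by
          apply Subtype.ext
          simp only [Subgroup.coe_mul, Subgroup.coe_inv]
          group
        rw [e2, map_mul, map_inv, hb]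
        simp only [Dk, if_pos hi, MonoidHom.mul_apply, MonoidHom.inv_apply]
        rw [transY_cact_apply M (g * (x i : G)⁻¹) b ⟨u, hu⟩ hcu']
      · have e : g * ev (Function.update x i0 (u * x i0)) (FreeGroup.mk ((i, false) :: L)) *
            (ev x (FreeGroup.mk ((i, false) :: L)))⁻¹ * g⁻¹ =
            (g * (x i : G)⁻¹ * ev (Function.update x i0 (u * x i0)) (FreeGroup.mk L) *
              (ev x (FreeGroup.mk L))⁻¹ * (g * (x i : G)⁻¹)⁻¹) := by
          rw [transY_ev_false, transY_ev_false, Function.update_of_ne hi]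
          group
        refine ⟨by rw [e]; exact h, ?_⟩
        simp only [e]
        rw [hb]
        simp only [Dk, if_neg hi, one_mul]

/-- The derivative of a homomorphism trivial on a normal subgroup is trivial on it. -/
theorem transY_Dk_trivial {A : Type*} [CommGroup A] (M M' : Subgroup G) [hM : M.Normal]
    (hM' : M'.Normal) {P : Subgroup G} (b : M →* A) (hb : ∀ v : M, (v : G) ∈ M' → b v = 1)
    (i0 : Fin N) (x : Fin N → P) :
    ∀ (L : List (Fin N × Bool)) (g : G) (v : M), (v : G) ∈ M' → Dk M b i0 x L g v = 1 := by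
  have hc : ∀ (g : G) (v : M), (v : G) ∈ M' → cact M g b v = 1 := by
    intro g v hv
    rw [transY_cact_apply M g b v (hM.conj_mem _ v.2 g)]
    exact hb _ (hM'.conj_mem _ hv g)
  intro L
  induction L with
  | nil => intro g v hv; rfl
  | cons a L ih =>
    obtain ⟨i, s⟩ := a
    intro g v hv
    cases s with
    | true =>
      simp only [Dk, MonoidHom.mul_apply, ih _ v hv, mul_one]
      split_ifs
      · exact hc _ v hv
      · rfl
    | false =>
      simp only [Dk, MonoidHom.mul_apply, ih _ v hv, mul_one]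
      split_ifs
      · rw [MonoidHom.inv_apply, hc _ v hv, inv_one]
      · rfl

/-- The Sylow subgroup covers an even layer. -/
theorem transY_sylow {p : ℕ} [Fact p.Prime] [Finite G] {n : ℕ} (τ : Tower p G n)
    (P : Sylow p G) {j : ℕ} (hj : j ≤ n) (hev : Even j) (m : G) (hm : m ∈ τ.M j) :
    ∃ u : (P : Subgroup G), (u : G) ∈ τ.M j ∧ (u : G)⁻¹ * m ∈ τ.M' j := by
  have := τ.nM j
  have := τ.nM' j
  let π := QuotientGroup.mk' (τ.M' j)
  have hπ : Function.Surjective π := QuotientGroup.mk'_surjective _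
  let Pb : Sylow p (G ⧸ τ.M' j) := P.mapSurjective hπ
  have : ((τ.M j).map π).Normal := Subgroup.Normal.map inferInstance π hπ
  have hpg : IsPGroup p ((τ.M j).map π) := by
    rintro ⟨y, hy⟩
    obtain ⟨x, hx, rfl⟩ := hy
    refine ⟨1, ?_⟩
    apply Subtype.ext
    rw [pow_one]
    change (π x) ^ p = 1
    rw [← map_pow]
    exact (QuotientGroup.eq_one_iff _).mpr (τ.tyY j hj hev x hx)
  have hle := hpg.le_sylow_of_normal Pb
  have h1 : π m ∈ (P : Subgroup G).map π := by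
    have := hle ⟨m, hm, rfl⟩
    exact this
  obtain ⟨u, hu, hum⟩ := h1
  have h2 : u⁻¹ * m ∈ τ.M' j := QuotientGroup.eq.mp hum
  refine ⟨⟨u, hu⟩, ?_, h2⟩
  have h3 : u = m * (u⁻¹ * m)⁻¹ := by group
  change u ∈ τ.M j
  rw [h3]
  exact (τ.M j).mul_mem hm ((τ.M j).inv_mem (τ.le j h2))

theorem transY_quot {p : ℕ} {n : ℕ} [Finite G] (τ : Tower p G n) {j : ℕ} (hj : j ≤ n) :
    ∃ (A : Type) (_ : CommGroup A) (_ : Finite A) (q : τ.M j →* A),
      Function.Surjective q ∧ q.ker = (τ.M' j).subgroupOf (τ.M j) := by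
  have := τ.nM' j
  let K := (τ.M' j).subgroupOf (τ.M j)
  have : K.Normal := inferInstance
  refine ⟨τ.M j ⧸ K, { (inferInstance : Group (τ.M j ⧸ K)) with
    mul_comm := ?_ }, inferInstance, QuotientGroup.mk' K, QuotientGroup.mk'_surjective K,
    QuotientGroup.ker_mk' K⟩
  intro a b
  obtain ⟨x, rfl⟩ := QuotientGroup.mk'_surjective K a
  obtain ⟨y, rfl⟩ := QuotientGroup.mk'_surjective K b
  change QuotientGroup.mk' K x * QuotientGroup.mk' K y = QuotientGroup.mk' K y * QuotientGroup.mk' K x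
  rw [← map_mul, ← map_mul]
  apply QuotientGroup.eq.mpr
  rw [Subgroup.mem_subgroupOf]
  have h := τ.ab j hj (y : G)⁻¹ ((τ.M j).inv_mem y.2) (x : G)⁻¹ ((τ.M j).inv_mem x.2)
  have e : (((x * y)⁻¹ * (y * x) : τ.M j) : G) = (y : G)⁻¹ * (x : G)⁻¹ * ((y : G)⁻¹)⁻¹ * ((x : G)⁻¹)⁻¹ := by
    simp only [Subgroup.coe_mul, Subgroup.coe_inv]
    group
  rw [e]
  exact h

/-- The counting identity. -/
theorem transY_count {B M A : Type} [Group B] [Finite B] [Group M] [Finite M] [CommGroup A]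
    (ψ : B →* A) (q : M →* A) (hq : Function.Surjective q) (K0 : Subgroup M) (hK0 : q.ker ≤ K0) :
    Nat.card ((K0.map q).comap ψ) * K0.index =
      Nat.card B * ((ψ.range ⊔ K0.map q).comap q).index := by
  set K1 := (ψ.range ⊔ K0.map q).comap q with hK1
  have h01 : K0 ≤ K1 := by
    intro x hx
    rw [hK1, Subgroup.mem_comap]
    exact Subgroup.mem_sup_right ⟨x, hx, rfl⟩
  have h1 : ((K0.map q).comap ψ).index = K0.relIndex K1 := by
    rw [Subgroup.index_comap]
    have e1 : K0 = (K0.map q).comap q := by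
      rw [Subgroup.comap_map_eq, sup_eq_left.mpr hK0]
    conv_rhs => rw [e1]
    rw [Subgroup.relIndex_comap, hK1, Subgroup.map_comap_eq_self_of_surjective hq,
      Subgroup.relIndex_sup_right]
  have h2 := ((K0.map q).comap ψ).card_mul_index
  have h3 := Subgroup.relIndex_mul_index h01
  rw [← h3, ← h1, ← mul_assoc, h2]

theorem transY_sum_ind {α : Type*} [Fintype α] (φ : α → Prop) :
    ∑ a, ind (φ a) = (Nat.card {a // φ a} : ℝ) := by
  classical
  unfold ind
  rw [Finset.sum_boole, Nat.card_eq_fintype_card, Fintype.card_subtype]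

/-- The key estimate for a fixed sample. -/
theorem transY_fix {p : ℕ} [Fact p.Prime] [Finite G] {n : ℕ} (τ : Tower p G n)
    (L : List (Fin N × Bool)) (i0 : Fin N) (P : Sylow p G) {j : ℕ} (hj : j ≤ n) (hev : Even j)
    [hM : (τ.M j).Normal] (H : Subgroup G) (γ : G) (x : Fin N → (P : Subgroup G)) (g : G) :
    ∀ (n1 : τ.M j) (u1 : (τ.M j).subgroupOf (P : Subgroup G)),
    EvM (FreeGroup.mk L) H (τ.M' j) γ
      (Function.update x i0 ((u1 : (P : Subgroup G)) * x i0), (n1 : G) * g) →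
    EvM (FreeGroup.mk L) H (τ.M j) γ (x, g) ∧
      (Nat.card {β : τ.M j × (τ.M j).subgroupOf (P : Subgroup G) //
          EvM (FreeGroup.mk L) H (τ.M' j) γ
            (Function.update x i0 ((β.2 : (P : Subgroup G)) * x i0), (β.1 : G) * g)}) *
        Nat.card (Lam (τ.M j) (H ⊔ τ.M' j) (Multiplicative (ZMod p))) ≤
      Nat.card (τ.M j × (τ.M j).subgroupOf (P : Subgroup G)) *
        Nat.card {b : Lam (τ.M j) (H ⊔ τ.M' j) (Multiplicative (ZMod p)) //
          om (FreeGroup.mk L) (x, g) ∈ stab (τ.M j) b.1 ∧ Dk (τ.M j) b.1 i0 x L g = 1} := by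
  classical
  set M := τ.M j with hMdef
  have hM'n := τ.nM' j
  set U := M.subgroupOf (P : Subgroup G) with hU
  intro n1 u1 h1
  obtain ⟨ω, hω⟩ : ∃ ω, ω = om (FreeGroup.mk L) (x, g) := ⟨_, rfl⟩
  have hω' : ω = g * ev x (FreeGroup.mk L) * g⁻¹ := hω
  -- the element `D u`
  obtain ⟨D, hD⟩ : ∃ D : U → M, ∀ u : U, (D u : G) = g *
      ev (Function.update x i0 ((u : (P : Subgroup G)) * x i0)) (FreeGroup.mk L) *
          (ev x (FreeGroup.mk L))⁻¹ * g⁻¹ :=
    ⟨fun u => ⟨_, (transY_fox M (1 : M →* Multiplicative (ZMod 1)) i0 x u.1 u.2 L g).choose⟩,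
      fun u => rfl⟩
  let incl : U →* M :=
    { toFun := fun u => ⟨((u : (P : Subgroup G)) : G), u.2⟩
      map_one' := rfl
      map_mul' := fun _ _ => rfl }
  have hfox : ∀ (A : Type) [CommGroup A] (b : M →* A) (u : U), b (D u) = Dk M b i0 x L g (incl u) := by
    intro A _ b u
    obtain ⟨h, hb⟩ := transY_fox M b i0 x u.1 u.2 L g
    have e : D u = ⟨_, h⟩ := Subtype.ext (hD u)
    rw [e, hb]
    rfl
  -- the element `c`
  let c : M → U → M := fun m u =>
    (MulAut.conjNormal ω⁻¹ (m * D u)) * m⁻¹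
  have hc : ∀ m u, (c m u : G) = ω⁻¹ * ((m : G) * D u) * ω * (m : G)⁻¹ := by
    intro m u
    simp only [c, Subgroup.coe_mul, MulAut.conjNormal_apply, Subgroup.coe_inv, inv_inv]
  have hom : ∀ (m : M) (u : U), γ * om (FreeGroup.mk L)
      (Function.update x i0 ((u : (P : Subgroup G)) * x i0), (m : G) * g) = γ * ω * c m u := by
    intro m u
    rw [hc, hD, hω']
    unfold om
    group
  have hcb : ∀ (A : Type) [CommGroup A] (b : M →* A) (m : M) (u : U),
      b (c m u) = cact M ω⁻¹ b m * Dk M (cact M ω⁻¹ b) i0 x L g (incl u) * (b m)⁻¹ := by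
    intro A _ b m u
    simp only [c]
    rw [← hfox, map_mul b, map_inv b]
    congr 1
    rw [← map_mul]
    rfl
  obtain ⟨A, _, _, q, hq, hqk⟩ := transY_quot τ hj
  -- the homomorphism `ψ`
  let ψ : M × U →* A :=
    (cact M ω⁻¹ q).comp (MonoidHom.fst M U) *
      (Dk M (cact M ω⁻¹ q) i0 x L g).comp (incl.comp (MonoidHom.snd M U)) *
      (q.comp (MonoidHom.fst M U))⁻¹
  have hψ : ∀ m u, ψ (m, u) = q (c m u) := by
    intro m u
    rw [hcb]
    rfl
  let K0 : Subgroup M := (H ⊔ τ.M' j).subgroupOf M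
  have hK0 : q.ker ≤ K0 := by
    rw [hqk]
    intro v hv
    rw [Subgroup.mem_subgroupOf] at hv ⊢
    exact Subgroup.mem_sup_right hv
  let K1 : Subgroup M := (ψ.range ⊔ K0.map q).comap q
  have hK01 : K0 ≤ K1 := by
    intro v hv
    change q v ∈ ψ.range ⊔ K0.map q
    exact Subgroup.mem_sup_right ⟨v, hv, rfl⟩
  have hcount := transY_count ψ q hq K0 hK0
  have hd0 : Nat.card (Lam M (H ⊔ τ.M' j) (Multiplicative (ZMod p))) = K0.index := by
    have := dualY τ hj hev K0 (by rw [← hqk]; exact hK0)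
    rw [← this]
    rfl
  have hd1 : Nat.card {b : M →* Multiplicative (ZMod p) // ∀ v ∈ K1, b v = 1} = K1.index :=
    dualY τ hj hev K1 (by rw [← hqk]; exact hK0.trans hK01)
  have hle' : H ⊔ τ.M' j ≤ H ⊔ M := sup_le_sup_left (τ.le j) H
  have h1' : γ * ω * c n1 u1 ∈ H ⊔ τ.M' j := by
    rw [← hom]; exact h1
  refine ⟨?_, ?_⟩
  · change γ * om (FreeGroup.mk L) (x, g) ∈ H ⊔ M
    rw [← hω]
    have e : γ * ω = (γ * ω * c n1 u1) * (c n1 u1 : G)⁻¹ := by group
    rw [e]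
    exact (H ⊔ M).mul_mem (hle' h1') (Subgroup.mem_sup_right (M.inv_mem (c n1 u1).2))
  rw [hd0]
  -- the solutions form a subset of a coset
  have hS : Nat.card {β : M × U // EvM (FreeGroup.mk L) H (τ.M' j) γ
            (Function.update x i0 ((β.2 : (P : Subgroup G)) * x i0), (β.1 : G) * g)} ≤
      Nat.card ((K0.map q).comap ψ) := by
    have hmem : ∀ β : M × U, EvM (FreeGroup.mk L) H (τ.M' j) γ
            (Function.update x i0 ((β.2 : (P : Subgroup G)) * x i0), (β.1 : G) * g) →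
        (n1, u1)⁻¹ * β ∈ (K0.map q).comap ψ := by
      intro β hβ
      have hβ' : γ * ω * c β.1 β.2 ∈ H ⊔ τ.M' j := by
        rw [← hom]; exact hβ
      rw [Subgroup.mem_comap, map_mul, map_inv]
      have e1 : ψ (n1, u1) = q (c n1 u1) := hψ n1 u1
      have e2 : ψ β = q (c β.1 β.2) := hψ β.1 β.2
      rw [e1, e2, ← map_inv, ← map_mul]
      refine ⟨_, ?_, rfl⟩
      change ((c n1 u1)⁻¹ * c β.1 β.2 : M) ∈ K0
      rw [Subgroup.mem_subgroupOf]
      have e3 : (((c n1 u1)⁻¹ * c β.1 β.2 : M) : G) =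
          (γ * ω * c n1 u1)⁻¹ * (γ * ω * c β.1 β.2) := by
        simp only [Subgroup.coe_mul, Subgroup.coe_inv]
        group
      rw [e3]
      exact (H ⊔ τ.M' j).mul_mem ((H ⊔ τ.M' j).inv_mem h1') hβ'
    refine Nat.card_le_card_of_injective
      (fun β : {β : M × U // EvM (FreeGroup.mk L) H (τ.M' j) γ
            (Function.update x i0 ((β.2 : (P : Subgroup G)) * x i0), (β.1 : G) * g)} =>
        (⟨(n1, u1)⁻¹ * β.1, hmem β.1 β.2⟩ : (K0.map q).comap ψ)) ?_
    intro β β' hββ'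
    apply Subtype.ext
    have := congrArg Subtype.val hββ'
    exact mul_left_cancel this
  -- the functionals trivial on `K1`
  have hB : K1.index ≤ Nat.card {b : Lam M (H ⊔ τ.M' j) (Multiplicative (ZMod p)) //
          om (FreeGroup.mk L) (x, g) ∈ stab M b.1 ∧ Dk M b.1 i0 x L g = 1} := by
    rw [← hd1]
    have : Finite (M →* Multiplicative (ZMod p)) := by
      have : NeZero p := ⟨(Fact.out : p.Prime).ne_zero⟩
      have : Finite (Multiplicative (ZMod p)) := inferInstanceAs (Finite (ZMod p))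
      exact DFunLike.finite _
    have : Finite (Lam M (H ⊔ τ.M' j) (Multiplicative (ZMod p))) := by
      unfold Lam
      infer_instance
    have hprop : ∀ b : M →* Multiplicative (ZMod p), (∀ v ∈ K1, b v = 1) →
        (∀ v : M, (v : G) ∈ H ⊔ τ.M' j → b v = 1) ∧
        (om (FreeGroup.mk L) (x, g) ∈ stab M b ∧ Dk M b i0 x L g = 1) := by
      intro b hb
      have hb0 : ∀ v : M, (v : G) ∈ H ⊔ τ.M' j → b v = 1 := fun v hv => hb v (hK01 hv)
      have hbc : ∀ m u, b (c m u) = 1 := by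
        intro m u
        apply hb
        change q (c m u) ∈ ψ.range ⊔ K0.map q
        exact Subgroup.mem_sup_left ⟨(m, u), hψ m u⟩
      have hst : cact M ω⁻¹ b = b := by
        ext1 m
        have h := hbc m 1
        rw [hcb, map_one incl, map_one, mul_one] at h
        exact mul_inv_eq_one.mp h
      have hDu : ∀ u, Dk M b i0 x L g (incl u) = 1 := by
        intro u
        have h := hbc 1 u
        rw [hcb, hst, map_one, inv_one, mul_one, one_mul] at h
        exact h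
      refine ⟨hb0, ?_, ?_⟩
      · rw [← hω]
        have : ω⁻¹ ∈ stab M b := hst
        exact (Subgroup.inv_mem_iff _).mp this
      · ext1 m
        obtain ⟨u, hu, hum⟩ := transY_sylow τ P hj hev (m : G) m.2
        have hb' : ∀ v : M, (v : G) ∈ τ.M' j → b v = 1 := fun v hv =>
          hb0 v (Subgroup.mem_sup_right hv)
        have h2 : Dk M b i0 x L g ⟨(u : G)⁻¹ * m, M.mul_mem (M.inv_mem hu) m.2⟩ = 1 :=
          transY_Dk_trivial M (τ.M' j) hM'n b hb' i0 x L g _ hum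
        have e : m = incl ⟨u, hu⟩ * ⟨(u : G)⁻¹ * m, M.mul_mem (M.inv_mem hu) m.2⟩ := by
          apply Subtype.ext
          change (m : G) = (u : G) * ((u : G)⁻¹ * m)
          group
        rw [e, map_mul, hDu, h2, one_mul]
        rfl
    refine Nat.card_le_card_of_injective
      (fun b : {b : M →* Multiplicative (ZMod p) // ∀ v ∈ K1, b v = 1} =>
        (⟨⟨b.1, (hprop b.1 b.2).1⟩, (hprop b.1 b.2).2⟩ :
          {b : Lam M (H ⊔ τ.M' j) (Multiplicative (ZMod p)) //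
          om (FreeGroup.mk L) (x, g) ∈ stab M b.1 ∧ Dk M b.1 i0 x L g = 1})) ?_
    intro b b' hbb'
    apply Subtype.ext
    exact congrArg (fun t => t.1.1) hbb'
  calc _ ≤ Nat.card ((K0.map q).comap ψ) * K0.index := Nat.mul_le_mul_right _ hS
    _ = Nat.card (M × U) * K1.index := hcount
    _ ≤ _ := Nat.mul_le_mul_left _ hB

end TransYAux

theorem trans_Y {p : ℕ} [Fact p.Prime] {G : Type} [Group G] [Finite G] {n : ℕ} (τ : Tower p G n)
    {N : ℕ} (L : List (Fin N × Bool)) (i0 : Fin N)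
    (P : Sylow p G) {j : ℕ} (hj : j ≤ n) (hev : Even j)
    (H : Subgroup G) (γ : G) (E : Smp (P : Subgroup G) N → Prop)
    (hE : ∀ s, ∀ n ∈ τ.M j, E (s.1, n * s.2) ↔ E s)
    (hE' : ∀ s, ∀ u : (P : Subgroup G), (u : G) ∈ τ.M j →
      (E (Function.update s.1 i0 (u * s.1 i0), s.2) ↔ E s)) :
    haveI := τ.nM j
    pr (fun s : Smp (P : Subgroup G) N => E s ∧ EvM (FreeGroup.mk L) H (τ.M' j) γ s) ≤
      (∑ᶠ b : Lam (τ.M j) (H ⊔ τ.M' j) (Multiplicative (ZMod p)),
        pr (fun s : Smp (P : Subgroup G) N =>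
          E s ∧ EvM (FreeGroup.mk L) H (τ.M j) γ s ∧ om (FreeGroup.mk L) s ∈ stab (τ.M j) b.1 ∧
            Dk (τ.M j) b.1 i0 s.1 L s.2 = 1)) /
      (Nat.card (Lam (τ.M j) (H ⊔ τ.M' j) (Multiplicative (ZMod p))) : ℝ) := by
  classical
  have := τ.nM j
  have hfin1 : Finite (τ.M j →* Multiplicative (ZMod p)) := by
    have : NeZero p := ⟨(Fact.out : p.Prime).ne_zero⟩
    have : Finite (Multiplicative (ZMod p)) := inferInstanceAs (Finite (ZMod p))
    exact DFunLike.finite _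
  have hfin : Finite (Lam (τ.M j) (H ⊔ τ.M' j) (Multiplicative (ZMod p))) := by
    unfold Lam
    infer_instance
  have := Fintype.ofFinite (Lam (τ.M j) (H ⊔ τ.M' j) (Multiplicative (ZMod p)))
  have hne : Nonempty (Lam (τ.M j) (H ⊔ τ.M' j) (Multiplicative (ZMod p))) :=
    ⟨⟨1, fun _ _ => rfl⟩⟩
  have hpos : (0 : ℝ) < (Nat.card (Lam (τ.M j) (H ⊔ τ.M' j) (Multiplicative (ZMod p))) : ℝ) := by
    exact_mod_cast Nat.card_pos
  set S : Smp (P : Subgroup G) N → Lam (τ.M j) (H ⊔ τ.M' j) (Multiplicative (ZMod p)) → Prop :=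
    fun s b => E s ∧ EvM (FreeGroup.mk L) H (τ.M j) γ s ∧
      om (FreeGroup.mk L) s ∈ stab (τ.M j) b.1 ∧ Dk (τ.M j) b.1 i0 s.1 L s.2 = 1 with hSdef
  let f : Smp (P : Subgroup G) N → ℝ := fun s => (∑ b, ind (S s b)) /
    (Nat.card (Lam (τ.M j) (H ⊔ τ.M' j) (Multiplicative (ZMod p))) : ℝ)
  have hRHS : (∑ᶠ b : Lam (τ.M j) (H ⊔ τ.M' j) (Multiplicative (ZMod p)),
        pr (fun s : Smp (P : Subgroup G) N => S s b)) /
      (Nat.card (Lam (τ.M j) (H ⊔ τ.M' j) (Multiplicative (ZMod p))) : ℝ) = av f := by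
    rw [finsum_eq_sum_of_fintype]
    simp only [pr_eq_av]
    rw [← av_sum]
    have : f = fun s => ((Nat.card (Lam (τ.M j) (H ⊔ τ.M' j)
      (Multiplicative (ZMod p))) : ℝ))⁻¹ * ∑ b, ind (S s b) := by
      funext s
      simp only [f]
      rw [div_eq_inv_mul]
    rw [this, av_mul_left, div_eq_inv_mul]
  have hgoal : pr (fun s : Smp (P : Subgroup G) N =>
      E s ∧ EvM (FreeGroup.mk L) H (τ.M' j) γ s) ≤ av f := by
    let e : τ.M j × (τ.M j).subgroupOf (P : Subgroup G) →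
        Smp (P : Subgroup G) N ≃ Smp (P : Subgroup G) N := fun β =>
      (shiftU i0 (β.2 : (P : Subgroup G))).trans (shiftL (β.1 : G))
    apply pr_fiber_le e
    intro s
    obtain ⟨x, g⟩ := s
    have he : ∀ β, e β (x, g) =
        (Function.update x i0 ((β.2 : (P : Subgroup G)) * x i0), (β.1 : G) * g) := fun β => rfl
    have hEe : ∀ β, E (e β (x, g)) ↔ E (x, g) := by
      intro β
      rw [he]
      have h1 := hE (Function.update x i0 ((β.2 : (P : Subgroup G)) * x i0), g) (β.1 : G) β.1.2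
      have h2 := hE' (x, g) (β.2 : (P : Subgroup G)) β.2.2
      exact h1.trans h2
    have hf0 : 0 ≤ f (x, g) := div_nonneg (Finset.sum_nonneg fun b _ => ind_nonneg _) hpos.le
    by_cases hsol : ∃ β, E (e β (x, g)) ∧ EvM (FreeGroup.mk L) H (τ.M' j) γ (e β (x, g))
    · obtain ⟨⟨n1, u1⟩, hE1, h1⟩ := hsol
      rw [hEe] at hE1
      obtain ⟨hEv, hcard⟩ := transY_fix τ L i0 P hj hev H γ x g n1 u1 h1
      have h2 : pr (fun β => E (e β (x, g)) ∧ EvM (FreeGroup.mk L) H (τ.M' j) γ (e β (x, g))) ≤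
          pr (fun β : τ.M j × (τ.M j).subgroupOf (P : Subgroup G) =>
            EvM (FreeGroup.mk L) H (τ.M' j) γ
              (Function.update x i0 ((β.2 : (P : Subgroup G)) * x i0), (β.1 : G) * g)) :=
        pr_mono fun β h => h.2
      refine h2.trans ?_
      simp only [f]
      unfold pr
      rw [div_le_div_iff₀ (by exact_mod_cast Nat.card_pos) hpos]
      have h3 : ∑ b, ind (S (x, g) b) = (Nat.card {b : Lam (τ.M j) (H ⊔ τ.M' j)
          (Multiplicative (ZMod p)) // om (FreeGroup.mk L) (x, g) ∈ stab (τ.M j) b.1 ∧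
            Dk (τ.M j) b.1 i0 x L g = 1} : ℝ) := by
        have h4 : ∀ b, S (x, g) b ↔ (om (FreeGroup.mk L) (x, g) ∈ stab (τ.M j) b.1 ∧
            Dk (τ.M j) b.1 i0 x L g = 1) := fun b => ⟨fun h => h.2.2, fun h => ⟨hE1, hEv, h⟩⟩
        rw [← transY_sum_ind]
        exact Finset.sum_congr rfl fun b _ => congrArg ind (propext (h4 b))
      rw [h3, mul_comm (Nat.card {b : Lam (τ.M j) (H ⊔ τ.M' j)
          (Multiplicative (ZMod p)) // om (FreeGroup.mk L) (x, g) ∈ stab (τ.M j) b.1 ∧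
            Dk (τ.M j) b.1 i0 x L g = 1} : ℝ)]
      exact_mod_cast hcard
    · push Not at hsol
      rw [pr_false fun β h => hsol β h.1 h.2]
      exact hf0
  exact hgoal.trans (le_of_eq hRHS.symm)

end Pool.Agent.PLen
end

section

set_option autoImplicit false
set_option linter.unusedSectionVars false
set_option linter.unusedVariables false
set_option linter.style.haveILetI false

/-! Auxiliary facts for the main contraction argument. -/

namespace Pool.Agent.PLen

open scoped BigOperators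

/-! ### A lemma on sequences -/

theorem window_seq (c α : ℝ) (hc : 0 < c) (hc1 : c ≤ 1) (hα : 0 < α) (ℓ h1 : ℕ) :
    ∃ h2 : ℕ, ∀ (K : ℕ) (a : ℕ → ℝ) (U : ℕ → Prop) (ε : ℝ), ε ≤ c / 2 * α →
      (∀ i j, i ≤ j → j ≤ K → a j ≤ a i) → (∀ i, a i ≤ 1) →
      (∀ k, h1 ≤ k → k ≤ K → U k → a k ≤ (1 - c) * a (k - 3) + ε) →
      α ≤ a K → h2 ≤ K → U K →
      ∃ k, h1 ≤ k ∧ k ≤ K ∧ ℓ ≤ k ∧ U k ∧ ∀ j, k - ℓ ≤ j → j < k → ¬ U j := by
  obtain ⟨B, hB⟩ := exists_pow_lt_of_lt_one hα (by linarith : 1 - c / 2 < 1)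
  refine ⟨h1 + 3 * (ℓ + 1) * (B + 1), ?_⟩
  intro K a U ε hε hanti hone hcon hK hh2 hUK
  by_contra hno
  push Not at hno
  have key : ∀ b K', K' ≤ K → U K' → h1 + 3 * (ℓ + 1) * b + ℓ ≤ K' →
      a K' ≤ (1 - c / 2) ^ b := by
    intro b
    induction b with
    | zero => intro K' _ _ _; simpa using hone K'
    | succ b ih =>
      intro K' hK' hU' hb
      have e1 : 3 * (ℓ + 1) * (b + 1) = 3 * (ℓ + 1) * b + 3 * ℓ + 3 := by ring
      obtain ⟨K1, h11, h12, hU1⟩ := hno K' (by omega) hK' (by omega) hU'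
      obtain ⟨K2, h21, h22, hU2⟩ := hno K1 (by omega) (by omega) (by omega) hU1
      obtain ⟨K3, h31, h32, hU3⟩ := hno K2 (by omega) (by omega) (by omega) hU2
      have i3 := ih K3 (by omega) hU3 (by omega)
      have hc' := hcon K' (by omega) hK' hU'
      have hα1 : α ≤ a K' := hK.trans (hanti K' K hK' le_rfl)
      have hm3 : a K' ≤ a (K' - 3) := hanti (K' - 3) K' (by omega) hK'
      have hm3' : a (K' - 3) ≤ a K3 := hanti K3 (K' - 3) (by omega) (by omega)
      have h5 : ε ≤ c / 2 * a (K' - 3) :=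
        hε.trans (mul_le_mul_of_nonneg_left (by linarith) (by linarith))
      have h6 : a K' ≤ (1 - c / 2) * a (K' - 3) := by nlinarith
      rw [pow_succ]
      calc a K' ≤ (1 - c / 2) * a (K' - 3) := h6
        _ ≤ (1 - c / 2) * (1 - c / 2) ^ b := by
            apply mul_le_mul_of_nonneg_left (hm3'.trans i3) (by linarith)
        _ = _ := by ring
  have e2 : 3 * (ℓ + 1) * (B + 1) = 3 * (ℓ + 1) * B + 3 * ℓ + 3 := by ring
  have := key B K le_rfl hUK (by omega)
  linarith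

/-- Average over a finite type with one exceptional element. -/
theorem avg_except {Λ : Type*} [Finite Λ] (e : Λ) (f : Λ → ℝ) (a b : ℝ) (c0 : ℝ) (hc0 : 0 < c0)
    (hc : c0 ≤ Nat.card Λ) (h1 : f e ≤ a) (h2 : ∀ x, x ≠ e → f x ≤ b) :
    (∑ᶠ x, f x) / (Nat.card Λ : ℝ) ≤ b + max (a - b) 0 / c0 := by
  classical
  have := Fintype.ofFinite Λ
  rw [finsum_eq_sum_of_fintype]
  have hcard : (0 : ℝ) < (Nat.card Λ : ℝ) := lt_of_lt_of_le hc0 hc
  have h3 : ∑ x, f x ≤ (Nat.card Λ : ℝ) * b + (a - b) := by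
    have h4 : ∀ x, f x ≤ b + (if x = e then a - b else 0) := by
      intro x
      by_cases hx : x = e
      · rw [if_pos hx, hx]; linarith
      · rw [if_neg hx]; linarith [h2 x hx]
    calc ∑ x, f x ≤ ∑ x, (b + (if x = e then a - b else 0)) := Finset.sum_le_sum fun x _ => h4 x
      _ = (Nat.card Λ : ℝ) * b + (a - b) := by
        rw [Finset.sum_add_distrib, Finset.sum_const, Finset.sum_ite_eq' Finset.univ e,
          if_pos (Finset.mem_univ _), Finset.card_univ, nsmul_eq_mul, Nat.card_eq_fintype_card]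
  calc (∑ x, f x) / (Nat.card Λ : ℝ) ≤ ((Nat.card Λ : ℝ) * b + (a - b)) / (Nat.card Λ : ℝ) :=
        div_le_div_of_nonneg_right h3 hcard.le
    _ = b + (a - b) / (Nat.card Λ : ℝ) := by field_simp
    _ ≤ b + max (a - b) 0 / (Nat.card Λ : ℝ) := by
        gcongr
        exact le_max_left _ _
    _ ≤ b + max (a - b) 0 / c0 := by
        have h5 : max (a - b) 0 / (Nat.card Λ : ℝ) ≤ max (a - b) 0 / c0 :=
          div_le_div_of_nonneg_left (le_max_right _ _) hc0 hc
        linarith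

section Towers

variable {p : ℕ} [Fact p.Prime] {G : Type} [Group G] [Finite G] {n : ℕ}

/-- Layer `j` is useful for `H`. -/
def Useful (τ : Tower p G n) (H : Subgroup G) (j : ℕ) : Prop :=
  (H ⊓ τ.M j) ⊔ τ.M' j ≠ τ.M j

theorem mem_stab {M : Subgroup G} [M.Normal] {A : Type*} [CommGroup A] {b : M →* A} {g : G} :
    g ∈ stab M b ↔ cact M g b = b := Iff.rfl

theorem cact_apply {M : Subgroup G} [M.Normal] {A : Type*} [CommGroup A] (b : M →* A) (g : G)
    (v : M) : cact M g b v = b (MulAut.conjNormal g v) := rfl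

theorem conjNormal_mk {M : Subgroup G} [M.Normal] (g v : G) (hv : v ∈ M) :
    (MulAut.conjNormal g : MulAut M) ⟨v, hv⟩ = ⟨g * v * g⁻¹, ‹M.Normal›.conj_mem v hv g⟩ := rfl

theorem cact_cact {M : Subgroup G} [M.Normal] {A : Type*} [CommGroup A] (b : M →* A) (g h : G) :
    cact M h (cact M g b) = cact M (g * h) b := by
  ext v
  simp only [cact_apply, map_mul]
  rfl

theorem cact_one {M : Subgroup G} [M.Normal] {A : Type*} [CommGroup A] (b : M →* A) :
    cact M 1 b = b := by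
  ext v
  simp [cact_apply]

/-- elements of the subgroup itself fix a homomorphism to an abelian group -/
theorem self_le_stab {M : Subgroup G} [M.Normal] {A : Type*} [CommGroup A] (b : M →* A) :
    M ≤ stab M b := by
  intro g hg
  rw [mem_stab]
  ext v
  rw [cact_apply]
  have : (MulAut.conjNormal g : MulAut M) v = ⟨g, hg⟩ * v * ⟨g, hg⟩⁻¹ := rfl
  rw [this, map_mul, map_mul, map_inv]
  rw [mul_comm (b ⟨g, hg⟩), mul_assoc, mul_inv_cancel, mul_one]

/-- Layer `j` is useful for the stabiliser of a nontrivial character of layer `j + 1`. -/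
theorem useful_stab (τ : Tower p G n) {j : ℕ} (hj : j < n) {A : Type*} [CommGroup A]
    (c : τ.M (j + 1) →* A) (hc : c ≠ 1)
    (hc' : ∀ x : τ.M (j + 1), (x : G) ∈ τ.M' (j + 1) → c x = 1) :
    haveI := τ.nM (j + 1)
    Useful τ (stab (τ.M (j + 1)) c) j := by
  haveI := τ.nM (j + 1)
  intro heq
  apply hc
  have hK := τ.frat j hj (stab (τ.M (j + 1)) c ⊓ τ.M j) inf_le_right heq
  have hCs : τ.C j ≤ stab (τ.M (j + 1)) c := by
    intro x hx
    rw [mem_stab]
    ext v
    rw [cact_apply]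
    have h1 := ((τ.mem_C j hj x).1 hx).2 v v.2
    have h2 : (MulAut.conjNormal x : MulAut (τ.M (j + 1))) v =
        ⟨x * (v : G) * x⁻¹ * (v : G)⁻¹, mul_mem ((τ.nM (j + 1)).conj_mem v v.2 x)
          (inv_mem v.2)⟩ * v := by
      apply Subtype.ext
      change x * (v : G) * x⁻¹ = x * (v : G) * x⁻¹ * (v : G)⁻¹ * (v : G)
      group
    rw [h2, map_mul, hc' _ h1, one_mul]
  have hMs : τ.M j ≤ stab (τ.M (j + 1)) c := by
    rw [← hK]
    exact sup_le inf_le_left hCs
  -- the kernel of `c` as a subgroup of `G`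
  have hker : τ.M (j + 1) ≤ (c.ker).map (τ.M (j + 1)).subtype := by
    conv_lhs => rw [← τ.act j hj]
    refine sup_le ?_ ?_
    · rw [Subgroup.commutator_le]
      intro v hv x hx
      have hx' := hMs hx
      rw [mem_stab] at hx'
      have hmem : v * x * v⁻¹ * x⁻¹ ∈ τ.M (j + 1) := by
        have h1 : v * x * v⁻¹ * x⁻¹ = v * (x * v⁻¹ * x⁻¹) := by group
        rw [h1]
        exact mul_mem hv ((τ.nM (j + 1)).conj_mem _ (inv_mem hv) x)
      refine ⟨⟨_, hmem⟩, ?_, rfl⟩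
      change c _ = 1
      have h3 : (⟨v * x * v⁻¹ * x⁻¹, hmem⟩ : τ.M (j + 1)) =
          ⟨v, hv⟩ * (MulAut.conjNormal x : MulAut (τ.M (j + 1))) ⟨v, hv⟩⁻¹ := by
        apply Subtype.ext
        change v * x * v⁻¹ * x⁻¹ = v * (x * v⁻¹ * x⁻¹)
        group
      rw [h3, map_mul]
      have h4 := DFunLike.congr_fun hx' (⟨v, hv⟩⁻¹)
      rw [cact_apply] at h4
      rw [h4, ← map_mul, mul_inv_cancel, map_one]
    · intro v hv
      have hvM := τ.le (j + 1) hv
      exact ⟨⟨v, hvM⟩, hc' _ hv, rfl⟩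
  ext v
  obtain ⟨v', hv', he⟩ := hker v.2
  have : v' = v := Subtype.ext he
  rw [← this]
  exact hv'

/-- Dedekind -/
theorem inf_sup_modular (H M M' : Subgroup G) [M'.Normal] (h : M' ≤ M) :
    (H ⊔ M') ⊓ M = (H ⊓ M) ⊔ M' := by
  apply le_antisymm
  · intro x hx
    obtain ⟨hx1, hx2⟩ := Subgroup.mem_inf.1 hx
    have hx3 : x ∈ ((H ⊔ M' : Subgroup G) : Set G) := hx1
    rw [Subgroup.mul_normal] at hx3
    obtain ⟨a, ha, b, hb, rfl⟩ := hx3
    have h1 : a ∈ M := by
      have := mul_mem hx2 (inv_mem (h hb))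
      simpa using this
    exact Subgroup.mul_mem_sup (Subgroup.mem_inf.2 ⟨ha, h1⟩) hb
  · refine sup_le (le_inf (inf_le_left.trans le_sup_left) inf_le_right) (le_inf le_sup_right h)

instance lam_inhabited (M S : Subgroup G) (A : Type*) [CommGroup A] : Nonempty (Lam M S A) :=
  ⟨⟨1, fun _ _ => rfl⟩⟩

/-- the trivial element of `Lam` -/
def lam1 (M S : Subgroup G) (A : Type*) [CommGroup A] : Lam M S A := ⟨1, fun _ _ => rfl⟩

theorem lam_ne (M S : Subgroup G) {A : Type*} [CommGroup A] {d : Lam M S A}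
    (hd : d ≠ lam1 M S A) : d.1 ≠ 1 := fun h => hd (Subtype.ext h)

theorem lam_triv (τ : Tower p G n) (H : Subgroup G) (j : ℕ) {A : Type*} [CommGroup A]
    (d : Lam (τ.M j) (H ⊔ τ.M' j) A) : ∀ x : τ.M j, (x : G) ∈ τ.M' j → d.1 x = 1 :=
  fun x hx => d.2 x (Subgroup.mem_sup_right hx)

theorem relIndex_of_useful (τ : Tower p G n) (H : Subgroup G) (j : ℕ) (hu : Useful τ H j) :
    2 ≤ ((H ⊔ τ.M' j).subgroupOf (τ.M j)).index := by
  have h1 : ((H ⊔ τ.M' j).subgroupOf (τ.M j)).index ≠ 0 := Subgroup.index_ne_zero_of_finite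
  have h2 : ((H ⊔ τ.M' j).subgroupOf (τ.M j)).index ≠ 1 := by
    intro h
    rw [Subgroup.index_eq_one, Subgroup.subgroupOf_eq_top] at h
    haveI := τ.nM' j
    apply hu
    rw [← inf_sup_modular H (τ.M j) (τ.M' j) (τ.le j)]
    exact inf_eq_right.2 h
  omega

theorem sub_le (τ : Tower p G n) (H : Subgroup G) (j : ℕ) :
    (τ.M' j).subgroupOf (τ.M j) ≤ (H ⊔ τ.M' j).subgroupOf (τ.M j) :=
  Subgroup.comap_mono le_sup_right

theorem finite_lamT (τ : Tower p G n) (H : Subgroup G) {j : ℕ} (hj : j ≤ n) (hodd : Odd j) :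
    Finite (Lam (τ.M j) (H ⊔ τ.M' j) (kk p)ˣ) := by
  haveI : Finite (τ.M j →* (kk p)ˣ) := finite_chars
  unfold Lam
  infer_instance

theorem finite_lamY (τ : Tower p G n) (H : Subgroup G) {j : ℕ} :
    Finite (Lam (τ.M j) (H ⊔ τ.M' j) (Multiplicative (ZMod p))) := by
  haveI : Finite (Multiplicative (ZMod p)) := by
    haveI : NeZero p := ⟨(Fact.out : p.Prime).ne_zero⟩
    infer_instance
  haveI : Finite (τ.M j →* Multiplicative (ZMod p)) :=
    Finite.of_injective (fun f => (f : τ.M j → Multiplicative (ZMod p))) DFunLike.coe_injective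
  unfold Lam
  infer_instance

theorem card_lamT (τ : Tower p G n) (H : Subgroup G) {j : ℕ} (hj : j ≤ n) (hodd : Odd j) :
    Nat.card (Lam (τ.M j) (H ⊔ τ.M' j) (kk p)ˣ) = ((H ⊔ τ.M' j).subgroupOf (τ.M j)).index :=
  dualT τ hj hodd _ (sub_le τ H j)

theorem card_lamY (τ : Tower p G n) (H : Subgroup G) {j : ℕ} (hj : j ≤ n) (hev : Even j) :
    Nat.card (Lam (τ.M j) (H ⊔ τ.M' j) (Multiplicative (ZMod p))) =
      ((H ⊔ τ.M' j).subgroupOf (τ.M j)).index :=
  dualY τ hj hev _ (sub_le τ H j)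

/-- The nontrivial elements of `Lam` form a set invariant under `H`; if layer `k` is useful and
the window below it is useless, this set is large. -/
theorem lam_huge (τ : Tower p G n) (H : Subgroup G) {k l c0 : ℕ} (hk : k ≤ n) (hl : l ≤ k)
    (huse : ∀ j, k - l ≤ j → j < k → ¬ Useful τ H j) {A : Type*} [CommGroup A]
    [Finite (Lam (τ.M k) (H ⊔ τ.M' k) A)]
    (h2 : 2 ≤ Nat.card (Lam (τ.M k) (H ⊔ τ.M' k) A)) (hc0 : c0.factorial < 2 ^ l) :
    c0 < Nat.card (Lam (τ.M k) (H ⊔ τ.M' k) A) := by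
  haveI := τ.nM k
  haveI := τ.nM' k
  let D : Set (τ.M k →* A) :=
    {d | d ≠ 1 ∧ ∀ x : τ.M k, (x : G) ∈ H ⊔ τ.M' k → d x = 1}
  have hDsub : D ⊆ Set.range (fun d : Lam (τ.M k) (H ⊔ τ.M' k) A => d.1) := by
    rintro d ⟨_, hd⟩
    exact ⟨⟨d, hd⟩, rfl⟩
  have hfin : D.Finite := (Set.finite_range _).subset hDsub
  have hcard : D.ncard < Nat.card (Lam (τ.M k) (H ⊔ τ.M' k) A) := by
    have h3 : (Set.range (fun d : Lam (τ.M k) (H ⊔ τ.M' k) A => d.1)).ncard =
        Nat.card (Lam (τ.M k) (H ⊔ τ.M' k) A) := by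
      have hinj : Function.Injective (fun d : Lam (τ.M k) (H ⊔ τ.M' k) A => d.1) :=
        fun a b h => Subtype.ext h
      rw [← Set.image_univ, Set.ncard_image_of_injective _ hinj, Set.ncard_univ]
    rw [← h3]
    apply Set.ncard_lt_ncard _ (Set.finite_range _)
    refine ⟨hDsub, fun hcon => ?_⟩
    exact (hcon ⟨lam1 _ _ _, rfl⟩).1 rfl
  have hne : D.Nonempty := by
    by_contra hemp
    rw [Set.not_nonempty_iff_eq_empty] at hemp
    have : Subsingleton (Lam (τ.M k) (H ⊔ τ.M' k) A) := by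
      constructor
      intro a b
      have ha : a.1 = 1 := by
        by_contra hne
        have : a.1 ∈ D := ⟨hne, a.2⟩
        rw [hemp] at this
        exact this
      have hb : b.1 = 1 := by
        by_contra hne
        have : b.1 ∈ D := ⟨hne, b.2⟩
        rw [hemp] at this
        exact this
      exact Subtype.ext (ha.trans hb.symm)
    have := Finite.card_le_one_iff_subsingleton.2 this
    omega
  have h4 := huge τ H hk hl (fun j h1 h2 => not_not.1 (huse j h1 h2)) D hfin hne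
    (fun d hd => ⟨hd.1, fun x hx => hd.2 x (Subgroup.mem_sup_right hx)⟩) ?_
  · by_contra hcon
    push Not at hcon
    have h5 : D.ncard.factorial ≤ c0.factorial := Nat.factorial_le (by omega)
    omega
  · intro h hh d hd
    refine ⟨fun h1 => hd.1 ?_, fun x hx => ?_⟩
    · have : d = cact (τ.M k) h⁻¹ (cact (τ.M k) h d) := by
        rw [cact_cact, mul_inv_cancel, cact_one]
      rw [this, h1]
      ext v
      rfl
    · rw [cact_apply]
      apply hd.2
      have : ((MulAut.conjNormal h x : τ.M k) : G) = h * x * h⁻¹ := rfl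
      rw [this]
      exact mul_mem (mul_mem (Subgroup.mem_sup_left hh) hx) (inv_mem (Subgroup.mem_sup_left hh))

end Towers

end Pool.Agent.PLen
end

section

set_option autoImplicit false
set_option linter.unusedSectionVars false
set_option linter.unusedVariables false
set_option linter.style.haveILetI false

/-! Contraction along useful layers. -/

namespace Pool.Agent.PLen

open scoped BigOperators

/-- The conclusion of `dkill` with constant `δ`. -/
def DKP (p : ℕ) [Fact p.Prime] {N : ℕ} (L : List (Fin N × Bool)) (i0 : Fin N) (δ : ℝ) : Prop :=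
  ∀ C : ℕ, ∀ ε > (0 : ℝ), ∃ h S : ℕ,
      ∀ (G : Type) [Group G] [Finite G] (n : ℕ) (τ : Tower p G n) (P : Sylow p G) (j : ℕ),
        h ≤ j → j + 1 ≤ n → Odd j →
        ∀ b : τ.M (j + 1) →* Multiplicative (ZMod p), b ≠ 1 →
        (∀ x : τ.M (j + 1), (x : G) ∈ τ.M' (j + 1) → b x = 1) →
        haveI := τ.nM (j + 1)
        (C = 1 ∨ ¬ (τ.M' j ≤ stab (τ.M (j + 1)) b) ∨ S ≤ (supp τ j b).ncard) →
        pr (fun s : Smp (P : Subgroup G) N =>
          ¬ ∀ K : Subgroup G, τ.M' j ≤ K → K ≤ τ.M j → K.relIndex (τ.M j) ≤ C →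
            ∀ n1 ∈ τ.M j,
              pr (fun m : K => Dk (τ.M (j + 1)) b i0 s.1 L (n1 * (m : G) * s.2) = 1) ≤ 1 - δ)
          ≤ ε

/-- The consequence for events invariant under the layer. -/
def DK1 (p : ℕ) [Fact p.Prime] {N : ℕ} (L : List (Fin N × Bool)) (i0 : Fin N) (δ ε : ℝ) (h : ℕ) :
    Prop :=
  ∀ (G : Type) [Group G] [Finite G] (n : ℕ) (τ : Tower p G n) (P : Sylow p G) (j : ℕ),
    h ≤ j → j + 1 ≤ n → Odd j →
    ∀ b : τ.M (j + 1) →* Multiplicative (ZMod p), b ≠ 1 →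
    (∀ x : τ.M (j + 1), (x : G) ∈ τ.M' (j + 1) → b x = 1) →
    ∀ E : Smp (P : Subgroup G) N → Prop, (∀ s, ∀ m ∈ τ.M j, E (s.1, m * s.2) ↔ E s) →
    haveI := τ.nM (j + 1)
    pr (fun s : Smp (P : Subgroup G) N => E s ∧ Dk (τ.M (j + 1)) b i0 s.1 L s.2 = 1) ≤
      (1 - δ) * pr E + ε

variable {p : ℕ} [Fact p.Prime] {N : ℕ} {L : List (Fin N × Bool)} {i0 : Fin N}

theorem dk1 {δ : ℝ} (hδ1 : δ ≤ 1) (hD : DKP p L i0 δ) (ε : ℝ) (hε : 0 < ε) :
    ∃ h, DK1 p L i0 δ ε h := by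
  obtain ⟨h, S, hh⟩ := hD 1 ε hε
  refine ⟨h, ?_⟩
  intro G _ _ n τ P j hj hjn hodd b hb hb' E hE
  haveI := τ.nM (j + 1)
  have h1 := hh G n τ P j hj hjn hodd b hb hb' (Or.inl rfl)
  set B : Smp (P : Subgroup G) N → Prop := fun s =>
    ¬ ∀ K : Subgroup G, τ.M' j ≤ K → K ≤ τ.M j → K.relIndex (τ.M j) ≤ 1 →
            ∀ n1 ∈ τ.M j,
              pr (fun m : K => Dk (τ.M (j + 1)) b i0 s.1 L (n1 * (m : G) * s.2) = 1) ≤ 1 - δ
    with hB
  have h2 : pr (fun s : Smp (P : Subgroup G) N => E s ∧ Dk (τ.M (j + 1)) b i0 s.1 L s.2 = 1) ≤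
      av (fun s : Smp (P : Subgroup G) N => (1 - δ) * ind (E s) + ind (B s)) := by
    refine pr_fiber_le (β := τ.M j) (fun m => shiftL (m : G)) _ _ ?_
    intro s
    by_cases hEs : E s
    · rw [ind_of hEs]
      by_cases hBs : B s
      · rw [ind_of hBs]
        have h3 := pr_le_one (fun m : τ.M j => E ((shiftL (m : G)) s) ∧
          Dk (τ.M (j + 1)) b i0 ((shiftL (m : G)) s).1 L ((shiftL (m : G)) s).2 = 1)
        nlinarith
      · rw [ind_not hBs]
        have h4 : ∀ K : Subgroup G, τ.M' j ≤ K → K ≤ τ.M j → K.relIndex (τ.M j) ≤ 1 →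
            ∀ n1 ∈ τ.M j,
              pr (fun m : K => Dk (τ.M (j + 1)) b i0 s.1 L (n1 * (m : G) * s.2) = 1) ≤ 1 - δ := by
          by_contra hcon
          exact hBs hcon
        have h5 := h4 (τ.M j) (τ.le j) le_rfl (by rw [Subgroup.relIndex_self]) 1 (one_mem _)
        have h6 : pr (fun m : τ.M j => E ((shiftL (m : G)) s) ∧
          Dk (τ.M (j + 1)) b i0 ((shiftL (m : G)) s).1 L ((shiftL (m : G)) s).2 = 1) ≤
          pr (fun m : τ.M j => Dk (τ.M (j + 1)) b i0 s.1 L (1 * (m : G) * s.2) = 1) := by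
          apply pr_mono
          intro m hm
          rw [one_mul]
          exact hm.2
        linarith
    · rw [ind_not hEs]
      have h7 : pr (fun m : τ.M j => E ((shiftL (m : G)) s) ∧
          Dk (τ.M (j + 1)) b i0 ((shiftL (m : G)) s).1 L ((shiftL (m : G)) s).2 = 1) = 0 := by
        apply pr_false
        intro m hm
        exact hEs ((hE s m m.2).1 hm.1)
      have := ind_nonneg (B s)
      rw [h7]
      linarith
  rw [av_add, av_mul_left, ← pr_eq_av, ← pr_eq_av] at h2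
  linarith

section Contr

variable {G : Type} [Group G] [Finite G] {n : ℕ}

theorem Tower.anti (τ : Tower p G n) {j : ℕ} (hj : j < n) : τ.M (j + 1) ≤ τ.M j :=
  (τ.succ_le j hj).trans (τ.le j)

theorem two_le_cardY (τ : Tower p G n) (H : Subgroup G) {j : ℕ} (hj : j ≤ n) (hev : Even j)
    (hu : Useful τ H j) :
    2 ≤ Nat.card (Lam (τ.M j) (H ⊔ τ.M' j) (Multiplicative (ZMod p))) := by
  rw [card_lamY τ H hj hev]
  exact relIndex_of_useful τ H j hu

theorem two_le_cardT (τ : Tower p G n) (H : Subgroup G) {j : ℕ} (hj : j ≤ n) (hodd : Odd j)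
    (hu : Useful τ H j) :
    2 ≤ Nat.card (Lam (τ.M j) (H ⊔ τ.M' j) (kk p)ˣ) := by
  rw [card_lamT τ H hj hodd]
  exact relIndex_of_useful τ H j hu

/-- Contraction over a useful even layer. -/
theorem contr_Y {δ ε : ℝ} (hδ0 : 0 ≤ δ) (hδ1 : δ ≤ 1) (hε : 0 ≤ ε) {h : ℕ}
    (hDK : DK1 p L i0 δ ε h) (τ : Tower p G n) (P : Sylow p G) {j : ℕ} (hj : h ≤ j)
    (hjn : j + 1 ≤ n) (hodd : Odd j) (H : Subgroup G) (γ : G) (hu : Useful τ H (j + 1))
    (E : Smp (P : Subgroup G) N → Prop) (hE : ∀ s, ∀ m ∈ τ.M j, E (s.1, m * s.2) ↔ E s)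
    (hE' : ∀ s, ∀ u : (P : Subgroup G), (u : G) ∈ τ.M (j + 1) →
      (E (Function.update s.1 i0 (u * s.1 i0), s.2) ↔ E s)) :
    pr (fun s : Smp (P : Subgroup G) N => E s ∧ EvM (FreeGroup.mk L) H (τ.M' (j + 1)) γ s) ≤
      (1 - δ / 2) * pr E + ε := by
  haveI := τ.nM (j + 1)
  haveI := finite_lamY τ H (j := j + 1)
  have h1 := trans_Y τ L i0 P hjn (hodd.add_one) H γ E
    (fun s m hm => hE s m (τ.anti (by omega) hm)) hE'
  refine h1.trans ?_
  have h2 := avg_except (Λ := Lam (τ.M (j + 1)) (H ⊔ τ.M' (j + 1)) (Multiplicative (ZMod p)))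
    (lam1 _ _ _) (fun b => pr (fun s : Smp (P : Subgroup G) N =>
          E s ∧ EvM (FreeGroup.mk L) H (τ.M (j + 1)) γ s ∧
            om (FreeGroup.mk L) s ∈ stab (τ.M (j + 1)) b.1 ∧
            Dk (τ.M (j + 1)) b.1 i0 s.1 L s.2 = 1)) (pr E) ((1 - δ) * pr E + ε) 2 (by norm_num)
    (by exact_mod_cast two_le_cardY τ H hjn hodd.add_one hu) (pr_mono fun s hs => hs.1) ?_
  · refine h2.trans ?_
    have h3 := pr_nonneg E
    have h4 : max (pr E - ((1 - δ) * pr E + ε)) 0 ≤ δ * pr E := by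
      apply max_le
      · nlinarith
      · positivity
    nlinarith
  · intro b hb
    refine le_trans (pr_mono fun s hs => ?_) (hDK G n τ P j hj hjn hodd b.1 (lam_ne _ _ hb)
      (lam_triv τ H (j + 1) b) E hE)
    exact ⟨hs.1, hs.2.2.2⟩

/-- word values change only modulo `M` under `x i0 ↦ u x i0`, `u ∈ M` -/
theorem ev_update {M : Subgroup G} [M.Normal] {P : Subgroup G} (x : Fin N → P) (u : P)
    (hu : (u : G) ∈ M) (w : FreeGroup (Fin N)) :
    ev (Function.update x i0 (u * x i0)) w * (ev x w)⁻¹ ∈ M := by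
  have h1 : ((QuotientGroup.mk' M).comp
      (FreeGroup.lift (fun i => ((Function.update x i0 (u * x i0)) i : G)))) =
      (QuotientGroup.mk' M).comp (FreeGroup.lift (fun i => (x i : G))) := by
    ext i
    simp only [MonoidHom.comp_apply, FreeGroup.lift_apply_of]
    by_cases hi : i = i0
    · subst hi
      rw [Function.update_self]
      rw [Subgroup.coe_mul, map_mul]
      have : (QuotientGroup.mk' M) (u : G) = 1 := (QuotientGroup.eq_one_iff _).2 hu
      rw [this, one_mul]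
    · rw [Function.update_of_ne hi]
  have h2 := DFunLike.congr_fun h1 w
  simp only [MonoidHom.comp_apply] at h2
  rw [← QuotientGroup.eq_one_iff]
  change (QuotientGroup.mk' M) _ = 1
  rw [map_mul, map_inv]
  unfold ev
  rw [h2, mul_inv_cancel]

theorem evM_shift {P : Subgroup G} (w : FreeGroup (Fin N)) (H M : Subgroup G) [M.Normal] (γ : G)
    (s : Smp P N) (m : G) (hm : m ∈ M) : EvM w H M γ (s.1, m * s.2) ↔ EvM w H M γ s := by
  unfold EvM om
  have h1 : γ * (m * s.2 * ev s.1 w * (m * s.2)⁻¹) =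
      (γ * (s.2 * ev s.1 w * s.2⁻¹)) *
        (((s.2 * ev s.1 w * s.2⁻¹)⁻¹ * m * (s.2 * ev s.1 w * s.2⁻¹)) * m⁻¹) := by
    group
  have h2 : ((s.2 * ev s.1 w * s.2⁻¹)⁻¹ * m * (s.2 * ev s.1 w * s.2⁻¹)) * m⁻¹ ∈ H ⊔ M := by
    apply Subgroup.mem_sup_right
    refine mul_mem ?_ (inv_mem hm)
    have := ‹M.Normal›.conj_mem m hm (s.2 * ev s.1 w * s.2⁻¹)⁻¹
    rwa [inv_inv] at this
  change γ * (m * s.2 * ev s.1 w * (m * s.2)⁻¹) ∈ H ⊔ M ↔ γ * (s.2 * ev s.1 w * s.2⁻¹) ∈ H ⊔ M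
  rw [h1]
  exact Subgroup.mul_mem_cancel_right _ h2

theorem evM_update {P : Subgroup G} (w : FreeGroup (Fin N)) (H M : Subgroup G) [M.Normal] (γ : G)
    (s : Smp P N) (u : P) (hu : (u : G) ∈ M) :
    EvM w H M γ (Function.update s.1 i0 (u * s.1 i0), s.2) ↔ EvM w H M γ s := by
  unfold EvM om
  have h0 := ev_update (i0 := i0) s.1 u hu w
  have h1 : γ * (s.2 * ev (Function.update s.1 i0 (u * s.1 i0)) w * s.2⁻¹) =
      (γ * (s.2 * ev s.1 w * s.2⁻¹)) * (((s.2 * (ev s.1 w)⁻¹) *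
        (ev (Function.update s.1 i0 (u * s.1 i0)) w * (ev s.1 w)⁻¹) * (s.2 * (ev s.1 w)⁻¹)⁻¹)) := by
    group
  have h2 : (s.2 * (ev s.1 w)⁻¹) *
        (ev (Function.update s.1 i0 (u * s.1 i0)) w * (ev s.1 w)⁻¹) * (s.2 * (ev s.1 w)⁻¹)⁻¹ ∈
        H ⊔ M := Subgroup.mem_sup_right (‹M.Normal›.conj_mem _ h0 _)
  change γ * (s.2 * ev (Function.update s.1 i0 (u * s.1 i0)) w * s.2⁻¹) ∈ H ⊔ M ↔
    γ * (s.2 * ev s.1 w * s.2⁻¹) ∈ H ⊔ M
  rw [h1]
  exact Subgroup.mul_mem_cancel_right _ h2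

theorem evM_mono {P : Subgroup G} (w : FreeGroup (Fin N)) (H : Subgroup G) {M M' : Subgroup G}
    (h : M ≤ M') (γ : G) (s : Smp P N) (hs : EvM w H M γ s) : EvM w H M' γ s :=
  sup_le_sup_left h H hs

/-- membership of `om` in the stabiliser of a character of layer `j` -/
theorem evM_of_stab {P : Subgroup G} (w : FreeGroup (Fin N)) (H M : Subgroup G)
    (s : Smp P N) (hs : om w s ∈ H) : EvM w H M 1 s := by
  unfold EvM
  rw [one_mul]
  exact Subgroup.mem_sup_left hs

/-- Contraction over a useful odd layer. -/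
theorem contr_T {δ ε : ℝ} (hδ0 : 0 ≤ δ) (hδ1 : δ ≤ 1) (hε : 0 ≤ ε) {h : ℕ}
    (hDK : DK1 p L i0 δ ε h) (τ : Tower p G n) (P : Sylow p G) {j : ℕ} (hj : h ≤ j)
    (hjn : j + 2 ≤ n) (hodd : Odd j) (H : Subgroup G) (γ : G) (hu : Useful τ H (j + 2)) :
    pr (fun s : Smp (P : Subgroup G) N => EvM (FreeGroup.mk L) H (τ.M' (j + 2)) γ s) ≤
      (1 - δ / 4) * pr (fun s : Smp (P : Subgroup G) N => EvM (FreeGroup.mk L) H (τ.M j) γ s)
        + ε := by
  haveI := τ.nM (j + 2)
  haveI := τ.nM (j + 1)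
  haveI := τ.nM j
  have hodd2 : Odd (j + 2) := by
    rcases hodd with ⟨a, ha⟩
    exact ⟨a + 1, by omega⟩
  haveI := finite_lamT τ H hjn hodd2
  set E : Smp (P : Subgroup G) N → Prop := fun s => EvM (FreeGroup.mk L) H (τ.M j) γ s with hE
  have h1 := trans_T τ (FreeGroup.mk L) P hjn hodd2 H γ (fun _ => True) (fun _ _ _ => Iff.rfl)
  have h0 : pr (fun s : Smp (P : Subgroup G) N => EvM (FreeGroup.mk L) H (τ.M' (j + 2)) γ s) ≤
      pr (fun s : Smp (P : Subgroup G) N => True ∧ EvM (FreeGroup.mk L) H (τ.M' (j + 2)) γ s) :=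
    pr_mono fun s hs => ⟨trivial, hs⟩
  refine (h0.trans h1).trans ?_
  have hM : τ.M (j + 2) ≤ τ.M j := (τ.anti (by omega)).trans (τ.anti (by omega))
  have h2 := avg_except (Λ := Lam (τ.M (j + 2)) (H ⊔ τ.M' (j + 2)) (kk p)ˣ)
    (lam1 _ _ _) (fun d => pr (fun s : Smp (P : Subgroup G) N =>
          True ∧ EvM (FreeGroup.mk L) H (τ.M (j + 2)) γ s ∧
            om (FreeGroup.mk L) s ∈ stab (τ.M (j + 2)) d.1)) (pr E) ((1 - δ / 2) * pr E + ε) 2
    (by norm_num) (by exact_mod_cast two_le_cardT τ H hjn hodd2 hu)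
    (pr_mono fun s hs => evM_mono _ _ hM _ _ hs.2.1) ?_
  · refine h2.trans ?_
    have h3 := pr_nonneg E
    have h4 : max (pr E - ((1 - δ / 2) * pr E + ε)) 0 ≤ δ / 2 * pr E := by
      apply max_le
      · nlinarith
      · positivity
    nlinarith
  · intro d hd
    have hu' := useful_stab τ (j := j + 1) (by omega) d.1 (lam_ne _ _ hd)
      (lam_triv τ H (j + 2) d)
    have h5 := contr_Y hδ0 hδ1 hε hDK τ P hj (by omega) hodd (stab (τ.M (j + 2)) d.1) 1 hu' E
      (fun s m hm => evM_shift _ _ _ _ _ _ hm)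
      (fun s u hu => evM_update _ _ _ _ _ _ (τ.anti (by omega) hu))
    refine le_trans (pr_mono fun s hs => ?_) h5
    exact ⟨evM_mono _ _ hM _ _ hs.2.1, evM_of_stab _ _ _ _ hs.2.2⟩

end Contr

end Pool.Agent.PLen
end
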