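import Pool.Agent.Lib.MP_30fd2d_al.PL

section

set_option autoImplicit false

/-! T2. The step from a critical quotient to the next one. -/

namespace Pool.Agent.PLen

/-- `L / C` is critical (`p`-length greater than `n`, proper subgroups containing `C` have
`p`-length at most `n` modulo `C`), with residual `R`, a `p`-group modulo `C`. -/
structure Crit {L : Type} [Group L] (p n : ℕ) (C R : Subgroup L) : Prop where
  nC : C.Normal
  nR : R.Normal
  le : C ≤ R
  not : ¬ PL p n C
  sub : ∀ H : Subgroup L, H ≠ ⊤ → C ≤ H → PL p n (C.subgroupOf H)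
  pl : PL p n R
  res : ∀ N : Subgroup L, C ≤ N → PL p n N → R ≤ N
  pgr : ∃ k, C.relIndex R = p ^ k

section CSBasic

variable {G : Type} [Group G]

/-- A subgroup containing two coprime powers of an element contains the element. -/
theorem CritStep_mem_of_coprime (K : Subgroup G) {x : G} {a b : ℕ} (h : a.Coprime b)
    (ha : x ^ a ∈ K) (hb : x ^ b ∈ K) : x ∈ K := by
  have h1 : ((1 : ℕ) : ℤ) = a * a.gcdA b + b * a.gcdB b := by
    rw [← Nat.gcd_eq_gcd_ab, h]
  have h2 : x = (x ^ a) ^ (a.gcdA b) * (x ^ b) ^ (a.gcdB b) := by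
    calc x = x ^ (((1 : ℕ) : ℤ)) := by simp
      _ = _ := by rw [h1, zpow_add, zpow_mul, zpow_mul]; simp
  rw [h2]
  exact K.mul_mem (K.zpow_mem ha _) (K.zpow_mem hb _)

/-- Decomposition of an element into two coprime powers. -/
theorem CritStep_split (x : G) {a b : ℕ} (h : a.Coprime b) :
    ∃ u v : ℤ, x = (x ^ a) ^ u * (x ^ b) ^ v := by
  have h1 : ((1 : ℕ) : ℤ) = a * a.gcdA b + b * a.gcdB b := by
    rw [← Nat.gcd_eq_gcd_ab, h]
  refine ⟨a.gcdA b, a.gcdB b, ?_⟩
  calc x = x ^ (((1 : ℕ) : ℤ)) := by simp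
    _ = _ := by rw [h1, zpow_add, zpow_mul, zpow_mul]; simp

/-- Powers with exponent the relative index. -/
theorem CritStep_pow_relIndex (K H : Subgroup G) (hn : (K.subgroupOf H).Normal)
    {x : G} (hx : x ∈ H) : x ^ (K.relIndex H) ∈ K := by
  have := (K.subgroupOf H).pow_index_mem ⟨x, hx⟩
  exact this

open scoped IsMulCommutative in
/-- The power map is multiplicative modulo a central subgroup of finite index. -/
theorem CritStep_pow_mul [Finite G] (Z : Subgroup G) (hZ : Z ≤ Subgroup.center G) (x y : G) :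
    (x * y) ^ Z.index = x ^ Z.index * y ^ Z.index := by
  let φ : Z →* Subgroup.center G := Subgroup.inclusion hZ
  have key : ∀ (g : G) (k : ℕ) (g₀ : G), g₀⁻¹ * g ^ k * g₀ ∈ Z → g₀⁻¹ * g ^ k * g₀ = g ^ k := by
    intro g k g₀ hk
    have h1 := Subgroup.mem_center_iff.mp (hZ hk) g₀
    have h2 : g ^ k * g₀ = g₀⁻¹ * g ^ k * g₀ * g₀ := by
      rw [← h1]; group
    exact (mul_right_cancel h2).symm
  have h := map_mul (MonoidHom.transfer φ) x y
  rw [MonoidHom.transfer_eq_pow φ (x * y) (key _), MonoidHom.transfer_eq_pow φ x (key _),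
    MonoidHom.transfer_eq_pow φ y (key _)] at h
  have := congrArg (fun z : Subgroup.center G => (z : G)) h
  simpa [φ] using this

end CSBasic

section CSSplit

variable {L : Type} [Group L] [Finite L]

/-- A central section `U / W` of `B / W` of coprime index has a normal complement. -/
theorem CritStep_complement (W U B : Subgroup L) (hW : W.Normal) (hU : U.Normal) (hB : B.Normal)
    (hWU : W ≤ U) (hUB : U ≤ B) (hc : ∀ x ∈ U, ∀ y ∈ B, x * y * x⁻¹ * y⁻¹ ∈ W)
    (hcop : (W.relIndex U).Coprime (U.relIndex B)) :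
    ∃ K : Subgroup L, K.Normal ∧ W ≤ K ∧ K ≤ B ∧ K.relIndex B ∣ W.relIndex U ∧
      W.relIndex K ∣ U.relIndex B := by
  classical
  set m := U.relIndex B with hm
  let π := QuotientGroup.mk' W
  have hπk : π.ker = W := QuotientGroup.ker_mk' W
  have hπ : ∀ x : L, π x = 1 ↔ x ∈ W := fun x => QuotientGroup.eq_one_iff x
  -- the power map is multiplicative
  have hmul : ∀ x ∈ B, ∀ y ∈ B, π ((x * y) ^ m) = π (x ^ m) * π (y ^ m) := by
    intro x hx y hy
    let Q := B.map π
    let Z := (U.map π).subgroupOf Q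
    have hZ : Z ≤ Subgroup.center Q := by
      rintro ⟨z, hz⟩ hzZ
      rw [Subgroup.mem_subgroupOf] at hzZ
      obtain ⟨u, hu, rfl⟩ := hzZ
      rw [Subgroup.mem_center_iff]
      rintro ⟨g, b, hb, rfl⟩
      apply Subtype.ext
      change π b * π u = π u * π b
      have h1 : π (u * b * u⁻¹ * b⁻¹) = 1 := (hπ _).2 (hc u hu b hb)
      rw [map_mul, map_mul, map_mul, map_inv, map_inv] at h1
      rw [mul_inv_eq_one, mul_inv_eq_iff_eq_mul] at h1
      exact h1.symm
    have hZi : Z.index = m := by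
      change (U.map π).relIndex (B.map π) = m
      rw [Subgroup.relIndex_map_map, hπk, sup_eq_left.mpr hWU, sup_eq_left.mpr (hWU.trans hUB)]
    have h2 := CritStep_pow_mul Z hZ ⟨π x, Subgroup.mem_map_of_mem _ hx⟩
      ⟨π y, Subgroup.mem_map_of_mem _ hy⟩
    have h3 := congrArg (fun z : Q => (z : L ⧸ W)) h2
    rw [hZi] at h3
    simpa using h3
  have hpowU : ∀ x ∈ B, x ^ m ∈ U := fun x hx =>
    CritStep_pow_relIndex U B inferInstance hx
  let f : B →* (L ⧸ W) := MonoidHom.mk' (fun x => π ((x : L) ^ m)) (by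
    intro x y
    exact hmul x x.2 y y.2)
  let K : Subgroup L := f.ker.map B.subtype
  have hKmem : ∀ x, x ∈ K ↔ x ∈ B ∧ x ^ m ∈ W := by
    intro x
    constructor
    · rintro ⟨y, hy, rfl⟩
      exact ⟨y.2, (hπ _).1 hy⟩
    · rintro ⟨hx, hx2⟩
      exact ⟨⟨x, hx⟩, (hπ _).2 hx2, rfl⟩
  have hKB : K ≤ B := fun x hx => ((hKmem x).1 hx).1
  have hWK : W ≤ K := fun x hx => (hKmem x).2 ⟨hUB (hWU hx), W.pow_mem hx _⟩
  have hKn : K.Normal := by
    constructor
    intro x hx g
    rw [hKmem] at hx ⊢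
    refine ⟨hB.conj_mem x hx.1 g, ?_⟩
    rw [conj_pow]
    exact hW.conj_mem _ hx.2 g
  refine ⟨K, hKn, hWK, hKB, ?_, ?_⟩
  · have h1 : K.relIndex B = Nat.card f.range := by
      rw [← Subgroup.index_ker]
      change (K.subgroupOf B).index = _
      congr 1
      exact Subgroup.comap_map_eq_self_of_injective B.subtype_injective _
    rw [h1]
    have h2 : f.range ≤ U.map π := by
      rintro _ ⟨x, rfl⟩
      exact Subgroup.mem_map_of_mem _ (hpowU x x.2)
    have h3 : Nat.card (U.map π) = W.relIndex U := by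
      rw [← Subgroup.relIndex_ker, hπk]
    rw [← h3]
    exact Subgroup.card_dvd_of_le h2
  · have h1 : K ⊓ U ≤ W := by
      intro x hx
      have h2 := ((hKmem x).1 hx.1).2
      have h3 : x ^ (W.relIndex U) ∈ W := CritStep_pow_relIndex W U inferInstance hx.2
      exact CritStep_mem_of_coprime W hcop h3 h2
    have h4 : W ⊓ K = U ⊓ K := by
      apply le_antisymm
      · exact inf_le_inf_right _ hWU
      · exact le_inf (by rw [inf_comm]; exact h1) inf_le_right
    have h5 : W.relIndex K = U.relIndex K := by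
      rw [← Subgroup.inf_relIndex_right, h4, Subgroup.inf_relIndex_right]
    rw [h5, hm]
    have h6 : (U.subgroupOf B).relIndex (K.subgroupOf B) ∣ (U.subgroupOf B).index :=
      Subgroup.relIndex_dvd_index_of_normal _ _
    rwa [Subgroup.relIndex_subgroupOf hKB] at h6

end CSSplit

section CSCore

variable {G : Type} [Group G] [Finite G]

/-- `S` is a complement of `V` in `B`. -/
structure CritStepCompl (V B S : Subgroup G) : Prop where
  le : S ≤ B
  sup : B ≤ S ⊔ V
  inf : ∀ x ∈ S, x ∈ V → x = 1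

omit [Finite G] in
theorem CritStepCompl.card {V B S : Subgroup G} (hVB : V ≤ B) [V.Normal]
    (h : CritStepCompl V B S) : Nat.card S = V.relIndex B := by
  have h1 : B = S ⊔ V := le_antisymm h.sup (sup_le h.le hVB)
  rw [h1, Subgroup.relIndex_sup_right, ← Subgroup.inf_relIndex_right]
  have h2 : V ⊓ S = ⊥ := by
    rw [eq_bot_iff]
    intro x hx
    exact Subgroup.mem_bot.mpr (h.inf x hx.2 hx.1)
  rw [h2, Subgroup.relIndex_bot_left]

theorem CritStepCompl.relIndex {V B S : Subgroup G} (hVB : V ≤ B) [V.Normal]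
    (h : CritStepCompl V B S) : S.relIndex B = Nat.card V := by
  have h1 := h.card hVB
  have h2 : S.relIndex B * Nat.card S = Nat.card B := by
    have := (S.subgroupOf B).index_mul_card
    rwa [Nat.card_congr (Subgroup.subgroupOfEquivOfLe h.le).toEquiv] at this
  have h3 : V.relIndex B * Nat.card V = Nat.card B := by
    have := (V.subgroupOf B).index_mul_card
    rwa [Nat.card_congr (Subgroup.subgroupOfEquivOfLe hVB).toEquiv] at this
  have h4 : V.relIndex B ≠ 0 := by
    rw [← h1]; exact Nat.card_pos.ne'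
  rw [h1] at h2
  have h5 : V.relIndex B * S.relIndex B = V.relIndex B * Nat.card V := by
    rw [mul_comm, h2, h3]
  exact Nat.eq_of_mul_eq_mul_left (Nat.pos_of_ne_zero h4) h5

/-- Two complements are conjugate. -/
theorem CritStepCompl.conj {p : ℕ} (hp : p.Prime) {V B S S' : Subgroup G} (hVB : V ≤ B)
    [V.Normal] (hV : (Nat.card V).Coprime p) (hB : ∃ k, V.relIndex B = p ^ k)
    (h : CritStepCompl V B S) (h' : CritStepCompl V B S') :
    ∃ g : G, ∀ x, x ∈ S → g * x * g⁻¹ ∈ S' := by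
  have : Fact p.Prime := ⟨hp⟩
  obtain ⟨k, hk⟩ := hB
  have key : ∀ T : Subgroup G, CritStepCompl V B T →
      IsPGroup p (T.subgroupOf B) ∧ ¬ p ∣ (T.subgroupOf B).index := by
    intro T hT
    constructor
    · apply IsPGroup.of_card (n := k)
      rw [Nat.card_congr (Subgroup.subgroupOfEquivOfLe hT.le).toEquiv, hT.card hVB, hk]
    · intro hd
      have h1 : (T.subgroupOf B).index = Nat.card V := hT.relIndex hVB
      rw [h1] at hd
      exact hp.one_lt.ne' (Nat.eq_one_of_dvd_coprimes hV hd dvd_rfl)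
  let P : Sylow p B := (key S h).1.toSylow (key S h).2
  let P' : Sylow p B := (key S' h').1.toSylow (key S' h').2
  obtain ⟨g, hg⟩ := MulAction.exists_smul_eq B P P'
  refine ⟨g, fun x hx => ?_⟩
  have hx1 : (⟨x, h.le hx⟩ : B) ∈ P := by
    change (⟨x, h.le hx⟩ : B) ∈ S.subgroupOf B
    exact hx
  have h2 : g * ⟨x, h.le hx⟩ * g⁻¹ ∈ P' := by
    rw [← hg]
    change _ ∈ ((g • P : Sylow p B) : Subgroup B)
    rw [Sylow.coe_subgroup_smul]
    exact Subgroup.smul_mem_pointwise_smul _ (MulAut.conj g) _ hx1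
  exact h2

/-- The structure of the group below a critical quotient. -/
theorem CritStep_core {p : ℕ} (hp : p.Prime) (V B : Subgroup G)
    (hVn : V.Normal) (hBn : B.Normal) (hVB : V ≤ B) (hV : (Nat.card V).Coprime p)
    (hB : ∃ k, V.relIndex B = p ^ k) (hV1 : V ≠ ⊥)
    (hmin : ∀ N : Subgroup G, N.Normal → N ≤ B → (N.relIndex B).Coprime p → B ≤ N)
    (hF : ∀ H : Subgroup G, H ≠ ⊤ → H ⊔ V = ⊤ → ∃ S : Subgroup G, CritStepCompl V B S ∧
      ∀ h ∈ H, ∀ s ∈ S, h * s * h⁻¹ ∈ S) :
    ⁅⁅V, V⁆, V⁆ = ⊥ ∧ ⁅V, B⁆ = V := by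
  classical
  have : Fact p.Prime := ⟨hp⟩
  obtain ⟨k, hk⟩ := hB
  -- a Sylow subgroup of `B`
  let P : Sylow p B := default
  let S : Subgroup G := (P : Subgroup B).map B.subtype
  have hSB : S ≤ B := Subgroup.map_subtype_le _
  have hSrel : S.relIndex B = (P : Subgroup B).index := by
    change (S.subgroupOf B).index = _
    congr 1
    exact Subgroup.comap_map_eq_self_of_injective B.subtype_injective _
  have hScop : (S.relIndex B).Coprime p := by
    rw [hSrel]
    exact ((hp.coprime_iff_not_dvd).2 P.not_dvd_index).symm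
  have hScard : ∃ j, Nat.card S = p ^ j := by
    obtain ⟨j, hj⟩ := IsPGroup.iff_card.mp P.2
    refine ⟨j, ?_⟩
    rw [← hj]
    exact (Nat.card_congr (Subgroup.equivMapOfInjective _ _ B.subtype_injective).toEquiv).symm
  have hSV : S ⊓ V = ⊥ := by
    obtain ⟨j, hj⟩ := hScard
    apply Disjoint.eq_bot
    apply Subgroup.disjoint_of_coprime_natCard
    rw [hj]
    exact (hV.symm).pow_left j
  have hS : CritStepCompl V B S := by
    refine ⟨hSB, ?_, fun x hx hx' => ?_⟩
    · have h1 : (S ⊔ V).relIndex B ∣ p ^ k := by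
        rw [← hk]
        exact Subgroup.relIndex_dvd_of_le_left B le_sup_right
      have h2 : (S ⊔ V).relIndex B ∣ S.relIndex B :=
        Subgroup.relIndex_dvd_of_le_left B le_sup_left
      have h3 : (S ⊔ V).relIndex B = 1 :=
        Nat.eq_one_of_dvd_coprimes (hScop.pow_right k) h2 h1
      exact Subgroup.relIndex_eq_one.mp h3
    · have : x ∈ S ⊓ V := ⟨hx, hx'⟩
      rw [hSV] at this
      exact Subgroup.mem_bot.mp this
  -- its normaliser is a supplement of `V`
  let NS : Subgroup G := Subgroup.normalizer (S : Set G)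
  have hNSV : NS ⊔ V = ⊤ := by
    have h1 : NS ⊔ B = ⊤ := P.normalizer_sup_eq_top
    rw [eq_top_iff, ← h1]
    refine sup_le le_sup_left (hS.sup.trans (sup_le_sup_right ?_ V))
    exact Subgroup.le_normalizer
  have hnormal : ∀ T : Subgroup G, NS ≤ Subgroup.normalizer (T : Set G) →
      V ≤ Subgroup.normalizer (T : Set G) → T.Normal := by
    intro T h1 h2
    apply Subgroup.normalizer_eq_top_iff.mp
    rw [eq_top_iff, ← hNSV]
    exact sup_le h1 h2
  have hNS : ∀ g ∈ NS, ∀ s ∈ S, g * s * g⁻¹ ∈ S := fun g hg s hs =>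
    (Subgroup.mem_normalizer_iff.mp hg s).mp hs
  have hbig : ∀ T : Subgroup G, T.Normal → T ≤ B → S ≤ T → B ≤ T := by
    intro T hT hTB hST
    exact hmin T hT hTB (Nat.Coprime.coprime_dvd_left
      (Subgroup.relIndex_dvd_of_le_left B hST) hScop)
  -- X ⊔ S normal implies V ≤ X
  have hX : ∀ X : Subgroup G, X.Normal → X ≤ V → (X ⊔ S).Normal → V ≤ X := by
    intro X hXn hXV hT
    have h1 := hbig (X ⊔ S) hT (sup_le (hXV.trans hVB) hSB) le_sup_right
    intro v hv
    have h2 : v ∈ X ⊔ S := h1 (hVB hv)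
    rw [← SetLike.mem_coe, Subgroup.normal_mul] at h2
    obtain ⟨x, hx, s, hs, rfl⟩ := h2
    have h3 : s ∈ V := (V.mul_mem_cancel_left (hXV hx)).mp hv
    have h4 := hS.inf s hs h3
    rw [h4]
    simpa using hx
  -- D = ⁅V, S⁆ = V
  have hD : ⁅V, S⁆ = V := by
    have hDV : ⁅V, S⁆ ≤ V := Subgroup.commutator_le_left V S
    have hDn : (⁅V, S⁆).Normal := by
      apply hnormal
      · rw [Subgroup.commutator_def]
        rw [Subgroup.le_normalizer_closure_iff]
        rintro g hg _ ⟨v, hv, s, hs, rfl⟩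
        apply Subgroup.subset_closure
        exact ⟨g * v * g⁻¹, hVn.conj_mem v hv g, g * s * g⁻¹, hNS g hg s hs,
          (conjugate_commutatorElement v s g).symm⟩
      · exact Subgroup.normalizer_commutator_ge_left V S
    apply le_antisymm hDV
    apply hX _ hDn hDV
    apply hnormal
    · rw [Subgroup.le_normalizer_iff]
      intro g hg x hx
      rw [← SetLike.mem_coe, Subgroup.normal_mul] at hx
      obtain ⟨d, hd, s, hs, rfl⟩ := hx
      have h1 : g * (d * s) * g⁻¹ = (g * d * g⁻¹) * (g * s * g⁻¹) := by group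
      change g * (d * s) * g⁻¹ ∈ _
      rw [h1]
      exact Subgroup.mul_mem_sup (hDn.conj_mem d hd g) (hNS g hg s hs)
    · rw [Subgroup.le_normalizer_iff]
      intro g hg x hx
      rw [← SetLike.mem_coe, Subgroup.normal_mul] at hx
      obtain ⟨d, hd, s, hs, rfl⟩ := hx
      have h1 : g * (d * s) * g⁻¹ = ((g * d * g⁻¹) * (g * s * g⁻¹ * s⁻¹)) * s := by
        group
      change g * (d * s) * g⁻¹ ∈ _
      rw [h1]
      have h2 : g * s * g⁻¹ * s⁻¹ ∈ ⁅V, S⁆ := by
        have := Subgroup.commutator_mem_commutator hg hs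
        rwa [commutatorElement_def] at this
      exact Subgroup.mul_mem_sup ((⁅V, S⁆).mul_mem (hDn.conj_mem d hd g) h2) hs
  -- proper normal subgroups are centralised by `S`
  have hE : ∀ X : Subgroup G, X.Normal → X ≤ V → X ≠ V → ∀ x ∈ X, ∀ s ∈ S,
      x * s * x⁻¹ * s⁻¹ = 1 := by
    intro X hXn hXV hXne
    by_cases hH : X ⊔ NS = ⊤
    · exfalso
      apply hXne
      apply le_antisymm hXV
      apply hX X hXn hXV
      apply Subgroup.normalizer_eq_top_iff.mp
      rw [eq_top_iff, ← hH]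
      apply sup_le
      · exact le_sup_left.trans Subgroup.le_normalizer
      · rw [Subgroup.le_normalizer_iff]
        intro g hg x hx
        rw [← SetLike.mem_coe, Subgroup.normal_mul] at hx
        obtain ⟨d, hd, s, hs, rfl⟩ := hx
        have h1 : g * (d * s) * g⁻¹ = (g * d * g⁻¹) * (g * s * g⁻¹) := by group
        change g * (d * s) * g⁻¹ ∈ _
        rw [h1]
        exact Subgroup.mul_mem_sup (hXn.conj_mem d hd g) (hNS g hg s hs)
    · obtain ⟨S', hS', hHS⟩ := hF (X ⊔ NS) hH (by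
        rw [eq_top_iff, ← hNSV]
        exact sup_le_sup_right le_sup_right V)
      obtain ⟨g, hg⟩ := CritStepCompl.conj hp hVB hV ⟨k, hk⟩ hS hS'
      intro x hx s hs
      have h1 : g * x * g⁻¹ ∈ X := hXn.conj_mem x hx g
      have h2 : g * s * g⁻¹ ∈ S' := hg s hs
      have h3 : (g * x * g⁻¹) * (g * s * g⁻¹) * (g * x * g⁻¹)⁻¹ * (g * s * g⁻¹)⁻¹ = 1 := by
        apply hS'.inf
        · exact S'.mul_mem (hHS _ (Subgroup.mem_sup_left h1) _ h2) (S'.inv_mem h2)
        · have h4 : (g * s * g⁻¹) * (g * x * g⁻¹)⁻¹ * (g * s * g⁻¹)⁻¹ ∈ V :=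
            hVn.conj_mem _ (V.inv_mem (hXV h1)) _
          have h5 := V.mul_mem (hXV h1) h4
          have h6 : (g * x * g⁻¹) * (g * s * g⁻¹) * (g * x * g⁻¹)⁻¹ * (g * s * g⁻¹)⁻¹ =
              (g * x * g⁻¹) * ((g * s * g⁻¹) * (g * x * g⁻¹)⁻¹ * (g * s * g⁻¹)⁻¹) := by group
          rw [h6]; exact h5
      have h7 : g * (x * s * x⁻¹ * s⁻¹) * g⁻¹ = 1 := by
        rw [← h3]; group
      have h8 : x * s * x⁻¹ * s⁻¹ = g⁻¹ * (g * (x * s * x⁻¹ * s⁻¹) * g⁻¹) * g := by group
      rw [h8, h7]; group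
  -- `V` is a `q`-group
  have hq : ∃ q : ℕ, q.Prime ∧ IsPGroup q V := by
    by_contra hno
    push Not at hno
    let CV : Subgroup G := V ⊓ Subgroup.centralizer (S : Set G)
    have hCVmem : ∀ x ∈ V, (∀ s ∈ S, x * s * x⁻¹ * s⁻¹ = 1) → x ∈ CV := by
      intro x hx h
      refine ⟨hx, Subgroup.mem_centralizer_iff.mpr fun s hs => ?_⟩
      have := h s hs
      rw [mul_inv_eq_one, mul_inv_eq_iff_eq_mul] at this
      exact this.symm
    have h1 : CV.relIndex V = 1 := by
      by_contra hne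
      obtain ⟨q, hqp, hqd⟩ := Nat.exists_prime_and_dvd hne
      have : Fact q.Prime := ⟨hqp⟩
      let Q0 : Sylow q V := default
      let Q : Subgroup G := (Q0 : Subgroup V).map V.subtype
      have hQV : Q ≤ V := Subgroup.map_subtype_le _
      have hQrel : Q.relIndex V = (Q0 : Subgroup V).index := by
        change (Q.subgroupOf V).index = _
        congr 1
        exact Subgroup.comap_map_eq_self_of_injective V.subtype_injective _
      have hQfr : Subgroup.normalizer (Q : Set G) ⊔ V = ⊤ := Q0.normalizer_sup_eq_top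
      -- some conjugate of Q is contained in CV
      have hconj : ∃ g : G, ∀ x ∈ Q, g * x * g⁻¹ ∈ CV := by
        by_cases hN : Subgroup.normalizer (Q : Set G) = ⊤
        · have hQn : Q.Normal := Subgroup.normalizer_eq_top_iff.mp hN
          refine ⟨1, fun x hx => ?_⟩
          have hQne : Q ≠ V := by
            intro hQe
            apply hno q hqp
            have : IsPGroup q Q := Q0.2.map V.subtype
            rw [hQe] at this
            exact this
          simpa using hCVmem x (hQV hx) (hE Q hQn hQV hQne x hx)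
        · obtain ⟨S', hS', hHS⟩ := hF _ hN hQfr
          obtain ⟨g, hg⟩ := CritStepCompl.conj hp hVB hV ⟨k, hk⟩ hS hS'
          refine ⟨g⁻¹, fun x hx => ?_⟩
          apply hCVmem
          · exact hVn.conj_mem x (hQV hx) g⁻¹
          · intro s hs
            have h2 : g * s * g⁻¹ ∈ S' := hg s hs
            have h3 : x * (g * s * g⁻¹) * x⁻¹ * (g * s * g⁻¹)⁻¹ = 1 := by
              apply hS'.inf
              · exact S'.mul_mem (hHS _ (Subgroup.le_normalizer hx) _ h2) (S'.inv_mem h2)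
              · have h4 : (g * s * g⁻¹) * x⁻¹ * (g * s * g⁻¹)⁻¹ ∈ V :=
                  hVn.conj_mem _ (V.inv_mem (hQV hx)) _
                have h5 := V.mul_mem (hQV hx) h4
                have h6 : x * (g * s * g⁻¹) * x⁻¹ * (g * s * g⁻¹)⁻¹ =
                    x * ((g * s * g⁻¹) * x⁻¹ * (g * s * g⁻¹)⁻¹) := by group
                rw [h6]; exact h5
            have h7 : g⁻¹ * x * g⁻¹⁻¹ * s * (g⁻¹ * x * g⁻¹⁻¹)⁻¹ * s⁻¹ =
                g⁻¹ * (x * (g * s * g⁻¹) * x⁻¹ * (g * s * g⁻¹)⁻¹) * g := by group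
            rw [h7, h3]; group
      obtain ⟨g, hg⟩ := hconj
      have h2 : Q.map (MulAut.conj g).toMonoidHom ≤ CV := by
        rintro _ ⟨x, hx, rfl⟩
        exact hg x hx
      have h3 : V.map (MulAut.conj g).toMonoidHom = V := Subgroup.Normal.map_conj_eq V g
      have h4 : (Q.map (MulAut.conj g).toMonoidHom).relIndex V = Q.relIndex V := by
        conv_lhs => rw [← h3]
        exact Subgroup.relIndex_map_map_of_injective Q V (MulAut.conj g).injective
      have h5 : CV.relIndex V ∣ Q.relIndex V := by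
        rw [← h4]
        exact Subgroup.relIndex_dvd_of_le_left V h2
      rw [hQrel] at h5
      exact Q0.not_dvd_index (hqd.trans h5)
    have h2 : V ≤ CV := Subgroup.relIndex_eq_one.mp h1
    have h3 : ⁅V, S⁆ = ⊥ := Subgroup.commutator_eq_bot_iff_le_centralizer.mpr
      (h2.trans inf_le_right)
    rw [hD] at h3
    exact hV1 h3
  obtain ⟨q, hqp, hqV⟩ := hq
  have hVV : ⁅V, V⁆ ≠ V := by
    intro hcon
    have : Fact q.Prime := ⟨hqp⟩
    have : Nontrivial V := (Subgroup.nontrivial_iff_ne_bot V).mpr hV1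
    have : Group.IsNilpotent V := hqV.isNilpotent
    have h1 : commutator V < ⊤ := Group.IsSolvable.commutator_lt_top_of_nontrivial V
    apply h1.ne
    have h2 : (commutator V).map V.subtype = (⊤ : Subgroup V).map V.subtype := by
      rw [Subgroup.map_subtype_commutator, hcon, ← MonoidHom.range_eq_map,
        Subgroup.range_subtype]
    exact Subgroup.map_injective V.subtype_injective h2
  have hVVn : (⁅V, V⁆).Normal := inferInstance
  have hVVS : ⁅⁅V, V⁆, S⁆ = ⊥ := by
    rw [eq_bot_iff, Subgroup.commutator_le]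
    intro x hx s hs
    rw [Subgroup.mem_bot, commutatorElement_def]
    exact hE _ hVVn (Subgroup.commutator_le_self V) hVV x hx s hs
  constructor
  · have h1 : ⁅⁅V, S⁆, ⁅V, V⁆⁆ = ⊥ := by
      apply Subgroup.commutator_commutator_eq_bot_of_rotate
      · rw [Subgroup.commutator_comm S, hVVS, Subgroup.commutator_bot_left]
      · rw [eq_bot_iff, ← hVVS]
        apply Subgroup.commutator_mono _ le_rfl
        exact Subgroup.commutator_le_left _ _
    rw [hD, Subgroup.commutator_comm] at h1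
    exact h1
  · apply le_antisymm
    · exact Subgroup.commutator_le_left V B
    · calc V = ⁅V, S⁆ := hD.symm
        _ ≤ ⁅V, B⁆ := Subgroup.commutator_mono le_rfl hSB

end CSCore

section CSCen

variable {L : Type} [Group L]

/-- The elements centralising `A` modulo the normal subgroup `W`. -/
def CritStepCen (A W : Subgroup L) (hW : W.Normal) : Subgroup L where
  carrier := {x | ∀ v ∈ A, x * v * x⁻¹ * v⁻¹ ∈ W}
  mul_mem' := by
    intro x y hx hy v hv
    have h1 := hW.conj_mem _ (hy v hv) x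
    have h2 := W.mul_mem h1 (hx v hv)
    have h3 : x * y * v * (x * y)⁻¹ * v⁻¹ =
        x * (y * v * y⁻¹ * v⁻¹) * x⁻¹ * (x * v * x⁻¹ * v⁻¹) := by group
    rw [h3]; exact h2
  one_mem' := by
    intro v hv
    simp
  inv_mem' := by
    intro x hx v hv
    have h1 := hW.conj_mem _ (W.inv_mem (hx v hv)) x⁻¹
    have h3 : x⁻¹ * v * x⁻¹⁻¹ * v⁻¹ = x⁻¹ * (x * v * x⁻¹ * v⁻¹)⁻¹ * x⁻¹⁻¹ := by group
    rw [h3]; exact h1

theorem CritStepCen_mem {A W : Subgroup L} {hW : W.Normal} (x : L) :
    x ∈ CritStepCen A W hW ↔ ∀ v ∈ A, x * v * x⁻¹ * v⁻¹ ∈ W := Iff.rfl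

theorem CritStepCen_normal {A W : Subgroup L} {hW : W.Normal} (hA : A.Normal) :
    (CritStepCen A W hW).Normal := by
  constructor
  intro x hx g v hv
  have h1 := hW.conj_mem _ (hx (g⁻¹ * v * g⁻¹⁻¹) (hA.conj_mem v hv g⁻¹)) g
  have h2 : g * x * g⁻¹ * v * (g * x * g⁻¹)⁻¹ * v⁻¹ =
      g * (x * (g⁻¹ * v * g⁻¹⁻¹) * x⁻¹ * (g⁻¹ * v * g⁻¹⁻¹)⁻¹) * g⁻¹ := by group
  rw [h2]; exact h1

theorem CritStep_PL_top (p n : ℕ) : PL p n (⊤ : Subgroup L) := by
  refine ⟨fun _ => ⊤, rfl, rfl, fun _ => inferInstance, fun _ => le_rfl, fun i _ => ?_,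
    fun i _ => ⟨0, ?_⟩⟩
  · simp
  · simp

end CSCen

/-- The step: from an `(n+2)`-critical quotient to an `(n+1)`-critical one.
`R'` is the preimage of the Frattini subgroup of `R / C`. -/
theorem crit_step {L : Type} [Group L] [Finite L] {p : ℕ} (hp : p.Prime) {n : ℕ}
    {C R : Subgroup L} (h : Crit p (n + 1) C R) (R' : Subgroup L) (hR'n : R'.Normal)
    (hR'le : R' ≤ R) (hCR' : C ≤ R')
    (hR'p : ∀ x ∈ R, x ^ p ∈ R') (hR'c : ∀ x ∈ R, ∀ y ∈ R, x * y * x⁻¹ * y⁻¹ ∈ R')
    (hR'f : ∀ K : Subgroup L, K ≤ R → K ⊔ R' = R → K ⊔ C = R) :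
    ∃ U U' CU C2 R2 : Subgroup L, U.Normal ∧ U'.Normal ∧ CU.Normal ∧
      R ≤ CU ∧ CU ≤ U' ∧ U' ≤ U ∧ U' ≠ U ∧
      (∀ x, x ∈ CU ↔ x ∈ U ∧ ∀ v ∈ R, x * v * x⁻¹ * v⁻¹ ∈ R') ∧
      (CU.relIndex U).Coprime p ∧
      (∀ x ∈ U, ∀ y ∈ U, x * y * x⁻¹ * y⁻¹ ∈ U') ∧
      U' ≤ ⁅U, U⁆ ⊔ CU ∧
      (∀ z ∈ U', ∀ x ∈ U, z * x * z⁻¹ * x⁻¹ ∈ CU) ∧
      ⁅R, U⁆ ⊔ R' = R ∧
      (∀ K : Subgroup L, K ≤ U → K ⊔ U' = U → K ⊔ CU = U) ∧
      U ≤ C2 ∧ (∀ x, x ∈ C2 ↔ ∀ v ∈ U, x * v * x⁻¹ * v⁻¹ ∈ U') ∧
      Crit p n C2 R2 ∧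
      ⁅U, R2⁆ ⊔ U' = U := by
  classical
  have hCn := h.nC
  have hRn := h.nR
  have hR'ne : R' ≠ R := by
    intro e
    have h1 := hR'f C h.le (by rw [e]; exact sup_eq_right.mpr h.le)
    rw [sup_idem] at h1
    apply h.not
    rw [h1]
    exact h.pl
  obtain ⟨kC, hkC⟩ := h.pgr
  -- the smallest normal subgroup with PL n containing R
  obtain ⟨B, hRB, hBPL, hBmin⟩ : ∃ B : Subgroup L, R ≤ B ∧ PL p n B ∧
      ∀ N : Subgroup L, R ≤ N → PL p n N → B ≤ N := by
    let 𝒮 : Set (Subgroup L) := {B | R ≤ B ∧ PL p n B}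
    have hne : 𝒮.Nonempty := ⟨⊤, le_top, CritStep_PL_top p n⟩
    obtain ⟨B, hB, hmin⟩ := WellFounded.has_min (wellFounded_lt (α := Subgroup L)) 𝒮 hne
    refine ⟨B, hB.1, hB.2, fun N hRN hN => ?_⟩
    by_contra hcon
    have h1 : B ⊓ N < B := lt_of_le_of_ne inf_le_left (fun e => hcon (inf_eq_left.mp e))
    exact hmin (B ⊓ N) ⟨le_inf hB.1 hRN, PL.inf hB.2 hN hp⟩ h1
  have hBn : B.Normal := hBPL.normal
  obtain ⟨N1, N2, hN1n, hN2n, hRN1, hN12, hcop1, ⟨k1, hk1⟩, hPL2⟩ := h.pl.succ_cases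
  have hBN2 : B ≤ N2 := hBmin N2 (hRN1.trans hN12) hPL2
  set U : Subgroup L := B ⊓ N1 with hU
  have hUn : U.Normal := by rw [hU]; exact Subgroup.normal_inf_normal B N1
  have hRU : R ≤ U := le_inf hRB hRN1
  have hUB : U ≤ B := inf_le_left
  have hUcop : (R.relIndex U).Coprime p := by
    apply Nat.Coprime.coprime_dvd_left _ hcop1
    rw [← Subgroup.relIndex_mul_relIndex R U N1 hRU inf_le_right]
    exact Dvd.intro _ rfl
  obtain ⟨kU, hkU⟩ : ∃ j, U.relIndex B = p ^ j := by
    have h1 : U.relIndex B = N1.relIndex B := by rw [hU, Subgroup.inf_relIndex_left]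
    have h2 : (N1.subgroupOf N2).relIndex (B.subgroupOf N2) ∣ (N1.subgroupOf N2).index :=
      Subgroup.relIndex_dvd_index_of_normal _ _
    rw [Subgroup.relIndex_subgroupOf hBN2] at h2
    change _ ∣ N1.relIndex N2 at h2
    rw [hk1] at h2
    obtain ⟨j, -, hj⟩ := (Nat.dvd_prime_pow hp).mp h2
    exact ⟨j, h1.trans hj⟩
  -- (2)
  have hRU2 : ⁅R, U⁆ ⊔ R' = R := by
    have hle : ⁅R, U⁆ ⊔ R' ≤ R := sup_le (Subgroup.commutator_le_left R U) hR'le
    apply le_antisymm hle
    have hR1n : (⁅R, U⁆ ⊔ R').Normal := inferInstance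
    have hCR1 : C ≤ ⁅R, U⁆ ⊔ R' := hCR'.trans le_sup_right
    obtain ⟨k2, hk2⟩ : ∃ j, (⁅R, U⁆ ⊔ R').relIndex R = p ^ j := by
      have h1 : (⁅R, U⁆ ⊔ R').relIndex R ∣ p ^ kC := by
        rw [← hkC]
        exact Subgroup.relIndex_dvd_of_le_left R hCR1
      obtain ⟨j, -, hj⟩ := (Nat.dvd_prime_pow hp).mp h1
      exact ⟨j, hj⟩
    obtain ⟨K, hKn, hWK, hKU, hK1, hK2⟩ := CritStep_complement (⁅R, U⁆ ⊔ R') R U hR1n hRn hUn
      hle hRU (fun x hx y hy => by
        apply Subgroup.mem_sup_left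
        have := Subgroup.commutator_mem_commutator hx hy
        rwa [commutatorElement_def] at this)
      (by rw [hk2]; exact (hUcop.symm).pow_left k2)
    have hPK : PL p (n + 1) K := by
      apply PL.of_pgroup hKn (hKU.trans hUB) _ hBPL
      rw [hk2] at hK1
      obtain ⟨j, -, hj⟩ := (Nat.dvd_prime_pow hp).mp hK1
      refine ⟨j + kU, ?_⟩
      rw [← Subgroup.relIndex_mul_relIndex K U B hKU hUB, hj, hkU, pow_add]
    have hPR1 : PL p (n + 1) (⁅R, U⁆ ⊔ R') :=
      PL.of_coprime hR1n hWK (Nat.Coprime.coprime_dvd_left hK2 hUcop) hPK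
    exact h.res _ hCR1 hPR1
  -- CU
  let CU : Subgroup L := U ⊓ CritStepCen R R' hR'n
  have hCUmem : ∀ x, x ∈ CU ↔ x ∈ U ∧ ∀ v ∈ R, x * v * x⁻¹ * v⁻¹ ∈ R' := fun x => Iff.rfl
  have hcen : (CritStepCen R R' hR'n).Normal := CritStepCen_normal hRn
  have hCUn : CU.Normal := Subgroup.normal_inf_normal U _
  have hCUU : CU ≤ U := inf_le_left
  have hRCU : R ≤ CU := fun x hx => (hCUmem x).2 ⟨hRU hx, fun v hv => hR'c x hx v hv⟩
  have hCUne : CU ≠ U := by
    intro e
    apply hR'ne
    have h1 : ⁅R, U⁆ ≤ R' := by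
      rw [Subgroup.commutator_comm, Subgroup.commutator_le]
      intro x hx v hv
      rw [commutatorElement_def]
      rw [← e] at hx
      exact ((hCUmem x).1 hx).2 v hv
    rw [← hRU2]
    exact (sup_eq_right.mpr h1).symm
  have hCUcop : (CU.relIndex U).Coprime p :=
    Nat.Coprime.coprime_dvd_left (Subgroup.relIndex_dvd_of_le_left U hRCU) hUcop
  -- the key fact on proper subgroups
  have hkey : ∀ H : Subgroup L, H ≠ ⊤ → R ≤ H → ∃ N : Subgroup H, N.Normal ∧ PL p n N ∧
      ∀ y ∈ N.map H.subtype, y ∈ U → y ∈ CU := by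
    intro H hH hRH
    obtain ⟨M1, M2, hM1n, hM2n, hCM1, hM12, hMc, ⟨kM, hkM⟩, hMPL⟩ :=
      (h.sub H hH (h.le.trans hRH)).succ_cases
    refine ⟨M2, hM2n, hMPL, ?_⟩
    rintro _ ⟨y, hy, rfl⟩ hyU
    have h1 : y ^ (p ^ kM) ∈ M1 := by
      rw [← hkM]
      exact CritStep_pow_relIndex M1 M2 inferInstance hy
    have h2 : (y : L) ^ (R.relIndex U) ∈ R :=
      CritStep_pow_relIndex R U inferInstance hyU
    have hcop : (p ^ kM).Coprime (R.relIndex U) := (hUcop.symm).pow_left kM
    obtain ⟨a, b, hab⟩ := CritStep_split (y : L) hcop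
    have h3 : ((y ^ (p ^ kM)) ^ a : H) ∈ M1 := M1.zpow_mem h1 a
    set n1 : H := (y ^ (p ^ kM)) ^ a with hn1
    have h4 : ((y : L) ^ (R.relIndex U)) ^ b ∈ R := R.zpow_mem h2 b
    have h5 : (y : L) = (n1 : L) * ((y : L) ^ (R.relIndex U)) ^ b := by
      rw [hn1]
      push_cast
      exact hab
    have h6 : (n1 : L) ∈ U := by
      have : (y : L) ∈ U := hyU
      rw [h5] at this
      exact (U.mul_mem_cancel_right (hRU h4)).mp this
    have h7 : ∀ z : H, z ∈ M1 → (z : L) ∈ R → (z : L) ∈ C := by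
      intro z hz hzR
      have h8 : z ^ ((C.subgroupOf H).relIndex M1) ∈ C.subgroupOf H :=
        CritStep_pow_relIndex _ M1 inferInstance hz
      have h9 : (z : L) ^ (C.relIndex R) ∈ C := CritStep_pow_relIndex C R inferInstance hzR
      rw [hkC] at h9
      have h10 : (z : L) ^ ((C.subgroupOf H).relIndex M1) ∈ C := by
        rw [Subgroup.mem_subgroupOf] at h8
        simpa using h8
      exact CritStep_mem_of_coprime C (hMc.pow_right kC) h10 h9
    have h8 : (n1 : L) ∈ CU := by
      rw [hCUmem]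
      refine ⟨h6, fun v hv => hCR' ?_⟩
      have h9 := h7 (n1 * ⟨v, hRH hv⟩ * n1⁻¹ * (⟨v, hRH hv⟩ : H)⁻¹) (by
        have h10 := hM1n.conj_mem _ (M1.inv_mem h3) ⟨v, hRH hv⟩
        have h11 := M1.mul_mem h3 h10
        have h12 : n1 * ⟨v, hRH hv⟩ * n1⁻¹ * (⟨v, hRH hv⟩ : H)⁻¹ =
          n1 * (⟨v, hRH hv⟩ * n1⁻¹ * (⟨v, hRH hv⟩ : H)⁻¹) := by group
        rw [h12]; exact h11) (by
        push_cast
        exact R.mul_mem (hRn.conj_mem v hv _) (R.inv_mem hv))
      simpa using h9
    change (y : L) ∈ CU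
    rw [h5]
    exact CU.mul_mem h8 (hRCU h4)
  -- apply the core theorem in L / CU
  let π := QuotientGroup.mk' CU
  have hπk : π.ker = CU := QuotientGroup.ker_mk' CU
  have hπ : ∀ x : L, π x = 1 ↔ x ∈ CU := fun x => QuotientGroup.eq_one_iff x
  have hπs : Function.Surjective π := QuotientGroup.mk'_surjective CU
  have hcomap : ∀ A : Subgroup L, CU ≤ A → (A.map π).comap π = A := by
    intro A hA
    rw [Subgroup.comap_map_eq, hπk, sup_eq_left.mpr hA]
  have hVn : (U.map π).Normal := hUn.map π hπs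
  have hBtn : (B.map π).Normal := hBn.map π hπs
  have hcore := CritStep_core hp (U.map π) (B.map π) hVn hBtn (Subgroup.map_mono hUB)
    (by
      rw [← Subgroup.relIndex_ker, hπk]
      exact hCUcop)
    ⟨kU, by
      rw [Subgroup.relIndex_map_map, hπk, sup_eq_left.mpr hCUU,
        sup_eq_left.mpr (hCUU.trans hUB), hkU]⟩
    (by
      intro e
      apply hCUne
      apply le_antisymm hCUU
      rw [Subgroup.map_eq_bot_iff, hπk] at e
      exact e)
    (by
      intro N hN hNB hNc
      have h1 : (N.comap π).Normal := hN.comap π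
      have h2 : CU ≤ N.comap π := by
        intro x hx
        rw [Subgroup.mem_comap, (hπ x).2 hx]
        exact N.one_mem
      have h3 : N.comap π ≤ B := by
        have := Subgroup.comap_mono (f := π) hNB
        rwa [hcomap B (hCUU.trans hUB)] at this
      have h4 : (N.comap π).relIndex B = N.relIndex (B.map π) := by
        conv_rhs => rw [← Subgroup.map_comap_eq_self_of_surjective hπs N]
        rw [Subgroup.relIndex_map_map, hπk, sup_eq_left.mpr h2,
          sup_eq_left.mpr (hCUU.trans hUB)]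
      have h5 : PL p n (N.comap π) := by
        apply PL.of_coprime h1 h3 _ hBPL
        rw [h4]; exact hNc
      have h6 : B ≤ N.comap π := hBmin _ (hRCU.trans h2) h5
      exact Subgroup.map_le_iff_le_comap.mpr h6)
    (by
      intro Ht hHt hHV
      have hH : Ht.comap π ≠ ⊤ := by
        intro e
        apply hHt
        rw [← Subgroup.map_comap_eq_self_of_surjective hπs Ht, e,
          ← MonoidHom.range_eq_map, MonoidHom.range_eq_top.mpr hπs]
      have hCH : CU ≤ Ht.comap π := by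
        intro x hx
        rw [Subgroup.mem_comap, (hπ x).2 hx]
        exact Ht.one_mem
      obtain ⟨N, hNn, hNPL, hNU⟩ := hkey (Ht.comap π) hH (hRCU.trans hCH)
      have hHU : Ht.comap π ⊔ U = ⊤ := by
        have h1 := congrArg (Subgroup.comap π) hHV
        rw [← Subgroup.comap_sup_eq π Ht (U.map π) hπs, hcomap U hCUU, Subgroup.comap_top] at h1
        exact h1
      have h2 := PL.of_supplement (Ht.comap π) U hHU N hNPL hp
      have h3 : B ≤ N.map (Ht.comap π).subtype ⊔ U := hBmin _ (hRU.trans le_sup_right) h2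
      refine ⟨(N.map (Ht.comap π).subtype ⊓ B).map π, ⟨Subgroup.map_mono inf_le_right, ?_, ?_⟩, ?_⟩
      · rintro _ ⟨b, hb, rfl⟩
        have h4 := h3 hb
        rw [← SetLike.mem_coe, Subgroup.mul_normal] at h4
        obtain ⟨m, hm, u, hu, rfl⟩ := h4
        change π (m * u) ∈ _
        rw [map_mul]
        have h5 : m ∈ B := (B.mul_mem_cancel_right (hUB hu)).mp hb
        exact Subgroup.mul_mem_sup (Subgroup.mem_map_of_mem _ ⟨hm, h5⟩)
          (Subgroup.mem_map_of_mem _ hu)
      · rintro _ ⟨s, hs, rfl⟩ hsV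
        have h4 : s ∈ (U.map π).comap π := hsV
        rw [hcomap U hCUU] at h4
        exact (hπ s).2 (hNU s hs.1 h4)
      · rintro g hg _ ⟨s, ⟨⟨m, hm, rfl⟩, hsB⟩, rfl⟩
        obtain ⟨g0, rfl⟩ := hπs g
        have h4 : (⟨g0, hg⟩ : Ht.comap π) * m * (⟨g0, hg⟩ : Ht.comap π)⁻¹ ∈ N :=
          hNn.conj_mem m hm _
        refine ⟨g0 * m * g0⁻¹, ⟨⟨_, h4, ?_⟩, hBn.conj_mem _ hsB g0⟩, ?_⟩
        · simp
        · simp)
  obtain ⟨hc1, hc2⟩ := hcore
  -- U'
  let U' : Subgroup L := ⁅U, U⁆ ⊔ CU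
  have hU'n : U'.Normal := inferInstance
  have hU'U : U' ≤ U := sup_le (Subgroup.commutator_le_self U) hCUU
  have hU'map : U'.map π = ⁅U.map π, U.map π⁆ := by
    rw [Subgroup.map_sup, Subgroup.map_commutator]
    have : CU.map π = ⊥ := by
      rw [Subgroup.map_eq_bot_iff, hπk]
    rw [this, sup_bot_eq]
  have hcen' : ∀ z ∈ U', ∀ x ∈ U, z * x * z⁻¹ * x⁻¹ ∈ CU := by
    intro z hz x hx
    have h1 : π z ∈ ⁅U.map π, U.map π⁆ := by
      rw [← hU'map]; exact Subgroup.mem_map_of_mem _ hz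
    have h2 := Subgroup.commutator_mem_commutator h1 (Subgroup.mem_map_of_mem π hx)
    rw [hc1, Subgroup.mem_bot, commutatorElement_def] at h2
    rw [← hπ]
    simpa using h2
  have hab : ∀ x ∈ U, ∀ y ∈ U, x * y * x⁻¹ * y⁻¹ ∈ U' := by
    intro x hx y hy
    apply Subgroup.mem_sup_left
    have := Subgroup.commutator_mem_commutator hx hy
    rwa [commutatorElement_def] at this
  have hU'ne : U' ≠ U := by
    intro e
    apply hCUne
    apply le_antisymm hCUU
    have h1 : ⁅U, U⁆ ≤ CU := by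
      rw [Subgroup.commutator_le]
      intro x hx y hy
      rw [commutatorElement_def]
      apply hcen' x _ y hy
      rw [e]; exact hx
    calc U = U' := e.symm
      _ ≤ CU := sup_le h1 le_rfl
  have hUBU : U ≤ ⁅U, B⁆ ⊔ CU := by
    have h1 : U ≤ (U.map π).comap π := Subgroup.le_comap_map π U
    rw [← hc2, ← Subgroup.map_commutator, Subgroup.comap_map_eq, hπk] at h1
    exact h1
  have hfrat : ∀ K : Subgroup L, K ≤ U → K ⊔ U' = U → K ⊔ CU = U := by
    intro K hKU hK
    apply le_antisymm (sup_le hKU hCUU)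
    have h1 : ⁅U, U⁆ ≤ K ⊔ CU := by
      rw [Subgroup.commutator_le]
      intro x hx y hy
      have hx' := hx
      have hy' := hy
      rw [← hK, ← SetLike.mem_coe, Subgroup.mul_normal] at hx' hy'
      obtain ⟨b, hb, a, ha, rfl⟩ := hx'
      obtain ⟨d, hd, c, hc, rfl⟩ := hy'
      rw [commutatorElement_def]
      change b * a * (d * c) * (b * a)⁻¹ * (d * c)⁻¹ ∈ K ⊔ CU
      have hcomm : ∀ z ∈ U', ∀ w ∈ U, Commute (π z) (π w) := by
        intro z hz w hw
        have h2 := (hπ _).2 (hcen' z hz w hw)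
        rw [map_mul, map_mul, map_mul, map_inv, map_inv, mul_inv_eq_one,
          mul_inv_eq_iff_eq_mul] at h2
        exact h2
      have hbd : b * d * b⁻¹ * d⁻¹ ∈ K := K.mul_mem (K.mul_mem (K.mul_mem hb hd)
        (K.inv_mem hb)) (K.inv_mem hd)
      have e1 : π (b * a * (d * c)) = π (a * c) * π (b * d) := by
        have c1 := (hcomm a ha (d * c) (U.mul_mem (hKU hd) (hU'U hc))).eq
        have c2 := (hcomm c hc (b * d) (U.mul_mem (hKU hb) (hKU hd))).eq
        have c3 := (hcomm a ha (b * d * c)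
          (U.mul_mem (U.mul_mem (hKU hb) (hKU hd)) (hU'U hc))).eq
        calc π (b * a * (d * c)) = π b * (π a * π (d * c)) := by simp [mul_assoc]
          _ = π b * (π (d * c) * π a) := by rw [c1]
          _ = π (b * d * c) * π a := by simp [mul_assoc]
          _ = π a * π (b * d * c) := c3.symm
          _ = π a * (π (b * d) * π c) := by simp [mul_assoc]
          _ = π a * (π c * π (b * d)) := by rw [c2]
          _ = π (a * c) * π (b * d) := by simp [mul_assoc]
      have e2 : π (d * c * (b * a)) = π (a * c) * π (d * b) := by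
        have c1 := (hcomm c hc (b * a) (U.mul_mem (hKU hb) (hU'U ha))).eq
        have c2 := (hcomm a ha (d * b) (U.mul_mem (hKU hd) (hKU hb))).eq
        have c3 := (hcomm c hc (d * b * a)
          (U.mul_mem (U.mul_mem (hKU hd) (hKU hb)) (hU'U ha))).eq
        have c4 := (hcomm c hc a (hU'U ha)).eq
        calc π (d * c * (b * a)) = π d * (π c * π (b * a)) := by simp [mul_assoc]
          _ = π d * (π (b * a) * π c) := by rw [c1]
          _ = π (d * b * a) * π c := by simp [mul_assoc]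
          _ = π c * π (d * b * a) := c3.symm
          _ = π c * (π (d * b) * π a) := by simp [mul_assoc]
          _ = π c * (π a * π (d * b)) := by rw [c2]
          _ = (π c * π a) * π (d * b) := by simp [mul_assoc]
          _ = (π a * π c) * π (d * b) := by rw [c4]
          _ = π (a * c) * π (d * b) := by simp
      have e3 : π (b * a * (d * c) * (b * a)⁻¹ * (d * c)⁻¹) = π (b * d * b⁻¹ * d⁻¹) := by
        have h3 : b * a * (d * c) * (b * a)⁻¹ * (d * c)⁻¹ =
            (b * a * (d * c)) * (d * c * (b * a))⁻¹ := by group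
        have h4 := (hcomm (a * c) (U'.mul_mem ha hc) (b * d * b⁻¹ * d⁻¹) (hKU hbd)).eq
        rw [h3, map_mul, map_inv, e1, e2]
        have h5 : π (a * c) * π (b * d) * (π (a * c) * π (d * b))⁻¹ =
            π (a * c) * π (b * d * b⁻¹ * d⁻¹) * (π (a * c))⁻¹ := by
          simp only [map_mul, map_inv]; group
        rw [h5, h4]; group
      have h6 : b * a * (d * c) * (b * a)⁻¹ * (d * c)⁻¹ ∈ ((K ⊔ CU).map π).comap π := by
        rw [Subgroup.mem_comap, e3]
        exact Subgroup.mem_map_of_mem _ (Subgroup.mem_sup_left hbd)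
      rwa [hcomap _ le_sup_right] at h6
    calc U = K ⊔ U' := hK.symm
      _ ≤ K ⊔ CU := sup_le le_sup_left (sup_le h1 le_sup_right)
  -- C2 and R2
  let C2 : Subgroup L := CritStepCen U U' hU'n
  have hC2mem : ∀ x, x ∈ C2 ↔ ∀ v ∈ U, x * v * x⁻¹ * v⁻¹ ∈ U' := fun x => Iff.rfl
  have hC2n : C2.Normal := CritStepCen_normal hUn
  have hUC2 : U ≤ C2 := fun x hx => (hC2mem x).2 fun v hv => hab x hx v hv
  have hBU : ⁅U, B⁆ ⊔ U' = U := by
    apply le_antisymm (sup_le (Subgroup.commutator_le_left U B) hU'U)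
    exact hUBU.trans (sup_le_sup_left le_sup_right _)
  refine ⟨U, U', CU, C2, B ⊔ C2, hUn, hU'n, hCUn, hRCU, le_sup_right, hU'U, hU'ne, hCUmem,
    hCUcop, hab, le_rfl, hcen', hRU2, hfrat, hUC2, hC2mem, ?_, ?_⟩
  · refine ⟨hC2n, inferInstance, le_sup_right, ?_, ?_, ?_, ?_, ?_⟩
    · intro hPL
      have h1 : B ≤ C2 := hBmin C2 (hRU.trans hUC2) hPL
      apply hU'ne
      have h2 : ⁅U, B⁆ ≤ U' := by
        rw [Subgroup.commutator_comm, Subgroup.commutator_le]
        intro x hx v hv
        rw [commutatorElement_def]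
        exact (hC2mem x).1 (h1 hx) v hv
      rw [← hBU]
      exact (sup_eq_right.mpr h2).symm
    · intro H hH hC2H
      obtain ⟨N, hNn, hNPL, hNU⟩ := hkey H hH ((hRU.trans hUC2).trans hC2H)
      refine PL.of_le (hC2n.subgroupOf H) ?_ hNPL hp
      intro x hx
      rw [Subgroup.mem_subgroupOf, hC2mem]
      intro v hv
      have hvH : v ∈ H := hC2H (hUC2 hv)
      have h1 : x * (⟨v, hvH⟩ * x⁻¹ * (⟨v, hvH⟩ : H)⁻¹) ∈ N :=
        N.mul_mem hx (hNn.conj_mem _ (N.inv_mem hx) _)
      have h2 : (x : L) * v * (x : L)⁻¹ * v⁻¹ ∈ U :=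
        U.mul_mem (hUn.conj_mem v hv _) (U.inv_mem hv)
      have h3 := hNU _ (Subgroup.mem_map_of_mem H.subtype h1) (by
        simpa [mul_assoc] using h2)
      apply Subgroup.mem_sup_right
      simpa [mul_assoc] using h3
    · exact PL.of_le inferInstance le_sup_left hBPL hp
    · intro N hCN hN
      exact sup_le (hBmin N ((hRU.trans hUC2).trans hCN) hN) hCN
    · have h1 : C2.relIndex (B ⊔ C2) = C2.relIndex B := Subgroup.relIndex_sup_right B C2
      have h2 : C2.relIndex B ∣ p ^ kU := by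
        rw [← hkU]
        exact Subgroup.relIndex_dvd_of_le_left B hUC2
      obtain ⟨j, -, hj⟩ := (Nat.dvd_prime_pow hp).mp h2
      exact ⟨j, h1.trans hj⟩
  · apply le_antisymm (sup_le (Subgroup.commutator_le_left U _) hU'U)
    calc U = ⁅U, B⁆ ⊔ U' := hBU.symm
      _ ≤ ⁅U, B ⊔ C2⁆ ⊔ U' := sup_le_sup_right (Subgroup.commutator_mono le_rfl le_sup_left) _

end Pool.Agent.PLen
end

section

set_option autoImplicit false

/-! T3. Towers in minimal groups of large p-length. -/

namespace Pool.Agent.PLen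

/-- A nontrivial finite `p`-group without proper nontrivial subgroups is cyclic of order `p`. -/
private theorem partA_simple {Q : Type*} [Group Q] [Finite Q] {p : ℕ} (hp : p.Prime)
    (hpg : ∃ k, Nat.card Q = p ^ k) (hnt : Nat.card Q ≠ 1)
    (hsim : ∀ X : Subgroup Q, X = ⊥ ∨ X = ⊤) :
    (∀ x y : Q, x * y = y * x) ∧ ∀ x : Q, x ^ p = 1 := by
  have : Fact p.Prime := ⟨hp⟩
  obtain ⟨k, hk⟩ := hpg
  have hk0 : k ≠ 0 := by
    rintro rfl
    exact hnt (by simpa using hk)
  have hdvd : p ∣ Nat.card Q := hk ▸ dvd_pow_self p hk0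
  obtain ⟨g, hg⟩ := exists_prime_orderOf_dvd_card' (G := Q) p hdvd
  have hz : Subgroup.zpowers g = ⊤ := by
    rcases hsim (Subgroup.zpowers g) with h | h
    · exfalso
      have : g = 1 := by
        have : g ∈ Subgroup.zpowers g := Subgroup.mem_zpowers g
        rw [h] at this
        simpa using this
      rw [this, orderOf_one] at hg
      exact hp.one_lt.ne hg
    · exact h
  have hmem : ∀ x : Q, ∃ n : ℤ, g ^ n = x := fun x => by
    have : x ∈ Subgroup.zpowers g := hz ▸ Subgroup.mem_top x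
    exact Subgroup.mem_zpowers_iff.1 this
  constructor
  · intro x y
    obtain ⟨a, rfl⟩ := hmem x
    obtain ⟨b, rfl⟩ := hmem y
    rw [← zpow_add, ← zpow_add, add_comm]
  · intro x
    obtain ⟨a, rfl⟩ := hmem x
    have : g ^ p = 1 := hg ▸ pow_orderOf_eq_one g
    rw [← zpow_natCast, ← zpow_mul, mul_comm, zpow_mul, zpow_natCast, this, one_zpow]

/-- Maximal subgroups above `C` of a `p`-group `R / C`. -/
private theorem partA_max {R : Type*} [Group R] [Finite R] {p : ℕ} (hp : p.Prime)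
    (C M : Subgroup R) [C.Normal] (hCM : C ≤ M) (hpg : ∃ k, C.index = p ^ k)
    (hM : IsCoatom M) : (∀ x y : R, x * y * x⁻¹ * y⁻¹ ∈ M) ∧ ∀ x : R, x ^ p ∈ M := by
  have : Fact p.Prime := ⟨hp⟩
  obtain ⟨k, hk⟩ := hpg
  have hcomap : (M.map (QuotientGroup.mk' C)).comap (QuotientGroup.mk' C) = M := by
    rw [Subgroup.comap_map_eq, QuotientGroup.ker_mk', sup_eq_left.2 hCM]
  have hco : IsCoatom (M.map (QuotientGroup.mk' C)) := by
    refine ⟨fun h => hM.1 ?_, fun X hX => ?_⟩
    · rw [← hcomap, h, Subgroup.comap_top]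
    · have h1 : M < X.comap (QuotientGroup.mk' C) := by
        refine lt_of_le_of_ne (Subgroup.map_le_iff_le_comap.1 hX.le) fun h => ?_
        apply hX.ne
        conv_lhs => rw [h]
        exact Subgroup.map_comap_eq_self_of_surjective (QuotientGroup.mk'_surjective C) X
      have h2 := hM.2 _ h1
      rw [← Subgroup.map_comap_eq_self_of_surjective (QuotientGroup.mk'_surjective C) X, h2]
      exact Subgroup.map_top_of_surjective _ (QuotientGroup.mk'_surjective C)
  have hcard : Nat.card (R ⧸ C) = p ^ k := hk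
  have hpQ : IsPGroup p (R ⧸ C) := IsPGroup.of_card hcard
  have : Group.IsNilpotent (R ⧸ C) := hpQ.isNilpotent
  have hn : (M.map (QuotientGroup.mk' C)).Normal :=
    Subgroup.NormalizerCondition.normal_of_coatom _ Group.normalizerCondition_of_isNilpotent hco
  have hMn : M.Normal := by
    rw [← hcomap]
    exact hn.comap _
  have := hMn
  have hidx : M.index ∣ p ^ k := hk ▸ Subgroup.index_dvd_of_le hCM
  obtain ⟨l, -, hl⟩ := (Nat.dvd_prime_pow hp).1 hidx
  have hs := partA_simple (Q := R ⧸ M) hp ⟨l, hl⟩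
    (fun h => hM.1 (Subgroup.index_eq_one.1 h)) (fun X => by
      by_cases h : M = X.comap (QuotientGroup.mk' M)
      · left
        rw [← Subgroup.map_comap_eq_self_of_surjective (QuotientGroup.mk'_surjective M) X, ← h]
        rw [Subgroup.map_eq_bot_iff, QuotientGroup.ker_mk']
      · right
        have h1 : M < X.comap (QuotientGroup.mk' M) :=
          lt_of_le_of_ne (by
            intro x hx
            rw [Subgroup.mem_comap]
            have : (QuotientGroup.mk' M) x = 1 := by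
              simpa using hx
            rw [this]
            exact X.one_mem) h
        have h2 := hM.2 _ h1
        rw [← Subgroup.map_comap_eq_self_of_surjective (QuotientGroup.mk'_surjective M) X, h2]
        exact Subgroup.map_top_of_surjective _ (QuotientGroup.mk'_surjective M))
  constructor
  · intro x y
    rw [← QuotientGroup.eq_one_iff (N := M)]
    have h1 := hs.1 (x : R ⧸ M) (y : R ⧸ M)
    rw [QuotientGroup.mk_mul, QuotientGroup.mk_mul, QuotientGroup.mk_mul, h1]
    simp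
  · intro x
    rw [← QuotientGroup.eq_one_iff (N := M)]
    exact hs.2 (x : R ⧸ M)

/-- The preimage of the Frattini subgroup of `R / C`. -/
private theorem partA_frat {L : Type} [Group L] [Finite L] {p : ℕ} (hp : p.Prime)
    {C R : Subgroup L} (hC : C.Normal) (hR : R.Normal) (hle : C ≤ R) (hne : C ≠ R)
    (hpg : ∃ k, C.relIndex R = p ^ k) :
    ∃ R' : Subgroup L, R'.Normal ∧ R' ≤ R ∧ C ≤ R' ∧ R' ≠ R ∧ (∀ x ∈ R, x ^ p ∈ R') ∧
      (∀ x ∈ R, ∀ y ∈ R, x * y * x⁻¹ * y⁻¹ ∈ R') ∧
      (∀ K : Subgroup L, K ≤ R → K ⊔ R' = R → K ⊔ C = R) := by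
  classical
  have hmax : ∀ M : Subgroup L, C ≤ M → M ⋖ R → (∀ x ∈ R, x ^ p ∈ M) ∧
      (∀ x ∈ R, ∀ y ∈ R, x * y * x⁻¹ * y⁻¹ ∈ M) := by
    intro M hCM hM
    have hco : IsCoatom (M.subgroupOf R) := by
      refine ⟨fun h => ?_, fun X hX => ?_⟩
      · exact hM.lt.not_ge (Subgroup.subgroupOf_eq_top.1 h)
      · have h1 : M < X.map R.subtype := by
          have h2 : (M.subgroupOf R).map R.subtype < X.map R.subtype :=
            (Subgroup.map_lt_map_iff_of_injective R.subtype_injective).2 hX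
          rwa [Subgroup.subgroupOf_map_subtype, inf_eq_left.2 hM.le] at h2
        have h3 : X.map R.subtype = R := by
          by_contra h4
          exact hM.2 h1 (lt_of_le_of_ne (Subgroup.map_subtype_le X) h4)
        have h5 : X.map R.subtype = (⊤ : Subgroup R).map R.subtype := by
          rw [h3, ← MonoidHom.range_eq_map, Subgroup.range_subtype]
        exact Subgroup.map_injective R.subtype_injective h5
    have : (C.subgroupOf R).Normal := hC.subgroupOf R
    have hm := partA_max (R := R) hp (C.subgroupOf R) (M.subgroupOf R)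
      (fun x hx => hCM hx) hpg hco
    refine ⟨fun x hx => ?_, fun x hx y hy => ?_⟩
    · exact hm.2 ⟨x, hx⟩
    · exact hm.1 ⟨x, hx⟩ ⟨y, hy⟩
  refine ⟨sInf {M | C ≤ M ∧ M ⋖ R} ⊓ R, ?_, inf_le_right, ?_, ?_, ?_, ?_, ?_⟩
  · refine ⟨fun x hx g => ?_⟩
    rw [Subgroup.mem_inf] at hx ⊢
    refine ⟨?_, hR.conj_mem x hx.2 g⟩
    rw [Subgroup.mem_sInf] at hx ⊢
    rintro M ⟨hCM, hM⟩
    have h1 := hx.1 (M.comap (MulAut.conj g).toMonoidHom) ⟨fun c hc => hCM (hC.conj_mem c hc g), ?_⟩
    · exact h1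
    · have h2 : R.comap (MulAut.conj g).toMonoidHom = R := by
        ext y
        rw [Subgroup.mem_comap]
        constructor
        · intro hy
          have := hR.conj_mem _ hy g⁻¹
          simpa [mul_assoc] using this
        · intro hy
          exact hR.conj_mem y hy g
      have h3 : (MulAut.conj g).comapSubgroup M ⋖ (MulAut.conj g).comapSubgroup R :=
        (apply_covBy_apply_iff _).2 hM
      rw [← h2]
      exact h3
  · refine le_inf (le_sInf ?_) hle
    rintro M ⟨h, -⟩
    exact h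
  · intro h
    obtain ⟨M, hCM, hM⟩ := exists_le_covBy_of_lt (lt_of_le_of_ne hle hne)
    have h1 : R ≤ M := by
      rw [← h]
      exact inf_le_left.trans (sInf_le ⟨hCM, hM⟩)
    exact hM.lt.not_ge h1
  · intro x hx
    rw [Subgroup.mem_inf, Subgroup.mem_sInf]
    refine ⟨?_, R.pow_mem hx p⟩
    rintro M ⟨hCM, hM⟩
    exact (hmax M hCM hM).1 x hx
  · intro x hx y hy
    rw [Subgroup.mem_inf, Subgroup.mem_sInf]
    refine ⟨?_, R.mul_mem (R.mul_mem (R.mul_mem hx hy) (R.inv_mem hx)) (R.inv_mem hy)⟩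
    rintro M ⟨hCM, hM⟩
    exact (hmax M hCM hM).2 x hx y hy
  · intro K hKR hK
    by_contra h
    obtain ⟨M, hM1, hM⟩ := exists_le_covBy_of_lt (lt_of_le_of_ne (sup_le hKR hle) h)
    have h1 : R ≤ M := by
      rw [← hK]
      exact sup_le (le_sup_left.trans hM1)
        (inf_le_left.trans (sInf_le ⟨le_sup_right.trans hM1, hM⟩))
    exact hM.lt.not_ge h1


private theorem partA_top {G : Type} [Group G] {p n : ℕ} : PL p n (⊤ : Subgroup G) := by
  refine ⟨fun _ => ⊤, rfl, rfl, fun _ => inferInstance, fun _ => le_rfl, fun i _ => ?_,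
    fun i _ => ⟨0, ?_⟩⟩
  · simp
  · simp

/-- The residual: smallest normal subgroup `D` with `PL p n D`. -/
private theorem partA_res {G : Type} [Group G] [Finite G] {p n : ℕ} (hp : p.Prime) :
    ∃ D : Subgroup G, PL p n D ∧ ∀ K : Subgroup G, PL p n K → D ≤ K := by
  have hfin : (Set.univ : Set (Subgroup G)).Finite := Set.toFinite _
  obtain ⟨D, hD⟩ := (Set.toFinite {K : Subgroup G | PL p n K}).exists_minimal ⟨⊤, partA_top⟩
  refine ⟨D, hD.1, fun K hK => ?_⟩
  have h1 : PL p n (D ⊓ K) := PL.inf hD.1 hK hp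
  exact (hD.2 h1 inf_le_left).trans inf_le_right

/-- The residual is a `p`-group. -/
private theorem partA_crit {G : Type} [Group G] [Finite G] {p : ℕ} (hp : p.Prime) (n : ℕ)
    (hsol : ∃ m, PL p m (⊥ : Subgroup G)) (hnot : ¬ PL p n (⊥ : Subgroup G))
    (hsub : ∀ H : Subgroup G, H ≠ ⊤ → PL p n (⊥ : Subgroup H))
    (hquo : ∀ K : Subgroup G, K.Normal → K ≠ ⊥ → PL p n K) :
    ∃ D : Subgroup G, Crit p n ⊥ D := by
  obtain ⟨D, hD, hmin⟩ := partA_res (G := G) (p := p) (n := n) hp
  have hDn : D.Normal := hD.normal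
  have hDbot : D ≠ ⊥ := fun h => hnot (h ▸ hD)
  refine ⟨D, ⟨inferInstance, hDn, bot_le, hnot, fun H hH _ => ?_, hD, fun N _ hN => hmin N hN, ?_⟩⟩
  · rw [Subgroup.bot_subgroupOf]
    exact hsub H hH
  · obtain ⟨m, N, h0, htop, hN, hmono, hcop, hpp⟩ := hsol
    classical
    have hex : ∃ i, D ≤ N i := ⟨2 * m + 1, htop ▸ le_top⟩
    obtain ⟨hi1, hi2⟩ : D ≤ N (Nat.find hex) ∧ ∀ j < Nat.find hex, ¬ D ≤ N j :=
      ⟨Nat.find_spec hex, fun j hj => Nat.find_min hex hj⟩
    have hile : Nat.find hex ≤ 2 * m + 1 := Nat.find_min' hex (htop ▸ le_top)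
    generalize Nat.find hex = i at hi1 hi2 hile
    rcases i with _ | i
    · rw [h0, le_bot_iff] at hi1
      exact absurd hi1 hDbot
    have hinf : N i ⊓ D = ⊥ := by
      by_contra h
      have h1 : PL p n (N i ⊓ D) := hquo _ (by have := hN i; infer_instance) h
      exact hi2 i (Nat.lt_succ_self i) ((hmin _ h1).trans inf_le_left)
    have hdvd : (⊥ : Subgroup G).relIndex D ∣ (N i).relIndex (N (i + 1)) := by
      rw [← hinf, Subgroup.inf_relIndex_right]
      have := hN i
      rw [← Subgroup.relIndex_subgroupOf (H := N i) hi1]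
      exact Subgroup.relIndex_dvd_index_of_normal _ _
    have hcase : (((N i).relIndex (N (i + 1))).Coprime p) ∨ ∃ k, (N i).relIndex (N (i + 1)) = p ^ k := by
      rcases Nat.even_or_odd' i with ⟨j, rfl | rfl⟩
      · left
        exact hcop j (by omega)
      · right
        exact hpp j (by omega)
    rcases hcase with h | ⟨k, hk⟩
    · exfalso
      exact hnot (PL.of_coprime inferInstance bot_le (Nat.Coprime.coprime_dvd_left hdvd h) hD)
    · rw [hk] at hdvd
      obtain ⟨l, -, hl⟩ := (Nat.dvd_prime_pow hp).1 hdvd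
      exact ⟨l, hl⟩


private theorem partA_tower {G : Type} [Group G] [Finite G] {p : ℕ} (hp : p.Prime) (n : ℕ) :
    ∀ (C R : Subgroup G), Crit p n C R → ∀ R' : Subgroup G, R'.Normal → R' ≤ R → C ≤ R' →
      R' ≠ R → (∀ x ∈ R, x ^ p ∈ R') → (∀ x ∈ R, ∀ y ∈ R, x * y * x⁻¹ * y⁻¹ ∈ R') →
      (∀ K : Subgroup G, K ≤ R → K ⊔ R' = R → K ⊔ C = R) →
      ∃ τ : Tower p G (2 * n), τ.M (2 * n) = R ∧ τ.M' (2 * n) = R' := by
  induction n with
  | zero =>
    intro C R hcr R' hn hle hC hne hpow hcom hfr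
    exact ⟨{
      M := fun _ => R
      M' := fun _ => R'
      C := fun _ => R'
      nM := fun _ => hcr.nR
      nM' := fun _ => hn
      nC := fun _ => hn
      le := fun _ => hle
      succ_le := fun j hj => absurd hj (by omega)
      mem_C := fun j hj => absurd hj (by omega)
      C_le := fun j hj => absurd hj (by omega)
      ne := fun j _ => hne
      ab := fun j _ => hcom
      tyY := fun j _ _ => hpow
      tyT := fun j hj ho => absurd ho (by
        have : j = 0 := by omega
        subst this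
        decide)
      act := fun j hj => absurd hj (by omega)
      frat := fun j hj => absurd hj (by omega)
      cen := fun j hj => absurd hj (by omega)
      gen := fun j hj => absurd hj (by omega)
      copC := fun j hj => absurd hj (by omega) }, rfl, rfl⟩
  | succ n ih =>
    intro C R hcr R' hn hle hC hne hpow hcom hfr
    obtain ⟨U, U', CU, C2, R2, hU, hU', hCU, hRCU, hCUU', hU'U, hU'ne, hmemCU, hcopCU, habU, hgenU,
      hcenU, hactR, hfratU, hUC2, hmemC2, hcrit2, hactU⟩ :=
      crit_step hp hcr R' hn hle hC hpow hcom hfr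
    have hne2 : C2 ≠ R2 := fun h => hcrit2.not (h ▸ hcrit2.pl)
    obtain ⟨R2', h2n, h2le, h2C, h2ne, h2pow, h2com, h2fr⟩ :=
      partA_frat hp hcrit2.nC hcrit2.nR hcrit2.le hne2 hcrit2.pgr
    obtain ⟨τ, hτ1, hτ2⟩ := ih C2 R2 hcrit2 R2' h2n h2le h2C h2ne h2pow h2com h2fr
    let M : ℕ → Subgroup G := fun j => if j < 2 * n + 1 then τ.M j else if j = 2 * n + 1 then U else R
    let M' : ℕ → Subgroup G := fun j =>
      if j < 2 * n + 1 then τ.M' j else if j = 2 * n + 1 then U' else R'
    let D : ℕ → Subgroup G := fun j =>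
      if j < 2 * n then τ.C j else if j = 2 * n then C2 else if j = 2 * n + 1 then CU else R'
    have hM0 : ∀ j, j < 2 * n + 1 → M j = τ.M j := fun j hj => if_pos hj
    have hM'0 : ∀ j, j < 2 * n + 1 → M' j = τ.M' j := fun j hj => if_pos hj
    have hM1 : M (2 * n + 1) = U := by simp [M]
    have hM'1 : M' (2 * n + 1) = U' := by simp [M']
    have hM2 : ∀ j, 2 * n + 1 < j → M j = R := fun j hj => by
      simp only [M]
      rw [if_neg (by omega), if_neg (by omega)]
    have hM'2 : ∀ j, 2 * n + 1 < j → M' j = R' := fun j hj => by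
      simp only [M']
      rw [if_neg (by omega), if_neg (by omega)]
    have hD0 : ∀ j, j < 2 * n → D j = τ.C j := fun j hj => if_pos hj
    have hD1 : D (2 * n) = C2 := by simp [D]
    have hD2 : D (2 * n + 1) = CU := by simp [D]
    have hD3 : ∀ j, 2 * n + 1 < j → D j = R' := fun j hj => by
      simp only [D]
      rw [if_neg (by omega), if_neg (by omega), if_neg (by omega)]
    have hcases : ∀ j, j < 2 * n ∨ j = 2 * n ∨ j = 2 * n + 1 ∨ 2 * n + 1 < j := by omega
    have hMn : M (2 * n) = R2 := by rw [hM0 _ (by omega), hτ1]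
    have hM'n : M' (2 * n) = R2' := by rw [hM'0 _ (by omega), hτ2]
    refine ⟨{
      M := M
      M' := M'
      C := D
      nM := ?_
      nM' := ?_
      nC := ?_
      le := ?_
      succ_le := ?_
      mem_C := ?_
      C_le := ?_
      ne := ?_
      ab := ?_
      tyY := ?_
      tyT := ?_
      act := ?_
      frat := ?_
      cen := ?_
      gen := ?_
      copC := ?_ }, hM2 _ (by omega), hM'2 _ (by omega)⟩
    · intro j
      rcases hcases j with h | rfl | rfl | h
      · rw [hM0 j (by omega)]; exact τ.nM j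
      · rw [hMn]; exact hcrit2.nR
      · rw [hM1]; exact hU
      · rw [hM2 j h]; exact hcr.nR
    · intro j
      rcases hcases j with h | rfl | rfl | h
      · rw [hM'0 j (by omega)]; exact τ.nM' j
      · rw [hM'n]; exact h2n
      · rw [hM'1]; exact hU'
      · rw [hM'2 j h]; exact hn
    · intro j
      rcases hcases j with h | rfl | rfl | h
      · rw [hD0 j h]; exact τ.nC j
      · rw [hD1]; exact hcrit2.nC
      · rw [hD2]; exact hCU
      · rw [hD3 j h]; exact hn
    · intro j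
      rcases hcases j with h | rfl | rfl | h
      · rw [hM'0 j (by omega), hM0 j (by omega)]; exact τ.le j
      · rw [hM'n, hMn]; exact h2le
      · rw [hM'1, hM1]; exact hU'U
      · rw [hM'2 j h, hM2 j h]; exact hle
    · intro j hj
      rcases hcases j with h | rfl | rfl | h
      · rw [hM'0 j (by omega), hM0 (j + 1) (by omega)]; exact τ.succ_le j h
      · rw [hM'n, hM1]; exact hUC2.trans h2C
      · rw [hM'1, hM2 _ (by omega)]; exact hRCU.trans hCUU'
      · omega
    · intro j hj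
      rcases hcases j with h | rfl | rfl | h
      · rw [hD0 j h, hM0 j (by omega), hM0 (j + 1) (by omega), hM'0 (j + 1) (by omega)]
        exact τ.mem_C j h
      · rw [hD1, hMn, hM1, hM'1]
        intro x
        exact ⟨fun hx => ⟨hcrit2.le hx, (hmemC2 x).1 hx⟩, fun hx => (hmemC2 x).2 hx.2⟩
      · rw [hD2, hM1, hM2 _ (by omega), hM'2 _ (by omega)]
        exact hmemCU
      · omega
    · intro j hj
      rcases hcases j with h | rfl | rfl | h
      · rw [hD0 j h, hM'0 j (by omega)]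
        exact τ.C_le j h
      · rw [hD1, hM'n]
        exact h2C
      · rw [hD2, hM'1]
        exact hCUU'
      · omega
    · intro j hj
      rcases hcases j with h | rfl | rfl | h
      · rw [hM'0 j (by omega), hM0 j (by omega)]; exact τ.ne j (by omega)
      · rw [hM'n, hMn]; exact h2ne
      · rw [hM'1, hM1]; exact hU'ne
      · rw [hM'2 j h, hM2 j h]; exact hne
    · intro j hj
      rcases hcases j with h | rfl | rfl | h
      · rw [hM'0 j (by omega), hM0 j (by omega)]; exact τ.ab j (by omega)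
      · rw [hM'n, hMn]; exact h2com
      · rw [hM'1, hM1]; exact habU
      · rw [hM'2 j h, hM2 j h]; exact hcom
    · intro j hj he
      rcases hcases j with h | rfl | rfl | h
      · rw [hM'0 j (by omega), hM0 j (by omega)]; exact τ.tyY j (by omega) he
      · rw [hM'n, hMn]; exact h2pow
      · exfalso
        rw [Nat.even_iff] at he
        omega
      · rw [hM'2 j h, hM2 j h]; exact hpow
    · intro j hj ho
      rcases hcases j with h | rfl | rfl | h
      · rw [hM'0 j (by omega), hM0 j (by omega)]; exact τ.tyT j (by omega) ho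
      · exfalso
        rw [Nat.odd_iff] at ho
        omega
      · rw [hM'1, hM1]
        exact Nat.Coprime.coprime_dvd_left (Subgroup.relIndex_dvd_of_le_left U hCUU') hcopCU
      · exfalso
        rw [Nat.odd_iff] at ho
        omega
    · intro j hj
      rcases hcases j with h | rfl | rfl | h
      · rw [hM'0 (j + 1) (by omega), hM0 (j + 1) (by omega), hM0 j (by omega)]
        exact τ.act j h
      · rw [hM'1, hM1, hMn]; exact hactU
      · rw [hM'2 _ (by omega), hM2 _ (by omega), hM1]; exact hactR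
      · omega
    · intro j hj
      rcases hcases j with h | rfl | rfl | h
      · rw [hM'0 j (by omega), hM0 j (by omega), hD0 j h]
        exact τ.frat j h
      · rw [hM'n, hMn, hD1]; exact h2fr
      · rw [hM'1, hM1, hD2]; exact hfratU
      · omega
    · intro j hj ho
      rcases hcases j with h | rfl | rfl | h
      · rw [hM'0 j (by omega), hM0 j (by omega), hD0 j h]
        exact τ.cen j h ho
      · exfalso
        rw [Nat.odd_iff] at ho
        omega
      · rw [hM'1, hM1, hD2]; exact hcenU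
      · omega
    · intro j hj ho
      rcases hcases j with h | rfl | rfl | h
      · rw [hM'0 j (by omega), hM0 j (by omega), hD0 j h]
        exact τ.gen j h ho
      · exfalso
        rw [Nat.odd_iff] at ho
        omega
      · rw [hM'1, hM1, hD2]; exact hgenU
      · omega
    · intro j hj ho
      rcases hcases j with h | rfl | rfl | h
      · rw [hM0 j (by omega), hD0 j h]
        exact τ.copC j h ho
      · exfalso
        rw [Nat.odd_iff] at ho
        omega
      · rw [hM1, hD2]; exact hcopCU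
      · omega

theorem partA {p : ℕ} (hp : p.Prime) (G : Type) [Group G] [Finite G] (n : ℕ)
    (hsol : ∃ m, PL p m (⊥ : Subgroup G)) (hnot : ¬ PL p n (⊥ : Subgroup G))
    (hsub : ∀ H : Subgroup G, H ≠ ⊤ → PL p n (⊥ : Subgroup H))
    (hquo : ∀ K : Subgroup G, K.Normal → K ≠ ⊥ → PL p n K) :
    Nonempty (Tower p G (2 * n)) := by
  obtain ⟨D, hD⟩ := partA_crit hp n hsol hnot hsub hquo
  have hne : (⊥ : Subgroup G) ≠ D := fun h => hD.not (h ▸ hD.pl)
  obtain ⟨R', hn, hle, hC, hne', hpow, hcom, hfr⟩ :=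
    partA_frat hp hD.nC hD.nR hD.le hne hD.pgr
  obtain ⟨τ, -, -⟩ := partA_tower hp n ⊥ D hD R' hn hle hC hne' hpow hcom hfr
  exact ⟨τ⟩

end Pool.Agent.PLen
end
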